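import Pool.Agent.H24.EL.Gvh
import Pool.Agent.H24.TL.Cnt

/-!
# [H24 EL CNH] both signs for many `n`, every length in `[X^(2/5), X^(7/12-ε)]`

PROOF. As `cnt` in `H24/TL/Cnt`, with `gvh` (`ρ = 1/6 - e`), `sgh`.
-/

set_option autoImplicit false

namespace Pool.Agent.H24.EL

open Finset Pool.Agent.H67.VS Pool.Agent.H99.GB Pool.Agent.H48.WN Pool.Agent.H24.TL Filter

/-- the size of the constants and logarithms -/
private theorem cnt_ev (C d : ℝ) (hd : 0 < d) : ∀ᶠ X : ℕ in atTop, C ≤ (X : ℝ) ^ d ∧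
    Real.log X ≤ (X : ℝ) ^ d ∧ Lw X ≤ (X : ℝ) ^ d ∧ 10 ≤ Lw X ∧ 100 * Lw X ≤ X := by
  have hcast : Tendsto (fun X : ℕ => (X : ℝ)) atTop atTop := tendsto_natCast_atTop_atTop
  have h1 : ∀ᶠ X : ℕ in atTop, C ≤ (X : ℝ) ^ d := ((tendsto_rpow_atTop hd).comp hcast).eventually_ge_atTop C
  have h2 : ∀ᶠ y : ℝ in atTop, ‖Real.log y‖ ≤ (1 : ℝ) * ‖y ^ d‖ := (isLittleO_log_rpow_atTop hd).bound (by norm_num)
  have h3 := hcast.eventually h2
  have h4 := hcast.eventually (lw_small d hd)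
  obtain ⟨x0, hx0⟩ := lw_ev
  have h5 := hcast.eventually_ge_atTop x0
  filter_upwards [h1, h3, h4, h5] with X a1 a2 a3 a4
  obtain ⟨b1, b2⟩ := hx0 X a4
  refine ⟨a1, ?_, a3, b1, b2⟩
  rw [one_mul, Real.norm_of_nonneg (by positivity : (0 : ℝ) ≤ (X : ℝ) ^ d)] at a2
  exact (Real.le_norm_self _).trans a2

theorem cnh (ε : ℝ) (hε : 0 < ε) : ∃ X0 : ℕ, ∀ X : ℕ, X0 ≤ X → ∀ H : ℕ,
    (X : ℝ) ^ (2 / 5 : ℝ) ≤ H → (H : ℝ) ≤ (X : ℝ) ^ (7 / 12 - ε) → ∀ s : ℝ, s = 1 ∨ s = -1 →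
      (X : ℝ) ^ (7 / 6 - ε) / (H : ℝ) ^ 2 ≤ ((((Ioc ⌊X / Lw X⌋₊ ⌈Lw X * X⌉₊).filter fun n =>
        (X : ℝ) ^ (1 / 12 - ε) ≤ s * EI n H).card : ℕ) : ℝ) := by
  obtain ⟨C, x1, hC0, hsgn⟩ := sgh
  -- `e` small
  obtain ⟨e, he0, he1, he2⟩ : ∃ e : ℝ, 0 < e ∧ 20 * e ≤ ε ∧ 1000 * e ≤ 1 :=
    ⟨min (ε / 20) (1 / 1000), lt_min (by linarith) (by norm_num), by
      have := min_le_left (ε / 20) (1 / 1000 : ℝ)
      linarith, by
      have := min_le_right (ε / 20) (1 / 1000 : ℝ)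
      linarith⟩
  obtain ⟨X1, hct⟩ := gvh (1 / 6 - e) e (by linarith) (by linarith) he0
  obtain ⟨d, hd0, hd1⟩ : ∃ d : ℝ, 0 < d ∧ 16 * d ≤ e := ⟨e / 16, by linarith, by linarith⟩
  obtain ⟨X2, hX2⟩ := (cnt_ev (100 * (C + 1) + 10 + |x1|) d hd0).exists_forall_of_atTop
  refine ⟨max X1 (max X2 3), fun X hX H hHl hHu s hs => ?_⟩
  have hXX1 : X1 ≤ X := (le_max_left _ _).trans hX
  have hXX2 : X2 ≤ X := (le_max_left _ _).trans ((le_max_right _ _).trans hX)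
  have hX3 : 3 ≤ X := (le_max_right _ _).trans ((le_max_right _ _).trans hX)
  obtain ⟨k1, k2, k3, k4, k5⟩ := hX2 X hXX2
  obtain ⟨x, hx⟩ : ∃ x : ℝ, x = (X : ℝ) := ⟨_, rfl⟩
  obtain ⟨K, hK⟩ : ∃ K : ℝ, K = (X : ℝ) ^ d := ⟨_, rfl⟩
  rw [← hK] at k1 k2 k3
  have hx1a := le_abs_self x1
  have hx1b := abs_nonneg x1
  have hx3 : (3 : ℝ) ≤ x := by rw [hx]; exact_mod_cast hX3
  have hx1 : (1 : ℝ) ≤ x := by linarith
  have hx0 : (0 : ℝ) < x := by linarith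
  have hKe : ∀ n : ℕ, K ^ n = x ^ (n * d) := by
    intro n
    rw [hK, ← Real.rpow_natCast, ← Real.rpow_mul (by rw [← hx]; exact hx0.le), ← hx, mul_comm]
  have hK1' : K = x ^ d := by rw [hK, hx]
  have hKx : K ≤ x := by
    rw [hK1']
    calc x ^ d ≤ x ^ (1 : ℝ) := Real.rpow_le_rpow_of_exponent_le hx1 (by linarith)
      _ = x := Real.rpow_one x
  have hK10 : 10 ≤ K := by linarith
  have hK0 : 0 < K := by linarith
  have hx1X : x1 ≤ (X : ℝ) := by rw [← hx]; linarith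
  have hle : ∀ a b : ℝ, a ≤ b → x ^ a ≤ x ^ b := fun a b h => Real.rpow_le_rpow_of_exponent_le hx1 h
  rw [← hx] at hHl hHu k5 ⊢
  obtain ⟨κ, hκ⟩ : ∃ κ : ℝ, κ = x ^ (1 / 12 - 3 * e) := ⟨_, rfl⟩
  have hκ0 : 0 < κ := by rw [hκ]; positivity
  obtain ⟨W, hW⟩ : ∃ W : Finset ℕ, W = Ioc ⌊x / Lw x⌋₊ ⌈Lw x * x⌉₊ := ⟨_, rfl⟩
  rw [← hx] at k2 k3 k4
  rw [← hW]
  obtain ⟨Cs, hCs⟩ : ∃ Cs : Finset ℕ, Cs = W.filter fun n => κ ≤ s * EI n H := ⟨_, rfl⟩
  have hsub : Cs ⊆ W.filter fun n => x ^ (1 / 12 - ε) ≤ s * EI n H := by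
    intro n hn
    rw [hCs, mem_filter] at hn
    rw [mem_filter]
    exact ⟨hn.1, (hle (1 / 12 - ε) (1 / 12 - 3 * e) (by linarith)).trans (by rw [hκ] at hn; exact hn.2)⟩
  have hcard : (Cs.card : ℝ) ≤ (((W.filter fun n => x ^ (1 / 12 - ε) ≤ s * EI n H).card : ℕ) : ℝ) := by
    exact_mod_cast card_le_card hsub
  refine le_trans ?_ hcard
  -- the length
  have hH1r : (1 : ℝ) ≤ H := by
    refine le_trans ?_ hHl
    exact Real.one_le_rpow hx1 (by norm_num)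
  have hH0 : (0 : ℝ) < H := by linarith
  have hH1 : 1 ≤ H := by exact_mod_cast hH1r
  have hH35 : (H : ℝ) ≤ (X : ℝ) ^ (3 / 5 : ℝ) := by
    rw [← hx]
    exact hHu.trans (hle _ _ (by linarith))
  have hH23 : (H : ℝ) ≤ (X : ℝ) ^ (2 / 3 : ℝ) := by
    rw [← hx]
    exact hHu.trans (hle _ _ (by linarith))
  refine (div_le_div_of_nonneg_right (hle (7 / 6 - ε) (7 / 6 - 6 * e) (by linarith)) (by positivity)).trans ?_
  by_contra hcon
  rw [not_le] at hcon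
  -- the range
  have hL0 : 0 < Lw x := by linarith
  have hWX : Ioc X (2 * X) ⊆ W := by
    rw [hW]
    refine Ioc_subset_Ioc ?_ ?_
    · rw [← Nat.cast_le (α := ℝ)]
      refine (Nat.floor_le (by positivity)).trans ?_
      rw [← hx, div_le_iff₀ hL0]
      nlinarith
    · rw [← Nat.cast_le (α := ℝ)]
      refine le_trans ?_ (Nat.le_ceil _)
      push_cast
      rw [← hx]
      nlinarith
  have hW3 : ∀ n ∈ W, 3 ≤ n := by
    intro n hn
    rw [hW, mem_Ioc] at hn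
    have e1 : 3 ≤ ⌊x / Lw x⌋₊ := by
      refine Nat.le_floor ?_
      rw [le_div_iff₀ hL0]
      push_cast
      linarith
    omega
  have hWc : (W.card : ℝ) ≤ 2 * K * x := by
    rw [hW, Nat.card_Ioc]
    have e1 : ((⌈Lw x * x⌉₊ - ⌊x / Lw x⌋₊ : ℕ) : ℝ) ≤ (⌈Lw x * x⌉₊ : ℝ) := by exact_mod_cast Nat.sub_le _ _
    have e2 := Nat.ceil_lt_add_one (by positivity : 0 ≤ Lw x * x)
    have e3 : Lw x * x ≤ K * x := mul_le_mul_of_nonneg_right k3 hx0.le
    have e4 : 1 ≤ K * x := by nlinarith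
    linarith
  -- the two inequalities
  have hs' : -s = 1 ∨ -s = -1 := by rcases hs with h | h <;> simp [h]
  have hExC : ((((Ioc X (2 * X)).filter fun n => -s * EI n H < -κ).card : ℕ) : ℝ) ≤ (Cs.card : ℝ) := by
    have : ((Ioc X (2 * X)).filter fun n => -s * EI n H < -κ) ⊆ Cs := by
      intro n hn
      rw [mem_filter] at hn
      rw [hCs, mem_filter]
      refine ⟨hWX hn.1, ?_⟩
      have h := hn.2
      have e1 : -s * EI n H = -(s * EI n H) := by ring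
      rw [e1] at h
      linarith
    exact_mod_cast card_le_card this
  have g1 := hct X hXX1 H (by rw [← hx]; exact hHl) hH23 (-s) κ hs' hκ0.le (by
      rw [← hx]
      refine hExC.trans (hcon.le.trans (div_le_div_of_nonneg_right (hle _ _ (by linarith)) (by positivity))))
  have g2 := hsgn X H s hx1X hH1 hH35 hs
  rw [← hx] at g1 g2
  rw [← hW] at g2
  have hP : ∑ n ∈ W, max (s * EI n H) 0 ≤ 2 * K * x * κ + (Cs.card : ℝ) * H := by
    have e1 : ∀ n ∈ W, max (s * EI n H) 0 ≤ κ + (if n ∈ Cs then (H : ℝ) else 0) := by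
      intro n hn
      have e2 := ei_le n H (hW3 n hn)
      have e3 : s * EI n H ≤ H := by
        have := abs_le.mp e2
        rcases hs with h | h <;> rw [h] <;> linarith [this.1, this.2]
      split_ifs with hc
      · exact max_le (by linarith) (by positivity)
      · refine max_le ?_ (by linarith)
        by_contra hcc
        apply hc
        rw [hCs, mem_filter]
        exact ⟨hn, by linarith⟩
    refine (sum_le_sum e1).trans ?_
    rw [sum_add_distrib, sum_const, nsmul_eq_mul, ← sum_filter, filter_mem_eq_inter, sum_const, nsmul_eq_mul]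
    have e2 : (W ∩ Cs).card ≤ Cs.card := card_le_card inter_subset_right
    have e3 : ((W ∩ Cs).card : ℝ) * H ≤ (Cs.card : ℝ) * H :=
      mul_le_mul_of_nonneg_right (by exact_mod_cast e2) (by linarith)
    have e4 : (W.card : ℝ) * κ ≤ 2 * K * x * κ := mul_le_mul_of_nonneg_right hWc hκ0.le
    linarith
  obtain ⟨Z, hZ⟩ : ∃ Z : ℝ, Z = x ^ (13 / 12 - 3 * e + d) := ⟨_, rfl⟩
  have hZ0 : 0 < Z := by rw [hZ]; positivity
  have q1 : K * x * κ = Z := by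
    rw [hK1', hκ, hZ]
    nth_rewrite 2 [← Real.rpow_one x]
    rw [← Real.rpow_add hx0, ← Real.rpow_add hx0]
    congr 1
    ring
  have q2 : (Cs.card : ℝ) * H ≤ Z := by
    have e1 : (Cs.card : ℝ) * H ≤ x ^ (7 / 6 - 6 * e) / (H : ℝ) ^ 2 * H := mul_le_mul_of_nonneg_right hcon.le hH0.le
    have e2 : x ^ (7 / 6 - 6 * e) / (H : ℝ) ^ 2 * H = x ^ (7 / 6 - 6 * e) / H := by
      field_simp
    have e3 : x ^ (7 / 6 - 6 * e) / H ≤ x ^ (7 / 6 - 6 * e) / x ^ (2 / 5 : ℝ) :=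
      div_le_div_of_nonneg_left (by positivity) (by positivity) hHl
    rw [e2] at e1
    rw [← Real.rpow_sub hx0] at e3
    refine e1.trans (e3.trans ?_)
    rw [hZ]
    exact hle _ _ (by linarith)
  have q3 : (H : ℝ) * √x ≤ Z := by
    calc (H : ℝ) * √x ≤ x ^ (7 / 12 - ε) * x ^ (1 / 2 : ℝ) := by
          rw [Real.sqrt_eq_rpow]
          exact mul_le_mul_of_nonneg_right hHu (by positivity)
      _ = x ^ (7 / 12 - ε + 1 / 2) := (Real.rpow_add hx0 _ _).symm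
      _ ≤ Z := by rw [hZ]; exact hle _ _ (by linarith)
  have q4 : x ≤ Z := by
    calc x = x ^ (1 : ℝ) := (Real.rpow_one x).symm
      _ ≤ Z := by rw [hZ]; exact hle _ _ (by linarith)
  have q5 : κ * x ≤ Z := by
    have : κ * x * 1 ≤ κ * x * K := mul_le_mul_of_nonneg_left (by linarith) (by positivity)
    have e1 : κ * x * K = K * x * κ := by ring
    linarith
  have hl5 : Real.log x ^ 5 ≤ K ^ 5 := pow_le_pow_left₀ (Real.log_nonneg hx1) k2 5
  have hK5 : 1 ≤ K ^ 5 := one_le_pow₀ (by linarith)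
  have q6 : C * Real.log x ^ 5 * (∑ n ∈ W, max (s * EI n H) 0 + H * √x + x) ≤ C * K ^ 5 * (5 * Z) := by
    have e1 : 0 ≤ ∑ n ∈ W, max (s * EI n H) 0 := sum_nonneg fun n _ => le_max_right _ _
    have e2 : ∑ n ∈ W, max (s * EI n H) 0 + H * √x + x ≤ 5 * Z := by
      have e3 : 2 * K * x * κ = 2 * (K * x * κ) := by ring
      linarith
    have e3 : 0 ≤ ∑ n ∈ W, max (s * EI n H) 0 + H * √x + x := by positivity
    exact mul_le_mul (mul_le_mul_of_nonneg_left hl5 hC0.le) e2 e3 (by positivity)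
  have q7 : x ^ (1 + (1 / 6 - e) / 2 - e) ≤ (5 * C + 1) * K ^ 5 * Z := by
    have e1 : Z ≤ K ^ 5 * Z := le_mul_of_one_le_left hZ0.le hK5
    have e2 : C * K ^ 5 * (5 * Z) = 5 * C * (K ^ 5 * Z) := by ring
    have e3 : (5 * C + 1) * K ^ 5 * Z = 5 * C * (K ^ 5 * Z) + K ^ 5 * Z := by ring
    linarith
  have q8 : (5 * C + 1) * K ^ 5 * Z < K * K ^ 5 * Z := by
    have : 5 * C + 1 < K := by linarith
    have h5 : 0 < K ^ 5 * Z := by positivity
    have := mul_lt_mul_of_pos_right this h5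
    linarith
  have q9 : K * K ^ 5 * Z ≤ x ^ (1 + (1 / 6 - e) / 2 - e) := by
    have e1 : K * K ^ 5 * Z = K ^ 6 * Z := by ring
    rw [e1, hKe, hZ, ← Real.rpow_add hx0]
    refine hle _ _ ?_
    push_cast
    linarith
  linarith

end Pool.Agent.H24.EL
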