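import Pool.Agent.H24.EL.Defs
import Pool.Agent.H99.EL.Gs
import Pool.Agent.H99.EL.Ge

/-!
# [H24 EL CV3] the covariance with `ph H q * ph H r`, every `H`

PROOF. `fex_exp` for `q` and `r`; `α = a/q + a'/r`, `nd α ≥ 1/(q r)`. `∑_{x ∈ (X,2X]} e(α x) EV v x H = ∑_m v(m) (pl m - 1) ∑_{x ∈ (X,2X], m-H ≤ x < m} e(α x)`; every sum of
`e(α x)` over an interval of `x` is at most `1/(2 nd α)`. For `X+H < m ≤ 2X+1` the inner sum is `e(α m) D`, `D = ∑_{j=1}^H e(-α j)`; the other `m` (at most `2H`,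
`|pl m - 1| ≤ log(3X)`) cost at most `3 H Lg/(nd α)` in all. `S(α) = ∑_{m ∈ (X,2X]} v(m) (pl m - 1) e(α m)`: the part with `1` is at most `1/(2 nd α) ≤ q r` (`v` antitone); the
primes `m > X` are prime to `q r`: `e(a m/q) = (q-1)⁻¹ ∑_χ τ(conj χ) χ(a m)`, absolute value of the Gauss sum `1` for `χ = 1`, `√q` else; `∑ v pl ≤ X Lg`.
-/

set_option autoImplicit false

namespace Pool.Agent.H24.EL

open Finset Pool.Agent.H67.VS Pool.Agent.H99.GB Pool.Agent.H24.AB Pool.Agent.H99.EL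

/-- a full window -/
private lemma cv3_full (α : ℝ) (m H : ℕ) (h : H ≤ m) : ∑ x ∈ Ico (m - H) m, ee ((x : ℝ) * α) =
    ee ((m : ℝ) * α) * (ee (-(H : ℝ) * α) * ∑ i ∈ Ico 0 H, ee ((i : ℝ) * α)) := by
  rw [Finset.sum_Ico_eq_sum_range, Nat.sub_sub_self h, ← Finset.range_eq_Ico, ← mul_assoc, ← Pool.Agent.H24.AB.ee_add, Finset.mul_sum]
  refine Finset.sum_congr rfl fun i _ => ?_
  rw [← Pool.Agent.H24.AB.ee_add]
  congr 1
  rw [Nat.cast_add, Nat.cast_sub h]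
  ring

/-- the window sum against an exponential -/
private lemma cv3_win (c : ℕ → ℝ) (X H : ℕ) (hH : 1 ≤ H) (hHX : H ≤ X) (α K L : ℝ) (hK0 : 0 ≤ K) (hL0 : 0 ≤ L)
    (hK : ∀ A B : ℕ, ‖∑ x ∈ Ico A B, ee ((x : ℝ) * α)‖ ≤ K) (hc : ∀ m ∈ Ioc X (2 * X + H), |c m| ≤ L) :
    ‖∑ x ∈ Ioc X (2 * X), ee ((x : ℝ) * α) * ((∑ m ∈ Ioc x (x + H), c m : ℝ) : ℂ)‖ ≤
      K * ‖∑ m ∈ Ioc X (2 * X), ((c m : ℝ) : ℂ) * ee ((m : ℝ) * α)‖ + 3 * K * H * L := by
  classical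
  set W : ℕ → ℂ := fun m => ∑ x ∈ Ico (max (X + 1) (m - H)) (min (2 * X + 1) m), ee ((x : ℝ) * α) with hW
  set D : ℂ := ee (-(H : ℝ) * α) * ∑ i ∈ Ico 0 H, ee ((i : ℝ) * α) with hD
  have hDn : ‖D‖ ≤ K := by
    rw [hD, norm_mul, norm_ee, one_mul]
    exact hK 0 H
  have hWn : ∀ m, ‖W m‖ ≤ K := fun m => hK _ _
  have e1 : ∑ x ∈ Ioc X (2 * X), ee ((x : ℝ) * α) * ((∑ m ∈ Ioc x (x + H), c m : ℝ) : ℂ) =
      ∑ m ∈ Ioc X (2 * X + H), ((c m : ℝ) : ℂ) * W m := by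
    have e2 : ∀ x ∈ Ioc X (2 * X), ee ((x : ℝ) * α) * ((∑ m ∈ Ioc x (x + H), c m : ℝ) : ℂ) =
        ∑ m ∈ Ioc x (x + H), ((c m : ℝ) : ℂ) * ee ((x : ℝ) * α) := by
      intro x _
      rw [Complex.ofReal_sum, Finset.mul_sum]
      exact Finset.sum_congr rfl fun m _ => mul_comm _ _
    rw [Finset.sum_congr rfl e2]
    rw [Finset.sum_comm' (s' := fun m => Ico (max (X + 1) (m - H)) (min (2 * X + 1) m)) (t' := Ioc X (2 * X + H))]
    · refine Finset.sum_congr rfl fun m _ => ?_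
      rw [hW, Finset.mul_sum]
    · intro x m
      simp only [mem_Ioc, mem_Ico]
      omega
  have e3 : ∑ m ∈ Ioc X (2 * X + H), ((c m : ℝ) : ℂ) * W m =
      D * ∑ m ∈ Ioc X (2 * X), ((c m : ℝ) : ℂ) * ee ((m : ℝ) * α) +
      ∑ m ∈ Ioc X (2 * X + H), ((c m : ℝ) : ℂ) * (W m - if m ≤ 2 * X then ee ((m : ℝ) * α) * D else 0) := by
    have e4 : D * ∑ m ∈ Ioc X (2 * X), ((c m : ℝ) : ℂ) * ee ((m : ℝ) * α) =
        ∑ m ∈ Ioc X (2 * X + H), ((c m : ℝ) : ℂ) * (if m ≤ 2 * X then ee ((m : ℝ) * α) * D else 0) := by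
      have e5 : Ioc X (2 * X) = (Ioc X (2 * X + H)).filter (fun m => m ≤ 2 * X) := by
        ext m
        simp only [mem_filter, mem_Ioc]
        omega
      rw [e5, Finset.sum_filter, Finset.mul_sum]
      refine Finset.sum_congr rfl fun m _ => ?_
      split_ifs
      · ring
      · simp
    rw [e4, ← Finset.sum_add_distrib]
    refine Finset.sum_congr rfl fun m _ => ?_
    ring
  have hb : ∀ m ∈ Ioc X (2 * X + H), ‖((c m : ℝ) : ℂ) * (W m - if m ≤ 2 * X then ee ((m : ℝ) * α) * D else 0)‖ ≤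
      (if m ≤ X + H then 2 * K * L else 0) + (if 2 * X < m then K * L else 0) := by
    intro m hm
    have hcm := hc m hm
    rw [norm_mul, Complex.norm_real, Real.norm_eq_abs]
    rw [mem_Ioc] at hm
    have hKL : 0 ≤ K * L := mul_nonneg hK0 hL0
    rcases Nat.lt_or_ge (X + H) m with h1 | h1
    · rw [if_neg (by omega : ¬ m ≤ X + H)]
      rcases Nat.lt_or_ge (2 * X) m with h2 | h2
      · rw [if_neg (by omega : ¬ m ≤ 2 * X), if_pos h2, sub_zero, zero_add]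
        calc |c m| * ‖W m‖ ≤ L * K := mul_le_mul hcm (hWn m) (norm_nonneg _) hL0
          _ = K * L := mul_comm _ _
      · rw [if_pos h2, if_neg (by omega : ¬ 2 * X < m)]
        have e6 : W m = ee ((m : ℝ) * α) * D := by
          rw [hD, ← cv3_full α m H (by omega)]
          simp only [hW]
          rw [show max (X + 1) (m - H) = m - H by omega, show min (2 * X + 1) m = m by omega]
        rw [e6, sub_self, norm_zero, mul_zero, add_zero]
    · rw [if_pos h1, if_pos (by omega : m ≤ 2 * X), if_neg (by omega : ¬ 2 * X < m), add_zero]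
      have h3 : ‖W m - ee ((m : ℝ) * α) * D‖ ≤ 2 * K := by
        refine (norm_sub_le _ _).trans ?_
        rw [norm_mul, norm_ee, one_mul]
        linarith [hWn m]
      calc |c m| * ‖W m - ee ((m : ℝ) * α) * D‖ ≤ L * (2 * K) := mul_le_mul hcm h3 (norm_nonneg _) hL0
        _ = 2 * K * L := by ring
  have hsum : ‖∑ m ∈ Ioc X (2 * X + H), ((c m : ℝ) : ℂ) * (W m - if m ≤ 2 * X then ee ((m : ℝ) * α) * D else 0)‖ ≤
      3 * K * H * L := by
    refine (norm_sum_le _ _).trans ((Finset.sum_le_sum hb).trans ?_)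
    rw [Finset.sum_add_distrib, ← Finset.sum_filter, ← Finset.sum_filter, Finset.sum_const, Finset.sum_const]
    have c1 : ((Ioc X (2 * X + H)).filter (fun m => m ≤ X + H)).card = H := by
      have : (Ioc X (2 * X + H)).filter (fun m => m ≤ X + H) = Ioc X (X + H) := by
        ext m
        simp only [mem_filter, mem_Ioc]
        omega
      rw [this, Nat.card_Ioc]
      omega
    have c2 : ((Ioc X (2 * X + H)).filter (fun m => 2 * X < m)).card = H := by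
      have : (Ioc X (2 * X + H)).filter (fun m => 2 * X < m) = Ioc (2 * X) (2 * X + H) := by
        ext m
        simp only [mem_filter, mem_Ioc]
        omega
      rw [this, Nat.card_Ioc]
      omega
    rw [c1, c2, nsmul_eq_mul, nsmul_eq_mul]
    linarith
  rw [e1, e3]
  refine (norm_add_le _ _).trans (add_le_add ?_ hsum)
  rw [norm_mul]
  exact mul_le_mul_of_nonneg_right hDn (norm_nonneg _)

/-- distance of `a/q + b/r` to the integers -/
private lemma cv3_nd (q r a b : ℕ) (hq : q.Prime) (hr : r.Prime) (hqr : q ≠ r) (ha : a ∈ Ico 1 q) :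
    1 / ((q : ℝ) * r) ≤ nd ((a : ℝ) / q + (b : ℝ) / r) := by
  have hq0 : (0 : ℝ) < q := by exact_mod_cast hq.pos
  have hr0 : (0 : ℝ) < r := by exact_mod_cast hr.pos
  unfold nd
  set k : ℤ := round ((a : ℝ) / q + (b : ℝ) / r) with hk
  have h1 : (a : ℝ) / q + (b : ℝ) / r - k = (((a : ℤ) * r + b * q - k * q * r : ℤ) : ℝ) / (q * r) := by
    push_cast
    field_simp
  have h2 : ((a : ℤ) * r + b * q - k * q * r : ℤ) ≠ 0 := by
    intro h
    have h3 : (q : ℤ) ∣ (a : ℤ) * r := ⟨k * r - b, by linear_combination h⟩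
    have h4 : q ∣ a * r := by exact_mod_cast h3
    rcases hq.dvd_mul.1 h4 with h5 | h5
    · rw [mem_Ico] at ha
      exact absurd (Nat.le_of_dvd (by omega) h5) (by omega)
    · exact hqr ((Nat.prime_dvd_prime_iff_eq hq hr).1 h5)
  have h3 : (1 : ℝ) ≤ |(((a : ℤ) * r + b * q - k * q * r : ℤ) : ℝ)| := by
    rw [← Int.cast_abs]
    exact_mod_cast Int.one_le_abs h2
  rw [h1, abs_div, abs_of_pos (mul_pos hq0 hr0)]
  exact div_le_div_of_nonneg_right h3 (mul_pos hq0 hr0).le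

private lemma cv3_pl (m : ℕ) (X : ℕ) (hX : 1 ≤ X) (h : m ≤ 3 * X) : |pl m - 1| ≤ Real.log (3 * X) := by
  have hX' : (1 : ℝ) ≤ X := by exact_mod_cast hX
  have h3 : (1 : ℝ) ≤ Real.log (3 * X) := by
    rw [Real.le_log_iff_exp_le (by positivity)]
    have := Real.exp_one_lt_d9
    linarith
  unfold pl
  split_ifs with hp
  · have h1 : 0 ≤ Real.log (m : ℝ) := Real.log_natCast_nonneg m
    have h2 : Real.log (m : ℝ) ≤ Real.log (3 * X) := by
      refine Real.log_le_log (by exact_mod_cast hp.pos) ?_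
      exact_mod_cast h
    rw [abs_le]
    constructor <;> linarith
  · rw [zero_sub, abs_neg, abs_one]
    exact h3

private lemma cv3_SC (v : ℕ → ℝ) (X q : ℕ) (F : Finset (DirichletCharacter ℂ q)) (hF : ∀ χ, χ ∈ F ↔ χ ≠ 1) :
    ∑ χ ∈ F, ‖∑ n ∈ Ioc X (2 * X), ((v n * pl n : ℝ) : ℂ) * χ (n : ZMod q)‖ = SCv v X q := by
  classical
  unfold SCv ThC
  refine Finset.sum_congr ?_ (fun _ _ => rfl)
  ext χ
  simp [hF]

private lemma cv3_SD (v : ℕ → ℝ) (X q r : ℕ) (F : Finset (DirichletCharacter ℂ q)) (hF : ∀ χ, χ ∈ F ↔ χ ≠ 1)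
    (F' : Finset (DirichletCharacter ℂ r)) (hF' : ∀ χ, χ ∈ F' ↔ χ ≠ 1) :
    ∑ χ ∈ F, ∑ ψ ∈ F', ‖∑ n ∈ Ioc X (2 * X), ((v n * pl n : ℝ) : ℂ) * (χ (n : ZMod q) * ψ (n : ZMod r))‖ =
      SDv v X q r := by
  classical
  unfold SDv
  refine Finset.sum_congr ?_ (fun χ _ => Finset.sum_congr ?_ (fun _ _ => rfl))
  · ext χ
    simp [hF]
  · ext ψ
    simp [hF']

private lemma cv3_cop (X q n : ℕ) (hq : q.Prime) (hqX : q ≤ X) (v : ℕ → ℝ) (hn : n ∈ Ioc X (2 * X))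
    (h0 : ((v n * pl n : ℝ) : ℂ) ≠ 0) : (n : ZMod q) ≠ 0 := by
  intro h
  rw [mem_Ioc] at hn
  have hp : n.Prime := by
    by_contra hnp
    apply h0
    unfold pl
    rw [if_neg hnp, mul_zero, Complex.ofReal_zero]
  rw [ZMod.natCast_eq_zero_iff] at h
  have := (Nat.prime_dvd_prime_iff_eq hq hp).1 h
  omega

private lemma cv3_unit (q a : ℕ) (ha : a ∈ Ico 1 q) : (a : ZMod q) ≠ 0 := by
  rw [mem_Ico] at ha
  intro h
  rw [ZMod.natCast_eq_zero_iff] at h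
  exact absurd (Nat.le_of_dvd (by omega) h) (by omega)

/-- the sum over primes -/
private lemma cv3_S (v : ℕ → ℝ) (hv : Wv v) (X q r a b : ℕ) (hq : q.Prime) (hr : r.Prime) (hqX : q ≤ X) (hrX : r ≤ X)
    (ha : a ∈ Ico 1 q) (hb : b ∈ Ico 1 r) :
    ‖∑ n ∈ Ioc X (2 * X), ((v n * pl n : ℝ) : ℂ) * ee ((n : ℝ) * ((a : ℝ) / q + (b : ℝ) / r))‖ ≤
      (X * (1 + Real.log (3 * X)) + √(q : ℝ) * SCv v X q + √(r : ℝ) * SCv v X r + √(q : ℝ) * √(r : ℝ) * SDv v X q r) /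
        (((q : ℝ) - 1) * ((r : ℝ) - 1)) := by
  classical
  haveI : Fact q.Prime := ⟨hq⟩
  haveI : Fact r.Prime := ⟨hr⟩
  have hq1 : (0 : ℝ) < (q : ℝ) - 1 := by
    have : (1 : ℝ) < q := by exact_mod_cast hq.one_lt
    linarith
  have hr1 : (0 : ℝ) < (r : ℝ) - 1 := by
    have : (1 : ℝ) < r := by exact_mod_cast hr.one_lt
    linarith
  have hX1 : 1 ≤ X := hq.pos.trans_le hqX
  have hX' : (1 : ℝ) ≤ X := by exact_mod_cast hX1
  have key := gs_two hq hr (Ioc X (2 * X)) (fun n => ((v n * pl n : ℝ) : ℂ))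
    (fun n hn h0 => cv3_cop X q n hq hqX v hn h0) (fun n hn h0 => cv3_cop X r n hr hrX v hn h0) a b
    (cv3_unit q a ha) (cv3_unit r b hb)
  have e1 : ∑ n ∈ Ioc X (2 * X), ((v n * pl n : ℝ) : ℂ) * ee ((n : ℝ) * ((a : ℝ) / q + (b : ℝ) / r)) =
      ∑ n ∈ Ioc X (2 * X), ((v n * pl n : ℝ) : ℂ) * (ee ((n : ℝ) * ((a : ℝ) / q)) * ee ((n : ℝ) * ((b : ℝ) / r))) := by
    refine Finset.sum_congr rfl fun n _ => ?_
    rw [mul_add, Pool.Agent.H24.AB.ee_add]
  have h1 : ‖∑ n ∈ Ioc X (2 * X), ((v n * pl n : ℝ) : ℂ)‖ ≤ X * (1 + Real.log (3 * X)) := by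
    refine (norm_sum_le _ _).trans ?_
    have h2 : ∀ n ∈ Ioc X (2 * X), ‖((v n * pl n : ℝ) : ℂ)‖ ≤ 1 + Real.log (3 * X) := by
      intro n hn
      rw [mem_Ioc] at hn
      rw [Complex.norm_real, Real.norm_eq_abs, abs_mul, abs_of_nonneg (hv.nonneg n)]
      have h3 : |pl n| ≤ 1 + Real.log (3 * X) := by
        have h4 := cv3_pl n X hX1 (by omega)
        calc |pl n| = |1 + (pl n - 1)| := by congr 1; ring
          _ ≤ |1| + |pl n - 1| := abs_add_le _ _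
          _ ≤ 1 + Real.log (3 * X) := by rw [abs_one]; linarith
      calc v n * |pl n| ≤ 1 * |pl n| := mul_le_mul_of_nonneg_right (hv.le_one n) (abs_nonneg _)
        _ = |pl n| := one_mul _
        _ ≤ _ := h3
    refine (Finset.sum_le_sum h2).trans ?_
    rw [Finset.sum_const, Nat.card_Ioc, nsmul_eq_mul]
    refine le_of_eq ?_
    congr 1
    rw [show 2 * X - X = X by omega]
  rw [e1]
  refine key.trans ?_
  rw [cv3_SD v X q r _ (by intro χ; simp) _ (by intro χ; simp), cv3_SC v X q _ (by intro χ; simp),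
    cv3_SC v X r _ (by intro χ; simp), one_div, inv_mul_eq_div]
  refine div_le_div_of_nonneg_right ?_ (mul_pos hq1 hr1).le
  linarith

theorem cv3 (v : ℕ → ℝ) (hv : Wv v) (X H q r : ℕ) (hq : q.Prime) (hr : r.Prime) (hqr : q ≠ r) (hqX : q ≤ X) (hrX : r ≤ X)
    (hH : 1 ≤ H) (hHX : H ≤ X) :
    |∑ x ∈ Ioc X (2 * X), ph H q x * ph H r x * EV v x H| ≤ w1 H q r *
      ((X * (1 + Real.log (3 * X)) + √(q : ℝ) * SCv v X q + √(r : ℝ) * SCv v X r + √(q : ℝ) * √(r : ℝ) * SDv v X q r) /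
        (((q : ℝ) - 1) * ((r : ℝ) - 1)) + q * r + 6 * H * (1 + Real.log (3 * X))) := by
  have hq0 : (0 : ℝ) < q := by exact_mod_cast hq.pos
  have hr0 : (0 : ℝ) < r := by exact_mod_cast hr.pos
  have hX1 : 1 ≤ X := hq.pos.trans_le hqX
  have hX' : (1 : ℝ) ≤ X := by exact_mod_cast hX1
  have hlog : 0 ≤ Real.log (3 * X) := Real.log_nonneg (by linarith)
  set P : ℝ := (X * (1 + Real.log (3 * X)) + √(q : ℝ) * SCv v X q + √(r : ℝ) * SCv v X r +
    √(q : ℝ) * √(r : ℝ) * SDv v X q r) / (((q : ℝ) - 1) * ((r : ℝ) - 1)) with hP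
  -- one pair of frequencies
  have one : ∀ a ∈ Ico 1 q, ∀ b ∈ Ico 1 r,
      ‖∑ x ∈ Ioc X (2 * X), ee ((x : ℝ) * ((a : ℝ) / q + (b : ℝ) / r)) * ((EV v x H : ℝ) : ℂ)‖ ≤
        (P + q * r + 6 * H * (1 + Real.log (3 * X))) / nd ((a : ℝ) / q + (b : ℝ) / r) := by
    intro a ha b hb
    set α : ℝ := (a : ℝ) / q + (b : ℝ) / r with hα
    have hnd := cv3_nd q r a b hq hr hqr ha
    rw [← hα] at hnd
    have hndp : 0 < nd α := lt_of_lt_of_le (by positivity) hnd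
    set K : ℝ := 1 / (2 * nd α) with hK
    have hK0 : 0 ≤ K := by positivity
    have hne : α - round α ≠ 0 := by
      intro h
      unfold nd at hndp
      rw [h, abs_zero] at hndp
      exact lt_irrefl _ hndp
    have hgeo : ∀ A B : ℕ, ‖∑ x ∈ Ico A B, ee ((x : ℝ) * α)‖ ≤ K := fun A B => geo_rd A B α hne
    have hc : ∀ m ∈ Ioc X (2 * X + H), |v m * (pl m - 1)| ≤ Real.log (3 * X) := by
      intro m hm
      rw [mem_Ioc] at hm
      rw [abs_mul, abs_of_nonneg (hv.nonneg m)]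
      have h4 := cv3_pl m X hX1 (by omega)
      calc v m * |pl m - 1| ≤ 1 * |pl m - 1| := mul_le_mul_of_nonneg_right (hv.le_one m) (abs_nonneg _)
        _ = |pl m - 1| := one_mul _
        _ ≤ _ := h4
    have hwin := cv3_win (fun m => v m * (pl m - 1)) X H hH hHX α K (Real.log (3 * X)) hK0 hlog hgeo hc
    have hS := cv3_S v hv X q r a b hq hr hqX hrX ha hb
    rw [← hα, ← hP] at hS
    have hV : ‖∑ n ∈ Ioc X (2 * X), ((v n : ℝ) : ℂ) * ee ((n : ℝ) * α)‖ ≤ K := by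
      have e : Ioc X (2 * X) = Ico (X + 1) (2 * X + 1) := by
        ext n
        simp only [mem_Ioc, mem_Ico]
        omega
      rw [e]
      exact abel_anti (fun n => ee ((n : ℝ) * α)) v (X + 1) (2 * X + 1) K hK0 (fun n _ _ => hv.nonneg n)
        (fun n _ _ => hv.le_one n) (fun n _ _ => hv.anti (Nat.le_succ n)) (fun y _ => hgeo _ _)
    have hKqr : K ≤ q * r := by
      rw [hK, div_le_iff₀ (by positivity)]
      have h5 : 1 ≤ nd α * (q * r) := by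
        rw [div_le_iff₀ (by positivity)] at hnd
        exact hnd
      nlinarith
    have hsplit : ‖∑ m ∈ Ioc X (2 * X), ((v m * (pl m - 1) : ℝ) : ℂ) * ee ((m : ℝ) * α)‖ ≤ P + q * r := by
      have e : ∑ m ∈ Ioc X (2 * X), ((v m * (pl m - 1) : ℝ) : ℂ) * ee ((m : ℝ) * α) =
          ∑ n ∈ Ioc X (2 * X), ((v n * pl n : ℝ) : ℂ) * ee ((n : ℝ) * α) -
            ∑ n ∈ Ioc X (2 * X), ((v n : ℝ) : ℂ) * ee ((n : ℝ) * α) := by
        rw [← Finset.sum_sub_distrib]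
        refine Finset.sum_congr rfl fun m _ => ?_
        push_cast
        ring
      rw [e]
      refine (norm_sub_le _ _).trans ?_
      linarith
    have hP0 : 0 ≤ P := (norm_nonneg _).trans hS
    have hH0 : (0 : ℝ) ≤ H := Nat.cast_nonneg H
    have hHl : 0 ≤ (H : ℝ) * Real.log (3 * X) := mul_nonneg hH0 hlog
    have hqr0 : (0 : ℝ) < q * r := mul_pos hq0 hr0
    unfold EV
    refine hwin.trans ?_
    rw [le_div_iff₀ hndp]
    have hKn : K * nd α = 1 / 2 := by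
      rw [hK]
      field_simp
    calc (K * ‖∑ m ∈ Ioc X (2 * X), ((v m * (pl m - 1) : ℝ) : ℂ) * ee ((m : ℝ) * α)‖ +
          3 * K * H * Real.log (3 * X)) * nd α
        = (K * nd α) * (‖∑ m ∈ Ioc X (2 * X), ((v m * (pl m - 1) : ℝ) : ℂ) * ee ((m : ℝ) * α)‖ +
          3 * (H * Real.log (3 * X))) := by ring
      _ = 1 / 2 * (‖∑ m ∈ Ioc X (2 * X), ((v m * (pl m - 1) : ℝ) : ℂ) * ee ((m : ℝ) * α)‖ +
          3 * (H * Real.log (3 * X))) := by rw [hKn]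
      _ ≤ P + q * r + 6 * H * (1 + Real.log (3 * X)) := by nlinarith
  -- the expansion
  have hexp : ((∑ x ∈ Ioc X (2 * X), ph H q x * ph H r x * EV v x H : ℝ) : ℂ) =
      ∑ a ∈ Ico 1 q, ∑ b ∈ Ico 1 r, (fc H ⟨q, a⟩ * fc H ⟨r, b⟩) *
        ∑ x ∈ Ioc X (2 * X), ee ((x : ℝ) * ((a : ℝ) / q + (b : ℝ) / r)) * ((EV v x H : ℝ) : ℂ) := by
    have e1 : ∀ x ∈ Ioc X (2 * X), ((ph H q x * ph H r x * EV v x H : ℝ) : ℂ) =
        ∑ a ∈ Ico 1 q, ∑ b ∈ Ico 1 r, (fc H ⟨q, a⟩ * fc H ⟨r, b⟩) *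
          (ee ((x : ℝ) * ((a : ℝ) / q + (b : ℝ) / r)) * ((EV v x H : ℝ) : ℂ)) := by
      intro x _
      rw [Complex.ofReal_mul, Complex.ofReal_mul, fex_exp H q x hq.pos, fex_exp H r x hr.pos, Finset.sum_mul_sum,
        Finset.sum_mul]
      refine Finset.sum_congr rfl fun a _ => ?_
      rw [Finset.sum_mul]
      refine Finset.sum_congr rfl fun b _ => ?_
      rw [mul_add (x : ℝ), Pool.Agent.H24.AB.ee_add]
      ring
    rw [Complex.ofReal_sum, Finset.sum_congr rfl e1, Finset.sum_comm]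
    refine Finset.sum_congr rfl fun a _ => ?_
    rw [Finset.sum_comm]
    refine Finset.sum_congr rfl fun b _ => ?_
    rw [Finset.mul_sum]
  have habs : |∑ x ∈ Ioc X (2 * X), ph H q x * ph H r x * EV v x H| =
      ‖((∑ x ∈ Ioc X (2 * X), ph H q x * ph H r x * EV v x H : ℝ) : ℂ)‖ := by
    rw [Complex.norm_real, Real.norm_eq_abs]
  rw [habs, hexp]
  unfold w1
  refine (norm_sum_le _ _).trans ?_
  rw [Finset.sum_mul]
  refine Finset.sum_le_sum fun a ha => ?_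
  refine (norm_sum_le _ _).trans ?_
  rw [Finset.sum_mul]
  refine Finset.sum_le_sum fun b hb => ?_
  rw [norm_mul, norm_mul]
  calc ‖fc H ⟨q, a⟩‖ * ‖fc H ⟨r, b⟩‖ *
        ‖∑ x ∈ Ioc X (2 * X), ee ((x : ℝ) * ((a : ℝ) / q + (b : ℝ) / r)) * ((EV v x H : ℝ) : ℂ)‖
      ≤ ‖fc H ⟨q, a⟩‖ * ‖fc H ⟨r, b⟩‖ *
        ((P + q * r + 6 * H * (1 + Real.log (3 * X))) / nd ((a : ℝ) / q + (b : ℝ) / r)) :=
        mul_le_mul_of_nonneg_left (one a ha b hb) (mul_nonneg (norm_nonneg _) (norm_nonneg _))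
    _ = ‖fc H ⟨q, a⟩‖ * ‖fc H ⟨r, b⟩‖ / nd ((a : ℝ) / q + (b : ℝ) / r) *
        (P + q * r + 6 * H * (1 + Real.log (3 * X))) := by ring

end Pool.Agent.H24.EL
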