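import Pool.Agent.H24.EL.Defs
import Pool.Agent.H99.GB.Cov

/-!
# [H24 EL CVV] the covariance with one prime, weights `v`

PROOF. As `H99/GB/Cov` `cov`, with `v m * pl m` in place of `pl m`; the part with `1`: `∑_x ph H q x V(x)`, `V(x) = ∑_{x < m ≤ x+H} v m` antitone with values in `[0,H]`, partial
sums of `ph` at most `q` (`per_bd`), Abel summation.
-/

set_option autoImplicit false

namespace Pool.Agent.H24.EL

open Finset Pool.Agent.H67.VS Pool.Agent.H99.GB

private lemma cov_inj {q h : ℕ} (hh : h < q) (i j : ℕ) (hi : i ∈ Icc 1 h) (hj : j ∈ Icc 1 h)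
    (hij : ((i : ℕ) : ZMod q) = ((j : ℕ) : ZMod q)) : i = j := by
  rw [mem_Icc] at hi hj
  rw [ZMod.natCast_eq_natCast_iff] at hij
  exact Nat.ModEq.eq_of_lt_of_lt hij (by omega) (by omega)

private lemma cov_one {q h : ℕ} [Fact q.Prime] (hh : h < q) :
    Kz q h 1 = (h : ℂ) ^ 2 - h := by
  unfold Kz
  have h1 : ∀ j ∈ Icc 1 h, ∑ i ∈ Icc 1 h,
      (1 : DirichletCharacter ℂ q) (((j : ℕ) : ZMod q) - ((i : ℕ) : ZMod q)) = (h : ℂ) - 1 := by
    intro j hj
    have h2 : ∀ i ∈ Icc 1 h, (1 : DirichletCharacter ℂ q) (((j : ℕ) : ZMod q) - ((i : ℕ) : ZMod q)) =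
        1 - (if j = i then (1 : ℂ) else 0) := by
      intro i hi
      by_cases hji : j = i
      · rw [if_pos hji, hji, sub_self, sub_self, MulChar.map_zero]
      · rw [if_neg hji, sub_zero, MulChar.one_apply]
        rw [isUnit_iff_ne_zero, sub_ne_zero]
        exact fun h => hji (cov_inj hh j i hj hi h)
    rw [Finset.sum_congr rfl h2, Finset.sum_sub_distrib, Finset.sum_ite_eq, if_pos hj]
    simp
  rw [Finset.sum_congr rfl h1]
  simp only [sum_const, Nat.card_Icc, Nat.add_sub_cancel, nsmul_eq_mul]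
  ring

private lemma cov_orth {q h : ℕ} [Fact q.Prime] (hh : h < q) (y : ZMod q) (hy : IsUnit y) :
    ((q : ℂ) - 1) * ((Phz q h y : ℝ) : ℂ) + (h : ℂ) * (1 - (h : ℂ) / q) =
      ∑ χ ∈ (univ : Finset (DirichletCharacter ℂ q)).erase 1, χ y⁻¹ * Kz q h χ := by
  classical
  have hq0 : (q : ℂ) ≠ 0 := by
    have := (Fact.out : q.Prime).pos
    exact_mod_cast this.ne'
  have h1 : ∑ χ : DirichletCharacter ℂ q, χ y⁻¹ * Kz q h χ =
      ∑ j ∈ Icc 1 h, ∑ i ∈ Icc 1 h,
        (if y = ((j : ℕ) : ZMod q) - ((i : ℕ) : ZMod q) then ((q : ℂ) - 1) else 0) := by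
    unfold Kz
    simp only [Finset.mul_sum]
    rw [Finset.sum_comm]
    refine Finset.sum_congr rfl fun j _ => ?_
    rw [Finset.sum_comm]
    refine Finset.sum_congr rfl fun i _ => ?_
    rw [DirichletCharacter.sum_char_inv_mul_char_eq ℂ hy]
    rw [Nat.totient_prime (Fact.out : q.Prime), Nat.cast_sub (Fact.out : q.Prime).one_le, Nat.cast_one]
  have h2 : ((Phz q h y : ℝ) : ℂ) = (∑ j ∈ Icc 1 h, ∑ i ∈ Icc 1 h,
        (if y = ((j : ℕ) : ZMod q) - ((i : ℕ) : ZMod q) then (1 : ℂ) else 0)) - (h : ℂ) * ((h : ℂ) / q) := by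
    unfold Phz phz
    have e1 : ∀ j i : ℕ, (y - ((j : ℕ) : ZMod q) + ((i : ℕ) : ZMod q) = 0) ↔
        y = ((j : ℕ) : ZMod q) - ((i : ℕ) : ZMod q) := by
      intro j i
      constructor
      · intro h
        linear_combination h
      · intro h
        linear_combination h
    simp only [e1, Finset.sum_sub_distrib]
    push_cast
    simp only [sum_const, Nat.card_Icc, Nat.add_sub_cancel, nsmul_eq_mul]
    congr 1
    refine Finset.sum_congr rfl fun j _ => Finset.sum_congr rfl fun i _ => ?_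
    split_ifs
    · exact Complex.ofReal_one
    · exact Complex.ofReal_zero
  have h3 := Finset.add_sum_erase (univ : Finset (DirichletCharacter ℂ q))
    (fun χ => χ y⁻¹ * Kz q h χ) (mem_univ 1)
  have hy1 : (1 : DirichletCharacter ℂ q) y⁻¹ = 1 := by
    rw [MulChar.one_apply]
    rw [isUnit_iff_ne_zero] at hy ⊢
    exact inv_ne_zero hy
  simp only [hy1, cov_one hh, h1] at h3
  have h4 : ∑ j ∈ Icc 1 h, ∑ i ∈ Icc 1 h,
        (if y = ((j : ℕ) : ZMod q) - ((i : ℕ) : ZMod q) then ((q : ℂ) - 1) else 0) =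
      ((q : ℂ) - 1) * ∑ j ∈ Icc 1 h, ∑ i ∈ Icc 1 h,
        (if y = ((j : ℕ) : ZMod q) - ((i : ℕ) : ZMod q) then (1 : ℂ) else 0) := by
    simp only [Finset.mul_sum, mul_ite, mul_one, mul_zero]
  rw [h4] at h3
  rw [h2]
  have h5 : ∑ χ ∈ (univ : Finset (DirichletCharacter ℂ q)).erase 1, χ y⁻¹ * Kz q h χ =
      ((q : ℂ) - 1) * (∑ j ∈ Icc 1 h, ∑ i ∈ Icc 1 h,
        (if y = ((j : ℕ) : ZMod q) - ((i : ℕ) : ZMod q) then (1 : ℂ) else 0)) - ((h : ℂ) ^ 2 - h) := by
    linear_combination h3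
  rw [h5]
  field_simp
  ring

private theorem cvv_char (v : ℕ → ℝ) (X q h : ℕ) (hq : q.Prime) (hqX : q ≤ X) (hh : h < q) :
    |∑ m ∈ Ioc X (2 * X), v m * pl m * Phz q h (m : ZMod q) +
      (h : ℝ) * (1 - (h : ℝ) / q) / ((q : ℝ) - 1) * ∑ m ∈ Ioc X (2 * X), v m * pl m| ≤ Real.sqrt q * SCv v X q := by
  classical
  haveI : Fact q.Prime := ⟨hq⟩
  have hq1 : (0 : ℝ) < (q : ℝ) - 1 := by
    have := hq.one_lt
    have h2 : (1 : ℝ) < q := by exact_mod_cast this
    linarith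
  set S : ℝ := ∑ m ∈ Ioc X (2 * X), v m * pl m * Phz q h (m : ZMod q) with hS
  set Θ : ℝ := ∑ m ∈ Ioc X (2 * X), v m * pl m with hΘ
  have hterm : ∀ m ∈ Ioc X (2 * X), ((v m * pl m : ℝ) : ℂ) *
      (((q : ℂ) - 1) * ((Phz q h (m : ZMod q) : ℝ) : ℂ) + (h : ℂ) * (1 - (h : ℂ) / q)) =
      ∑ χ ∈ (univ : Finset (DirichletCharacter ℂ q)).erase 1,
        Kz q h χ * (starRingEnd ℂ) (((v m * pl m : ℝ) : ℂ) * χ (m : ZMod q)) := by
    intro m hm
    rw [mem_Ioc] at hm
    by_cases hpm : m.Prime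
    · have hun : IsUnit (m : ZMod q) := by
        rw [ZMod.isUnit_iff_coprime]
        rw [Nat.coprime_primes hpm hq]
        omega
      rw [cov_orth hh _ hun, Finset.mul_sum]
      refine Finset.sum_congr rfl fun χ _ => ?_
      rw [map_mul, Complex.conj_ofReal, starRingEnd_apply, MulChar.star_apply', MulChar.inv_apply']
      push_cast
      ring
    · have h0 : pl m = 0 := by
        unfold pl
        rw [if_neg hpm]
      rw [h0]
      simp
  have hsum : ((q : ℂ) - 1) * (S : ℂ) + (h : ℂ) * (1 - (h : ℂ) / q) * (Θ : ℂ) =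
      ∑ χ ∈ (univ : Finset (DirichletCharacter ℂ q)).erase 1,
        Kz q h χ * (starRingEnd ℂ) (ThC X (2 * X) v χ) := by
    unfold ThC
    simp only [map_sum, Finset.mul_sum]
    rw [Finset.sum_comm, ← Finset.sum_congr rfl hterm, hS, hΘ]
    push_cast
    rw [Finset.mul_sum, Finset.mul_sum, ← Finset.sum_add_distrib]
    refine Finset.sum_congr rfl fun m _ => ?_
    ring
  have hSCe : SCv v X q = ∑ χ ∈ (univ : Finset (DirichletCharacter ℂ q)).erase 1,
      ‖ThC X (2 * X) v χ‖ := by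
    unfold SCv
    refine Finset.sum_congr ?_ (fun _ _ => rfl)
    ext χ
    simp
  have hnorm : ‖((q : ℂ) - 1) * (S : ℂ) + (h : ℂ) * (1 - (h : ℂ) / q) * (Θ : ℂ)‖ ≤
      (h : ℝ) * Real.sqrt q * SCv v X q := by
    rw [hsum]
    refine (norm_sum_le _ _).trans ?_
    rw [hSCe, Finset.mul_sum]
    apply Finset.sum_le_sum
    intro χ hχ
    rw [mem_erase] at hχ
    rw [norm_mul, RCLike.norm_conj]
    refine mul_le_mul_of_nonneg_right ?_ (norm_nonneg _)
    exact chi_bd χ hχ.1 h hh.le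
  have hre : ((q : ℂ) - 1) * (S : ℂ) + (h : ℂ) * (1 - (h : ℂ) / q) * (Θ : ℂ) =
      ((((q : ℝ) - 1) * (S + (h : ℝ) * (1 - (h : ℝ) / q) / ((q : ℝ) - 1) * Θ) : ℝ) : ℂ) := by
    have e1 : (((q : ℝ) - 1) * (S + (h : ℝ) * (1 - (h : ℝ) / q) / ((q : ℝ) - 1) * Θ) : ℝ) =
        ((q : ℝ) - 1) * S + (h : ℝ) * (1 - (h : ℝ) / q) * Θ := by
      field_simp
    rw [e1]
    push_cast
    ring
  rw [hre, Complex.norm_real, Real.norm_eq_abs, abs_mul, abs_of_pos hq1] at hnorm
  have hSC : 0 ≤ SCv v X q := by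
    unfold SCv
    exact Finset.sum_nonneg fun _ _ => norm_nonneg _
  have hhq : (h : ℝ) ≤ (q : ℝ) - 1 := by
    have : h + 1 ≤ q := hh
    have h2 : ((h + 1 : ℕ) : ℝ) ≤ q := by exact_mod_cast this
    push_cast at h2
    linarith
  have h6 : (h : ℝ) * Real.sqrt q * SCv v X q ≤ ((q : ℝ) - 1) * (Real.sqrt q * SCv v X q) := by
    rw [mul_assoc]
    exact mul_le_mul_of_nonneg_right hhq (by positivity)
  exact le_of_mul_le_mul_left (hnorm.trans h6) hq1


private lemma cov_swap (v : ℕ → ℝ) (X H q : ℕ) (hHX : H ≤ X) :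
    ∑ x ∈ Ioc X (2 * X), ph H q x * ∑ m ∈ Ioc x (x + H), v m * pl m =
      ∑ m ∈ Ioc X (3 * X), v m * pl m * Wm X H q m := by
  have h1 : ∀ x ∈ Ioc X (2 * X), ph H q x * ∑ m ∈ Ioc x (x + H), v m * pl m =
      ∑ m ∈ Ioc X (3 * X), if (x < m ∧ m ≤ x + H) then v m * pl m * ph H q x else 0 := by
    intro x hx
    rw [mem_Ioc] at hx
    rw [Finset.mul_sum, ← Finset.sum_filter]
    refine Finset.sum_congr ?_ (fun m _ => mul_comm _ _)
    ext m
    rw [mem_filter, mem_Ioc, mem_Ioc]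
    omega
  rw [Finset.sum_congr rfl h1, Finset.sum_comm]
  refine Finset.sum_congr rfl fun m hm => ?_
  rw [mem_Ioc] at hm
  unfold Wm
  rw [Finset.mul_sum, ← Finset.sum_filter]
  refine Finset.sum_congr ?_ (fun x _ => rfl)
  ext x
  rw [mem_filter, mem_Ioc, mem_Ico]
  omega

private lemma cov_W (X H q m : ℕ) (hq : 0 < q) : |Wm X H q m| ≤ q := by
  haveI : NeZero q := ⟨hq.ne'⟩
  unfold Wm
  have h1 : ∀ x ∈ Ico (max (X + 1) (m - H)) (min (2 * X + 1) m), ph H q x =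
      phz q (H % q) (x : ZMod q) := fun x _ => ph_eq H q x hq
  rw [Finset.sum_congr rfl h1]
  exact per_bd _ (phz_sum q _ hq) (phz_abs q _ (Nat.mod_lt _ hq)) _ _

private lemma cov_Wz (X H q m : ℕ) (h : 2 * X + H < m) : Wm X H q m = 0 := by
  unfold Wm
  rw [Finset.Ico_eq_empty (by omega)]
  simp

private lemma cov_full (H q m : ℕ) (hq : 0 < q) (hm : H ≤ m) :
    Phz q (H % q) (m : ZMod q) = ∑ x ∈ Ico (m - H) m, ph H q x := by
  haveI : NeZero q := ⟨hq.ne'⟩
  have h1 : ∀ x ∈ Ico (m - H) m, ph H q x = phz q (H % q) (x : ZMod q) := fun x _ => ph_eq H q x hq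
  rw [Finset.sum_congr rfl h1, per_full q H m hm]
  rfl

private lemma cov_Phz (H q m : ℕ) (hq : 0 < q) (hm : H ≤ m) : |Phz q (H % q) (m : ZMod q)| ≤ q := by
  haveI : NeZero q := ⟨hq.ne'⟩
  rw [cov_full H q m hq hm]
  have h1 : ∀ x ∈ Ico (m - H) m, ph H q x = phz q (H % q) (x : ZMod q) := fun x _ => ph_eq H q x hq
  rw [Finset.sum_congr rfl h1]
  exact per_bd _ (phz_sum q _ hq) (phz_abs q _ (Nat.mod_lt _ hq)) _ _

private lemma cov_pl0 (X m : ℕ) (hm : m ≤ 3 * X) : |pl m| ≤ Real.log (3 * X) := by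
  unfold pl
  split_ifs with h
  · have h1 : (1 : ℝ) ≤ m := by exact_mod_cast h.one_lt.le
    have h2 : (m : ℝ) ≤ 3 * X := by exact_mod_cast hm
    rw [abs_of_nonneg (Real.log_nonneg h1)]
    exact Real.log_le_log (by linarith) h2
  · rw [abs_zero]
    rcases Nat.eq_zero_or_pos X with hX | hX
    · rw [hX]
      simp
    · have : (1 : ℝ) ≤ X := by exact_mod_cast hX
      exact Real.log_nonneg (by linarith)

private lemma cov_pl (v : ℕ → ℝ) (hv : Wv v) (X m : ℕ) (hm : m ≤ 3 * X) : |v m * pl m| ≤ Real.log (3 * X) := by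
  rw [abs_mul, abs_of_nonneg (hv.nonneg m)]
  calc v m * |pl m| ≤ 1 * |pl m| := mul_le_mul_of_nonneg_right (hv.le_one m) (abs_nonneg _)
    _ = |pl m| := one_mul _
    _ ≤ _ := cov_pl0 X m hm

private lemma cvv_abel (f V : ℕ → ℝ) (hV : Antitone V) (hV0 : ∀ n, 0 ≤ V n) (B : ℝ)
    (a : ℕ) (hB : ∀ n, |∑ i ∈ range n, f (a + i)| ≤ B) (n : ℕ) :
    |∑ i ∈ range n, f (a + i) * V (a + i)| ≤ B * V a := by
  have key : ∀ n, ∑ i ∈ range n, f (a + i) * V (a + i) =
      (∑ i ∈ range n, f (a + i)) * V (a + n) +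
        ∑ i ∈ range n, (∑ j ∈ range (i + 1), f (a + j)) * (V (a + i) - V (a + i + 1)) := by
    intro n
    induction n with
    | zero => simp
    | succ n ih =>
      rw [sum_range_succ, ih, sum_range_succ (fun i => (∑ j ∈ range (i + 1), f (a + j)) *
        (V (a + i) - V (a + i + 1))), sum_range_succ (fun i => f (a + i)), ← add_assoc a n 1]
      ring
  have tel : ∀ n, ∑ i ∈ range n, (V (a + i) - V (a + i + 1)) = V a - V (a + n) := by
    intro n
    induction n with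
    | zero => simp
    | succ n ih => rw [sum_range_succ, ih, ← add_assoc a n 1]; ring
  rw [key n]
  have hd : ∀ i, 0 ≤ V (a + i) - V (a + i + 1) := fun i => sub_nonneg.2 (hV (Nat.le_succ _))
  calc _ ≤ |(∑ i ∈ range n, f (a + i)) * V (a + n)| +
        |∑ i ∈ range n, (∑ j ∈ range (i + 1), f (a + j)) * (V (a + i) - V (a + i + 1))| := abs_add_le _ _
    _ ≤ B * V (a + n) + ∑ i ∈ range n, B * (V (a + i) - V (a + i + 1)) := by
        refine add_le_add ?_ ((abs_sum_le_sum_abs _ _).trans (sum_le_sum fun i _ => ?_))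
        · rw [abs_mul, abs_of_nonneg (hV0 _)]
          exact mul_le_mul_of_nonneg_right (hB n) (hV0 _)
        · rw [abs_mul, abs_of_nonneg (hd i)]
          exact mul_le_mul_of_nonneg_right (hB (i + 1)) (hd i)
    _ = B * V a := by
        rw [← mul_sum, tel]
        ring

theorem cvv (v : ℕ → ℝ) (hv : Wv v) (X H q : ℕ) (hq : q.Prime) (hqX : q ≤ X) (hH : 1 ≤ H) (hHX : H ≤ X) :
    |∑ x ∈ Ioc X (2 * X), ph H q x * EV v x H + cq H q / ((q : ℝ) - 1) * ∑ m ∈ Ioc X (2 * X), v m * pl m| ≤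
      √(q : ℝ) * SCv v X q + 10 * H * q * (1 + Real.log (3 * X)) := by
  have hq0 : 0 < q := hq.pos
  haveI : NeZero q := ⟨hq0.ne'⟩
  set Lg : ℝ := Real.log (3 * X) with hLg
  have hX1 : 1 ≤ X := hH.trans hHX
  have hX1r : (1 : ℝ) ≤ X := by exact_mod_cast hX1
  have hLg1 : 1 ≤ Lg := by
    rw [hLg, Real.le_log_iff_exp_le (by linarith)]
    have := Real.exp_one_lt_d9
    linarith
  have hch := cvv_char v X q (H % q) hq hqX (Nat.mod_lt _ hq0)
  set S : ℝ := ∑ m ∈ Ioc X (2 * X), v m * pl m * Phz q (H % q) (m : ZMod q) with hS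
  have hqr : (0 : ℝ) < q := by exact_mod_cast hq0
  have hHr : (1 : ℝ) ≤ H := by exact_mod_cast hH
  -- the sum with primes
  have e1 : ∑ x ∈ Ioc X (2 * X), ph H q x * EV v x H =
      (∑ m ∈ Ioc X (3 * X), v m * pl m * Wm X H q m) -
        ∑ x ∈ Ioc X (2 * X), ph H q x * ∑ m ∈ Ioc x (x + H), v m := by
    rw [← cov_swap v X H q hHX, ← Finset.sum_sub_distrib]
    refine Finset.sum_congr rfl fun x _ => ?_
    unfold EV
    rw [← mul_sub, ← Finset.sum_sub_distrib]
    congr 1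
    refine Finset.sum_congr rfl fun m _ => ?_
    ring
  have e2 : ∑ m ∈ Ioc X (3 * X), v m * pl m * Wm X H q m = S +
      (∑ m ∈ Ioc X (2 * X), v m * pl m * (Wm X H q m - Phz q (H % q) (m : ZMod q))) +
      ∑ m ∈ Ioc (2 * X) (3 * X), v m * pl m * Wm X H q m := by
    rw [← Finset.sum_Ioc_consecutive _ (by omega : X ≤ 2 * X) (by omega : 2 * X ≤ 3 * X), hS,
      ← Finset.sum_add_distrib]
    congr 1
    refine Finset.sum_congr rfl fun m _ => ?_
    ring
  have b1 : |∑ m ∈ Ioc X (2 * X), v m * pl m * (Wm X H q m - Phz q (H % q) (m : ZMod q))| ≤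
      H * (Lg * (2 * q)) := by
    have h1 : ∑ m ∈ Ioc X (2 * X), v m * pl m * (Wm X H q m - Phz q (H % q) (m : ZMod q)) =
        ∑ m ∈ Ioc X (X + H), v m * pl m * (Wm X H q m - Phz q (H % q) (m : ZMod q)) := by
      symm
      apply Finset.sum_subset
      · intro m hm
        rw [mem_Ioc] at hm ⊢
        omega
      · intro m hm hm2
        rw [mem_Ioc] at hm hm2
        have h3 : Wm X H q m = Phz q (H % q) (m : ZMod q) := by
          rw [cov_full H q m hq0 (by omega)]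
          unfold Wm
          rw [show max (X + 1) (m - H) = m - H by omega, show min (2 * X + 1) m = m by omega]
        rw [h3, sub_self, mul_zero]
    rw [h1]
    refine (Finset.abs_sum_le_sum_abs _ _).trans ?_
    have h2 : ∀ m ∈ Ioc X (X + H), |v m * pl m * (Wm X H q m - Phz q (H % q) (m : ZMod q))| ≤
        Lg * (2 * q) := by
      intro m hm
      rw [mem_Ioc] at hm
      rw [abs_mul]
      refine mul_le_mul (cov_pl v hv X m (by omega)) ?_ (abs_nonneg _) (by linarith)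
      have h3 := cov_W X H q m hq0
      have h4 := cov_Phz H q m hq0 (by omega)
      calc |Wm X H q m - Phz q (H % q) (m : ZMod q)| ≤ |Wm X H q m| + |Phz q (H % q) (m : ZMod q)| :=
            abs_sub _ _
        _ ≤ 2 * q := by linarith
    refine (Finset.sum_le_card_nsmul _ _ _ h2).trans ?_
    rw [Nat.card_Ioc, Nat.add_sub_cancel_left, nsmul_eq_mul]
  have b2 : |∑ m ∈ Ioc (2 * X) (3 * X), v m * pl m * Wm X H q m| ≤ H * (Lg * q) := by
    have h1 : ∑ m ∈ Ioc (2 * X) (3 * X), v m * pl m * Wm X H q m =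
        ∑ m ∈ Ioc (2 * X) (2 * X + H), v m * pl m * Wm X H q m := by
      symm
      apply Finset.sum_subset
      · intro m hm
        rw [mem_Ioc] at hm ⊢
        omega
      · intro m hm hm2
        rw [mem_Ioc] at hm hm2
        rw [cov_Wz X H q m (by omega), mul_zero]
    rw [h1]
    refine (Finset.abs_sum_le_sum_abs _ _).trans ?_
    have h2 : ∀ m ∈ Ioc (2 * X) (2 * X + H), |v m * pl m * Wm X H q m| ≤ Lg * q := by
      intro m hm
      rw [mem_Ioc] at hm
      rw [abs_mul]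
      exact mul_le_mul (cov_pl v hv X m (by omega)) (cov_W X H q m hq0) (abs_nonneg _) (by linarith)
    refine (Finset.sum_le_card_nsmul _ _ _ h2).trans ?_
    rw [Nat.card_Ioc, Nat.add_sub_cancel_left, nsmul_eq_mul]
  have b3 : |∑ x ∈ Ioc X (2 * X), ph H q x * ∑ m ∈ Ioc x (x + H), v m| ≤ H * q := by
    set V : ℕ → ℝ := fun x => ∑ m ∈ Ioc x (x + H), v m with hV
    have hVe : ∀ x, V x = ∑ i ∈ range H, v (x + 1 + i) := by
      intro x
      rw [hV]
      show ∑ m ∈ Ioc x (x + H), v m = _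
      have h2 : Ioc x (x + H) = Ico (x + 1) (x + 1 + H) := by
        ext m
        rw [mem_Ioc, mem_Ico]
        omega
      rw [h2, Finset.sum_Ico_eq_sum_range]
      congr 2
      omega
    have hVanti : Antitone V := by
      intro x y hxy
      rw [hVe, hVe]
      exact sum_le_sum fun i _ => hv.anti (by omega)
    have hV0 : ∀ x, 0 ≤ V x := fun x => sum_nonneg fun m _ => hv.nonneg m
    have hVH : ∀ x, V x ≤ H := by
      intro x
      rw [hVe]
      calc ∑ i ∈ range H, v (x + 1 + i) ≤ ∑ i ∈ range H, (1 : ℝ) := sum_le_sum fun i _ => hv.le_one _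
        _ = H := by simp
    have h1 : ∑ x ∈ Ioc X (2 * X), ph H q x * V x =
        ∑ i ∈ range X, ph H q (X + 1 + i) * V (X + 1 + i) := by
      have h2 : Ioc X (2 * X) = Ico (X + 1) (X + 1 + X) := by
        ext m
        rw [mem_Ioc, mem_Ico]
        omega
      rw [h2, Finset.sum_Ico_eq_sum_range]
      congr 2
      omega
    rw [h1]
    have h3 : ∀ n, |∑ i ∈ range n, ph H q (X + 1 + i)| ≤ q := by
      intro n
      have h4 : ∑ i ∈ range n, ph H q (X + 1 + i) =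
          ∑ x ∈ Ico (X + 1) (X + 1 + n), phz q (H % q) (x : ZMod q) := by
        rw [Finset.sum_Ico_eq_sum_range, show X + 1 + n - (X + 1) = n by omega]
        exact Finset.sum_congr rfl fun x _ => ph_eq H q _ hq0
      rw [h4]
      exact per_bd _ (phz_sum q _ hq0) (phz_abs q _ (Nat.mod_lt _ hq0)) _ _
    refine (cvv_abel (ph H q) V hVanti hV0 q (X + 1) h3 X).trans ?_
    rw [mul_comm]
    exact mul_le_mul_of_nonneg_right (hVH _) (by positivity)
  have hcq : (((H % q : ℕ) : ℝ) * (1 - ((H % q : ℕ) : ℝ) / q)) = cq H q := rfl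
  rw [hcq] at hch
  rw [e1, e2]
  set Θ : ℝ := ∑ m ∈ Ioc X (2 * X), v m * pl m
  set D1 := ∑ m ∈ Ioc X (2 * X), v m * pl m * (Wm X H q m - Phz q (H % q) (m : ZMod q))
  set D2 := ∑ m ∈ Ioc (2 * X) (3 * X), v m * pl m * Wm X H q m
  set D3 := ∑ x ∈ Ioc X (2 * X), ph H q x * ∑ m ∈ Ioc x (x + H), v m
  have e3 : S + D1 + D2 - D3 + cq H q / ((q : ℝ) - 1) * Θ =
      (S + cq H q / ((q : ℝ) - 1) * Θ) + D1 + D2 - D3 := by ring
  rw [e3]
  have h7 : |(S + cq H q / ((q : ℝ) - 1) * Θ) + D1 + D2 - D3| ≤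
      |S + cq H q / ((q : ℝ) - 1) * Θ| + |D1| + |D2| + |D3| := by
    calc |(S + cq H q / ((q : ℝ) - 1) * Θ) + D1 + D2 - D3|
        ≤ |(S + cq H q / ((q : ℝ) - 1) * Θ) + D1 + D2| + |D3| := abs_sub _ _
      _ ≤ |(S + cq H q / ((q : ℝ) - 1) * Θ) + D1| + |D2| + |D3| := by
          linarith [abs_add_le ((S + cq H q / ((q : ℝ) - 1) * Θ) + D1) D2]
      _ ≤ _ := by
          linarith [abs_add_le (S + cq H q / ((q : ℝ) - 1) * Θ) D1]
  have h8 : (H : ℝ) * q ≤ H * (Lg * q) := by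
    refine mul_le_mul_of_nonneg_left ?_ (by linarith)
    nlinarith
  have h9 : 0 ≤ (H : ℝ) * (Lg * q) := by positivity
  calc _ ≤ _ := h7
    _ ≤ √(q : ℝ) * SCv v X q + H * (Lg * (2 * q)) + H * (Lg * q) + H * q := by linarith
    _ ≤ √(q : ℝ) * SCv v X q + 10 * H * q * (1 + Lg) := by nlinarith

end Pool.Agent.H24.EL
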