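import Pool.Agent.H99.GC.Defs
import Pool.Agent.H99.GB.Fex

/-!
# [H24 EL] MP_31d0eb_nt, theorem L: both signs for every length up to `X^(7/12-ε)`: definitions

IDEA. `(κ + s E)(1 + s a G)² ≥ 0`, `G = ∑_{q ∈ QQ R} ph H q`, `R = X^ρ`, `ρ < 1/6`. The products `ph H q · ph H r`, `q < r`, have small covariance with the
primes for EVERY `H ≤ X^(2/3)`: Fourier expansion (the window sum of `e(α x)` is at most `1/(2‖α‖)` whatever `H` is), `1/‖α‖ ≤ q r/|c| + q r/(q r - |c|)`
for `α = c/(q r)`, `c = b r + b' q`, and for fixed `b, b', c` the large sieve for the thin family of moduli `q r`, `b r + b' q = c`.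
-/

set_option autoImplicit false

namespace Pool.Agent.H24.EL

open Finset Pool.Agent.H67.VS Pool.Agent.H99.GB

/-- weights: antitone, values in `[0,1]` -/
structure Wv (v : ℕ → ℝ) : Prop where
  nonneg : ∀ n, 0 ≤ v n
  le_one : ∀ n, v n ≤ 1
  anti : Antitone v

/-- the weight `1 / log m` -/
noncomputable def vl (m : ℕ) : ℝ := if m < 3 then 1 else 1 / Real.log m

/-- weighted error `∑_{x < m ≤ x+H} v(m) (pl m - 1)` -/
noncomputable def EV (v : ℕ → ℝ) (x H : ℕ) : ℝ := ∑ m ∈ Ioc x (x + H), v m * (pl m - 1)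

/-- the sum of all nontrivial character sums over primes of modulus `q`, weights `v` -/
noncomputable def SCv (v : ℕ → ℝ) (X q : ℕ) : ℝ := by
  classical
  exact ∑ χ ∈ (univ : Finset (DirichletCharacter ℂ q)).filter (fun χ => χ ≠ 1), ‖ThC X (2 * X) v χ‖

/-- the sum over all pairs of nontrivial characters modulo `q` and modulo `r`, weights `v` -/
noncomputable def SDv (v : ℕ → ℝ) (X q r : ℕ) : ℝ := by
  classical
  exact ∑ χ ∈ (univ : Finset (DirichletCharacter ℂ q)).filter (fun χ => χ ≠ 1),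
    ∑ ψ ∈ (univ : Finset (DirichletCharacter ℂ r)).filter (fun ψ => ψ ≠ 1),
      ‖∑ n ∈ Ioc X (2 * X), ((v n * pl n : ℝ) : ℂ) * (χ (n : ZMod q) * ψ (n : ZMod r))‖

/-- distance to the nearest integer -/
noncomputable def nd (α : ℝ) : ℝ := |α - round α|

/-- the total weight of the frequencies of `ph H q * ph H r` -/
noncomputable def w1 (H q r : ℕ) : ℝ :=
  ∑ a ∈ Ico 1 q, ∑ b ∈ Ico 1 r, ‖fc H ⟨q, a⟩‖ * ‖fc H ⟨r, b⟩‖ / nd ((a : ℝ) / q + (b : ℝ) / r)

/-- pairs of primes `q < r` in `(R, 2R]` with `b r + b' q = c` -/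
def PP (R : ℕ) (b b' c : ℤ) : Finset (ℕ × ℕ) :=
  (QQ R ×ˢ QQ R).filter (fun p => p.1 < p.2 ∧ b * (p.2 : ℤ) + b' * (p.1 : ℤ) = c)

/-- their products -/
def MM (R : ℕ) (b b' c : ℤ) : Finset ℕ := (PP R b b' c).image (fun p => p.1 * p.2)

/-- reduced fractions `a/r` with denominators in `M`, as pairs `(r, a)` -/
def RF (M : Finset ℕ) : Finset (Σ _ : ℕ, ℕ) := M.sigma (fun r => (range r).filter (fun a => a.Coprime r))

/-- the value of a fraction -/
noncomputable def fv (z : Σ _ : ℕ, ℕ) : ℝ := (z.2 : ℝ) / z.1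

/-- the second order term -/
noncomputable def P2v (v : ℕ → ℝ) (X H R : ℕ) : ℝ :=
  ∑ q ∈ QQ R, ∑ r ∈ QQ R, if q < r then |∑ x ∈ Ioc X (2 * X), ph H q x * ph H r x * EV v x H| else 0

end Pool.Agent.H24.EL
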