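import Pool.Agent.H24.EL.Defs
import Pool.Agent.H67.VS.CharB
import Pool.Agent.H21.MT.Ch

/-!
# [H24 EL EMB] characters modulo `q` and modulo `q r` as primitive characters

PROOF. As `H99/GC/Pd` (`sd_le`, `pf_PC`, `pd`) and `H99/GB/Mv`, with weights `v` and the family `PP`.
-/

set_option autoImplicit false

namespace Pool.Agent.H24.EL

open Finset Pool.Agent.H21.MT Pool.Agent.H67.VS Pool.Agent.H99.GB

/-- the product of two characters -/
private noncomputable def prodCh {q1 q2 : ℕ} (χ1 : DirichletCharacter ℂ q1) (χ2 : DirichletCharacter ℂ q2) :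
    DirichletCharacter ℂ (q1 * q2) :=
  DirichletCharacter.changeLevel (dvd_mul_right q1 q2) χ1 *
    DirichletCharacter.changeLevel (dvd_mul_left q2 q1) χ2

private theorem cond_prime {q : ℕ} (hq : q.Prime) (χ : DirichletCharacter ℂ q) (hχ : χ ≠ 1) :
    χ.conductor = q := by
  have : NeZero q := ⟨hq.ne_zero⟩
  rcases (Nat.dvd_prime hq).1 (DirichletCharacter.conductor_dvd_level χ) with h | h
  · exact absurd ((DirichletCharacter.eq_one_iff_conductor_eq_one).2 h) hχ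
  · exact h

private theorem prodCh_prim {q1 q2 : ℕ} (h1 : q1.Prime) (h2 : q2.Prime) (hne : q1 ≠ q2)
    (χ1 : DirichletCharacter ℂ q1) (χ2 : DirichletCharacter ℂ q2) (hχ1 : χ1 ≠ 1) (hχ2 : χ2 ≠ 1) :
    (prodCh χ1 χ2).IsPrimitive := by
  have : NeZero (q1 * q2) := ⟨Nat.mul_ne_zero h1.ne_zero h2.ne_zero⟩
  have hco : Nat.Coprime q1 q2 := (Nat.coprime_primes h1 h2).2 hne
  set a := DirichletCharacter.changeLevel (dvd_mul_right q1 q2) χ1 with ha
  set b := DirichletCharacter.changeLevel (dvd_mul_left q2 q1) χ2 with hb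
  have ca : a.conductor = q1 := by
    rw [ha, DirichletCharacter.conductor_changeLevel, cond_prime h1 χ1 hχ1]
  have cb : b.conductor = q2 := by
    rw [hb, DirichletCharacter.conductor_changeLevel, cond_prime h2 χ2 hχ2]
  rw [DirichletCharacter.isPrimitive_def]
  show (a * b).conductor = q1 * q2
  set c := (a * b).conductor with hc
  have d1 : q1 ∣ c := by
    have e1 : a = (a * b) * b⁻¹ := by rw [mul_assoc, mul_inv_cancel, mul_one]
    have e2 := DirichletCharacter.conductor_mul_dvd_lcm_conductor (a * b) b⁻¹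
    rw [← e1, ca, DirichletCharacter.conductor_inv, cb] at e2
    have e3 : q1 ∣ c * q2 := e2.trans (Nat.lcm_dvd_mul _ _)
    exact hco.dvd_of_dvd_mul_right e3
  have d2 : q2 ∣ c := by
    have e1 : b = (a * b) * a⁻¹ := by rw [mul_comm a b, mul_assoc, mul_inv_cancel, mul_one]
    have e2 := DirichletCharacter.conductor_mul_dvd_lcm_conductor (a * b) a⁻¹
    rw [← e1, cb, DirichletCharacter.conductor_inv, ca] at e2
    have e3 : q2 ∣ c * q1 := e2.trans (Nat.lcm_dvd_mul _ _)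
    exact hco.symm.dvd_of_dvd_mul_right e3
  exact Nat.dvd_antisymm (DirichletCharacter.conductor_dvd_level _) (hco.mul_dvd_of_dvd_of_dvd d1 d2)

private theorem grp {G : Type} [CommGroup G] {a b c d : G} (h : a * b = c * d) : a * c⁻¹ = d * b⁻¹ := by
  rw [mul_inv_eq_iff_eq_mul, mul_assoc, mul_comm b⁻¹ c, ← mul_assoc, eq_mul_inv_iff_mul_eq, h, mul_comm c d]

private theorem prodCh_inj {q1 q2 : ℕ} (h1 : q1.Prime) (h2 : q2.Prime) (hne : q1 ≠ q2)
    (χ1 ψ1 : DirichletCharacter ℂ q1) (χ2 ψ2 : DirichletCharacter ℂ q2)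
    (h : prodCh χ1 χ2 = prodCh ψ1 ψ2) : χ1 = ψ1 ∧ χ2 = ψ2 := by
  have : NeZero (q1 * q2) := ⟨Nat.mul_ne_zero h1.ne_zero h2.ne_zero⟩
  have : NeZero q1 := ⟨h1.ne_zero⟩
  have : NeZero q2 := ⟨h2.ne_zero⟩
  have hco : Nat.Coprime q1 q2 := (Nat.coprime_primes h1 h2).2 hne
  unfold prodCh at h
  have e1 : DirichletCharacter.changeLevel (dvd_mul_right q1 q2) (χ1 * ψ1⁻¹) =
      DirichletCharacter.changeLevel (dvd_mul_left q2 q1) (ψ2 * χ2⁻¹) := by
    rw [map_mul, map_mul, map_inv, map_inv]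
    exact grp h
  have c1 : (χ1 * ψ1⁻¹).conductor = (ψ2 * χ2⁻¹).conductor := by
    rw [← DirichletCharacter.conductor_changeLevel (dvd_mul_right q1 q2) (χ := χ1 * ψ1⁻¹), e1,
      DirichletCharacter.conductor_changeLevel]
  have d1 : (χ1 * ψ1⁻¹).conductor ∣ q1 := DirichletCharacter.conductor_dvd_level _
  have d2 : (χ1 * ψ1⁻¹).conductor ∣ q2 := by
    rw [c1]; exact DirichletCharacter.conductor_dvd_level _
  have d3 : (χ1 * ψ1⁻¹).conductor = 1 := Nat.eq_one_of_dvd_coprimes hco d1 d2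
  have d4 : χ1 * ψ1⁻¹ = 1 := (DirichletCharacter.eq_one_iff_conductor_eq_one).2 d3
  have d5 : ψ2 * χ2⁻¹ = 1 := (DirichletCharacter.eq_one_iff_conductor_eq_one).2 (by rw [← c1]; exact d3)
  exact ⟨mul_inv_eq_one.1 d4, (mul_inv_eq_one.1 d5).symm⟩

private theorem prodCh_apply {q1 q2 : ℕ} (χ1 : DirichletCharacter ℂ q1) (χ2 : DirichletCharacter ℂ q2)
    (n : ℕ) : prodCh χ1 χ2 (n : ZMod (q1 * q2)) = χ1 (n : ZMod q1) * χ2 (n : ZMod q2) := by
  unfold prodCh
  rw [MulChar.mul_apply]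
  by_cases hn : n.Coprime (q1 * q2)
  · rw [charb_lift _ _ n hn, charb_lift _ _ n hn]
  · rw [charb_lift_zero _ _ n hn, zero_mul]
    have h : ¬ n.Coprime q1 ∨ ¬ n.Coprime q2 := by
      by_contra h
      push Not at h
      exact hn (Nat.Coprime.mul_right h.1 h.2)
    rcases h with h | h
    · rw [MulChar.map_nonunit χ1 (by rw [ZMod.isUnit_iff_coprime]; exact h), zero_mul]
    · rw [MulChar.map_nonunit χ2 (by rw [ZMod.isUnit_iff_coprime]; exact h), mul_zero]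

/-- the primitive characters of one modulus -/
private noncomputable def PFv (v : ℕ → ℝ) (X N : ℕ) : ℝ := by
  classical
  exact ∑ χ ∈ (univ : Finset (DirichletCharacter ℂ N)).filter (fun χ => χ.IsPrimitive),
    ‖ThC X (2 * X) v χ‖

private theorem pfv_PC (v : ℕ → ℝ) (X R : ℕ) (T : Finset ℕ) (hT : ∀ N ∈ T, 2 ≤ N ∧ N ≤ R) :
    ∑ N ∈ T, PFv v X N ≤ ∑ c ∈ (PC R).filter (fun χ => χ.md ∈ T), ‖ThC X (2 * X) v c.2‖ := by
  classical
  set s : Finset (Fin R) := univ.filter (fun r => r.val + 1 ∈ T) with hs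
  have h1 : ∑ N ∈ T, PFv v X N = ∑ r ∈ s, PFv v X (r.val + 1) := by
    symm
    refine Finset.sum_bij (fun r _ => r.val + 1) ?_ ?_ ?_ (fun _ _ => rfl)
    · intro r hr
      rw [hs, mem_filter] at hr
      exact hr.2
    · intro a _ b _ hab
      apply Fin.ext
      omega
    · intro N hN
      obtain ⟨h2, h3⟩ := hT N hN
      refine ⟨⟨N - 1, by omega⟩, ?_, ?_⟩
      · rw [hs, mem_filter]
        refine ⟨mem_univ _, ?_⟩
        show N - 1 + 1 ∈ T
        rw [Nat.sub_add_cancel (by omega)]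
        exact hN
      · show N - 1 + 1 = N
        omega
  rw [h1]
  have h2 : ∑ r ∈ s, PFv v X (r.val + 1) =
      ∑ c ∈ s.sigma (fun r => (univ : Finset (DirichletCharacter ℂ (r.val + 1))).filter
        (fun χ => χ.IsPrimitive)), ‖ThC X (2 * X) v c.2‖ := by
    rw [Finset.sum_sigma]
    refine Finset.sum_congr rfl fun r _ => ?_
    unfold PFv
    refine Finset.sum_congr ?_ (fun _ _ => rfl)
    ext χ
    simp
  rw [h2]
  refine Finset.sum_le_sum_of_subset_of_nonneg ?_ (fun _ _ _ => norm_nonneg _)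
  intro c hc
  rw [Finset.mem_sigma, hs, mem_filter, mem_filter] at hc
  rw [mem_filter]
  refine ⟨?_, hc.1.2⟩
  unfold PC
  rw [mem_filter]
  exact ⟨mem_univ _, hc.2.2, (hT _ hc.1.2).1⟩

private theorem sdv_le (v : ℕ → ℝ) (X : ℕ) {q1 q2 : ℕ} (h1 : q1.Prime) (h2 : q2.Prime) (hne : q1 ≠ q2) :
    SDv v X q1 q2 ≤ PFv v X (q1 * q2) := by
  classical
  unfold SDv PFv
  rw [← Finset.sum_product']
  have h3 : ∀ p ∈ (univ : Finset (DirichletCharacter ℂ q1)).filter (fun χ => χ ≠ 1) ×ˢ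
      (univ : Finset (DirichletCharacter ℂ q2)).filter (fun χ => χ ≠ 1),
      ‖∑ n ∈ Ioc X (2 * X), ((v n * pl n : ℝ) : ℂ) * (p.1 (n : ZMod q1) * p.2 (n : ZMod q2))‖ =
        ‖ThC X (2 * X) v (prodCh p.1 p.2)‖ := by
    intro p _
    congr 1
    unfold ThC
    apply Finset.sum_congr rfl
    intro n _
    rw [prodCh_apply]
  rw [Finset.sum_congr rfl h3]
  have h4 : ∑ p ∈ (univ : Finset (DirichletCharacter ℂ q1)).filter (fun χ => χ ≠ 1) ×ˢ
      (univ : Finset (DirichletCharacter ℂ q2)).filter (fun χ => χ ≠ 1),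
        ‖ThC X (2 * X) v (prodCh p.1 p.2)‖ =
      ∑ χ ∈ ((univ : Finset (DirichletCharacter ℂ q1)).filter (fun χ => χ ≠ 1) ×ˢ
      (univ : Finset (DirichletCharacter ℂ q2)).filter (fun χ => χ ≠ 1)).image (fun p => prodCh p.1 p.2),
        ‖ThC X (2 * X) v χ‖ := by
    rw [Finset.sum_image]
    rintro ⟨a1, a2⟩ _ ⟨b1, b2⟩ _ hab
    obtain ⟨e1, e2⟩ := prodCh_inj h1 h2 hne a1 b1 a2 b2 hab
    rw [e1, e2]
  rw [h4]
  refine Finset.sum_le_sum_of_subset_of_nonneg ?_ (fun _ _ _ => norm_nonneg _)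
  intro χ hχ
  rw [mem_image] at hχ
  obtain ⟨p, hp, rfl⟩ := hχ
  rw [mem_product, mem_filter, mem_filter] at hp
  rw [mem_filter]
  exact ⟨mem_univ _, prodCh_prim h1 h2 hne p.1 p.2 hp.1.2 hp.2.2⟩

private theorem pp_mem {R : ℕ} {b b' c : ℤ} {p : ℕ × ℕ} (hp : p ∈ PP R b b' c) :
    (p.1.Prime ∧ R < p.1 ∧ p.1 ≤ 2 * R) ∧ (p.2.Prime ∧ R < p.2 ∧ p.2 ≤ 2 * R) ∧ p.1 < p.2 ∧
      b * (p.2 : ℤ) + b' * (p.1 : ℤ) = c := by
  unfold PP QQ at hp
  rw [mem_filter, mem_product, mem_filter, mem_filter, mem_Ioc, mem_Ioc] at hp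
  exact ⟨⟨hp.1.1.2, hp.1.1.1.1, hp.1.1.1.2⟩, ⟨hp.1.2.2, hp.1.2.1.1, hp.1.2.1.2⟩, hp.2.1, hp.2.2⟩

theorem emb2 (v : ℕ → ℝ) (X R : ℕ) (b b' c : ℤ) : ∑ p ∈ PP R b b' c, SDv v X p.1 p.2 ≤
    ∑ χ ∈ (PC (4 * R ^ 2)).filter (fun χ => χ.md ∈ MM R b b' c), ‖ThC X (2 * X) v χ.2‖ := by
  have h1 : ∑ p ∈ PP R b b' c, SDv v X p.1 p.2 ≤ ∑ p ∈ PP R b b' c, PFv v X (p.1 * p.2) := by
    apply Finset.sum_le_sum
    intro p hp
    obtain ⟨⟨a1, _, _⟩, ⟨a3, _, _⟩, a5, _⟩ := pp_mem hp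
    exact sdv_le v X a1 a3 (by omega)
  have h2 : ∑ p ∈ PP R b b' c, PFv v X (p.1 * p.2) = ∑ N ∈ MM R b b' c, PFv v X N := by
    unfold MM
    rw [Finset.sum_image]
    intro p hp r hr hpr
    obtain ⟨⟨a1, _, _⟩, ⟨a3, _, _⟩, a5, _⟩ := pp_mem hp
    obtain ⟨⟨b1, _, _⟩, ⟨b3, _, _⟩, b5, _⟩ := pp_mem hr
    simp only [] at hpr
    have c1 : p.1 ∣ r.1 * r.2 := by rw [← hpr]; exact dvd_mul_right _ _
    have c2 : p.2 ∣ r.1 * r.2 := by rw [← hpr]; exact dvd_mul_left _ _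
    have d1 : p.1 = r.1 ∨ p.1 = r.2 := by
      rcases (Nat.Prime.dvd_mul a1).1 c1 with h | h
      · exact Or.inl ((Nat.prime_dvd_prime_iff_eq a1 b1).1 h)
      · exact Or.inr ((Nat.prime_dvd_prime_iff_eq a1 b3).1 h)
    have d2 : p.2 = r.1 ∨ p.2 = r.2 := by
      rcases (Nat.Prime.dvd_mul a3).1 c2 with h | h
      · exact Or.inl ((Nat.prime_dvd_prime_iff_eq a3 b1).1 h)
      · exact Or.inr ((Nat.prime_dvd_prime_iff_eq a3 b3).1 h)
    exact Prod.ext (by omega) (by omega)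
  rw [h2] at h1
  refine h1.trans (pfv_PC v X (4 * R ^ 2) _ ?_)
  intro N hN
  unfold MM at hN
  rw [mem_image] at hN
  obtain ⟨p, hp, rfl⟩ := hN
  obtain ⟨⟨a1, _, a2⟩, ⟨a3, _, a4⟩, a5, _⟩ := pp_mem hp
  have k1 := a1.two_le
  have k2 := a3.two_le
  constructor
  · nlinarith
  · nlinarith

theorem emb1 (v : ℕ → ℝ) (X R : ℕ) : ∑ q ∈ QQ R, SCv v X q ≤ ∑ χ ∈ PC (2 * R), ‖ThC X (2 * X) v χ.2‖ := by
  classical
  have hQ : ∀ q ∈ QQ R, q.Prime ∧ q ≤ 2 * R := by
    intro q hq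
    unfold QQ at hq
    rw [mem_filter, mem_Ioc] at hq
    exact ⟨hq.2, hq.1.2⟩
  have h1 : ∑ q ∈ QQ R, SCv v X q ≤ ∑ q ∈ QQ R, PFv v X q := by
    apply Finset.sum_le_sum
    intro q hq
    have hq1 := (hQ q hq).1
    unfold SCv PFv
    refine Finset.sum_le_sum_of_subset_of_nonneg ?_ (fun _ _ _ => norm_nonneg _)
    intro χ hχ
    rw [mem_filter] at hχ
    rw [mem_filter]
    refine ⟨hχ.1, ?_⟩
    rw [DirichletCharacter.isPrimitive_def]
    exact cond_prime hq1 χ hχ.2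
  have h2 := pfv_PC v X (2 * R) (QQ R) (fun N hN => ⟨(hQ N hN).1.two_le, (hQ N hN).2⟩)
  refine (h1.trans h2).trans ?_
  exact Finset.sum_le_sum_of_subset_of_nonneg (Finset.filter_subset _ _) (fun _ _ _ => norm_nonneg _)

/-- the number of characters of the family -/
theorem emb_card (R : ℕ) (b b' c : ℤ) (hb : b ≠ 0) :
    (((PC (4 * R ^ 2)).filter (fun χ => χ.md ∈ MM R b b' c)).card : ℝ) ≤ 4 * (R : ℝ) ^ 3 := by
  classical
  set s : Finset (Fin (4 * R ^ 2)) := univ.filter (fun r => r.val + 1 ∈ MM R b b' c) with hs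
  have h1 : ((PC (4 * R ^ 2)).filter (fun χ => χ.md ∈ MM R b b' c)).card ≤
      (s.sigma (fun r => (univ : Finset (DirichletCharacter ℂ (r.val + 1))))).card := by
    apply Finset.card_le_card
    intro x hx
    rw [mem_filter] at hx
    rw [Finset.mem_sigma, hs, mem_filter]
    exact ⟨⟨mem_univ _, hx.2⟩, mem_univ _⟩
  have h2 : (s.sigma (fun r => (univ : Finset (DirichletCharacter ℂ (r.val + 1))))).card ≤
      s.card * (4 * R ^ 2) := by
    rw [Finset.card_sigma]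
    refine (Finset.sum_le_card_nsmul s _ (4 * R ^ 2) ?_).trans (by rw [smul_eq_mul])
    intro r _
    have e1 : (univ : Finset (DirichletCharacter ℂ (r.val + 1))).card = (r.val + 1).totient := by
      rw [Finset.card_univ, ← Nat.card_eq_fintype_card]
      exact DirichletCharacter.card_eq_totient_of_hasEnoughRootsOfUnity ℂ (r.val + 1)
    rw [e1]
    have := r.isLt
    exact (Nat.totient_le _).trans (by omega)
  have h3 : s.card ≤ (MM R b b' c).card := by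
    apply Finset.card_le_card_of_injOn (fun r => r.val + 1)
    · intro r hr
      rw [Finset.mem_coe, hs, mem_filter] at hr
      exact Finset.mem_coe.2 hr.2
    · intro x _ y _ hxy
      apply Fin.ext
      simp only [] at hxy
      omega
  have h4 : (MM R b b' c).card ≤ (PP R b b' c).card := Finset.card_image_le
  have h5 : (PP R b b' c).card ≤ (Ioc R (2 * R)).card := by
    apply Finset.card_le_card_of_injOn (fun p => p.1)
    · intro p hp
      obtain ⟨⟨_, k1, k2⟩, _⟩ := pp_mem (Finset.mem_coe.1 hp)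
      exact Finset.mem_coe.2 (mem_Ioc.2 ⟨k1, k2⟩)
    · intro p hp r hr hpr
      obtain ⟨_, _, _, e1⟩ := pp_mem (Finset.mem_coe.1 hp)
      obtain ⟨_, _, _, e2⟩ := pp_mem (Finset.mem_coe.1 hr)
      simp only [] at hpr
      have e3 : b * ((p.2 : ℤ) - (r.2 : ℤ)) = 0 := by
        rw [hpr] at e1
        linarith
      have e4 : (p.2 : ℤ) - (r.2 : ℤ) = 0 := (mul_eq_zero.1 e3).resolve_left hb
      exact Prod.ext hpr (by omega)
  have h6 : (Ioc R (2 * R)).card = R := by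
    rw [Nat.card_Ioc]
    omega
  have h7 : ((PC (4 * R ^ 2)).filter (fun χ => χ.md ∈ MM R b b' c)).card ≤ R * (4 * R ^ 2) := by
    refine (h1.trans h2).trans ?_
    exact Nat.mul_le_mul_right _ (h3.trans (h4.trans (h5.trans h6.le)))
  have h8 : (((PC (4 * R ^ 2)).filter (fun χ => χ.md ∈ MM R b b' c)).card : ℝ) ≤ ((R * (4 * R ^ 2) : ℕ) : ℝ) := by
    exact_mod_cast h7
  refine h8.trans (le_of_eq ?_)
  push_cast
  ring

end Pool.Agent.H24.EL
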