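import Pool.Agent.H67.VU.Th

/-!
# [H24 EL FAM] mean value of the sums over primes for a family of characters with the large sieve bound `V (N + W √N)`

PROOF. As `H67/VU/Cut`, `TyC`, `Th` (copy them), with `s ⊆ PC Q` in place of `PC R` and the hypothesis in place of `ls_mult`. It is only given for
`N ≥ u`; for a sum over `Ioc M (M + N)`, `N ≤ N'`, `u ≤ N'`, extend the coefficients by `0` to `Ioc M (M + N')`. One block of type II (`M1 = M`,
`M2 = 2M`, `N1 = u`, `N2 = T/M`, `u ≤ M ≤ T/u`; lengths `M` and (extended) `T/M ≥ u`):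
`√(V (M + W √M) M α²) √(V (T/M + W √(T/M)) (T/M) β²) ≤ α β V √T √(T + W √(T M) + W T/√M + W² √T)`, and `√(T M), T/√M ≤ T/√u`, so it is at most
`2 α β V (T + √W T/u^(1/4) + W T^(3/4))`. `th_det` (detach one character) has the type I sums: each character `3 u √Q (1+log T)² + 2 √T log T`.
-/

set_option autoImplicit false

namespace Pool.Agent.H24.EL

open Finset Pool.Agent.H21.MT Pool.Agent.H67.VS Pool.Agent.H67.VU


/-- extension of the large sieve hypothesis to short sums -/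
private theorem fam_ext {Q u : ℕ} {s : Finset (Ch Q)} {B : ℕ → ℝ}
    (hls : ∀ (M N : ℕ) (a : ℕ → ℂ), u ≤ N → ∑ c ∈ s, ‖∑ n ∈ Ioc M (M + N), a n * c.2 (n : ZMod (c.1.val + 1))‖ ^ 2 ≤
      B N * ∑ n ∈ Ioc M (M + N), ‖a n‖ ^ 2)
    (M1 M2 N : ℕ) (h : M2 ≤ M1 + N) (hu : u ≤ N) (a : ℕ → ℂ) :
    ∑ c ∈ s, ‖∑ n ∈ Ioc M1 M2, a n * c.2 (n : ZMod (c.1.val + 1))‖ ^ 2 ≤
      B N * ∑ n ∈ Ioc M1 M2, ‖a n‖ ^ 2 := by
  have hsub : Ioc M1 M2 ⊆ Ioc M1 (M1 + N) := Ioc_subset_Ioc le_rfl h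
  have h1 := hls M1 N (fun n => if n ≤ M2 then a n else 0) hu
  have e1 : ∀ c : Ch Q, ∑ n ∈ Ioc M1 (M1 + N), (if n ≤ M2 then a n else 0) * c.2 (n : ZMod (c.1.val + 1)) =
      ∑ n ∈ Ioc M1 M2, a n * c.2 (n : ZMod (c.1.val + 1)) := by
    intro c
    symm
    rw [← sum_subset hsub]
    · apply sum_congr rfl
      intro n hn
      rw [mem_Ioc] at hn
      rw [if_pos hn.2]
    · intro n hn hn'
      rw [mem_Ioc] at hn hn'
      rw [if_neg (by omega), zero_mul]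
  have e2 : ∑ n ∈ Ioc M1 (M1 + N), ‖(if n ≤ M2 then a n else 0)‖ ^ 2 = ∑ n ∈ Ioc M1 M2, ‖a n‖ ^ 2 := by
    symm
    rw [← sum_subset hsub]
    · apply sum_congr rfl
      intro n hn
      rw [mem_Ioc] at hn
      rw [if_pos hn.2]
    · intro n hn hn'
      rw [mem_Ioc] at hn hn'
      rw [if_neg (by omega), norm_zero]
      norm_num
  simp only [e1] at h1
  rw [e2] at h1
  exact h1

private theorem fam_ls {Q u : ℕ} {s : Finset (Ch Q)} {B : ℕ → ℝ}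
    (hls : ∀ (M N : ℕ) (a : ℕ → ℂ), u ≤ N → ∑ c ∈ s, ‖∑ n ∈ Ioc M (M + N), a n * c.2 (n : ZMod (c.1.val + 1))‖ ^ 2 ≤
      B N * ∑ n ∈ Ioc M (M + N), ‖a n‖ ^ 2) (hB : ∀ N, 0 ≤ B N)
    (M1 M2 N : ℕ) (h : M2 ≤ M1 + N) (hu : u ≤ N) (a : ℕ → ℂ) (f g : ℕ → ℕ) (hg : Function.Injective g)
    (P : Finset ℕ) :
    ∑ c ∈ s, ∑ p ∈ P, ‖∑ m ∈ Ioc M1 M2, (if f m = g p then a m else 0) *
        c.2 (m : ZMod (c.1.val + 1))‖ ^ 2 ≤
      B N * ∑ m ∈ Ioc M1 M2, ‖a m‖ ^ 2 := by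
  rw [Finset.sum_comm]
  refine (Finset.sum_le_sum fun p _ => fam_ext hls M1 M2 N h hu (fun m => if f m = g p then a m else 0)).trans ?_
  rw [← Finset.mul_sum]
  refine mul_le_mul_of_nonneg_left ?_ (hB N)
  rw [Finset.sum_comm]
  refine Finset.sum_le_sum fun m _ => ?_
  by_cases hm : ∃ p ∈ P, f m = g p
  · obtain ⟨p, hp, hfp⟩ := hm
    rw [Finset.sum_eq_single_of_mem p hp]
    · rw [if_pos hfp]
    · intro q _ hq
      rw [if_neg, norm_zero]
      · ring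
      · intro h2
        exact hq (hg (h2.symm.trans hfp))
  · push Not at hm
    rw [Finset.sum_eq_zero]
    · positivity
    · intro p hp
      rw [if_neg (hm p hp), norm_zero]
      ring

private theorem fam_bil {Q u : ℕ} {s : Finset (Ch Q)} {B : ℕ → ℝ}
    (hls : ∀ (M N : ℕ) (a : ℕ → ℂ), u ≤ N → ∑ c ∈ s, ‖∑ n ∈ Ioc M (M + N), a n * c.2 (n : ZMod (c.1.val + 1))‖ ^ 2 ≤
      B N * ∑ n ∈ Ioc M (M + N), ‖a n‖ ^ 2) (hB : ∀ N, 0 ≤ B N)
    (M1 M2 N1 N2 L1 L2 : ℕ) (hM : M2 ≤ M1 + L1) (hN : N2 ≤ N1 + L2) (hL1 : u ≤ L1) (hL2 : u ≤ L2) (a b : ℕ → ℂ)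
    (f g f' g' : ℕ → ℕ) (hg : Function.Injective g) (hg' : Function.Injective g')
    (P : Finset ℕ) :
    ∑ c ∈ s, ‖∑ p ∈ P, (∑ m ∈ Ioc M1 M2, (if f m = g p then a m else 0) *
        c.2 (m : ZMod (c.1.val + 1))) * (∑ k ∈ Ioc N1 N2, (if f' k = g' p then b k else 0) *
        c.2 (k : ZMod (c.1.val + 1)))‖ ≤
      Real.sqrt (B L1 * ∑ m ∈ Ioc M1 M2, ‖a m‖ ^ 2) * Real.sqrt (B L2 * ∑ k ∈ Ioc N1 N2, ‖b k‖ ^ 2) := by
  have h1 : ∑ c ∈ s, ‖∑ p ∈ P, (∑ m ∈ Ioc M1 M2, (if f m = g p then a m else 0) *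
        c.2 (m : ZMod (c.1.val + 1))) * (∑ k ∈ Ioc N1 N2, (if f' k = g' p then b k else 0) *
        c.2 (k : ZMod (c.1.val + 1)))‖ ≤
      ∑ x ∈ s ×ˢ P, ‖∑ m ∈ Ioc M1 M2, (if f m = g x.2 then a m else 0) *
        x.1.2 (m : ZMod (x.1.1.val + 1))‖ * ‖∑ k ∈ Ioc N1 N2, (if f' k = g' x.2 then b k else 0) *
        x.1.2 (k : ZMod (x.1.1.val + 1))‖ := by
    rw [Finset.sum_product]
    refine Finset.sum_le_sum fun c _ => ?_
    refine (norm_sum_le _ _).trans (Finset.sum_le_sum fun p _ => ?_)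
    rw [norm_mul]
  refine h1.trans ((Real.sum_mul_le_sqrt_mul_sqrt _ _ _).trans ?_)
  rw [Finset.sum_product, Finset.sum_product]
  have h2 := fam_ls hls hB M1 M2 L1 hM hL1 a f g hg P
  have h3 := fam_ls hls hB N1 N2 L2 hN hL2 b f' g' hg' P
  exact mul_le_mul (Real.sqrt_le_sqrt h2) (Real.sqrt_le_sqrt h3) (Real.sqrt_nonneg _)
    (Real.sqrt_nonneg _)

private theorem fam_cut {Q u : ℕ} {S : Finset (Ch Q)} {B : ℕ → ℝ}
    (hls : ∀ (M N : ℕ) (a : ℕ → ℂ), u ≤ N → ∑ c ∈ S, ‖∑ n ∈ Ioc M (M + N), a n * c.2 (n : ZMod (c.1.val + 1))‖ ^ 2 ≤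
      B N * ∑ n ∈ Ioc M (M + N), ‖a n‖ ^ 2) (hB : ∀ N, 0 ≤ B N)
    (M1 M2 N1 N2 L1 L2 t s : ℕ) (hM : M2 ≤ M1 + L1) (hN : N2 ≤ N1 + L2) (hL1 : u ≤ L1) (hL2 : u ≤ L2)
    (hs : N2 + 1 < 2 ^ s) (a b : ℕ → ℂ) :
    ∑ c ∈ S, ‖∑ m ∈ Ioc M1 M2, ∑ k ∈ Ioc N1 N2,
        if m * k ≤ t then a m * b k * c.2 ((m * k : ℕ) : ZMod (c.1.val + 1)) else 0‖ ≤
      s * (Real.sqrt (B L1 * ∑ m ∈ Ioc M1 M2, ‖a m‖ ^ 2) * Real.sqrt (B L2 * ∑ k ∈ Ioc N1 N2, ‖b k‖ ^ 2)) := by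
  let β : ℕ → ℕ := fun m => min (t / m) N2 + 1
  have hβ : ∀ m, β m < 2 ^ s := fun m =>
    lt_of_le_of_lt (Nat.add_le_add_right (Nat.min_le_right _ _) 1) hs
  have key : ∀ c : Ch Q, (∑ m ∈ Ioc M1 M2, ∑ k ∈ Ioc N1 N2,
        if m * k ≤ t then a m * b k * c.2 ((m * k : ℕ) : ZMod (c.1.val + 1)) else 0) =
      ∑ i ∈ range s, ∑ p ∈ range (N2 + 1),
        (∑ m ∈ Ioc M1 M2, (if β m / 2 ^ i = p + 1 then a m else 0) *
          c.2 (m : ZMod (c.1.val + 1))) *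
        (∑ k ∈ Ioc N1 N2, (if k / 2 ^ i = p then (if (k / 2 ^ i) % 2 = 0 then b k else 0) else 0) *
          c.2 (k : ZMod (c.1.val + 1))) := by
    intro c
    have e1 : ∀ m ∈ Ioc M1 M2, ∀ k ∈ Ioc N1 N2,
        (if m * k ≤ t then a m * b k * c.2 ((m * k : ℕ) : ZMod (c.1.val + 1)) else 0) =
        ∑ i ∈ range s, ∑ p ∈ range (N2 + 1),
          ((if β m / 2 ^ i = p + 1 then a m else 0) * c.2 (m : ZMod (c.1.val + 1))) *
          ((if k / 2 ^ i = p then (if (k / 2 ^ i) % 2 = 0 then b k else 0) else 0) *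
            c.2 (k : ZMod (c.1.val + 1))) := by
      intro m hm k hk
      rw [mem_Ioc] at hm hk
      have hm0 : 0 < m := by omega
      have e2 : m * k ≤ t ↔ k < β m := by
        have : k < β m ↔ k ≤ t / m := by
          simp only [β]
          rw [Nat.lt_succ_iff, Nat.le_min]
          exact ⟨fun h => h.1, fun h => ⟨h, hk.2⟩⟩
        rw [this, Nat.le_div_iff_mul_le hm0, mul_comm]
      have e3 : (if m * k ≤ t then a m * b k * c.2 ((m * k : ℕ) : ZMod (c.1.val + 1)) else 0) =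
          (if k < β m then (1 : ℂ) else 0) *
            (a m * b k * c.2 ((m * k : ℕ) : ZMod (c.1.val + 1))) := by
        by_cases h : m * k ≤ t
        · rw [if_pos h, if_pos (e2.1 h), one_mul]
        · rw [if_neg h, if_neg (fun h' => h (e2.2 h')), zero_mul]
      rw [e3, bit_sum k (β m) s (hβ m), Finset.sum_mul]
      refine Finset.sum_congr rfl fun i _ => ?_
      have hp : k / 2 ^ i ∈ range (N2 + 1) := by
        rw [mem_range]
        have := Nat.div_le_self k (2 ^ i)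
        omega
      rw [Finset.sum_eq_single_of_mem (k / 2 ^ i) hp]
      · rw [if_pos rfl, Nat.cast_mul, map_mul]
        by_cases h1 : (k / 2 ^ i) % 2 = 0
        · by_cases h2 : β m / 2 ^ i = k / 2 ^ i + 1
          · rw [if_pos ⟨h1, h2⟩, if_pos h2, if_pos h1]
            ring
          · rw [if_neg (fun h => h2 h.2), if_neg h2]
            ring
        · rw [if_neg (fun h => h1 h.1), if_neg h1]
          ring
      · intro p _ hpk
        rw [if_neg (Ne.symm hpk)]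
        ring
    rw [Finset.sum_congr rfl fun m hm => Finset.sum_congr rfl fun k hk => e1 m hm k hk]
    have e4 : ∀ (F : ℕ → ℕ → ℕ → ℕ → ℂ), ∑ m ∈ Ioc M1 M2, ∑ k ∈ Ioc N1 N2, ∑ i ∈ range s,
        ∑ p ∈ range (N2 + 1), F m k i p = ∑ i ∈ range s, ∑ p ∈ range (N2 + 1),
        ∑ m ∈ Ioc M1 M2, ∑ k ∈ Ioc N1 N2, F m k i p := by
      intro F
      calc _ = ∑ m ∈ Ioc M1 M2, ∑ i ∈ range s, ∑ k ∈ Ioc N1 N2,
            ∑ p ∈ range (N2 + 1), F m k i p :=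
            Finset.sum_congr rfl fun m _ => Finset.sum_comm
        _ = ∑ i ∈ range s, ∑ m ∈ Ioc M1 M2, ∑ k ∈ Ioc N1 N2,
            ∑ p ∈ range (N2 + 1), F m k i p := Finset.sum_comm
        _ = ∑ i ∈ range s, ∑ m ∈ Ioc M1 M2, ∑ p ∈ range (N2 + 1),
            ∑ k ∈ Ioc N1 N2, F m k i p :=
            Finset.sum_congr rfl fun i _ => Finset.sum_congr rfl fun m _ => Finset.sum_comm
        _ = _ := Finset.sum_congr rfl fun i _ => Finset.sum_comm
    rw [e4]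
    refine Finset.sum_congr rfl fun i _ => Finset.sum_congr rfl fun p _ => ?_
    rw [Finset.sum_mul_sum]
  have hstep : ∑ c ∈ S, ‖∑ m ∈ Ioc M1 M2, ∑ k ∈ Ioc N1 N2,
        if m * k ≤ t then a m * b k * c.2 ((m * k : ℕ) : ZMod (c.1.val + 1)) else 0‖ ≤
      ∑ i ∈ range s, ∑ c ∈ S, ‖∑ p ∈ range (N2 + 1),
        (∑ m ∈ Ioc M1 M2, (if β m / 2 ^ i = p + 1 then a m else 0) *
          c.2 (m : ZMod (c.1.val + 1))) *
        (∑ k ∈ Ioc N1 N2, (if k / 2 ^ i = p then (if (k / 2 ^ i) % 2 = 0 then b k else 0) else 0) *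
          c.2 (k : ZMod (c.1.val + 1)))‖ := by
    rw [Finset.sum_comm]
    refine Finset.sum_le_sum fun c _ => ?_
    rw [key c]
    exact norm_sum_le _ _
  refine hstep.trans ?_
  have hone : ∀ i ∈ range s, ∑ c ∈ S, ‖∑ p ∈ range (N2 + 1),
        (∑ m ∈ Ioc M1 M2, (if β m / 2 ^ i = p + 1 then a m else 0) *
          c.2 (m : ZMod (c.1.val + 1))) *
        (∑ k ∈ Ioc N1 N2, (if k / 2 ^ i = p then (if (k / 2 ^ i) % 2 = 0 then b k else 0) else 0) *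
          c.2 (k : ZMod (c.1.val + 1)))‖ ≤
      Real.sqrt (B L1 * ∑ m ∈ Ioc M1 M2, ‖a m‖ ^ 2) * Real.sqrt (B L2 * ∑ k ∈ Ioc N1 N2, ‖b k‖ ^ 2) := by
    intro i _
    have h1 := fam_bil hls hB M1 M2 N1 N2 L1 L2 hM hN hL1 hL2 a
      (fun k => if (k / 2 ^ i) % 2 = 0 then b k else 0) (fun m => β m / 2 ^ i) (fun p => p + 1)
      (fun k => k / 2 ^ i) (fun p => p) (fun x y h => Nat.succ_injective h) (fun x y h => h)
      (range (N2 + 1))
    refine h1.trans ?_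
    refine mul_le_mul_of_nonneg_left ?_ (Real.sqrt_nonneg _)
    apply Real.sqrt_le_sqrt
    refine mul_le_mul_of_nonneg_left ?_ (hB L2)
    refine Finset.sum_le_sum fun k _ => ?_
    beta_reduce
    split_ifs
    · exact le_rfl
    · rw [norm_zero, zero_pow two_ne_zero]
      positivity
  refine (Finset.sum_le_sum hone).trans ?_
  rw [Finset.sum_const, card_range, nsmul_eq_mul]

private theorem tyc_blk (f : ℕ → ℂ) (u : ℕ) (hu : 1 ≤ u) (J : ℕ) :
    ∑ m ∈ Ioc u (2 ^ J * u), f m =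
      ∑ i ∈ range J, ∑ m ∈ Ioc (2 ^ i * u) (2 * (2 ^ i * u)), f m := by
  induction J with
  | zero => simp
  | succ J ih =>
    rw [Finset.sum_range_succ, ← ih]
    have e : 2 * (2 ^ J * u) = 2 ^ (J + 1) * u := by ring
    rw [e, Finset.sum_Ioc_consecutive]
    · calc u = 1 * u := (one_mul u).symm
        _ ≤ 2 ^ J * u := Nat.mul_le_mul_right u Nat.one_le_two_pow
    · exact Nat.mul_le_mul_right u (Nat.pow_le_pow_right (by norm_num) (by omega))

/-- the numerical inequality for one block -/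
private theorem tyc_num {M T u V W α β : ℝ} (hu : 1 ≤ u) (hM : u ≤ M) (hMT : M * u ≤ T)
    (hV : 0 ≤ V) (hW : 0 ≤ W) (hα : 0 ≤ α) (hβ : 0 ≤ β) :
    Real.sqrt (V * (M + W * √M) * (M * α ^ 2)) * Real.sqrt (V * (T / M + W * √(T / M)) * (T / M * β ^ 2)) ≤
      2 * α * β * (V * (T + √W * T / √(√u) + W * (√T * √(√T)))) := by
  have hu0 : 0 < u := by linarith
  have hM0 : 0 < M := by linarith
  have hT0 : 0 < T := by
    have : 0 < M * u := by positivity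
    linarith
  obtain ⟨x, hx0, hx⟩ : ∃ x : ℝ, 0 ≤ x ∧ T = x ^ 4 := by
    refine ⟨√(√T), Real.sqrt_nonneg _, ?_⟩
    have e1 : √(√T) ^ 2 = √T := Real.sq_sqrt (Real.sqrt_nonneg _)
    have e2 : √T ^ 2 = T := Real.sq_sqrt hT0.le
    calc T = (√(√T) ^ 2) ^ 2 := by rw [e1, e2]
      _ = _ := by ring
  obtain ⟨y, hy0, hy⟩ : ∃ y : ℝ, 0 ≤ y ∧ u = y ^ 4 := by
    refine ⟨√(√u), Real.sqrt_nonneg _, ?_⟩
    have e1 : √(√u) ^ 2 = √u := Real.sq_sqrt (Real.sqrt_nonneg _)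
    have e2 : √u ^ 2 = u := Real.sq_sqrt hu0.le
    calc u = (√(√u) ^ 2) ^ 2 := by rw [e1, e2]
      _ = _ := by ring
  obtain ⟨w, hw0, hw⟩ : ∃ w : ℝ, 0 ≤ w ∧ W = w ^ 2 := ⟨√W, Real.sqrt_nonneg _, (Real.sq_sqrt hW).symm⟩
  obtain ⟨z, hz0, hz⟩ : ∃ z : ℝ, 0 ≤ z ∧ M = z ^ 2 := ⟨√M, Real.sqrt_nonneg _, (Real.sq_sqrt hM0.le).symm⟩
  have hx1 : 0 < x := by
    rcases hx0.eq_or_lt with h | h
    · rw [← h] at hx
      norm_num at hx
      linarith
    · exact h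
  have hy1 : 0 < y := by
    rcases hy0.eq_or_lt with h | h
    · rw [← h] at hy
      norm_num at hy
      linarith
    · exact h
  have hz1 : 0 < z := by
    rcases hz0.eq_or_lt with h | h
    · rw [← h] at hz
      norm_num at hz
      linarith
    · exact h
  have sT : √T = x ^ 2 := by
    rw [hx, show x ^ 4 = (x ^ 2) ^ 2 by ring, Real.sqrt_sq (by positivity)]
  have su : √u = y ^ 2 := by
    rw [hy, show y ^ 4 = (y ^ 2) ^ 2 by ring, Real.sqrt_sq (by positivity)]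
  have sM : √M = z := by rw [hz, Real.sqrt_sq hz0]
  have sW : √W = w := by rw [hw, Real.sqrt_sq hw0]
  have sTM : √(T / M) = x ^ 2 / z := by
    rw [Real.sqrt_div' _ hM0.le, sT, sM]
  rw [← Real.sqrt_mul (by positivity)]
  rw [sTM, sT, su, sM, sW, Real.sqrt_sq hx0, Real.sqrt_sq hy0]
  have hQ0 : 0 ≤ 2 * α * β * (V * (T + w * T / y + W * (x ^ 2 * x))) := by positivity
  rw [← Real.sqrt_sq hQ0]
  apply Real.sqrt_le_sqrt
  -- `z^2 y^4 ≤ x^4`, `y^4 ≤ z^2`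
  have h1 : z * y ^ 2 ≤ x ^ 2 := by
    rw [hz, hy, hx] at hMT
    have : (z * y ^ 2) ^ 2 ≤ (x ^ 2) ^ 2 := by
      calc (z * y ^ 2) ^ 2 = z ^ 2 * y ^ 4 := by ring
        _ ≤ x ^ 4 := hMT
        _ = (x ^ 2) ^ 2 := by ring
    exact (pow_le_pow_iff_left₀ (by positivity) (by positivity) two_ne_zero).1 this
  have h2 : y ^ 2 ≤ z := by
    rw [hz, hy] at hM
    have : (y ^ 2) ^ 2 ≤ z ^ 2 := by
      calc (y ^ 2) ^ 2 = y ^ 4 := by ring
        _ ≤ z ^ 2 := hM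
    exact (pow_le_pow_iff_left₀ (by positivity) (by positivity) two_ne_zero).1 this
  have e1 : V * (M + W * z) * (M * α ^ 2) * (V * (T / M + W * (x ^ 2 / z)) * (T / M * β ^ 2)) =
      (α * β * V) ^ 2 * (T * (T + W * (x ^ 2 * z) + W * (T / z) + W ^ 2 * x ^ 2)) := by
    rw [hz, hx]
    field_simp
    ring
  rw [e1]
  have h3 : x ^ 2 * z ≤ T / y ^ 2 := by
    rw [le_div_iff₀ (by positivity), hx]
    calc x ^ 2 * z * y ^ 2 = x ^ 2 * (z * y ^ 2) := by ring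
      _ ≤ x ^ 2 * x ^ 2 := mul_le_mul_of_nonneg_left h1 (by positivity)
      _ = x ^ 4 := by ring
  have h4 : T / z ≤ T / y ^ 2 := div_le_div_of_nonneg_left hT0.le (by positivity) h2
  have h5 : T * (T + W * (x ^ 2 * z) + W * (T / z) + W ^ 2 * x ^ 2) ≤
      T * (T + 2 * (W * (T / y ^ 2)) + W ^ 2 * x ^ 2) := by
    apply mul_le_mul_of_nonneg_left _ hT0.le
    have h6 := mul_le_mul_of_nonneg_left h3 hW
    have h7 := mul_le_mul_of_nonneg_left h4 hW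
    linarith
  have h8 : T * (T + 2 * (W * (T / y ^ 2)) + W ^ 2 * x ^ 2) ≤
      4 * (T + w * T / y + W * (x ^ 2 * x)) ^ 2 := by
    have g1 : 0 ≤ w * T / y := by positivity
    have g2 : 0 ≤ W * (x ^ 2 * x) := by positivity
    have g3 : (w * T / y) ^ 2 = T * (W * (T / y ^ 2)) := by
      rw [hw]
      field_simp
    have g4 : (W * (x ^ 2 * x)) ^ 2 = T * (W ^ 2 * x ^ 2) := by
      rw [hx]
      ring
    have g5 : 0 ≤ T * (w * T / y) := by positivity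
    have g6 : 0 ≤ T * (W * (x ^ 2 * x)) := by positivity
    have g7 : 0 ≤ (w * T / y) * (W * (x ^ 2 * x)) := by positivity
    have g8 : (T + w * T / y + W * (x ^ 2 * x)) ^ 2 =
        T ^ 2 + (w * T / y) ^ 2 + (W * (x ^ 2 * x)) ^ 2 +
        2 * (T * (w * T / y)) + 2 * (T * (W * (x ^ 2 * x))) +
        2 * ((w * T / y) * (W * (x ^ 2 * x))) := by ring
    rw [g8, g3, g4]
    have g9 : 0 ≤ T * (W ^ 2 * x ^ 2) := by positivity
    have g10 : 0 ≤ T ^ 2 := sq_nonneg T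
    have g12 : 0 ≤ T * (W * (T / y ^ 2)) := by positivity
    have g11 : T * (T + 2 * (W * (T / y ^ 2)) + W ^ 2 * x ^ 2) =
      T ^ 2 + 2 * (T * (W * (T / y ^ 2))) + T * (W ^ 2 * x ^ 2) := by ring
    rw [g11]
    linarith
  calc (α * β * V) ^ 2 * (T * (T + W * (x ^ 2 * z) + W * (T / z) + W ^ 2 * x ^ 2))
      ≤ (α * β * V) ^ 2 * (4 * (T + w * T / y + W * (x ^ 2 * x)) ^ 2) :=
        mul_le_mul_of_nonneg_left (h5.trans h8) (by positivity)
    _ = _ := by ring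

private theorem tyc_log {T : ℕ} (hT : 1 ≤ T) :
    ((Nat.log 2 T : ℕ) : ℝ) ≤ 2 * Real.log T := by
  have h1 : 2 ^ Nat.log 2 T ≤ T := Nat.pow_log_le_self 2 (by omega)
  have h2 : ((2 : ℝ) ^ Nat.log 2 T) ≤ T := by exact_mod_cast h1
  have h3 := Real.log_le_log (by positivity) h2
  rw [Real.log_pow] at h3
  have h4 : (0.6931471803 : ℝ) < Real.log 2 := Real.log_two_gt_d9
  have h5 : (0 : ℝ) ≤ (Nat.log 2 T : ℝ) := Nat.cast_nonneg _
  nlinarith

private theorem fam_ty {Q u : ℕ} {S : Finset (Ch Q)} {V W : ℝ} (hV : 0 ≤ V) (hW : 0 ≤ W)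
    (hls : ∀ (M N : ℕ) (a : ℕ → ℂ), u ≤ N → ∑ c ∈ S, ‖∑ n ∈ Ioc M (M + N), a n * c.2 (n : ZMod (c.1.val + 1))‖ ^ 2 ≤
      V * ((N : ℝ) + W * √(N : ℝ)) * ∑ n ∈ Ioc M (M + N), ‖a n‖ ^ 2)
    (T : ℕ) (hu : 1 ≤ u) (hT : 1 ≤ T) (a b : ℕ → ℝ) (α β : ℝ)
    (ha : ∀ m, u < m → m ≤ T → |a m| ≤ α) (hb : ∀ k, u < k → k ≤ T → |b k| ≤ β) (hα : 0 ≤ α) (hβ : 0 ≤ β) :
    ∑ c ∈ S, ‖∑ m ∈ Ioc u T, ((a m : ℝ) : ℂ) * ∑ k ∈ Ioc u (T / m), ((b k : ℝ) : ℂ) *
        c.2 ((m * k : ℕ) : ZMod (c.1.val + 1))‖ ≤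
      12 * α * β * (1 + Real.log T) ^ 2 *
        (V * ((T : ℝ) + √W * T / √(√(u : ℝ)) + W * (√(T : ℝ) * √(√(T : ℝ))))) := by
  obtain ⟨J, hJ⟩ : ∃ J : ℕ, J = Nat.log 2 T + 1 := ⟨_, rfl⟩
  have hTJ : T < 2 ^ J := by
    rw [hJ]
    exact Nat.lt_pow_succ_log_self (by norm_num) T
  have hT0 : (0 : ℝ) < T := by exact_mod_cast hT
  have hlogT : 0 ≤ Real.log T := Real.log_nonneg (by exact_mod_cast hT)
  have hJ2 : (J : ℝ) ≤ 2 * (1 + Real.log T) := by
    have := tyc_log hT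
    rw [hJ]
    push_cast
    linarith
  obtain ⟨D, hD⟩ : ∃ D : ℝ, D = V * ((T : ℝ) + √W * T / √(√(u : ℝ)) + W * (√(T : ℝ) * √(√(T : ℝ)))) := ⟨_, rfl⟩
  have hD0 : 0 ≤ D := by rw [hD]; positivity
  have hblock : ∀ i ∈ range J, ∑ c ∈ S, ‖∑ m ∈ Ioc (2 ^ i * u) (2 * (2 ^ i * u)),
      ((a m : ℝ) : ℂ) * ∑ k ∈ Ioc u (T / m), ((b k : ℝ) : ℂ) *
        c.2 ((m * k : ℕ) : ZMod (c.1.val + 1))‖ ≤ 6 * (1 + Real.log T) * (α * β * D) := by
    intro i _
    obtain ⟨M, hM⟩ : ∃ M : ℕ, M = 2 ^ i * u := ⟨_, rfl⟩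
    rw [← hM]
    have hMu : u ≤ M := by
      rw [hM]
      calc u = 1 * u := (one_mul u).symm
        _ ≤ 2 ^ i * u := Nat.mul_le_mul_right u Nat.one_le_two_pow
    have hM1 : 1 ≤ M := by omega
    by_cases hMT : M * u ≤ T
    · have hN : u ≤ T / M := by
        rw [Nat.le_div_iff_mul_le (by omega), mul_comm]
        exact hMT
      have hs : T / M + 1 < 2 ^ (J + 1) := by
        have h1 : T / M ≤ T := Nat.div_le_self T M
        rw [pow_succ]
        omega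
      have key := fam_cut hls (fun N => by positivity) M (2 * M) u (T / M) M (T / M) T (J + 1) (by omega) (by omega) hMu hN hs
        (fun m => if m ≤ T then ((a m : ℝ) : ℂ) else 0) (fun k => ((b k : ℝ) : ℂ))
      have e1 : ∀ c : Ch Q, (∑ m ∈ Ioc M (2 * M), ∑ k ∈ Ioc u (T / M),
          if m * k ≤ T then (if m ≤ T then ((a m : ℝ) : ℂ) else 0) * ((b k : ℝ) : ℂ) *
            c.2 ((m * k : ℕ) : ZMod (c.1.val + 1)) else 0) =
          ∑ m ∈ Ioc M (2 * M), ((a m : ℝ) : ℂ) * ∑ k ∈ Ioc u (T / m), ((b k : ℝ) : ℂ) *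
            c.2 ((m * k : ℕ) : ZMod (c.1.val + 1)) := by
        intro c
        refine Finset.sum_congr rfl fun m hm => ?_
        rw [mem_Ioc] at hm
        have hm0 : 0 < m := by omega
        rw [Finset.mul_sum, ← Finset.sum_filter]
        have hset : (Ioc u (T / M)).filter (fun k => m * k ≤ T) = Ioc u (T / m) := by
          ext k
          rw [mem_filter, mem_Ioc, mem_Ioc]
          constructor
          · rintro ⟨h1, h2⟩
            refine ⟨h1.1, ?_⟩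
            rw [Nat.le_div_iff_mul_le hm0, mul_comm]
            exact h2
          · rintro ⟨h1, h2⟩
            have h3 : T / m ≤ T / M := Nat.div_le_div_left (by omega) (by omega)
            rw [Nat.le_div_iff_mul_le hm0, mul_comm] at h2
            refine ⟨⟨h1, ?_⟩, h2⟩
            refine le_trans ?_ h3
            rw [Nat.le_div_iff_mul_le hm0, mul_comm]
            exact h2
        rw [hset]
        refine Finset.sum_congr rfl fun k hk => ?_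
        rw [mem_Ioc] at hk
        have hmT : m ≤ T := by
          by_contra hcon
          have : T / m = 0 := Nat.div_eq_of_lt (by omega)
          omega
        rw [if_pos hmT]
        ring
      simp only [e1] at key
      refine key.trans ?_
      have hMr : (1 : ℝ) ≤ M := by exact_mod_cast hM1
      have hur : (1 : ℝ) ≤ u := by exact_mod_cast hu
      have hMur : (u : ℝ) ≤ M := by exact_mod_cast hMu
      have hMTr : (M : ℝ) * u ≤ T := by exact_mod_cast hMT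
      have hA : ∑ m ∈ Ioc M (2 * M), ‖(if m ≤ T then ((a m : ℝ) : ℂ) else 0)‖ ^ 2 ≤
          M * α ^ 2 := by
        calc ∑ m ∈ Ioc M (2 * M), ‖(if m ≤ T then ((a m : ℝ) : ℂ) else 0)‖ ^ 2
            ≤ ∑ _m ∈ Ioc M (2 * M), α ^ 2 := by
              refine Finset.sum_le_sum fun m hm => ?_
              rw [mem_Ioc] at hm
              apply pow_le_pow_left₀ (norm_nonneg _)
              split_ifs with h
              · rw [Complex.norm_real, Real.norm_eq_abs]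
                exact ha m (by omega) h
              · rw [norm_zero]
                exact hα
          _ = M * α ^ 2 := by
              rw [Finset.sum_const, Nat.card_Ioc, nsmul_eq_mul]
              congr 2
              omega
      have hB : ∑ k ∈ Ioc u (T / M), ‖((b k : ℝ) : ℂ)‖ ^ 2 ≤ (T : ℝ) / M * β ^ 2 := by
        calc ∑ k ∈ Ioc u (T / M), ‖((b k : ℝ) : ℂ)‖ ^ 2
            ≤ ∑ _k ∈ Ioc u (T / M), β ^ 2 := by
              refine Finset.sum_le_sum fun k hk => ?_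
              rw [mem_Ioc] at hk
              apply pow_le_pow_left₀ (norm_nonneg _)
              rw [Complex.norm_real, Real.norm_eq_abs]
              exact hb k hk.1 (hk.2.trans (Nat.div_le_self T M))
          _ = ((T / M - u : ℕ) : ℝ) * β ^ 2 := by
              rw [Finset.sum_const, Nat.card_Ioc, nsmul_eq_mul]
          _ ≤ (T : ℝ) / M * β ^ 2 := by
              apply mul_le_mul_of_nonneg_right _ (by positivity)
              have h1 : ((T / M - u : ℕ) : ℝ) ≤ ((T / M : ℕ) : ℝ) := by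
                exact_mod_cast Nat.sub_le _ _
              exact h1.trans Nat.cast_div_le
      have hA2 : V * ((M : ℝ) + W * √(M : ℝ)) *
          ∑ m ∈ Ioc M (2 * M), ‖(if m ≤ T then ((a m : ℝ) : ℂ) else 0)‖ ^ 2 ≤
          V * ((M : ℝ) + W * √(M : ℝ)) * (M * α ^ 2) :=
        mul_le_mul_of_nonneg_left hA (by positivity)
      have hB2 : V * (((T / M : ℕ) : ℝ) + W * √((T / M : ℕ) : ℝ)) *
          ∑ k ∈ Ioc u (T / M), ‖((b k : ℝ) : ℂ)‖ ^ 2 ≤
          V * ((T : ℝ) / M + W * √((T : ℝ) / M)) * ((T : ℝ) / M * β ^ 2) := by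
        have h1 : ((T / M : ℕ) : ℝ) ≤ (T : ℝ) / M := Nat.cast_div_le
        have h2 : √((T / M : ℕ) : ℝ) ≤ √((T : ℝ) / M) := Real.sqrt_le_sqrt h1
        apply mul_le_mul _ hB (Finset.sum_nonneg fun _ _ => by positivity) (by positivity)
        exact mul_le_mul_of_nonneg_left (add_le_add h1 (mul_le_mul_of_nonneg_left h2 hW)) hV
      have hnum := tyc_num hur hMur hMTr hV hW hα hβ
      rw [← hD] at hnum
      have hs0 : (((J + 1 : ℕ) : ℝ)) ≤ 3 * (1 + Real.log T) := by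
        push_cast
        linarith
      calc ((J + 1 : ℕ) : ℝ) * (Real.sqrt (V * ((M : ℝ) + W * √(M : ℝ)) *
            ∑ m ∈ Ioc M (2 * M), ‖(if m ≤ T then ((a m : ℝ) : ℂ) else 0)‖ ^ 2) *
          Real.sqrt (V * (((T / M : ℕ) : ℝ) + W * √((T / M : ℕ) : ℝ)) *
            ∑ k ∈ Ioc u (T / M), ‖((b k : ℝ) : ℂ)‖ ^ 2))
          ≤ (3 * (1 + Real.log T)) * (2 * α * β * D) := by
            apply mul_le_mul hs0 _ (by positivity) (by positivity)
            refine le_trans ?_ hnum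
            exact mul_le_mul (Real.sqrt_le_sqrt hA2) (Real.sqrt_le_sqrt hB2)
              (Real.sqrt_nonneg _) (Real.sqrt_nonneg _)
        _ = 6 * (1 + Real.log T) * (α * β * D) := by ring
    · have hz : ∀ c : Ch Q, ‖∑ m ∈ Ioc M (2 * M),
          ((a m : ℝ) : ℂ) * ∑ k ∈ Ioc u (T / m), ((b k : ℝ) : ℂ) *
          c.2 ((m * k : ℕ) : ZMod (c.1.val + 1))‖ = 0 := by
        intro c
        rw [norm_eq_zero]
        apply Finset.sum_eq_zero
        intro m hm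
        rw [mem_Ioc] at hm
        have : Ioc u (T / m) = ∅ := by
          rw [Finset.Ioc_eq_empty_iff, not_lt]
          have h1 : T / m ≤ T / M := Nat.div_le_div_left (by omega) (by omega)
          have h2 : T / M < u := by
            rw [Nat.div_lt_iff_lt_mul (by omega), mul_comm]
            omega
          omega
        rw [this, Finset.sum_empty, mul_zero]
      rw [Finset.sum_congr rfl (fun c _ => hz c), Finset.sum_const_zero]
      positivity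
  have hmain : ∀ c ∈ S, ‖∑ m ∈ Ioc u T, ((a m : ℝ) : ℂ) *
      ∑ k ∈ Ioc u (T / m), ((b k : ℝ) : ℂ) * c.2 ((m * k : ℕ) : ZMod (c.1.val + 1))‖ ≤
      ∑ i ∈ range J, ‖∑ m ∈ Ioc (2 ^ i * u) (2 * (2 ^ i * u)),
      ((a m : ℝ) : ℂ) * ∑ k ∈ Ioc u (T / m), ((b k : ℝ) : ℂ) *
        c.2 ((m * k : ℕ) : ZMod (c.1.val + 1))‖ := by
    intro c _
    have e1 : ∑ m ∈ Ioc u T, ((a m : ℝ) : ℂ) *
        ∑ k ∈ Ioc u (T / m), ((b k : ℝ) : ℂ) * c.2 ((m * k : ℕ) : ZMod (c.1.val + 1)) =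
        ∑ m ∈ Ioc u (2 ^ J * u), ((a m : ℝ) : ℂ) *
        ∑ k ∈ Ioc u (T / m), ((b k : ℝ) : ℂ) * c.2 ((m * k : ℕ) : ZMod (c.1.val + 1)) := by
      apply Finset.sum_subset
      · apply Finset.Ioc_subset_Ioc_right
        calc T ≤ 2 ^ J := hTJ.le
          _ = 2 ^ J * 1 := (mul_one _).symm
          _ ≤ 2 ^ J * u := Nat.mul_le_mul_left _ hu
      · intro m hm hm2
        rw [mem_Ioc] at hm hm2
        have hmT : T < m := by omega
        rw [Nat.div_eq_of_lt hmT, Finset.Ioc_eq_empty_iff.2 (by omega), Finset.sum_empty, mul_zero]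
    rw [e1, tyc_blk _ u hu J]
    exact norm_sum_le _ _
  refine (Finset.sum_le_sum hmain).trans ?_
  rw [Finset.sum_comm]
  refine (Finset.sum_le_sum hblock).trans ?_
  rw [Finset.sum_const, card_range, nsmul_eq_mul, ← hD]
  calc (J : ℝ) * (6 * (1 + Real.log T) * (α * β * D))
      ≤ (2 * (1 + Real.log T)) * (6 * (1 + Real.log T) * (α * β * D)) :=
        mul_le_mul_of_nonneg_right hJ2 (by positivity)
    _ = 12 * α * β * (1 + Real.log T) ^ 2 * D := by ring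

theorem fam : ∃ C : ℝ, 0 < C ∧ ∀ (Q u t T : ℕ) (s : Finset (Ch Q)) (V W : ℝ), 1 ≤ u → u ^ 3 ≤ t → t ≤ T → Q ≤ T →
    s ⊆ PC Q → 0 ≤ V → 0 ≤ W →
    (∀ (M N : ℕ) (a : ℕ → ℂ), u ≤ N → ∑ c ∈ s, ‖∑ n ∈ Ioc M (M + N), a n * c.2 (n : ZMod (c.1.val + 1))‖ ^ 2 ≤
      V * ((N : ℝ) + W * √(N : ℝ)) * ∑ n ∈ Ioc M (M + N), ‖a n‖ ^ 2) →
    ∑ c ∈ s, ‖ThC t T onef c.2‖ ≤ C * (1 + Real.log T) ^ 5 *
      (V * ((T : ℝ) + √W * T / √(√(u : ℝ)) + W * (√(T : ℝ) * √(√(T : ℝ)))) + (s.card : ℝ) * (√(Q : ℝ) * u + √(T : ℝ))) := by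
  classical
  refine ⟨60, by norm_num, ?_⟩
  intro Q u t T s V W hu hut htT hQT hs hV0 hW0 hls
  obtain ⟨c', b, hc', hb, hV⟩ := vaughan u hu
  have hu3 : 1 ≤ u ^ 3 := Nat.one_le_pow _ _ hu
  have ht1 : 1 ≤ t := by omega
  have hT1 : 1 ≤ T := by omega
  have hTr : (1 : ℝ) ≤ T := by exact_mod_cast hT1
  have htr : (1 : ℝ) ≤ t := by exact_mod_cast ht1
  have hur : (1 : ℝ) ≤ u := by exact_mod_cast hu
  have hlT : 0 ≤ Real.log T := Real.log_natCast_nonneg T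
  have hlt : Real.log t ≤ Real.log T :=
    Real.log_le_log (by linarith) (by exact_mod_cast htT)
  have hlt0 : 0 ≤ Real.log t := Real.log_natCast_nonneg t
  obtain ⟨lg, hlg⟩ : ∃ lg, lg = 1 + Real.log T := ⟨_, rfl⟩
  have hlg1 : 1 ≤ lg := by linarith
  obtain ⟨E, hE⟩ : ∃ E : ℝ, E = V * ((T : ℝ) + √W * T / √(√(u : ℝ)) + W * (√(T : ℝ) * √(√(T : ℝ)))) := ⟨_, rfl⟩
  have hE0 : 0 ≤ E := by
    rw [hE]
    positivity
  have hloglg : ∀ m : ℕ, m ≤ T → Real.log m ≤ lg := by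
    intro m hm
    rcases Nat.eq_zero_or_pos m with h | h
    · rw [h, Nat.cast_zero, Real.log_zero]
      linarith
    · have : Real.log m ≤ Real.log T :=
        Real.log_le_log (by exact_mod_cast h) (by exact_mod_cast hm)
      linarith
  -- the bilinear sums for `Y ≤ T`
  have hbil : ∀ (Y : ℕ), 1 ≤ Y → Y ≤ T → ∀ (a' b' : ℕ → ℝ) (α β : ℝ),
      (∀ m, u < m → m ≤ T → |a' m| ≤ α) → (∀ k, u < k → k ≤ T → |b' k| ≤ β) → 0 ≤ α → 0 ≤ β →
      α * β = lg → ∑ c ∈ s, ‖thG u Y a' b' c.2‖ ≤ 12 * lg ^ 3 * E := by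
    intro Y hY1 hYT a' b' α β ha hb' hα hβ hαβ
    have h1 := fam_ty hV0 hW0 hls Y hu hY1 a' b' α β (fun m h1 h2 => ha m h1 (h2.trans hYT))
      (fun k h1 h2 => hb' k h1 (h2.trans hYT)) hα hβ
    refine h1.trans ?_
    have hYr : (1 : ℝ) ≤ Y := by exact_mod_cast hY1
    have hYTr : (Y : ℝ) ≤ T := by exact_mod_cast hYT
    have hlY : Real.log Y ≤ Real.log T := Real.log_le_log (by linarith) hYTr
    have hlY0 : 0 ≤ Real.log Y := Real.log_natCast_nonneg Y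
    have e1 : (1 + Real.log Y) ^ 2 ≤ lg ^ 2 := by
      rw [hlg]
      gcongr
    have e2 : V * ((Y : ℝ) + √W * Y / √(√(u : ℝ)) + W * (√(Y : ℝ) * √(√(Y : ℝ)))) ≤ E := by
      rw [hE]
      gcongr
    have e3 : 0 ≤ V * ((Y : ℝ) + √W * Y / √(√(u : ℝ)) + W * (√(Y : ℝ) * √(√(Y : ℝ)))) := by positivity
    calc 12 * α * β * (1 + Real.log Y) ^ 2 *
          (V * ((Y : ℝ) + √W * Y / √(√(u : ℝ)) + W * (√(Y : ℝ) * √(√(Y : ℝ)))))
        = 12 * (α * β) * (1 + Real.log Y) ^ 2 *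
          (V * ((Y : ℝ) + √W * Y / √(√(u : ℝ)) + W * (√(Y : ℝ) * √(√(Y : ℝ))))) := by ring
      _ ≤ 12 * lg * lg ^ 2 * E := by
          rw [hαβ]
          gcongr
      _ = 12 * lg ^ 3 * E := by ring
  have hdet : ∀ c ∈ s, ‖ThC t T onef c.2‖ ≤
      ‖thG u T (fun m => if m ≤ u * u then c' m else 0) onef c.2‖ +
      ‖thG u t (fun m => if m ≤ u * u then c' m else 0) onef c.2‖ +
      ‖thG u T (fun m => ((ArithmeticFunction.moebius m : ℤ) : ℝ)) b c.2‖ +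
      ‖thG u t (fun m => ((ArithmeticFunction.moebius m : ℤ) : ℝ)) b c.2‖ +
      (3 * u * Real.sqrt Q * lg ^ 2 + 2 * Real.sqrt T * Real.log T) := by
    intro c hc
    rw [hlg]
    have hc2 := hs hc
    unfold PC at hc2
    rw [mem_filter] at hc2
    obtain ⟨_, hp, h2⟩ := hc2
    have hlt := c.1.isLt
    exact th_det hu hut htT hQT c.2 hp h2 (by unfold Ch.md at h2; omega) c' b hc' hV
  have hca : ∀ m, u < m → m ≤ T → |(if m ≤ u * u then c' m else 0)| ≤ lg := by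
    intro m _ hm
    split_ifs
    · exact (hc' m).trans (hloglg m hm)
    · rw [abs_zero]
      linarith
  have hone : ∀ k, u < k → k ≤ T → |onef k| ≤ 1 := by
    intro k _ _
    unfold onef
    rw [abs_one]
  have hmu : ∀ m : ℕ, u < m → m ≤ T → |((ArithmeticFunction.moebius m : ℤ) : ℝ)| ≤ 1 := by
    intro m _ _
    exact_mod_cast ArithmeticFunction.abs_moebius_le_one
  have hbb : ∀ k, u < k → k ≤ T → |b k| ≤ lg := by
    intro k _ hk
    exact (hb k).trans (hloglg k hk)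
  have b1 := hbil T hT1 le_rfl _ onef lg 1 hca hone (by linarith) zero_le_one (by ring)
  have b2 := hbil t ht1 htT _ onef lg 1 hca hone (by linarith) zero_le_one (by ring)
  have b3 := hbil T hT1 le_rfl _ b 1 lg hmu hbb zero_le_one (by linarith) (by ring)
  have b4 := hbil t ht1 htT _ b 1 lg hmu hbb zero_le_one (by linarith) (by ring)
  have hsum := sum_le_sum hdet
  rw [sum_add_distrib, sum_add_distrib, sum_add_distrib, sum_add_distrib, sum_const,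
    nsmul_eq_mul] at hsum
  have htot : ∑ c ∈ s, ‖ThC t T onef c.2‖ ≤ 4 * (12 * lg ^ 3 * E) +
      (s.card : ℝ) * (3 * u * Real.sqrt Q * lg ^ 2 + 2 * Real.sqrt T * Real.log T) := by
    linarith
  refine htot.trans ?_
  rw [← hlg, ← hE]
  have hn0 : (0 : ℝ) ≤ s.card := Nat.cast_nonneg _
  obtain ⟨n, hn⟩ : ∃ n : ℝ, n = (s.card : ℝ) := ⟨_, rfl⟩
  rw [← hn] at hn0 ⊢
  have p3 : lg ^ 3 ≤ lg ^ 5 := pow_le_pow_right₀ hlg1 (by norm_num)
  have p2 : lg ^ 2 ≤ lg ^ 5 := pow_le_pow_right₀ hlg1 (by norm_num)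
  have p1 : Real.log T ≤ lg ^ 5 := by
    have : lg ≤ lg ^ 5 := by
      calc lg = lg ^ 1 := (pow_one lg).symm
        _ ≤ lg ^ 5 := pow_le_pow_right₀ hlg1 (by norm_num)
    linarith
  have p5 : 0 ≤ lg ^ 5 := by positivity
  have q1 : 4 * (12 * lg ^ 3 * E) ≤ 60 * lg ^ 5 * E := by
    have : lg ^ 3 * E ≤ lg ^ 5 * E := mul_le_mul_of_nonneg_right p3 hE0
    have h5 : 0 ≤ lg ^ 5 * E := by positivity
    linarith
  have q2 : n * (3 * u * Real.sqrt Q * lg ^ 2 + 2 * Real.sqrt T * Real.log T) ≤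
      60 * lg ^ 5 * (n * (√(Q : ℝ) * u + √(T : ℝ))) := by
    have r1 : (u : ℝ) * Real.sqrt Q * lg ^ 2 ≤ (u : ℝ) * Real.sqrt Q * lg ^ 5 :=
      mul_le_mul_of_nonneg_left p2 (by positivity)
    have r2 : Real.sqrt T * Real.log T ≤ Real.sqrt T * lg ^ 5 :=
      mul_le_mul_of_nonneg_left p1 (by positivity)
    have r3 : 0 ≤ (u : ℝ) * Real.sqrt Q * lg ^ 5 := by positivity
    have r4 : 0 ≤ Real.sqrt T * lg ^ 5 := by positivity
    have r5 : 3 * (u : ℝ) * Real.sqrt Q * lg ^ 2 + 2 * Real.sqrt T * Real.log T ≤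
        60 * lg ^ 5 * (√(Q : ℝ) * u + √(T : ℝ)) := by
      have e : 60 * lg ^ 5 * (√(Q : ℝ) * u + √(T : ℝ)) =
        60 * ((u : ℝ) * Real.sqrt Q * lg ^ 5) + 60 * (Real.sqrt T * lg ^ 5) := by ring
      rw [e]
      linarith
    calc n * (3 * u * Real.sqrt Q * lg ^ 2 + 2 * Real.sqrt T * Real.log T)
        ≤ n * (60 * lg ^ 5 * (√(Q : ℝ) * u + √(T : ℝ))) := mul_le_mul_of_nonneg_left r5 hn0
      _ = _ := by ring
  have e : 60 * lg ^ 5 * (E + n * (√(Q : ℝ) * u + √(T : ℝ))) =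
      60 * lg ^ 5 * E + 60 * lg ^ 5 * (n * (√(Q : ℝ) * u + √(T : ℝ))) := by ring
  rw [e]
  exact add_le_add q1 q2

end Pool.Agent.H24.EL
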