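import Pool.Agent.H24.EL.Cnh
import Pool.Agent.H67.EH.Fin3

/-!
# [H24 EL FIN] both signs for EVERY length `(log X)^16 ≤ H ≤ X^(7/12-ε)`

PROOF. `H ≤ X^(5/12)`: `eh3`, `min (√H) (X^(1/12)) ≤ M3 X H`. `H > X^(5/12)`: `cnh`, `M4 X H = X^(1/12)`.
-/

set_option autoImplicit false

namespace Pool.Agent.H24.EL

open Finset Pool.Agent.H48.WN Pool.Agent.H24.TL Pool.Agent.H67.EH

/-- the size -/
noncomputable def M4 (X H : ℝ) : ℝ :=
  max (M3 X H) (min (H ^ (1 / 2 : ℝ)) (X ^ (1 / 12 : ℝ)))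

/-- `M4 = M3` for `H ≤ X^(5/12)` -/
theorem m4_small (X H : ℝ) (hX : 1 ≤ X) (hH : 1 ≤ H) (h : H ≤ X ^ (5 / 12 : ℝ)) : M4 X H = M3 X H := by
  have hX0 : 0 < X := by linarith
  have hH0 : 0 < H := by linarith
  unfold M4
  refine max_eq_left ?_
  have hm : ∀ a b : ℝ, a ≤ b → X ^ a ≤ X ^ b := fun a b h => Real.rpow_le_rpow_of_exponent_le hX h
  have hp : ∀ a b c : ℝ, 0 ≤ b → H ≤ X ^ a → c = a * b → H ^ b ≤ X ^ c := by
    intro a b c hb h1 h2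
    rw [h2, Real.rpow_mul hX0.le]
    exact Real.rpow_le_rpow hH0.le h1 hb
  have hq : ∀ a b c : ℝ, 0 ≤ b → X ^ a ≤ H → c = a * b → X ^ c ≤ H ^ b := by
    intro a b c hb h1 h2
    rw [h2, Real.rpow_mul hX0.le]
    exact Real.rpow_le_rpow (by positivity) h1 hb
  have h3 : 0 < H ^ (1 / 3 : ℝ) := by positivity
  unfold M3
  rcases le_or_gt H (X ^ (1 / 4 : ℝ)) with h1 | h1
  · -- `X^(1/12) ≤ X^(1/6)/H^(1/3)`
    refine le_max_of_le_left (min_le_min le_rfl ?_)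
    rw [le_div_iff₀ h3]
    have e1 := hp (1 / 4) (1 / 3) (1 / 12) (by norm_num) h1 (by norm_num)
    calc X ^ (1 / 12 : ℝ) * H ^ (1 / 3 : ℝ) ≤ X ^ (1 / 12 : ℝ) * X ^ (1 / 12 : ℝ) :=
          mul_le_mul_of_nonneg_left e1 (by positivity)
      _ = X ^ (1 / 6 : ℝ) := by rw [← Real.rpow_add hX0]; norm_num
  · refine le_max_of_le_right ((min_le_right _ _).trans (le_min ?_ ?_))
    · exact hq (1 / 4) (1 / 3) (1 / 12) (by norm_num) h1.le (by norm_num)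
    · rw [le_div_iff₀ h3]
      have e1 := hp (5 / 12) (1 / 3) (5 / 36) (by norm_num) h (by norm_num)
      calc X ^ (1 / 12 : ℝ) * H ^ (1 / 3 : ℝ) ≤ X ^ (1 / 12 : ℝ) * X ^ (5 / 36 : ℝ) :=
            mul_le_mul_of_nonneg_left e1 (by positivity)
        _ = X ^ (2 / 9 : ℝ) := by rw [← Real.rpow_add hX0]; norm_num

/-- `M4 = X^(1/12)` for `H ≥ X^(5/12)` -/
theorem m4_large (X H : ℝ) (hX : 1 ≤ X) (h : X ^ (5 / 12 : ℝ) ≤ H) : M4 X H = X ^ (1 / 12 : ℝ) := by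
  have hX0 : 0 < X := by linarith
  have hH0 : 0 < H := lt_of_lt_of_le (by positivity) h
  have hm : ∀ a b : ℝ, a ≤ b → X ^ a ≤ X ^ b := fun a b h => Real.rpow_le_rpow_of_exponent_le hX h
  have hq : ∀ b c : ℝ, 0 ≤ b → c = 5 / 12 * b → X ^ c ≤ H ^ b := by
    intro b c hb h2
    rw [h2, Real.rpow_mul hX0.le]
    exact Real.rpow_le_rpow (by positivity) h hb
  have h3 : 0 < H ^ (1 / 3 : ℝ) := by positivity
  have e1 := hq (1 / 3) (5 / 36) (by norm_num) (by norm_num)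
  unfold M4 M3
  refine le_antisymm (max_le (max_le ((min_le_right _ _).trans ?_) ((min_le_right _ _).trans ?_)) (min_le_right _ _)) ?_
  · rw [div_le_iff₀ h3]
    calc X ^ (1 / 6 : ℝ) ≤ X ^ (1 / 12 + 5 / 36 : ℝ) := hm _ _ (by norm_num)
      _ = X ^ (1 / 12 : ℝ) * X ^ (5 / 36 : ℝ) := Real.rpow_add hX0 _ _
      _ ≤ X ^ (1 / 12 : ℝ) * H ^ (1 / 3 : ℝ) := mul_le_mul_of_nonneg_left e1 (by positivity)
  · rw [div_le_iff₀ h3]
    calc X ^ (2 / 9 : ℝ) = X ^ (1 / 12 + 5 / 36 : ℝ) := by norm_num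
      _ = X ^ (1 / 12 : ℝ) * X ^ (5 / 36 : ℝ) := Real.rpow_add hX0 _ _
      _ ≤ X ^ (1 / 12 : ℝ) * H ^ (1 / 3 : ℝ) := mul_le_mul_of_nonneg_left e1 (by positivity)
  · refine le_max_of_le_right (le_min ?_ le_rfl)
    exact (hm _ _ (by norm_num)).trans (hq (1 / 2) (5 / 24) (by norm_num) (by norm_num))

/-- both signs for every length -/
theorem el (ε : ℝ) (hε : 0 < ε) : ∃ X0 : ℕ, ∀ X : ℕ, X0 ≤ X → ∀ H : ℕ,
    Real.log X ^ 16 ≤ H → (H : ℝ) ≤ (X : ℝ) ^ (7 / 12 - ε) → ∀ s : ℝ, s = 1 ∨ s = -1 →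
    X * (M4 X H / (Lt ε X H * H)) ^ 2 ≤
      (((Ioc ⌊(X : ℝ) / Lw X⌋₊ ⌈Lw X * (X : ℝ)⌉₊).filter fun n => M4 X H / Lt ε X H ≤ s * EI n H).card : ℝ) := by
  obtain ⟨a, ha0, haε, ha30⟩ : ∃ a : ℝ, 0 < a ∧ a ≤ ε ∧ a ≤ 1 / 30 :=
    ⟨min ε (1 / 30), lt_min hε (by norm_num), min_le_left _ _, min_le_right _ _⟩
  obtain ⟨X1, heh⟩ := eh3 a ha0
  obtain ⟨X2, hcn⟩ := cnh a ha0
  have ev3 : ∀ᶠ X : ℝ in Filter.atTop, Real.log X ^ (2 : ℝ) ≤ X ^ ε := by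
    have h := (isLittleO_log_rpow_rpow_atTop 2 hε).bound (c := 1) (by positivity)
    filter_upwards [h, Filter.eventually_ge_atTop 1] with X hX hX1
    have hl := Real.log_nonneg hX1
    rw [Real.norm_eq_abs, abs_of_nonneg (by positivity), Real.norm_eq_abs, abs_of_nonneg (by positivity)] at hX
    linarith
  obtain ⟨x3, hx3'⟩ := Filter.eventually_atTop.mp ev3
  refine ⟨max (max 3 ⌈x3⌉₊) (max X1 X2), fun X hX H hH1 hH2 s hs => ?_⟩
  have hX3 : 3 ≤ X := (le_max_left _ _).trans ((le_max_left _ _).trans hX)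
  have hX1 : X1 ≤ X := (le_max_left _ _).trans ((le_max_right _ _).trans hX)
  have hX2 : X2 ≤ X := (le_max_right _ _).trans ((le_max_right _ _).trans hX)
  have hXx3 : x3 ≤ X := (Nat.le_ceil x3).trans (by
    exact_mod_cast (le_max_right 3 _).trans ((le_max_left _ (max X1 X2)).trans hX))
  have hx3 : (3 : ℝ) ≤ X := by exact_mod_cast hX3
  have hx1 : (1 : ℝ) ≤ X := by linarith
  have hx0 : (0 : ℝ) < X := by linarith
  have hlog : 1 ≤ Real.log X := by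
    rw [Real.le_log_iff_exp_le hx0]
    have := Real.exp_one_lt_d9
    linarith
  have hlogp : 0 < Real.log X := by linarith
  have hlε : Real.log X ^ 2 ≤ (X : ℝ) ^ ε := by
    calc Real.log X ^ 2 = Real.log X ^ (2 : ℝ) := by rw [← Real.rpow_natCast]; norm_num
      _ ≤ (X : ℝ) ^ ε := hx3' X hXx3
  have hHr : (1 : ℝ) ≤ H := (one_le_pow₀ hlog).trans hH1
  have hH0 : (0 : ℝ) < H := by linarith
  have hM0 : 0 ≤ M4 X H := by
    unfold M4
    exact le_max_of_le_right (le_min (by positivity) (by positivity))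
  have hle : ∀ a b : ℝ, a ≤ b → (X : ℝ) ^ a ≤ (X : ℝ) ^ b := fun a b h => Real.rpow_le_rpow_of_exponent_le hx1 h
  obtain ⟨L, hL⟩ : ∃ L : ℝ, L = Lt ε X H := ⟨_, rfl⟩
  obtain ⟨K, hK⟩ : ∃ K : ℝ, K = Lt a X H := ⟨_, rfl⟩
  rw [← hL]
  have hK0 : 0 < K := by
    rw [hK, Lt]
    split_ifs <;> positivity
  have hKL : K ≤ L := by
    rw [hK, hL, Lt, Lt]
    have h1 := hle (1 / 5 - ε) (1 / 5 - a) (by linarith)
    split_ifs with h2 h3 h3
    · exact le_rfl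
    · exact hlε
    · exact absurd (h3.trans h1) h2
    · exact hle a ε haε
  have hL0 : 0 < L := lt_of_lt_of_le hK0 hKL
  -- it is enough to prove it with `K`
  have hred : X * (M4 X H / (K * H)) ^ 2 ≤
      (((Ioc ⌊(X : ℝ) / Lw X⌋₊ ⌈Lw X * (X : ℝ)⌉₊).filter fun n => M4 X H / K ≤ s * EI n H).card : ℝ) →
      X * (M4 X H / (L * H)) ^ 2 ≤
      (((Ioc ⌊(X : ℝ) / Lw X⌋₊ ⌈Lw X * (X : ℝ)⌉₊).filter fun n => M4 X H / L ≤ s * EI n H).card : ℝ) := by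
    intro h
    have h1 : M4 X H / L ≤ M4 X H / K := div_le_div_of_nonneg_left hM0 hK0 hKL
    have h2 : M4 X H / (L * H) ≤ M4 X H / (K * H) :=
      div_le_div_of_nonneg_left hM0 (by positivity) (mul_le_mul_of_nonneg_right hKL hH0.le)
    have h3 : (((Ioc ⌊(X : ℝ) / Lw X⌋₊ ⌈Lw X * (X : ℝ)⌉₊).filter fun n => M4 X H / K ≤ s * EI n H).card : ℝ) ≤
        (((Ioc ⌊(X : ℝ) / Lw X⌋₊ ⌈Lw X * (X : ℝ)⌉₊).filter fun n => M4 X H / L ≤ s * EI n H).card : ℝ) := by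
      exact_mod_cast card_le_card (monotone_filter_right _ fun n _ hn => h1.trans hn)
    refine le_trans ?_ (h.trans h3)
    exact mul_le_mul_of_nonneg_left (pow_le_pow_left₀ (by positivity) h2 2) hx0.le
  refine hred ?_
  rcases le_or_gt (H : ℝ) ((X : ℝ) ^ (5 / 12 : ℝ)) with h | h
  · have h1 := heh X hX1 H hH1 (h.trans (hle _ _ (by linarith))) s hs
    rw [m4_small X H hx1 hHr h, hK]
    exact h1
  · have h1 := hcn X hX2 H ((hle _ _ (by norm_num)).trans h.le) (hH2.trans (hle _ _ (by linarith))) s hs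
    have hKa : K = (X : ℝ) ^ a := by
      rw [hK, Lt, if_neg]
      rw [not_le]
      exact lt_of_le_of_lt (hle _ _ (by linarith)) h
    rw [m4_large X H hx1 h.le, hKa]
    have e1 : (X : ℝ) ^ (1 / 12 : ℝ) / (X : ℝ) ^ a = (X : ℝ) ^ (1 / 12 - a) := (Real.rpow_sub hx0 _ _).symm
    rw [e1]
    refine le_trans ?_ h1
    have e2 : (X : ℝ) * ((X : ℝ) ^ (1 / 12 : ℝ) / ((X : ℝ) ^ a * H)) ^ 2 = (X : ℝ) ^ (7 / 6 - 2 * a) / (H : ℝ) ^ 2 := by
      have e3 : (X : ℝ) ^ (1 / 12 : ℝ) / ((X : ℝ) ^ a * H) = (X : ℝ) ^ (1 / 12 - a) / H := by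
        rw [← e1, div_div]
      rw [e3, div_pow, ← Real.rpow_natCast ((X : ℝ) ^ (1 / 12 - a)) 2, ← Real.rpow_mul hx0.le]
      have e4 : (X : ℝ) ^ (7 / 6 - 2 * a) = X * (X : ℝ) ^ ((1 / 12 - a) * ((2 : ℕ) : ℝ)) := by
        nth_rewrite 2 [← Real.rpow_one (X : ℝ)]
        rw [← Real.rpow_add hx0]
        congr 1
        push_cast
        ring
      rw [e4]
      ring
    rw [e2]
    exact div_le_div_of_nonneg_right (hle _ _ (by linarith)) (by positivity)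

end Pool.Agent.H24.EL
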