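import Pool.Agent.H24.EL.Defs
import Pool.Agent.H49.HV.Bad
import Pool.Agent.H99.GB.Hq
import Pool.Agent.H67.VU.Pnt3

/-!
# [H24 EL HVC] every length in `[X^(2/5), X^(2/3)]` is good up to a power

PROOF. `R = ⌊X^ρ⌋`, `R² ≤ H ≤ R^7`. The number of integers `n ∈ (R, 2R]` with `‖H/n‖ ≤ R^(-3c)` is at most `R^(1-c)` for every small `c > 0` (`bad_exp`, large values and
`expsumK`), less than half of the number of primes. For the other primes `cq H q/(q-1) ≥ R^(-3c)/2` (`good_q` in `H24/TL/Hev`), and `R^(-3c) ≥ X^(-c/2)`.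
-/

set_option autoImplicit false

namespace Pool.Agent.H24.EL

open Finset Filter Pool.Agent.H67.VS Pool.Agent.H99.GB

/-- a good modulus -/
private theorem good_q (H q : ℕ) (δ : ℝ) (hq : 2 ≤ q) (hδ0 : 0 ≤ δ) (hδ : δ ≤ 1 / 2)
    (h1 : δ * q ≤ ((H % q : ℕ) : ℝ)) (h2 : ((H % q : ℕ) : ℝ) ≤ (1 - δ) * q) :
    δ / 2 ≤ cq H q / ((q : ℝ) - 1) := by
  have hq2 : (2 : ℝ) ≤ q := by exact_mod_cast hq
  have hq0 : (0 : ℝ) < q := by linarith
  obtain ⟨h, hh⟩ : ∃ h : ℝ, h = ((H % q : ℕ) : ℝ) := ⟨_, rfl⟩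
  unfold cq
  rw [← hh] at h1 h2 ⊢
  rw [le_div_iff₀ (by linarith)]
  have h3 : h * (1 - h / q) = h * (q - h) / q := by field_simp
  rw [h3, le_div_iff₀ hq0]
  have h4 : 0 ≤ (h - δ * q) * ((1 - δ) * q - h) := mul_nonneg (by linarith) (by linarith)
  have h5 : δ * (1 - δ) * q ^ 2 ≤ h * (q - h) := by nlinarith
  have h6 : δ / 2 * (q - 1) * q ≤ δ * (1 - δ) * q ^ 2 := by
    have h7 : 0 ≤ δ * q ^ 2 := by positivity
    nlinarith [mul_nonneg hδ0 hq0.le]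
  linarith

/-- the number of primes -/
private theorem pl_le (R : ℕ) : ∑ n ∈ Ioc R (2 * R), pl n ≤ ((QQ R).card : ℝ) * Real.log (2 * R) := by
  have h : ∑ n ∈ Ioc R (2 * R), pl n = ∑ q ∈ QQ R, Real.log q := by
    unfold QQ pl
    rw [Finset.sum_filter]
  rw [h, ← nsmul_eq_mul]
  refine Finset.sum_le_card_nsmul _ _ _ fun q hq => ?_
  unfold QQ at hq
  rw [mem_filter, mem_Ioc] at hq
  have h1 : (0 : ℝ) < q := by exact_mod_cast hq.2.pos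
  have h2 : (q : ℝ) ≤ 2 * R := by exact_mod_cast hq.1.2
  exact Real.log_le_log h1 h2

private theorem cq_nonneg (H q : ℕ) (hq : q.Prime) : 0 ≤ cq H q / ((q : ℝ) - 1) := by
  have h2 : (2 : ℝ) ≤ q := by exact_mod_cast hq.two_le
  have h3 : ((H % q : ℕ) : ℝ) ≤ q := by exact_mod_cast (Nat.mod_lt H hq.pos).le
  unfold cq
  refine div_nonneg (mul_nonneg (Nat.cast_nonneg _) ?_) (by linarith)
  rw [sub_nonneg, div_le_one (by linarith)]
  exact h3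

/-- the main inequality -/
private theorem hvc_aux (R H : ℕ) (δ : ℝ) (hδ0 : 0 ≤ δ) (hδ : δ ≤ 1 / 2)
    (hN : ∀ B : Finset ℕ, B ⊆ Ioc R (2 * R) → (∀ q ∈ B, ∃ k : ℤ, |(H : ℝ) / q - k| ≤ δ) →
      (B.card : ℝ) ≤ ((QQ R).card : ℝ) / 2) :
    δ / 4 * ((QQ R).card : ℝ) ≤ ∑ q ∈ QQ R, cq H q / ((q : ℝ) - 1) := by
  classical
  obtain ⟨B, hB⟩ : ∃ B : Finset ℕ, B = (QQ R).filter fun q : ℕ => ∃ k : ℤ, |(H : ℝ) / q - k| ≤ δ := ⟨_, rfl⟩
  have hBs : B ⊆ QQ R := by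
    rw [hB]
    exact filter_subset _ _
  have hb := hN B (hBs.trans (by unfold QQ; exact filter_subset _ _)) (by
    intro q hq
    rw [hB, mem_filter] at hq
    exact hq.2)
  have h1 : ((QQ R).card : ℝ) / 2 ≤ ((QQ R \ B).card : ℝ) := by
    have e1 : (QQ R).card ≤ (QQ R \ B).card + B.card := by
      have := le_card_sdiff B (QQ R)
      omega
    have e2 : ((QQ R).card : ℝ) ≤ ((QQ R \ B).card : ℝ) + (B.card : ℝ) := by exact_mod_cast e1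
    linarith
  have hterm : ∀ q ∈ QQ R, 0 ≤ cq H q / ((q : ℝ) - 1) := by
    intro q hq
    unfold QQ at hq
    rw [mem_filter] at hq
    exact cq_nonneg H q hq.2
  have hgood : ∀ q ∈ QQ R \ B, δ / 2 ≤ cq H q / ((q : ℝ) - 1) := by
    intro q hq
    rw [Finset.mem_sdiff] at hq
    obtain ⟨hq1, hq2⟩ := hq
    have h3 : ∀ k : ℤ, δ < |(H : ℝ) / q - k| := by
      intro k
      by_contra hcon
      apply hq2
      rw [hB, mem_filter]
      exact ⟨hq1, k, not_lt.1 hcon⟩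
    unfold QQ at hq1
    rw [mem_filter] at hq1
    have hq0 : 0 < q := hq1.2.pos
    have hq0r : (0 : ℝ) < q := by exact_mod_cast hq0
    have hdm : q * (H / q) + H % q = H := Nat.div_add_mod H q
    have hdmr : (q : ℝ) * ((H / q : ℕ) : ℝ) + ((H % q : ℕ) : ℝ) = H := by exact_mod_cast hdm
    have e2 : ((H % q : ℕ) : ℝ) ≤ q := by exact_mod_cast (Nat.mod_lt H hq0).le
    refine good_q H q δ hq1.2.two_le hδ0 hδ ?_ ?_
    · have h4 := h3 ((H / q : ℕ) : ℤ)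
      have e1 : (H : ℝ) / q - (((H / q : ℕ) : ℤ) : ℝ) = ((H % q : ℕ) : ℝ) / q := by
        rw [eq_div_iff hq0r.ne', sub_mul, div_mul_cancel₀ _ hq0r.ne', Int.cast_natCast]
        linarith
      rw [e1, abs_of_nonneg (by positivity), lt_div_iff₀ hq0r] at h4
      exact h4.le
    · have h4 := h3 (((H / q : ℕ) : ℤ) + 1)
      have e1 : (H : ℝ) / q - ((((H / q : ℕ) : ℤ) + 1 : ℤ) : ℝ) = (((H % q : ℕ) : ℝ) - q) / q := by
        rw [eq_div_iff hq0r.ne', sub_mul, div_mul_cancel₀ _ hq0r.ne', Int.cast_add, Int.cast_natCast,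
          Int.cast_one]
        linarith
      rw [e1, abs_of_nonpos (div_nonpos_of_nonpos_of_nonneg (by linarith) hq0r.le), ← neg_div,
        lt_div_iff₀ hq0r] at h4
      linarith
  calc δ / 4 * ((QQ R).card : ℝ) = ((QQ R).card : ℝ) / 2 * (δ / 2) := by ring
    _ ≤ ((QQ R \ B).card : ℝ) * (δ / 2) := mul_le_mul_of_nonneg_right h1 (by linarith)
    _ = ∑ _q ∈ QQ R \ B, δ / 2 := by rw [sum_const, nsmul_eq_mul]
    _ ≤ ∑ q ∈ QQ R \ B, cq H q / ((q : ℝ) - 1) := sum_le_sum hgood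
    _ ≤ ∑ q ∈ QQ R, cq H q / ((q : ℝ) - 1) :=
        sum_le_sum_of_subset_of_nonneg sdiff_subset fun q hq _ => hterm q hq

/-- everything about `R` -/
private theorem ev_R (c : ℝ) (hc0 : 0 < c)
    (hbad : ∃ R0 : ℕ, ∀ (R : ℕ) (H : ℝ),
      R0 ≤ R → (R : ℝ) ^ 2 ≤ H → H ≤ (R : ℝ) ^ (7 : ℝ) → ∀ B : Finset ℕ, B ⊆ Ioc R (2 * R) →
      (∀ q ∈ B, ∃ k : ℤ, |H / q - k| ≤ (R : ℝ) ^ (-(3 * c))) → (B.card : ℝ) ≤ (R : ℝ) ^ (1 - c)) :
    ∀ᶠ R : ℕ in atTop, ∀ H : ℕ, (R : ℝ) ^ 2 ≤ H → (H : ℝ) ≤ (R : ℝ) ^ (7 : ℝ) →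
      (R : ℝ) ^ (-(3 * c)) / 4 * ((QQ R).card : ℝ) ≤ ∑ q ∈ QQ R, cq H q / ((q : ℝ) - 1) := by
  obtain ⟨R0, hbad⟩ := hbad
  have hlog : ∀ᶠ R : ℕ in atTop, 4 * Real.log (2 * R) ≤ (R : ℝ) ^ c := by
    have h1 := (isLittleO_log_rpow_atTop hc0).bound (show (0 : ℝ) < 1 / 8 by norm_num)
    have h2 := tendsto_natCast_atTop_atTop (R := ℝ) |>.eventually h1
    filter_upwards [h2, eventually_ge_atTop 2] with R hR hR2
    have hR2' : (2 : ℝ) ≤ R := by exact_mod_cast hR2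
    rw [Real.norm_of_nonneg (Real.log_nonneg (by linarith)),
      Real.norm_of_nonneg (by positivity)] at hR
    have h3 : Real.log (2 * R) ≤ 2 * Real.log R := by
      rw [Real.log_mul (by norm_num) (by positivity)]
      have := Real.log_le_log (by norm_num) hR2'
      linarith
    linarith
  filter_upwards [hlog, Pool.Agent.H67.VU.pntA (1 / 2) (by norm_num), eventually_ge_atTop R0,
    eventually_ge_atTop 2] with R h1 h2 h3 h4 H hH1 hH2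
  have hR2 : (2 : ℝ) ≤ R := by exact_mod_cast h4
  have hR0 : (0 : ℝ) < R := by linarith
  have hlog1 : 1 ≤ Real.log (2 * R) := by
    rw [Real.le_log_iff_exp_le (by linarith)]
    have := Real.exp_one_lt_d9
    linarith
  have hRc : (4 : ℝ) ≤ (R : ℝ) ^ c := by linarith
  have hcard : (R : ℝ) ≤ 2 * (((QQ R).card : ℝ) * Real.log (2 * R)) := by
    have := h2.trans (pl_le R)
    linarith
  refine hvc_aux R H _ (by positivity) ?_ fun B hB hBx => ?_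
  · have e1 : (R : ℝ) ^ (-(3 * c)) ≤ (R : ℝ) ^ (-c) :=
      Real.rpow_le_rpow_of_exponent_le (by linarith) (by linarith)
    have e2 : (R : ℝ) ^ (-c) ≤ 1 / 2 := by
      rw [Real.rpow_neg hR0.le, ← one_div]
      exact one_div_le_one_div_of_le (by norm_num) (by linarith)
    exact e1.trans e2
  · refine (hbad R H h3 hH1 hH2 B hB hBx).trans ?_
    rw [Real.rpow_sub hR0, Real.rpow_one, div_le_iff₀ (by positivity)]
    have e1 : ((QQ R).card : ℝ) * (4 * Real.log (2 * R)) ≤ ((QQ R).card : ℝ) * (R : ℝ) ^ c :=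
      mul_le_mul_of_nonneg_left h1 (Nat.cast_nonneg _)
    linarith

theorem hvc (ρ d : ℝ) (h0 : 1 / 10 < ρ) (h1 : ρ < 1 / 6) (hd : 0 < d) : ∃ X0 : ℕ, ∀ X : ℕ, X0 ≤ X → ∀ H : ℕ,
    (X : ℝ) ^ (2 / 5 : ℝ) ≤ H → (H : ℝ) ≤ (X : ℝ) ^ (2 / 3 : ℝ) →
    (X : ℝ) ^ (-d) * ((QQ ⌊(X : ℝ) ^ ρ⌋₊).card : ℝ) ≤ ∑ q ∈ QQ ⌊(X : ℝ) ^ ρ⌋₊, cq H q / ((q : ℝ) - 1) := by
  obtain ⟨c0, hc0, hb⟩ := Pool.Agent.H49.HV.bad_exp 7 (by norm_num)
  obtain ⟨c, hc⟩ : ∃ c, c = min c0 d := ⟨_, rfl⟩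
  have hcpos : 0 < c := by
    rw [hc]
    exact lt_min hc0 hd
  have hcc : c ≤ c0 := by
    rw [hc]
    exact min_le_left _ _
  have hcd : c ≤ d := by
    rw [hc]
    exact min_le_right _ _
  have hR := ev_R c hcpos (hb c hcpos hcc)
  have htend : Tendsto (fun X : ℕ => ⌊(X : ℝ) ^ ρ⌋₊) atTop atTop :=
    tendsto_nat_floor_atTop.comp ((tendsto_rpow_atTop (by linarith)).comp tendsto_natCast_atTop_atTop)
  have hX := htend.eventually hR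
  have hp1 : ∀ᶠ X : ℕ in atTop, (128 : ℝ) ≤ (X : ℝ) ^ (1 / 30 : ℝ) :=
    ((tendsto_rpow_atTop (by norm_num)).comp tendsto_natCast_atTop_atTop).eventually_ge_atTop _
  have hp2 : ∀ᶠ X : ℕ in atTop, (4 : ℝ) ≤ (X : ℝ) ^ (d / 2) :=
    ((tendsto_rpow_atTop (by positivity)).comp tendsto_natCast_atTop_atTop).eventually_ge_atTop _
  obtain ⟨X0, hX0⟩ := eventually_atTop.1 (hX.and (hp1.and (hp2.and (eventually_ge_atTop 1))))
  refine ⟨X0, fun X hXX H hH1 hH2 => ?_⟩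
  obtain ⟨hmain, hp1, hp2, hX1⟩ := hX0 X hXX
  have hXr : (1 : ℝ) ≤ X := by exact_mod_cast hX1
  have hXpos : (0 : ℝ) < X := by linarith
  obtain ⟨R, hRdef⟩ : ∃ R, R = ⌊(X : ℝ) ^ ρ⌋₊ := ⟨_, rfl⟩
  rw [← hRdef] at hmain ⊢
  have hρ1 : (1 : ℝ) ≤ (X : ℝ) ^ ρ := Real.one_le_rpow hXr (by linarith)
  have hR1 : (R : ℝ) ≤ (X : ℝ) ^ ρ := by
    rw [hRdef]
    exact Nat.floor_le (by positivity)
  have hRge : 1 ≤ R := by
    rw [hRdef]
    exact (Nat.one_le_floor_iff _).2 hρ1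
  have hRr : (1 : ℝ) ≤ R := by exact_mod_cast hRge
  have hR2 : (X : ℝ) ^ ρ / 2 ≤ R := by
    have := Nat.lt_floor_add_one ((X : ℝ) ^ ρ)
    rw [← hRdef] at this
    linarith
  have hH2R : (R : ℝ) ^ 2 ≤ H := by
    calc (R : ℝ) ^ 2 ≤ ((X : ℝ) ^ ρ) ^ 2 := by gcongr
      _ = (X : ℝ) ^ (ρ * 2) := by
          rw [← Real.rpow_natCast, ← Real.rpow_mul hXpos.le]
          norm_num
      _ ≤ (X : ℝ) ^ (2 / 5 : ℝ) := Real.rpow_le_rpow_of_exponent_le hXr (by linarith)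
      _ ≤ H := hH1
  have hH7R : (H : ℝ) ≤ (R : ℝ) ^ (7 : ℝ) := by
    have e1 : ((X : ℝ) ^ ρ / 2) ^ 7 ≤ (R : ℝ) ^ 7 := by
      have : 0 ≤ (X : ℝ) ^ ρ / 2 := by positivity
      gcongr
    have e2 : ((X : ℝ) ^ ρ / 2) ^ 7 = (X : ℝ) ^ (ρ * 7) / 128 := by
      rw [div_pow, ← Real.rpow_natCast, ← Real.rpow_mul hXpos.le]
      norm_num
    have e3 : (X : ℝ) ^ (2 / 3 : ℝ) * (X : ℝ) ^ (1 / 30 : ℝ) ≤ (X : ℝ) ^ (ρ * 7) := by
      rw [← Real.rpow_add hXpos]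
      exact Real.rpow_le_rpow_of_exponent_le hXr (by linarith)
    have e4 : (R : ℝ) ^ (7 : ℝ) = (R : ℝ) ^ 7 := by
      rw [← Real.rpow_natCast]
      norm_num
    rw [e4]
    refine hH2.trans (le_trans ?_ (e2.symm.le.trans e1))
    rw [le_div_iff₀ (by norm_num)]
    refine le_trans ?_ e3
    exact mul_le_mul_of_nonneg_left hp1 (by positivity)
  refine le_trans ?_ (hmain H hH2R hH7R)
  refine mul_le_mul_of_nonneg_right ?_ (Nat.cast_nonneg _)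
  rw [le_div_iff₀ (by norm_num)]
  have e1 : (X : ℝ) ^ (-(c / 2)) ≤ (R : ℝ) ^ (-(3 * c)) := by
    calc (X : ℝ) ^ (-(c / 2)) ≤ (X : ℝ) ^ (ρ * (-(3 * c))) :=
          Real.rpow_le_rpow_of_exponent_le hXr (by nlinarith)
      _ = ((X : ℝ) ^ ρ) ^ (-(3 * c)) := Real.rpow_mul hXpos.le _ _
      _ ≤ (R : ℝ) ^ (-(3 * c)) :=
          Real.rpow_le_rpow_of_nonpos (by linarith) hR1 (by linarith)
  refine le_trans ?_ e1
  have e2 : (X : ℝ) ^ (-(c / 2)) = (X : ℝ) ^ (-d) * (X : ℝ) ^ (d - c / 2) := by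
    rw [← Real.rpow_add hXpos]
    congr 1
    ring
  rw [e2]
  refine mul_le_mul_of_nonneg_left (hp2.trans ?_) (by positivity)
  exact Real.rpow_le_rpow_of_exponent_le hXr (by linarith)

end Pool.Agent.H24.EL
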