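import Pool.Agent.H24.TL.Ker

/-!
# [H24 EL KER2] the second difference of the theta kernel

PROOF. As `Gk_lip` (`H24/TL/Ker`): `gk` is twice differentiable, `|gk''(t)| ≤ C/t⁴` for `t > 0`, so `|gk(x+y) + gk(x-y) - 2 gk x| ≤ C' y²/x⁴` for `0 ≤ y ≤ x/2`; with `x = (m+1) a`,
`y = (m+1) h` the sum over `m` is `∑ C' h²/((m+1)² a⁴)`.
-/

set_option autoImplicit false

namespace Pool.Agent.H24.EL

open Finset Pool.Agent.H24.TL

/-- `e^(-a t²)` and its two derivatives -/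
private theorem ex_d (a t : ℝ) : HasDerivAt (fun t : ℝ => Real.exp (-(a * t ^ 2))) (Real.exp (-(a * t ^ 2)) * (-(2 * a * t))) t := by
  have hp : HasDerivAt (fun t : ℝ => t ^ 2) (2 * t) t := by
    have := hasDerivAt_pow 2 t
    simpa using this
  have h := (hp.const_mul a).neg
  have h' : -(a * (2 * t)) = -(2 * a * t) := by ring
  rw [h'] at h
  exact h.exp

private theorem ex_dd (a t : ℝ) : HasDerivAt (fun t : ℝ => Real.exp (-(a * t ^ 2)) * (-(2 * a * t)))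
    (Real.exp (-(a * t ^ 2)) * (4 * a ^ 2 * t ^ 2 - 2 * a)) t := by
  have h1 := ex_d a t
  have h2 : HasDerivAt (fun t : ℝ => -(2 * a * t)) (-(2 * a)) t := by
    have h := (hasDerivAt_id t).const_mul (-(2 * a))
    have e : (fun t : ℝ => -(2 * a * t)) = fun t => -(2 * a) * id t := by
      funext t
      simp only [id]
      ring
    rw [e]
    rw [mul_one] at h
    exact h
  have h3 := h1.mul h2
  have e : Real.exp (-(a * t ^ 2)) * (-(2 * a * t)) * (-(2 * a * t)) + Real.exp (-(a * t ^ 2)) * (-(2 * a)) =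
      Real.exp (-(a * t ^ 2)) * (4 * a ^ 2 * t ^ 2 - 2 * a) := by ring
  rw [e] at h3
  exact h3

private noncomputable def g1 (t : ℝ) : ℝ :=
  Real.exp (-(Real.pi / 2 * t ^ 2)) * (-(2 * (Real.pi / 2) * t)) -
    (1 + √2) * (Real.exp (-(Real.pi * t ^ 2)) * (-(2 * Real.pi * t))) +
    √2 * (Real.exp (-(2 * Real.pi * t ^ 2)) * (-(2 * (2 * Real.pi) * t)))

private noncomputable def g2 (t : ℝ) : ℝ :=
  Real.exp (-(Real.pi / 2 * t ^ 2)) * (4 * (Real.pi / 2) ^ 2 * t ^ 2 - 2 * (Real.pi / 2)) -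
    (1 + √2) * (Real.exp (-(Real.pi * t ^ 2)) * (4 * Real.pi ^ 2 * t ^ 2 - 2 * Real.pi)) +
    √2 * (Real.exp (-(2 * Real.pi * t ^ 2)) * (4 * (2 * Real.pi) ^ 2 * t ^ 2 - 2 * (2 * Real.pi)))

private theorem gk_d (t : ℝ) : HasDerivAt gk (g1 t) t := by
  have e : gk = fun t : ℝ => Real.exp (-(Real.pi / 2 * t ^ 2)) - (1 + √2) * Real.exp (-(Real.pi * t ^ 2)) +
      √2 * Real.exp (-(2 * Real.pi * t ^ 2)) := by
    funext t
    unfold gk
    have e1 : Real.pi * t ^ 2 / 2 = Real.pi / 2 * t ^ 2 := by ring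
    rw [e1]
  rw [e]
  exact ((ex_d (Real.pi / 2) t).sub ((ex_d Real.pi t).const_mul (1 + √2))).add ((ex_d (2 * Real.pi) t).const_mul √2)

private theorem g1_d (t : ℝ) : HasDerivAt g1 (g2 t) t :=
  ((ex_dd (Real.pi / 2) t).sub ((ex_dd Real.pi t).const_mul (1 + √2))).add ((ex_dd (2 * Real.pi) t).const_mul √2)

/-- one term -/
private theorem term (a t : ℝ) (ha : 3 / 2 ≤ a) (ha2 : a ≤ 7) (ht : 0 < t) :
    |Real.exp (-(a * t ^ 2)) * (4 * a ^ 2 * t ^ 2 - 2 * a)| ≤ 400 / t ^ 4 := by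
  have h1 : |4 * a ^ 2 * t ^ 2 - 2 * a| ≤ 200 * (1 + t ^ 2) := by
    have h2 : a ^ 2 ≤ 49 := by nlinarith
    have h3 : 0 ≤ t ^ 2 := by positivity
    have h4 : a ^ 2 * t ^ 2 ≤ 49 * t ^ 2 := mul_le_mul_of_nonneg_right h2 h3
    have h5 : 0 ≤ a ^ 2 * t ^ 2 := by positivity
    rw [abs_le]
    constructor <;> linarith
  have h2 : Real.exp (-(a * t ^ 2)) ≤ 2 / (t ^ 4 * (1 + t ^ 2)) := by
    rw [Real.exp_neg, inv_eq_one_div, div_le_div_iff₀ (Real.exp_pos _) (by positivity)]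
    have h3 : (a * t ^ 2) ^ 2 / 2 + (a * t ^ 2) ^ 3 / 6 ≤ Real.exp (a * t ^ 2) := by
      have h4 := Real.sum_le_exp_of_nonneg (show 0 ≤ a * t ^ 2 by positivity) 4
      simp only [Finset.sum_range_succ, Finset.sum_range_zero, Nat.factorial] at h4
      have h5 : 0 ≤ a * t ^ 2 := by positivity
      norm_num at h4
      linarith
    have h6 : (3 / 2 * t ^ 2) ^ 2 ≤ (a * t ^ 2) ^ 2 :=
      pow_le_pow_left₀ (by positivity) (mul_le_mul_of_nonneg_right ha (by positivity)) 2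
    have h7 : (3 / 2 * t ^ 2) ^ 3 ≤ (a * t ^ 2) ^ 3 :=
      pow_le_pow_left₀ (by positivity) (mul_le_mul_of_nonneg_right ha (by positivity)) 3
    have h8 : (3 / 2 * t ^ 2) ^ 2 = 9 / 4 * t ^ 4 := by ring
    have h9 : (3 / 2 * t ^ 2) ^ 3 = 27 / 8 * t ^ 6 := by ring
    have h10 : 1 * (t ^ 4 * (1 + t ^ 2)) = t ^ 4 + t ^ 6 := by ring
    have h11 : 0 ≤ t ^ 4 := by positivity
    have h12 : 0 ≤ t ^ 6 := by positivity
    rw [h10]
    linarith
  rw [abs_mul, abs_of_pos (Real.exp_pos _)]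
  calc Real.exp (-(a * t ^ 2)) * |4 * a ^ 2 * t ^ 2 - 2 * a| ≤ 2 / (t ^ 4 * (1 + t ^ 2)) * (200 * (1 + t ^ 2)) :=
        mul_le_mul h2 h1 (abs_nonneg _) (by positivity)
    _ = 400 / t ^ 4 := by
        field_simp
        norm_num

private theorem g2_abs (t : ℝ) (ht : 0 < t) : |g2 t| ≤ 2000 / t ^ 4 := by
  have hp1 := Real.pi_gt_three
  have hp2 := Real.pi_lt_d2
  have t1 := term (Real.pi / 2) t (by linarith) (by linarith) ht
  have t2 := term Real.pi t (by linarith) (by linarith) ht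
  have t3 := term (2 * Real.pi) t (by linarith) (by linarith) ht
  have hs0 : 0 ≤ √2 := Real.sqrt_nonneg _
  have hs : √2 ≤ 3 / 2 := Real.sqrt_le_iff.mpr ⟨by norm_num, by norm_num⟩
  obtain ⟨b, hb⟩ : ∃ b : ℝ, b = 400 / t ^ 4 := ⟨_, rfl⟩
  have hb0 : 0 < b := by rw [hb]; positivity
  have e : 2000 / t ^ 4 = 5 * b := by rw [hb]; ring
  rw [e]
  rw [← hb] at t1 t2 t3
  unfold g2
  refine (abs_add_le _ _).trans ?_
  have h1 := abs_sub (Real.exp (-(Real.pi / 2 * t ^ 2)) * (4 * (Real.pi / 2) ^ 2 * t ^ 2 - 2 * (Real.pi / 2)))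
    ((1 + √2) * (Real.exp (-(Real.pi * t ^ 2)) * (4 * Real.pi ^ 2 * t ^ 2 - 2 * Real.pi)))
  have h2 : |(1 + √2) * (Real.exp (-(Real.pi * t ^ 2)) * (4 * Real.pi ^ 2 * t ^ 2 - 2 * Real.pi))| ≤ 5 / 2 * b := by
    rw [abs_mul, abs_of_nonneg (by linarith : 0 ≤ 1 + √2)]
    exact mul_le_mul (by linarith) t2 (abs_nonneg _) (by norm_num)
  have h3 : |√2 * (Real.exp (-(2 * Real.pi * t ^ 2)) * (4 * (2 * Real.pi) ^ 2 * t ^ 2 - 2 * (2 * Real.pi)))| ≤ 3 / 2 * b := by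
    rw [abs_mul, abs_of_nonneg hs0]
    exact mul_le_mul hs t3 (abs_nonneg _) (by norm_num)
  linarith

/-- the second difference of `gk` -/
private theorem gk_sd (x y : ℝ) (hx : 0 < x) (hy : 0 ≤ y) (hyx : y ≤ x / 2) :
    |gk (x + y) + gk (x - y) - 2 * gk x| ≤ 64000 * y ^ 2 / x ^ 4 := by
  obtain ⟨M, hM⟩ : ∃ M : ℝ, M = 32000 / x ^ 4 := ⟨_, rfl⟩
  have hM0 : 0 < M := by rw [hM]; positivity
  -- bound of the second derivative
  have b2 : ∀ t ∈ Set.Icc (x - y) (x + y), ‖g2 t‖ ≤ M := by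
    intro t ht
    have ht1 : x / 2 ≤ t := by linarith [ht.1]
    have ht0 : 0 < t := by linarith
    rw [Real.norm_eq_abs]
    refine (g2_abs t ht0).trans ?_
    rw [hM, div_le_div_iff₀ (by positivity) (by positivity)]
    have h1 : (x / 2) ^ 4 ≤ t ^ 4 := pow_le_pow_left₀ (by positivity) ht1 4
    have h2 : (x / 2) ^ 4 = x ^ 4 / 16 := by ring
    linarith
  -- first derivative of the difference
  have b1 : ∀ z ∈ Set.Icc (0 : ℝ) y, ‖g1 (x + z) - g1 (x - z)‖ ≤ M * (2 * y) := by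
    intro z hz
    have h := Convex.norm_image_sub_le_of_norm_hasDerivWithin_le (f := g1) (f' := g2) (s := Set.Icc (x - y) (x + y))
      (fun t _ => (g1_d t).hasDerivWithinAt) b2 (convex_Icc _ _)
      (show x - z ∈ Set.Icc (x - y) (x + y) from ⟨by linarith [hz.2], by linarith [hz.1]⟩)
      (show x + z ∈ Set.Icc (x - y) (x + y) from ⟨by linarith [hz.1], by linarith [hz.2]⟩)
    refine h.trans (mul_le_mul_of_nonneg_left ?_ hM0.le)
    rw [Real.norm_eq_abs, abs_of_nonneg (by linarith [hz.1])]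
    linarith [hz.2]
  have hd : ∀ z : ℝ, HasDerivAt (fun z => gk (x + z) + gk (x - z) - 2 * gk x) (g1 (x + z) - g1 (x - z)) z := by
    intro z
    have h1 : HasDerivAt (fun z => gk (x + z)) (g1 (x + z)) z := HasDerivAt.comp_const_add x z (gk_d (x + z))
    have h2 : HasDerivAt (fun z => gk (x - z)) (-g1 (x - z)) z := HasDerivAt.comp_const_sub x z (gk_d (x - z))
    have h3 := (h1.add h2).sub_const (2 * gk x)
    have e : g1 (x + z) + -g1 (x - z) = g1 (x + z) - g1 (x - z) := by ring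
    rw [e] at h3
    exact h3
  have h := Convex.norm_image_sub_le_of_norm_hasDerivWithin_le
    (f := fun z => gk (x + z) + gk (x - z) - 2 * gk x) (f' := fun z => g1 (x + z) - g1 (x - z)) (s := Set.Icc (0 : ℝ) y)
    (fun z _ => (hd z).hasDerivWithinAt) b1 (convex_Icc _ _)
    (show (0 : ℝ) ∈ Set.Icc (0 : ℝ) y from ⟨le_rfl, hy⟩) (show y ∈ Set.Icc (0 : ℝ) y from ⟨hy, le_rfl⟩)
  simp only [add_zero, sub_zero] at h
  have e0 : gk x + gk x - 2 * gk x = 0 := by ring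
  rw [e0, sub_zero, Real.norm_eq_abs, Real.norm_eq_abs, abs_of_nonneg hy] at h
  refine h.trans (le_of_eq ?_)
  rw [hM]
  ring

theorem Gk_sd : ∃ C : ℝ, 0 < C ∧ ∀ a h : ℝ, 0 < a → 0 ≤ h → h ≤ a / 2 →
    |Gk (a + h) + Gk (a - h) - 2 * Gk a| ≤ C * h ^ 2 / a ^ 4 := by
  refine ⟨128000, by norm_num, fun a h ha hh hha => ?_⟩
  have hz : HasSum (fun m : ℕ => 1 / ((m : ℝ) + 1) ^ 2) (Real.pi ^ 2 / 6) := by
    have h := (hasSum_nat_add_iff' (f := fun n : ℕ => (1 : ℝ) / (n : ℝ) ^ 2) 1).mpr hasSum_zeta_two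
    simp only [Finset.range_one, Finset.sum_singleton, Nat.cast_zero] at h
    norm_num at h
    have he : (fun m : ℕ => 1 / ((m : ℝ) + 1) ^ 2) = fun m : ℕ => (((m : ℝ) + 1) ^ 2)⁻¹ := by
      funext m
      rw [one_div]
    rw [he]
    exact h
  have hK : HasSum (fun m : ℕ => 64000 * h ^ 2 / a ^ 4 * (1 / ((m : ℝ) + 1) ^ 2))
      (64000 * h ^ 2 / a ^ 4 * (Real.pi ^ 2 / 6)) := hz.mul_left _
  have s0 := gk_sum (t := a) ha
  have s1 := gk_sum (t := a + h) (by linarith)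
  have s2 := gk_sum (t := a - h) (by linarith)
  have hd : Gk (a + h) + Gk (a - h) - 2 * Gk a =
      ∑' m : ℕ, (gk (((m : ℝ) + 1) * (a + h)) + gk (((m : ℝ) + 1) * (a - h)) - 2 * gk (((m : ℝ) + 1) * a)) := by
    unfold Gk
    rw [(s1.add s2).tsum_sub (s0.mul_left 2), s1.tsum_add s2, tsum_mul_left]
  have hn : ∀ m : ℕ, ‖gk (((m : ℝ) + 1) * (a + h)) + gk (((m : ℝ) + 1) * (a - h)) - 2 * gk (((m : ℝ) + 1) * a)‖ ≤
      64000 * h ^ 2 / a ^ 4 * (1 / ((m : ℝ) + 1) ^ 2) := by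
    intro m
    have hm : (0 : ℝ) < (m : ℝ) + 1 := by positivity
    rw [Real.norm_eq_abs, mul_add, mul_sub]
    have h1 : ((m : ℝ) + 1) * h ≤ ((m : ℝ) + 1) * a / 2 := by
      have := mul_le_mul_of_nonneg_left hha hm.le
      linarith
    refine (gk_sd (((m : ℝ) + 1) * a) (((m : ℝ) + 1) * h) (by positivity) (by positivity) h1).trans (le_of_eq ?_)
    have ha0 : a ≠ 0 := ha.ne'
    have hm0 : (m : ℝ) + 1 ≠ 0 := hm.ne'
    field_simp
  have h1 := tsum_of_norm_bounded hK hn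
  rw [hd, ← Real.norm_eq_abs]
  refine le_trans h1 ?_
  have h2 : Real.pi ^ 2 / 6 ≤ 2 := by
    have := Real.pi_lt_d2
    have := Real.pi_pos
    nlinarith
  have h3 : 0 ≤ 64000 * h ^ 2 / a ^ 4 := by positivity
  calc 64000 * h ^ 2 / a ^ 4 * (Real.pi ^ 2 / 6) ≤ 64000 * h ^ 2 / a ^ 4 * 2 :=
        mul_le_mul_of_nonneg_left h2 h3
    _ = 128000 * h ^ 2 / a ^ 4 := by ring

end Pool.Agent.H24.EL
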