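import Pool.Agent.H24.EL.Defs
import Pool.Agent.H24.EL.Ker2
import Pool.Agent.H24.TL.Sgn

/-!
# [H24 EL SGH] the mean of `|E|` from the mean of one sign, lengths up to `X^(3/5)`

PROOF. `ei_ev`: `∑_{n < m ≤ n+H} 1/log m` and the integral. `sgh`: `L = Lw X`, `A = ⌊X/L⌋`, `N = ⌈L X⌉`, `gl(y) = log y Gk(y/X)`, weights `w(n) = gl(n + (H+1)/2)` (`c0 l ≤ w(n)` on `(X,2X]` by `Gk_mid`,
`0 ≤ w(n) ≤ 9 l` on `(A,N]`). `∑_{(A,N]} w(n) EV vl n H = ∑_k ∑_{j ∈ (A+k,N+k]} vl(j) bb(j) gl(j + (H+1)/2 - k)` (`exch`). For `A < j ≤ N` the sum over `k` is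
`H gl(j) + O(H max |second difference|)` (`sym`: the shifts `(H+1)/2 - k` are symmetric), `gl_sd`: `O(l^5 H²/X²)`; total `O(H³ l^6/X) ≤ X`. The `j` near `A` or `N`:
`gl_end`, `O(l² X^(-1/4))`, total `O(H² l² X^(-1/4)) ≤ X`. `vl(j) bb(j) gl(j) = bb(j) Gk(j/X)`: `win`, `O(H √X l)`. Then `|x| = 2 max(s x) 0 - s x` as in `H24/TL/Sgn`.
-/

set_option autoImplicit false

namespace Pool.Agent.H24.EL

open Finset Pool.Agent.H67.VS Pool.Agent.H99.GB Pool.Agent.H48.WN Pool.Agent.H24.TL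

private theorem log_one {m : ℕ} (hm : 3 ≤ m) : 1 ≤ Real.log m := by
  have h3 : (3 : ℝ) ≤ m := by exact_mod_cast hm
  rw [Real.le_log_iff_exp_le (by linarith)]
  have := Real.exp_one_lt_d9
  linarith

theorem vl_wv : Wv vl := by
  refine ⟨fun n => ?_, fun n => ?_, fun a b hab => ?_⟩
  · unfold vl
    split_ifs with h
    · exact zero_le_one
    · have := log_one (not_lt.mp h)
      positivity
  · unfold vl
    split_ifs with h
    · exact le_rfl
    · have := log_one (not_lt.mp h)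
      rw [div_le_one (by linarith)]
      exact this
  · unfold vl
    by_cases hb : b < 3
    · have ha : a < 3 := by omega
      rw [if_pos ha, if_pos hb]
    rw [if_neg hb]
    have h1 := log_one (not_lt.mp hb)
    by_cases ha : a < 3
    · rw [if_pos ha, div_le_one (by linarith)]
      exact h1
    rw [if_neg ha]
    have h2 := log_one (not_lt.mp ha)
    refine one_div_le_one_div_of_le (by linarith) ?_
    refine Real.log_le_log ?_ (by exact_mod_cast hab)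
    exact_mod_cast (by omega : 0 < a)

theorem ei_ev (n H : ℕ) (hn : 3 ≤ n) : |EI n H - EV vl n H| ≤ 1 := by
  have hn3 : (3 : ℝ) ≤ n := by exact_mod_cast hn
  have hn0 : (0 : ℝ) < n := by linarith
  have hlog : ∀ m : ℕ, n < m → vl m = 1 / Real.log m := by
    intro m hm
    unfold vl
    rw [if_neg (by omega)]
  have h1 : EV vl n H = (((Ioc n (n + H)).filter Nat.Prime).card : ℝ) - ∑ m ∈ Ioc n (n + H), 1 / Real.log m := by
    unfold EV
    have e1 : ∀ m ∈ Ioc n (n + H), vl m * (pl m - 1) = (if m.Prime then 1 else 0) - 1 / Real.log m := by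
      intro m hm
      rw [mem_Ioc] at hm
      have h0 := log_one (by omega : 3 ≤ m)
      rw [hlog m hm.1]
      unfold pl
      split_ifs
      · have h2 : Real.log m ≠ 0 := by linarith
        field_simp
      · ring
    rw [sum_congr rfl e1, sum_sub_distrib, ← sum_filter, sum_const, nsmul_eq_mul, mul_one]
  have h2 : ∑ m ∈ Ioc n (n + H), 1 / Real.log m = ∑ i ∈ range H, 1 / Real.log ((n : ℝ) + ((i + 1 : ℕ) : ℝ)) := by
    have e : Ioc n (n + H) = (range H).image (fun i => n + (i + 1)) := by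
      ext m
      simp only [mem_Ioc, mem_image, mem_range]
      constructor
      · intro hm
        exact ⟨m - n - 1, by omega, by omega⟩
      · rintro ⟨k, hk, rfl⟩
        omega
    rw [e, sum_image (fun a _ b _ h => by simpa using h)]
    refine sum_congr rfl fun i _ => ?_
    push_cast
    rfl
  have hanti : AntitoneOn (fun t : ℝ => 1 / Real.log t) (Set.Icc (n : ℝ) (n + H)) := by
    intro a ha b hb hab
    have ha3 : 3 ≤ a := by linarith [ha.1]
    have h0 : 1 ≤ Real.log a := by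
      rw [Real.le_log_iff_exp_le (by linarith)]
      have := Real.exp_one_lt_d9
      linarith
    exact one_div_le_one_div_of_le (by linarith) (Real.log_le_log (by linarith) hab)
  have h3 := AntitoneOn.sum_le_integral hanti
  have h4 := AntitoneOn.integral_le_sum hanti
  have h5 : ∑ i ∈ range H, 1 / Real.log ((n : ℝ) + ((i + 1 : ℕ) : ℝ)) =
      ∑ i ∈ range H, 1 / Real.log ((n : ℝ) + (i : ℝ)) + (1 / Real.log ((n : ℝ) + H) - 1 / Real.log n) := by
    have := Finset.sum_range_succ' (fun i : ℕ => 1 / Real.log ((n : ℝ) + (i : ℝ))) H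
    have h6 := Finset.sum_range_succ (fun i : ℕ => 1 / Real.log ((n : ℝ) + (i : ℝ))) H
    rw [h6] at this
    simp only [Nat.cast_zero, add_zero] at this
    linarith
  have h6 : 1 / Real.log (n : ℝ) ≤ 1 := by
    have := log_one hn
    rw [div_le_one (by linarith)]
    exact this
  have h7 : 0 ≤ 1 / Real.log ((n : ℝ) + H) := by
    have h0 : 0 ≤ Real.log ((n : ℝ) + H) := Real.log_nonneg (by linarith [(Nat.cast_nonneg H : (0 : ℝ) ≤ H)])
    positivity
  rw [h1, h2]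
  unfold EI
  rw [abs_le]
  constructor <;> linarith

/-- symmetric shifts -/
private theorem sym (g : ℝ → ℝ) (y : ℝ) (H : ℕ) (B : ℝ)
    (hB : ∀ d : ℝ, 0 ≤ d → d ≤ H → |g (y + d) + g (y - d) - 2 * g y| ≤ B) :
    |∑ k ∈ Icc 1 H, (g (y + (((H : ℝ) + 1) / 2 - k)) - g y)| ≤ H * B := by
  obtain ⟨S, hS⟩ : ∃ S : ℝ, S = ∑ k ∈ Icc 1 H, (g (y + (((H : ℝ) + 1) / 2 - k)) - g y) := ⟨_, rfl⟩
  have hr : S = ∑ k ∈ Icc 1 H, (g (y - (((H : ℝ) + 1) / 2 - k)) - g y) := by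
    rw [hS]
    refine Finset.sum_nbij' (fun k => H + 1 - k) (fun k => H + 1 - k) ?_ ?_ ?_ ?_ ?_
    · intro k hk
      rw [mem_Icc] at hk ⊢
      omega
    · intro k hk
      rw [mem_Icc] at hk ⊢
      omega
    · intro k hk
      rw [mem_Icc] at hk
      omega
    · intro k hk
      rw [mem_Icc] at hk
      omega
    · intro k hk
      rw [mem_Icc] at hk
      have e : ((H + 1 - k : ℕ) : ℝ) = (H : ℝ) + 1 - k := by
        rw [Nat.cast_sub (by omega)]
        push_cast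
        ring
      rw [e]
      congr 2
      ring
  have h2 : 2 * S = ∑ k ∈ Icc 1 H, (g (y + (((H : ℝ) + 1) / 2 - k)) + g (y - (((H : ℝ) + 1) / 2 - k)) - 2 * g y) := by
    have e : 2 * S = S + S := by ring
    rw [e]
    nth_rewrite 1 [hS]
    rw [hr, ← sum_add_distrib]
    exact sum_congr rfl fun k _ => by ring
  have h3 : |2 * S| ≤ H * B := by
    rw [h2]
    have h4 : ∀ k ∈ Icc 1 H, |g (y + (((H : ℝ) + 1) / 2 - k)) + g (y - (((H : ℝ) + 1) / 2 - k)) - 2 * g y| ≤ B := by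
      intro k hk
      rw [mem_Icc] at hk
      have k1 : (1 : ℝ) ≤ k := by exact_mod_cast hk.1
      have k2 : (k : ℝ) ≤ H := by exact_mod_cast hk.2
      rcases le_total 0 (((H : ℝ) + 1) / 2 - k) with h | h
      · exact hB _ h (by linarith)
      · have h5 := hB (-(((H : ℝ) + 1) / 2 - k)) (by linarith) (by linarith)
        have e1 : y + -(((H : ℝ) + 1) / 2 - k) = y - (((H : ℝ) + 1) / 2 - k) := by ring
        have e2 : y - -(((H : ℝ) + 1) / 2 - k) = y + (((H : ℝ) + 1) / 2 - k) := by ring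
        rw [e1, e2, add_comm (g _) (g _)] at h5
        exact h5
    refine (abs_sum_le_sum_abs _ _).trans ((sum_le_card_nsmul _ _ _ h4).trans (le_of_eq ?_))
    rw [Nat.card_Icc, Nat.add_sub_cancel, nsmul_eq_mul]
  rw [← hS]
  rw [abs_mul, abs_of_pos (by norm_num : (0 : ℝ) < 2)] at h3
  linarith [abs_nonneg S]

/-- exchange of the sums -/
private theorem exch (v : ℕ → ℝ) (g : ℝ → ℝ) (H A N : ℕ) :
    ∑ n ∈ Ioc A N, g (n + ((H : ℝ) + 1) / 2) * EV v n H =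
      ∑ k ∈ Icc 1 H, ∑ j ∈ Ioc (A + k) (N + k), v j * TL.bb j * g (j + (((H : ℝ) + 1) / 2 - k)) := by
  have h1 : ∀ n : ℕ, EV v n H = ∑ k ∈ Icc 1 H, v (n + k) * TL.bb (n + k) := by
    intro n
    unfold EV TL.bb
    have e : Ioc n (n + H) = (Icc 1 H).image (fun k => n + k) := by
      ext m
      simp only [mem_Ioc, mem_image, mem_Icc]
      constructor
      · intro hm
        exact ⟨m - n, by omega, by omega⟩
      · rintro ⟨k, hk, rfl⟩
        omega
    rw [e, sum_image (fun a _ b _ h => by simpa using h)]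
  simp_rw [h1, mul_sum]
  rw [sum_comm]
  refine sum_congr rfl fun k _ => ?_
  have e1 : Ioc (A + k) (N + k) = (Ioc A N).image (fun n => n + k) := by
    ext m
    simp only [mem_Ioc, mem_image]
    constructor
    · intro hm
      exact ⟨m - k, by omega, by omega⟩
    · rintro ⟨n, hn, rfl⟩
      omega
  rw [e1, sum_image (fun a _ b _ h => by simpa using h)]
  refine sum_congr rfl fun n _ => ?_
  have e2 : ((n + k : ℕ) : ℝ) + (((H : ℝ) + 1) / 2 - k) = n + ((H : ℝ) + 1) / 2 := by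
    push_cast
    ring
  rw [e2]
  ring

/-- comparison with the sum of `c g` -/
private theorem tdiff (c : ℕ → ℝ) (g : ℝ → ℝ) (A N H : ℕ) (B0 B2 : ℝ) (hAN : A + H ≤ N) (hB0 : 0 ≤ B0) (hB2 : 0 ≤ B2)
    (hc : ∀ j, A < j → |c j| ≤ 1)
    (h2 : ∀ j ∈ Ioc A N, ∀ d : ℝ, 0 ≤ d → d ≤ H → |g (j + d) + g (j - d) - 2 * g j| ≤ B2)
    (h0 : ∀ j : ℕ, (j ∈ Ioc A (A + H) ∨ j ∈ Ioc N (N + H)) → ∀ d : ℝ, |d| ≤ H → |g (j + d)| ≤ B0) :
    |∑ k ∈ Icc 1 H, ∑ j ∈ Ioc (A + k) (N + k), c j * g (j + (((H : ℝ) + 1) / 2 - k)) - H * ∑ j ∈ Ioc A N, c j * g j| ≤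
      N * (H * B2) + 2 * (H * (H * B0)) := by
  have hd : ∀ k ∈ Icc 1 H, |((H : ℝ) + 1) / 2 - k| ≤ H := by
    intro k hk
    rw [mem_Icc] at hk
    have k1 : (1 : ℝ) ≤ k := by exact_mod_cast hk.1
    have k2 : (k : ℝ) ≤ H := by exact_mod_cast hk.2
    rw [abs_le]
    constructor <;> linarith
  have e1 : ∀ k ∈ Icc 1 H, ∑ j ∈ Ioc (A + k) (N + k), c j * g (j + (((H : ℝ) + 1) / 2 - k)) =
      ∑ j ∈ Ioc A N, c j * g (j + (((H : ℝ) + 1) / 2 - k)) + ∑ j ∈ Ioc N (N + k), c j * g (j + (((H : ℝ) + 1) / 2 - k)) -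
        ∑ j ∈ Ioc A (A + k), c j * g (j + (((H : ℝ) + 1) / 2 - k)) := by
    intro k hk
    rw [mem_Icc] at hk
    have s1 := sum_Ioc_consecutive (fun j : ℕ => c j * g (j + (((H : ℝ) + 1) / 2 - k))) (show A ≤ A + k by omega)
      (show A + k ≤ N + k by omega)
    have s2 := sum_Ioc_consecutive (fun j : ℕ => c j * g (j + (((H : ℝ) + 1) / 2 - k))) (show A ≤ N by omega)
      (show N ≤ N + k by omega)
    linarith
  rw [sum_congr rfl e1, sum_sub_distrib, sum_add_distrib]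
  have e2 : ∑ k ∈ Icc 1 H, ∑ j ∈ Ioc A N, c j * g (j + (((H : ℝ) + 1) / 2 - k)) - H * ∑ j ∈ Ioc A N, c j * g j =
      ∑ j ∈ Ioc A N, c j * ∑ k ∈ Icc 1 H, (g (j + (((H : ℝ) + 1) / 2 - k)) - g j) := by
    rw [sum_comm, mul_sum, ← sum_sub_distrib]
    refine sum_congr rfl fun j _ => ?_
    rw [sum_sub_distrib, sum_const, Nat.card_Icc, Nat.add_sub_cancel, nsmul_eq_mul, mul_sub, mul_sum]
    ring
  have t1 : |∑ j ∈ Ioc A N, c j * ∑ k ∈ Icc 1 H, (g (j + (((H : ℝ) + 1) / 2 - k)) - g j)| ≤ N * (H * B2) := by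
    have h3 : ∀ j ∈ Ioc A N, |c j * ∑ k ∈ Icc 1 H, (g (j + (((H : ℝ) + 1) / 2 - k)) - g j)| ≤ H * B2 := by
      intro j hj
      have h4 := sym g j H B2 (h2 j hj)
      rw [mem_Ioc] at hj
      rw [abs_mul]
      calc _ ≤ 1 * (H * B2) := mul_le_mul (hc j hj.1) h4 (abs_nonneg _) zero_le_one
        _ = H * B2 := one_mul _
    refine (abs_sum_le_sum_abs _ _).trans ((sum_le_card_nsmul _ _ _ h3).trans ?_)
    rw [Nat.card_Ioc, nsmul_eq_mul]
    refine mul_le_mul_of_nonneg_right ?_ (by positivity)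
    exact_mod_cast Nat.sub_le _ _
  have tk : ∀ (M k : ℕ), k ∈ Icc 1 H → (∀ j ∈ Ioc M (M + k), j ∈ Ioc A (A + H) ∨ j ∈ Ioc N (N + H)) →
      |∑ j ∈ Ioc M (M + k), c j * g (j + (((H : ℝ) + 1) / 2 - k))| ≤ H * B0 := by
    intro M k hk hM
    have h3 : ∀ j ∈ Ioc M (M + k), |c j * g (j + (((H : ℝ) + 1) / 2 - k))| ≤ B0 := by
      intro j hj
      have h4 := h0 j (hM j hj) _ (hd k hk)
      have h5 : A < j := by
        rcases hM j hj with h | h <;> rw [mem_Ioc] at h <;> omega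
      rw [abs_mul]
      calc _ ≤ 1 * B0 := mul_le_mul (hc j h5) h4 (abs_nonneg _) zero_le_one
        _ = B0 := one_mul _
    refine (abs_sum_le_sum_abs _ _).trans ((sum_le_card_nsmul _ _ _ h3).trans ?_)
    rw [Nat.card_Ioc, Nat.add_sub_cancel_left, nsmul_eq_mul]
    rw [mem_Icc] at hk
    refine mul_le_mul_of_nonneg_right ?_ hB0
    exact_mod_cast hk.2
  have t2 : |∑ k ∈ Icc 1 H, ∑ j ∈ Ioc N (N + k), c j * g (j + (((H : ℝ) + 1) / 2 - k))| ≤ H * (H * B0) := by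
    refine (abs_sum_le_sum_abs _ _).trans ((sum_le_card_nsmul _ _ (H * B0) fun k hk => ?_).trans (le_of_eq ?_))
    · refine tk N k hk fun j hj => Or.inr ?_
      rw [mem_Ioc] at hj ⊢
      rw [mem_Icc] at hk
      omega
    · rw [Nat.card_Icc, Nat.add_sub_cancel, nsmul_eq_mul]
  have t3 : |∑ k ∈ Icc 1 H, ∑ j ∈ Ioc A (A + k), c j * g (j + (((H : ℝ) + 1) / 2 - k))| ≤ H * (H * B0) := by
    refine (abs_sum_le_sum_abs _ _).trans ((sum_le_card_nsmul _ _ (H * B0) fun k hk => ?_).trans (le_of_eq ?_))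
    · refine tk A k hk fun j hj => Or.inl ?_
      rw [mem_Ioc] at hj ⊢
      rw [mem_Icc] at hk
      omega
    · rw [Nat.card_Icc, Nat.add_sub_cancel, nsmul_eq_mul]
  obtain ⟨a, ha⟩ : ∃ a, a = ∑ k ∈ Icc 1 H, ∑ j ∈ Ioc A N, c j * g (j + (((H : ℝ) + 1) / 2 - k)) := ⟨_, rfl⟩
  obtain ⟨b, hb⟩ : ∃ b, b = ∑ k ∈ Icc 1 H, ∑ j ∈ Ioc N (N + k), c j * g (j + (((H : ℝ) + 1) / 2 - k)) := ⟨_, rfl⟩
  obtain ⟨d, hd⟩ : ∃ d, d = ∑ k ∈ Icc 1 H, ∑ j ∈ Ioc A (A + k), c j * g (j + (((H : ℝ) + 1) / 2 - k)) := ⟨_, rfl⟩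
  rw [← e2] at t1
  rw [← ha] at t1 ⊢
  rw [← hb] at t2 ⊢
  rw [← hd] at t3 ⊢
  obtain ⟨m1, m2⟩ := abs_le.mp t1
  obtain ⟨m3, m4⟩ := abs_le.mp t2
  obtain ⟨m5, m6⟩ := abs_le.mp t3
  rw [abs_le]
  constructor <;> linarith

/-- the kernel with the logarithm -/
private noncomputable def gl (X y : ℝ) : ℝ := Real.log y * Gk (y / X)

private theorem log_up (y d : ℝ) (hy : 0 < y) (hd : 0 ≤ d) : |Real.log (y + d) - Real.log y| ≤ d / y := by
  have h1 : Real.log (y + d) - Real.log y = Real.log (1 + d / y) := by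
    rw [← Real.log_div (by linarith) hy.ne']
    congr 1
    field_simp
  rw [h1]
  have h2 : 0 ≤ d / y := by positivity
  rw [abs_of_nonneg (Real.log_nonneg (by linarith))]
  have := Real.log_le_sub_one_of_pos (show 0 < 1 + d / y by linarith)
  linarith

private theorem log_dn (y d : ℝ) (hy : 0 < y) (hd : 0 ≤ d) (hdy : d ≤ y / 2) : |Real.log (y - d) - Real.log y| ≤ 2 * (d / y) := by
  have h1 := log_up (y - d) d (by linarith) hd
  rw [sub_add_cancel, abs_sub_comm] at h1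
  refine h1.trans ?_
  rw [← mul_div_assoc, div_le_div_iff₀ (by linarith) hy]
  have : 0 ≤ d * (y - 2 * d) := mul_nonneg hd (by linarith)
  linarith

private theorem log_sd (y d : ℝ) (hy : 0 < y) (hd : 0 ≤ d) (hdy : d ≤ y / 2) :
    |Real.log (y + d) + Real.log (y - d) - 2 * Real.log y| ≤ 2 * (d ^ 2 / y ^ 2) := by
  have h1 : Real.log (y + d) + Real.log (y - d) - 2 * Real.log y = Real.log (1 - d ^ 2 / y ^ 2) := by
    have e : 1 - d ^ 2 / y ^ 2 = (y + d) * (y - d) / (y * y) := by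
      field_simp
      ring
    rw [e, Real.log_div (by have : 0 < y + d := by linarith
                            have : 0 < y - d := by linarith
                            positivity) (by positivity), Real.log_mul (by linarith) (by linarith),
      Real.log_mul hy.ne' hy.ne']
    ring
  rw [h1]
  obtain ⟨z, hz⟩ : ∃ z : ℝ, z = d ^ 2 / y ^ 2 := ⟨_, rfl⟩
  rw [← hz]
  have hz0 : 0 ≤ z := by rw [hz]; positivity
  have hz4 : z ≤ 1 / 4 := by
    rw [hz, div_le_iff₀ (by positivity)]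
    have : d ^ 2 ≤ (y / 2) ^ 2 := pow_le_pow_left₀ hd hdy 2
    linarith
  have h2 : Real.log (1 - z) ≤ 0 := Real.log_nonpos (by linarith) (by linarith)
  rw [abs_of_nonpos h2]
  have h3 := Real.one_sub_inv_le_log_of_pos (show 0 < 1 - z by linarith)
  have h4 : (1 - z)⁻¹ ≤ 1 + 2 * z := by
    rw [inv_le_comm₀ (by linarith) (by linarith), inv_eq_one_div, div_le_iff₀ (by linarith)]
    nlinarith
  linarith

/-- second difference of `gl` -/
private theorem gl_sd (C0 X y d : ℝ) (hC0 : 0 < C0)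
    (hsd : ∀ a h : ℝ, 0 < a → 0 ≤ h → h ≤ a / 2 → |Gk (a + h) + Gk (a - h) - 2 * Gk a| ≤ C0 * h ^ 2 / a ^ 4)
    (hX : 0 < X) (hy : 1 ≤ y) (hd : 0 ≤ d) (hdy : d ≤ y / 2) :
    |gl X (y + d) + gl X (y - d) - 2 * gl X y| ≤
      C0 * Real.log y * (d ^ 2 * X ^ 2 / y ^ 4) + 6 * (d ^ 2 / y ^ 2) + 3400 * (d ^ 2 * X ^ 2 / y ^ 4) := by
  have hy0 : 0 < y := by linarith
  have hlog : 0 ≤ Real.log y := Real.log_nonneg hy
  unfold gl
  obtain ⟨p, hp⟩ : ∃ p : ℝ, p = Gk ((y + d) / X) := ⟨_, rfl⟩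
  obtain ⟨q, hq⟩ : ∃ q : ℝ, q = Gk ((y - d) / X) := ⟨_, rfl⟩
  obtain ⟨r, hr⟩ : ∃ r : ℝ, r = Gk (y / X) := ⟨_, rfl⟩
  have k1 : |p + q - 2 * r| ≤ C0 * (d ^ 2 * X ^ 2 / y ^ 4) := by
    have h := hsd (y / X) (d / X) (by positivity) (by positivity) (by
      rw [div_div, mul_comm X 2, ← div_div]
      exact div_le_div_of_nonneg_right hdy hX.le)
    rw [← add_div, ← sub_div, ← hp, ← hq, ← hr] at h
    refine h.trans (le_of_eq ?_)
    field_simp
  have k2 : |p - r| ≤ 200 * (d * X ^ 2 / y ^ 3) := by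
    have h := Gk_lip (y / X) ((y + d) / X) (by positivity) (div_le_div_of_nonneg_right (by linarith) hX.le)
    rw [← hp, ← hr] at h
    refine h.trans (le_of_eq ?_)
    field_simp
    ring
  have k3 : |q - r| ≤ 1600 * (d * X ^ 2 / y ^ 3) := by
    have hyd : 0 < y - d := by linarith
    have h := Gk_lip ((y - d) / X) (y / X) (by positivity) (div_le_div_of_nonneg_right (by linarith) hX.le)
    rw [← hq, ← hr, abs_sub_comm] at h
    refine h.trans ?_
    have e1 : 200 * (y / X - (y - d) / X) / ((y - d) / X) ^ 3 = 200 * (d * X ^ 2) / (y - d) ^ 3 := by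
      field_simp
      ring
    have e2 : 1600 * (d * X ^ 2 / y ^ 3) = 200 * (d * X ^ 2) / (y / 2) ^ 3 := by
      field_simp
      ring
    rw [e1, e2]
    refine div_le_div_of_nonneg_left (by positivity) (by positivity) ?_
    exact pow_le_pow_left₀ (by positivity) (by linarith) 3
  have k4 : |r| ≤ 3 := by
    have hg0 := Gk_pos (show 0 < y / X by positivity)
    have hg1 := Gk_bd (show 0 < y / X by positivity)
    rw [hr, abs_of_pos hg0]
    exact hg1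
  have l1 := log_up y d hy0 hd
  have l2 := log_dn y d hy0 hd hdy
  have l3 := log_sd y d hy0 hd hdy
  rw [← hp, ← hq, ← hr]
  obtain ⟨a, ha⟩ : ∃ a : ℝ, a = Real.log (y + d) := ⟨_, rfl⟩
  obtain ⟨b, hb⟩ : ∃ b : ℝ, b = Real.log (y - d) := ⟨_, rfl⟩
  obtain ⟨c, hc⟩ : ∃ c : ℝ, c = Real.log y := ⟨_, rfl⟩
  rw [← hc] at hlog
  rw [← ha, ← hc] at l1
  rw [← hb, ← hc] at l2
  rw [← ha, ← hb, ← hc] at l3
  rw [← ha, ← hb, ← hc]
  have e : a * p + b * q - 2 * (c * r) = (p + q - 2 * r) * c + r * (a + b - 2 * c) + (p - r) * (a - c) + (q - r) * (b - c) := by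
    ring
  rw [e]
  have m1 : |(p + q - 2 * r) * c| ≤ C0 * (d ^ 2 * X ^ 2 / y ^ 4) * c := by
    rw [abs_mul, abs_of_nonneg hlog]
    exact mul_le_mul_of_nonneg_right k1 hlog
  have m2 : |r * (a + b - 2 * c)| ≤ 3 * (2 * (d ^ 2 / y ^ 2)) := by
    rw [abs_mul]
    exact mul_le_mul k4 l3 (abs_nonneg _) (by norm_num)
  have m3 : |(p - r) * (a - c)| ≤ 200 * (d * X ^ 2 / y ^ 3) * (d / y) := by
    rw [abs_mul]
    exact mul_le_mul k2 l1 (abs_nonneg _) (by positivity)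
  have m4 : |(q - r) * (b - c)| ≤ 1600 * (d * X ^ 2 / y ^ 3) * (2 * (d / y)) := by
    rw [abs_mul]
    exact mul_le_mul k3 l2 (abs_nonneg _) (by positivity)
  have e3 : 200 * (d * X ^ 2 / y ^ 3) * (d / y) = 200 * (d ^ 2 * X ^ 2 / y ^ 4) := by
    field_simp
  have e4 : 1600 * (d * X ^ 2 / y ^ 3) * (2 * (d / y)) = 3200 * (d ^ 2 * X ^ 2 / y ^ 4) := by
    field_simp
    ring
  have a1 := abs_add_le ((p + q - 2 * r) * c + r * (a + b - 2 * c) + (p - r) * (a - c)) ((q - r) * (b - c))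
  have a2 := abs_add_le ((p + q - 2 * r) * c + r * (a + b - 2 * c)) ((p - r) * (a - c))
  have a3 := abs_add_le ((p + q - 2 * r) * c) (r * (a + b - 2 * c))
  linarith

/-- second difference in the window -/
private theorem gl_sd2 (C0 X L l y d H : ℝ) (hC0 : 0 < C0)
    (hsd : ∀ a h : ℝ, 0 < a → 0 ≤ h → h ≤ a / 2 → |Gk (a + h) + Gk (a - h) - 2 * Gk a| ≤ C0 * h ^ 2 / a ^ 4)
    (hX : 0 < X) (hy : 1 ≤ y) (hd : 0 ≤ d) (hdH : d ≤ H) (hdy : d ≤ y / 2) (hL : 1 ≤ L) (hLl : L ≤ l)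
    (hyX : X / (2 * L) ≤ y) (hly : Real.log y ≤ 3 * l) :
    |gl X (y + d) + gl X (y - d) - 2 * gl X y| ≤ (48 * C0 + 60000) * l ^ 5 * (H ^ 2 / X ^ 2) := by
  have hy0 : 0 < y := by linarith
  have hL0 : 0 < L := by linarith
  have hl1 : 1 ≤ l := hL.trans hLl
  have hH0 : 0 ≤ H := hd.trans hdH
  refine (gl_sd C0 X y d hC0 hsd hX hy hd hdy).trans ?_
  have hdd : d ^ 2 ≤ H ^ 2 := pow_le_pow_left₀ hd hdH 2
  have h1 : X ^ 2 / y ^ 4 ≤ 16 * l ^ 4 / X ^ 2 := by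
    have e1 : (X / (2 * L)) ^ 4 ≤ y ^ 4 := pow_le_pow_left₀ (by positivity) hyX 4
    calc X ^ 2 / y ^ 4 ≤ X ^ 2 / (X / (2 * L)) ^ 4 := div_le_div_of_nonneg_left (by positivity) (by positivity) e1
      _ = 16 * L ^ 4 / X ^ 2 := by
          field_simp
          ring
      _ ≤ 16 * l ^ 4 / X ^ 2 := by
          refine div_le_div_of_nonneg_right ?_ (by positivity)
          exact mul_le_mul_of_nonneg_left (pow_le_pow_left₀ hL0.le hLl 4) (by norm_num)
  have h2 : 1 / y ^ 2 ≤ 4 * l ^ 2 / X ^ 2 := by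
    have e1 : (X / (2 * L)) ^ 2 ≤ y ^ 2 := pow_le_pow_left₀ (by positivity) hyX 2
    calc 1 / y ^ 2 ≤ 1 / (X / (2 * L)) ^ 2 := div_le_div_of_nonneg_left (by positivity) (by positivity) e1
      _ = 4 * L ^ 2 / X ^ 2 := by
          field_simp
          ring
      _ ≤ 4 * l ^ 2 / X ^ 2 := by
          refine div_le_div_of_nonneg_right ?_ (by positivity)
          exact mul_le_mul_of_nonneg_left (pow_le_pow_left₀ hL0.le hLl 2) (by norm_num)
  have h3 : d ^ 2 * X ^ 2 / y ^ 4 ≤ 16 * l ^ 4 * (H ^ 2 / X ^ 2) := by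
    calc d ^ 2 * X ^ 2 / y ^ 4 = d ^ 2 * (X ^ 2 / y ^ 4) := by ring
      _ ≤ H ^ 2 * (16 * l ^ 4 / X ^ 2) := mul_le_mul hdd h1 (by positivity) (by positivity)
      _ = 16 * l ^ 4 * (H ^ 2 / X ^ 2) := by ring
  have h4 : d ^ 2 / y ^ 2 ≤ 4 * l ^ 2 * (H ^ 2 / X ^ 2) := by
    calc d ^ 2 / y ^ 2 = d ^ 2 * (1 / y ^ 2) := by ring
      _ ≤ H ^ 2 * (4 * l ^ 2 / X ^ 2) := mul_le_mul hdd h2 (by positivity) (by positivity)
      _ = 4 * l ^ 2 * (H ^ 2 / X ^ 2) := by ring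
  obtain ⟨u, hu⟩ : ∃ u : ℝ, u = H ^ 2 / X ^ 2 := ⟨_, rfl⟩
  have hu0 : 0 ≤ u := by rw [hu]; positivity
  rw [← hu] at h3 h4 ⊢
  have hly0 : 0 ≤ Real.log y := Real.log_nonneg hy
  have h5 : C0 * Real.log y * (d ^ 2 * X ^ 2 / y ^ 4) ≤ C0 * (3 * l) * (16 * l ^ 4 * u) :=
    mul_le_mul (mul_le_mul_of_nonneg_left hly hC0.le) h3 (by positivity) (by positivity)
  have p2 : l ^ 2 * u ≤ l ^ 5 * u := mul_le_mul_of_nonneg_right (pow_le_pow_right₀ hl1 (by norm_num)) hu0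
  have p4 : l ^ 4 * u ≤ l ^ 5 * u := mul_le_mul_of_nonneg_right (pow_le_pow_right₀ hl1 (by norm_num)) hu0
  have p5 : 0 ≤ l ^ 5 * u := by positivity
  have e5 : C0 * (3 * l) * (16 * l ^ 4 * u) = 48 * C0 * (l ^ 5 * u) := by ring
  have e6 : (48 * C0 + 60000) * l ^ 5 * u = 48 * C0 * (l ^ 5 * u) + 60000 * (l ^ 5 * u) := by ring
  rw [e5] at h5
  rw [e6]
  linarith

/-- near the ends of the window -/
private theorem gl_end (X L l y : ℝ) (hX : 1 < X) (hL1 : 3 ≤ L) (hLl : L ≤ l) (hL2 : 3 * L ^ 2 = l) (hl : l = Real.log X)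
    (hy1 : X / (2 * L) ≤ y) (hly : Real.log y ≤ 3 * l) (hy0 : 1 ≤ y)
    (hy : y ≤ 5 / 4 * (X / L) ∨ 4 / 5 * (L * X) ≤ y) :
    |gl X y| ≤ 18 * l ^ 2 * X ^ (-(1 / 4) : ℝ) := by
  have hX0 : 0 < X := by linarith
  have hL0 : 0 < L := by linarith
  have hl0 : 0 < l := by linarith
  have hyp : 0 < y := by linarith
  have hlog0 : 0 ≤ Real.log y := Real.log_nonneg hy0
  obtain ⟨t, ht⟩ : ∃ t : ℝ, t = y / X := ⟨_, rfl⟩
  have ht0 : 0 < t := by rw [ht]; positivity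
  have hpi := Real.pi_gt_three
  have hexp : ∀ u : ℝ, l / 4 ≤ u → Real.exp (-u) ≤ X ^ (-(1 / 4) : ℝ) := by
    intro u hu
    rw [Real.rpow_def_of_pos hX0, ← hl]
    refine Real.exp_le_exp.mpr ?_
    linarith
  have hG : Gk t ≤ 6 * L * X ^ (-(1 / 4) : ℝ) := by
    have hXp : 0 < X ^ (-(1 / 4) : ℝ) := by positivity
    rcases hy with h | h
    · have h1 : t ≤ 5 / (4 * L) := by
        rw [ht, div_le_iff₀ hX0]
        calc y ≤ 5 / 4 * (X / L) := h
          _ = 5 / (4 * L) * X := by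
              field_simp
      have h2 : t ≤ 1 := by
        refine h1.trans ?_
        rw [div_le_one (by positivity)]
        linarith
      have h3 : 1 / (2 * L) ≤ t := by
        rw [ht, le_div_iff₀ hX0]
        calc 1 / (2 * L) * X = X / (2 * L) := by ring
          _ ≤ y := hy1
      refine (Gk_le' ht0 h2).trans ?_
      have h4 : l / 4 ≤ Real.pi / (2 * t ^ 2) := by
        rw [le_div_iff₀ (by positivity)]
        have h5 : t ^ 2 ≤ (5 / (4 * L)) ^ 2 := pow_le_pow_left₀ ht0.le h1 2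
        have h6 : (5 / (4 * L)) ^ 2 * L ^ 2 = 25 / 16 := by
          field_simp
          norm_num
        have h7 : l * t ^ 2 ≤ 3 * (25 / 16) := by
          calc l * t ^ 2 = 3 * (t ^ 2 * L ^ 2) := by rw [← hL2]; ring
            _ ≤ 3 * ((5 / (4 * L)) ^ 2 * L ^ 2) :=
                mul_le_mul_of_nonneg_left (mul_le_mul_of_nonneg_right h5 (by positivity)) (by norm_num)
            _ = 3 * (25 / 16) := by rw [h6]
        linarith
      have h5 := hexp _ h4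
      rw [div_le_iff₀ ht0]
      calc 3 * Real.exp (-(Real.pi / (2 * t ^ 2))) ≤ 3 * X ^ (-(1 / 4) : ℝ) :=
            mul_le_mul_of_nonneg_left h5 (by norm_num)
        _ = 6 * L * X ^ (-(1 / 4) : ℝ) * (1 / (2 * L)) := by
            field_simp
            norm_num
        _ ≤ 6 * L * X ^ (-(1 / 4) : ℝ) * t := mul_le_mul_of_nonneg_left h3 (by positivity)
    · have h1 : 4 / 5 * L ≤ t := by
        rw [ht, le_div_iff₀ hX0]
        linarith
      have h2 : 1 ≤ t := by linarith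
      refine (Gk_le h2).trans ?_
      have h4 : l / 4 ≤ Real.pi * t ^ 2 / 2 := by
        have h5 : (4 / 5 * L) ^ 2 ≤ t ^ 2 := pow_le_pow_left₀ (by positivity) h1 2
        have h6 : (4 / 5 * L) ^ 2 = 16 / 75 * l := by rw [← hL2]; ring
        have h7 : 3 * t ^ 2 ≤ Real.pi * t ^ 2 := mul_le_mul_of_nonneg_right hpi.le (by positivity)
        linarith
      have h5 := hexp _ h4
      have h6 : 3 * X ^ (-(1 / 4) : ℝ) ≤ 6 * L * X ^ (-(1 / 4) : ℝ) := mul_le_mul_of_nonneg_right (by linarith) hXp.le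
      linarith
  unfold gl
  rw [← ht, abs_mul, abs_of_nonneg hlog0, abs_of_pos (Gk_pos ht0)]
  calc Real.log y * Gk t ≤ 3 * l * (6 * L * X ^ (-(1 / 4) : ℝ)) :=
        mul_le_mul hly hG (Gk_pos ht0).le (by positivity)
    _ = 18 * (l * L) * X ^ (-(1 / 4) : ℝ) := by ring
    _ ≤ 18 * (l * l) * X ^ (-(1 / 4) : ℝ) := by
        refine mul_le_mul_of_nonneg_right ?_ (by positivity)
        exact mul_le_mul_of_nonneg_left (mul_le_mul_of_nonneg_left hLl hl0.le) (by norm_num)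
    _ = 18 * l ^ 2 * X ^ (-(1 / 4) : ℝ) := by ring

theorem sgh : ∃ C X0 : ℝ, 0 < C ∧ ∀ (X H : ℕ) (s : ℝ), X0 ≤ X → 1 ≤ H → (H : ℝ) ≤ (X : ℝ) ^ (3 / 5 : ℝ) → s = 1 ∨ s = -1 →
    ∑ n ∈ Ioc X (2 * X), |EI n H| ≤ C * Real.log X ^ 5 * (∑ n ∈ Ioc ⌊(X : ℝ) / Lw X⌋₊ ⌈Lw X * (X : ℝ)⌉₊, max (s * EI n H) 0 +
      H * √(X : ℝ) + X) := by
  obtain ⟨C, x2, hC, hwin⟩ := Pool.Agent.H24.TL.win
  obtain ⟨C0, hC0, hsd⟩ := Gk_sd
  obtain ⟨K, hK⟩ : ∃ K : ℝ, K = 10 ^ 13 * (C + 60) := ⟨_, rfl⟩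
  have hK0 : 0 < K := by rw [hK]; positivity
  obtain ⟨C3, hC3⟩ : ∃ C3 : ℝ, C3 = 2 * (48 * C0 + 60000) := ⟨_, rfl⟩
  have hC30 : 0 < C3 := by rw [hC3]; positivity
  have ev1 : ∀ᶠ X : ℝ in Filter.atTop, 27 ≤ Real.log X := Real.tendsto_log_atTop.eventually_ge_atTop 27
  have ev2 : ∀ᶠ X : ℝ in Filter.atTop, 6 * Real.log X ≤ X := by
    have h := Real.isLittleO_log_id_atTop.bound (c := 1 / 6) (by positivity)
    filter_upwards [h, Filter.eventually_ge_atTop 1] with X hX hX1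
    have hl := Real.log_nonneg hX1
    rw [Real.norm_eq_abs, abs_of_nonneg hl, id, Real.norm_eq_abs, abs_of_nonneg (by linarith : (0 : ℝ) ≤ X)] at hX
    linarith
  have ev3 : ∀ᶠ X : ℝ in Filter.atTop, Real.log X ^ (6 : ℝ) ≤ 1 / (C3 + 36) * X ^ (1 / 20 : ℝ) := by
    have h := (isLittleO_log_rpow_rpow_atTop 6 (by norm_num : (0 : ℝ) < 1 / 20)).bound (c := 1 / (C3 + 36)) (by positivity)
    filter_upwards [h, Filter.eventually_ge_atTop 1] with X hX hX1
    have hl := Real.log_nonneg hX1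
    rw [Real.norm_eq_abs, abs_of_nonneg (by positivity), Real.norm_eq_abs, abs_of_nonneg (by positivity)] at hX
    exact hX
  obtain ⟨x0, hx0⟩ := Filter.eventually_atTop.mp (ev1.and (ev2.and ev3))
  refine ⟨K, max 100 (max x0 x2), hK0, fun X H s hX hH1 hH2 hs => ?_⟩
  have hX100 : (100 : ℝ) ≤ X := (le_max_left _ _).trans hX
  have g2 : 100 ≤ X := by exact_mod_cast hX100
  have g3 : x0 ≤ X := (le_max_left _ _).trans ((le_max_right _ _).trans hX)
  have g4 : x2 ≤ X := (le_max_right _ _).trans ((le_max_right _ _).trans hX)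
  obtain ⟨k1, k2, k3⟩ := hx0 X g3
  have hX0 : (0 : ℝ) < X := by linarith
  have hX1 : (1 : ℝ) ≤ X := by linarith
  obtain ⟨l, hl⟩ : ∃ l : ℝ, l = Real.log X := ⟨_, rfl⟩
  obtain ⟨L, hL⟩ : ∃ L : ℝ, L = Lw X := ⟨_, rfl⟩
  rw [← hl] at k1 k2 k3 ⊢
  rw [← hL]
  have hl0 : 0 < l := by linarith
  have hl1 : 1 ≤ l := by linarith
  have hL2 : 3 * L ^ 2 = l := by
    rw [hL, Lw, ← hl, Real.sq_sqrt (by positivity)]
    ring
  have hL3 : 3 ≤ L := by
    rw [hL, Lw, ← hl]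
    exact Real.le_sqrt_of_sq_le (by linarith)
  have hLl : L ≤ l := by
    rw [← hL2, sq]
    have h1 : 1 * L ≤ L * L := mul_le_mul_of_nonneg_right (by linarith) (by linarith)
    linarith [(by positivity : 0 ≤ L * L)]
  have hL0 : 0 < L := by linarith
  have hLl1 : 1 ≤ L := by linarith
  obtain ⟨A, hA⟩ : ∃ A : ℕ, A = ⌊(X : ℝ) / L⌋₊ := ⟨_, rfl⟩
  have hA1 : (A : ℝ) ≤ X / L := by rw [hA]; exact Nat.floor_le (by positivity)
  have hA2 : (X : ℝ) / L < A + 1 := by rw [hA]; exact Nat.lt_floor_add_one _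
  obtain ⟨N, hN⟩ : ∃ N : ℕ, N = ⌈L * (X : ℝ)⌉₊ := ⟨_, rfl⟩
  have hN1 : L * X ≤ N := by rw [hN]; exact Nat.le_ceil _
  have hN2 : (N : ℝ) < L * X + 1 := by rw [hN]; exact Nat.ceil_lt_add_one (by positivity)
  have h3X : 3 * (X : ℝ) ≤ L * X := mul_le_mul_of_nonneg_right hL3 hX0.le
  have hN3 : (N : ℝ) ≤ 2 * (L * X) := by linarith
  have hLX : 6 * L * X ≤ X * X := mul_le_mul_of_nonneg_right (by linarith) hX0.le
  have hNX2 : (N : ℝ) ≤ (X : ℝ) ^ 2 := by
    rw [sq]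
    linarith
  have hw := hwin X A N g4 (by rw [← hL]; exact hA1) (by rw [← hL]; exact hN1) hNX2
  rw [← hl] at hw
  rw [← hA, ← hN]
  have hH0 : (0 : ℝ) ≤ H := Nat.cast_nonneg _
  have hH1r : (1 : ℝ) ≤ H := by exact_mod_cast hH1
  -- `H` against `X / L`
  have hlX : l ≤ (X : ℝ) ^ (1 / 20 : ℝ) := by
    have a1 : l ≤ l ^ (6 : ℝ) := by
      calc l = l ^ (1 : ℝ) := (Real.rpow_one l).symm
        _ ≤ l ^ (6 : ℝ) := Real.rpow_le_rpow_of_exponent_le hl1 (by norm_num)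
    have a2 : 1 / (C3 + 36) * (X : ℝ) ^ (1 / 20 : ℝ) ≤ 1 * (X : ℝ) ^ (1 / 20 : ℝ) := by
      refine mul_le_mul_of_nonneg_right ?_ (by positivity)
      rw [div_le_one (by positivity)]
      linarith
    linarith
  have hHl : (H : ℝ) * l ^ 2 ≤ X := by
    calc (H : ℝ) * l ^ 2 ≤ (X : ℝ) ^ (3 / 5 : ℝ) * ((X : ℝ) ^ (1 / 20 : ℝ)) ^ 2 :=
          mul_le_mul hH2 (pow_le_pow_left₀ hl0.le hlX 2) (by positivity) (by positivity)
      _ = (X : ℝ) ^ (7 / 10 : ℝ) := by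
          rw [← Real.rpow_natCast, ← Real.rpow_mul hX0.le, ← Real.rpow_add hX0]
          norm_num
      _ ≤ (X : ℝ) ^ (1 : ℝ) := Real.rpow_le_rpow_of_exponent_le hX1 (by norm_num)
      _ = (X : ℝ) := Real.rpow_one _
  have hHL : 8 * (H : ℝ) + 8 ≤ X / L := by
    rw [le_div_iff₀ hL0]
    have a1 : (8 * (H : ℝ) + 8) * L ≤ (16 * H) * l := mul_le_mul (by linarith) hLl hL0.le (by positivity)
    have a2 : (16 * (H : ℝ)) * l ≤ H * l ^ 2 := by
      have := mul_le_mul_of_nonneg_left (mul_le_mul_of_nonneg_right (by linarith : 16 ≤ l) hl0.le) hH0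
      calc 16 * (H : ℝ) * l = H * (16 * l) := by ring
        _ ≤ H * (l * l) := this
        _ = H * l ^ 2 := by ring
    linarith
  have hXLX : (X : ℝ) / L ≤ X / 3 := div_le_div_of_nonneg_left hX0.le (by norm_num) hL3
  have hA4 : 3 ≤ A := by
    have : (3 : ℝ) ≤ A := by linarith
    exact_mod_cast this
  have hAH : 8 * (H : ℝ) ≤ A := by linarith
  have hANr : ((A + H : ℕ) : ℝ) ≤ N := by push_cast; linarith
  have hAN : A + H ≤ N := by exact_mod_cast hANr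
  have hAr : (3 : ℝ) ≤ A := by exact_mod_cast hA4
  have hX2L : (X : ℝ) / (2 * L) = X / L / 2 := by
    field_simp
  -- logarithms
  have hlogy : ∀ y : ℝ, 0 < y → y ≤ 4 * (L * X) → Real.log y ≤ 3 * l := by
    intro y hy hyy
    have a1 : y ≤ (X : ℝ) ^ 3 := by
      calc y ≤ 4 * (L * X) := hyy
        _ ≤ X * X := by linarith [(by positivity : 0 ≤ L * (X : ℝ))]
        _ = X ^ 2 := by ring
        _ ≤ (X : ℝ) ^ 3 := pow_le_pow_right₀ hX1 (by norm_num)
    have a2 := Real.log_le_log hy a1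
    rw [Real.log_pow, ← hl] at a2
    push_cast at a2
    exact a2
  -- weights
  obtain ⟨w, hwd⟩ : ∃ w : ℕ → ℝ, ∀ n, w n = gl X ((n : ℝ) + ((H : ℝ) + 1) / 2) := ⟨_, fun n => rfl⟩
  have hw0 : ∀ n ∈ Ioc A N, 0 ≤ w n := by
    intro n hn
    rw [mem_Ioc] at hn
    have h1 : (1 : ℝ) ≤ n := by exact_mod_cast (by omega : 1 ≤ n)
    rw [hwd, gl]
    exact mul_nonneg (Real.log_nonneg (by linarith)) (Gk_pos (by positivity)).le
  have hw3 : ∀ n ∈ Ioc A N, w n ≤ 9 * l := by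
    intro n hn
    rw [mem_Ioc] at hn
    have h1 : (1 : ℝ) ≤ n := by exact_mod_cast (by omega : 1 ≤ n)
    have h2 : (n : ℝ) ≤ N := by exact_mod_cast hn.2
    rw [hwd, gl]
    have h3 := hlogy ((n : ℝ) + ((H : ℝ) + 1) / 2) (by positivity) (by linarith)
    have h4 := Gk_bd (show 0 < ((n : ℝ) + ((H : ℝ) + 1) / 2) / X by positivity)
    calc _ ≤ 3 * l * 3 := mul_le_mul h3 h4 (Gk_pos (by positivity)).le (by positivity)
      _ = 9 * l := by ring
  have hwm : ∀ n ∈ Ioc X (2 * X), l / 10 ^ 13 ≤ w n := by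
    intro n hn
    rw [mem_Ioc] at hn
    have n1 : (X : ℝ) ≤ n := by exact_mod_cast hn.1.le
    have n2 : (n : ℝ) ≤ 2 * X := by exact_mod_cast hn.2
    rw [hwd, gl]
    have g1 : 1 / 10 ^ 13 ≤ Gk (((n : ℝ) + ((H : ℝ) + 1) / 2) / X) := by
      refine Gk_mid ?_ ?_
      · rw [le_div_iff₀ hX0]; linarith
      · rw [div_le_iff₀ hX0]; linarith
    have g5 : l ≤ Real.log ((n : ℝ) + ((H : ℝ) + 1) / 2) := by
      rw [hl]
      exact Real.log_le_log hX0 (by linarith)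
    calc l / 10 ^ 13 = l * (1 / 10 ^ 13) := by ring
      _ ≤ _ := mul_le_mul g5 g1 (by positivity) (by linarith)
  -- the sum with the weights
  obtain ⟨T, hT⟩ : ∃ T : ℝ, T = ∑ n ∈ Ioc A N, w n * EV vl n H := ⟨_, rfl⟩
  have hTb : |T| ≤ l * (C * (H * √(X : ℝ))) + 2 * X := by
    have e1 : T = ∑ k ∈ Icc 1 H, ∑ j ∈ Ioc (A + k) (N + k), vl j * TL.bb j * gl X (j + (((H : ℝ) + 1) / 2 - k)) := by
      rw [hT, ← exch vl (gl X) H A N]
      exact sum_congr rfl fun n _ => by rw [hwd]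
    have hc : ∀ j, A < j → |vl j * TL.bb j| ≤ 1 := by
      intro j hj
      have h1 := log_one (by omega : 3 ≤ j)
      unfold vl TL.bb pl
      rw [if_neg (by omega), abs_mul, abs_of_nonneg (by positivity : 0 ≤ 1 / Real.log (j : ℝ))]
      have h2 : |(if j.Prime then Real.log j else 0) - 1| ≤ Real.log j := by
        split_ifs
        · rw [abs_of_nonneg (by linarith)]
          linarith
        · rw [zero_sub, abs_neg, abs_one]
          exact h1
      calc 1 / Real.log (j : ℝ) * |(if j.Prime then Real.log j else 0) - 1| ≤ 1 / Real.log (j : ℝ) * Real.log j :=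
            mul_le_mul_of_nonneg_left h2 (by positivity)
        _ = 1 := by
            field_simp
    obtain ⟨B2, hB2⟩ : ∃ B2 : ℝ, B2 = (48 * C0 + 60000) * l ^ 5 * ((H : ℝ) ^ 2 / (X : ℝ) ^ 2) := ⟨_, rfl⟩
    obtain ⟨B0, hB0⟩ : ∃ B0 : ℝ, B0 = 18 * l ^ 2 * (X : ℝ) ^ (-(1 / 4) : ℝ) := ⟨_, rfl⟩
    have hB20 : 0 ≤ B2 := by rw [hB2]; positivity
    have hB00 : 0 ≤ B0 := by rw [hB0]; positivity
    have h2 : ∀ j ∈ Ioc A N, ∀ d : ℝ, 0 ≤ d → d ≤ H → |gl X (j + d) + gl X (j - d) - 2 * gl X j| ≤ B2 := by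
      intro j hj d hd hdH
      rw [mem_Ioc] at hj
      have j1 : (A : ℝ) ≤ j := by exact_mod_cast hj.1.le
      have j2 : (j : ℝ) ≤ N := by exact_mod_cast hj.2
      rw [hB2]
      exact gl_sd2 C0 X L l j d H hC0 hsd hX0 (by linarith) hd hdH (by linarith) hLl1 hLl (by rw [hX2L]; linarith)
        (hlogy j (by linarith) (by linarith))
    have h0 : ∀ j : ℕ, (j ∈ Ioc A (A + H) ∨ j ∈ Ioc N (N + H)) → ∀ d : ℝ, |d| ≤ H → |gl X (j + d)| ≤ B0 := by
      intro j hj d hd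
      obtain ⟨d1, d2⟩ := abs_le.mp hd
      rw [hB0]
      rcases hj with h | h
      · rw [mem_Ioc] at h
        have j1 : (A : ℝ) ≤ j := by exact_mod_cast h.1.le
        have j2 : (j : ℝ) ≤ A + H := by exact_mod_cast h.2
        exact gl_end X L l (j + d) (by linarith) hL3 hLl hL2 hl (by rw [hX2L]; linarith)
          (hlogy _ (by linarith) (by linarith)) (by linarith) (Or.inl (by linarith))
      · rw [mem_Ioc] at h
        have j1 : (N : ℝ) ≤ j := by exact_mod_cast h.1.le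
        have j2 : (j : ℝ) ≤ N + H := by exact_mod_cast h.2
        have hXL2 : (X : ℝ) / L ≤ L * X := by linarith
        exact gl_end X L l (j + d) (by linarith) hL3 hLl hL2 hl (by rw [hX2L]; linarith)
          (hlogy _ (by linarith) (by linarith)) (by linarith) (Or.inr (by linarith))
    have h3 := tdiff (fun j => vl j * TL.bb j) (gl X) A N H B0 B2 hAN hB00 hB20 hc h2 h0
    rw [← e1] at h3
    -- the main sum
    have e2 : ∑ j ∈ Ioc A N, vl j * TL.bb j * gl X j = ∑ j ∈ Ioc A N, TL.bb j * Gk ((j : ℝ) / X) := by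
      refine sum_congr rfl fun j hj => ?_
      rw [mem_Ioc] at hj
      have h1 := log_one (by omega : 3 ≤ j)
      unfold vl gl
      rw [if_neg (by omega)]
      have h4 : Real.log (j : ℝ) ≠ 0 := by linarith
      field_simp
    rw [e2] at h3
    obtain ⟨Wd, hWd⟩ : ∃ Wd : ℝ, Wd = ∑ j ∈ Ioc A N, TL.bb j * Gk ((j : ℝ) / X) := ⟨_, rfl⟩
    rw [← hWd] at h3 hw
    have h5 : |(H : ℝ) * Wd| ≤ l * (C * (H * √(X : ℝ))) := by
      rw [abs_mul, abs_of_nonneg hH0]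
      calc (H : ℝ) * |Wd| ≤ H * (C * (√(X : ℝ) * l)) := mul_le_mul_of_nonneg_left hw hH0
        _ = l * (C * (H * √(X : ℝ))) := by ring
    -- the errors
    have hl6 : (C3 + 36) * l ^ 6 ≤ (X : ℝ) ^ (1 / 20 : ℝ) := by
      have a1 : l ^ 6 = l ^ (6 : ℝ) := by rw [← Real.rpow_natCast]; norm_num
      rw [a1]
      have a2 := mul_le_mul_of_nonneg_left k3 (by positivity : 0 ≤ C3 + 36)
      have a3 : (C3 + 36) * (1 / (C3 + 36) * (X : ℝ) ^ (1 / 20 : ℝ)) = (X : ℝ) ^ (1 / 20 : ℝ) := by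
        field_simp
      rw [a3] at a2
      exact a2
    have hC3l : C3 * l ^ 6 ≤ (X : ℝ) ^ (1 / 20 : ℝ) := by
      refine le_trans (mul_le_mul_of_nonneg_right (by linarith) (by positivity)) hl6
    have h36l : 36 * l ^ 2 ≤ (X : ℝ) ^ (1 / 20 : ℝ) := by
      calc 36 * l ^ 2 ≤ 36 * l ^ 6 := mul_le_mul_of_nonneg_left (pow_le_pow_right₀ hl1 (by norm_num)) (by norm_num)
        _ ≤ (C3 + 36) * l ^ 6 := mul_le_mul_of_nonneg_right (by linarith) (by positivity)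
        _ ≤ (X : ℝ) ^ (1 / 20 : ℝ) := hl6
    have hH3 : (H : ℝ) ^ 3 ≤ (X : ℝ) ^ (9 / 5 : ℝ) := by
      calc (H : ℝ) ^ 3 ≤ ((X : ℝ) ^ (3 / 5 : ℝ)) ^ 3 := pow_le_pow_left₀ hH0 hH2 3
        _ = (X : ℝ) ^ (9 / 5 : ℝ) := by
            rw [← Real.rpow_natCast, ← Real.rpow_mul hX0.le]
            norm_num
    have hHH : (H : ℝ) ^ 2 ≤ (X : ℝ) ^ (6 / 5 : ℝ) := by
      calc (H : ℝ) ^ 2 ≤ ((X : ℝ) ^ (3 / 5 : ℝ)) ^ 2 := pow_le_pow_left₀ hH0 hH2 2
        _ = (X : ℝ) ^ (6 / 5 : ℝ) := by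
            rw [← Real.rpow_natCast, ← Real.rpow_mul hX0.le]
            norm_num
    have t1 : (N : ℝ) * (H * B2) ≤ X := by
      calc (N : ℝ) * (H * B2) ≤ 2 * (L * X) * (H * B2) := mul_le_mul_of_nonneg_right hN3 (by positivity)
        _ = C3 * (l ^ 5 * L) * ((H : ℝ) ^ 3 / X) := by
            rw [hB2, hC3]
            field_simp
        _ ≤ C3 * (l ^ 5 * l) * ((H : ℝ) ^ 3 / X) := by
            refine mul_le_mul_of_nonneg_right ?_ (by positivity)
            exact mul_le_mul_of_nonneg_left (mul_le_mul_of_nonneg_left hLl (by positivity)) hC30.le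
        _ = C3 * l ^ 6 * ((H : ℝ) ^ 3 / X) := by ring
        _ ≤ (X : ℝ) ^ (1 / 20 : ℝ) * ((X : ℝ) ^ (9 / 5 : ℝ) / X) :=
            mul_le_mul hC3l (div_le_div_of_nonneg_right hH3 hX0.le) (by positivity) (by positivity)
        _ = (X : ℝ) ^ (17 / 20 : ℝ) := by
            rw [← Real.rpow_sub_one hX0.ne', ← Real.rpow_add hX0]
            norm_num
        _ ≤ (X : ℝ) ^ (1 : ℝ) := Real.rpow_le_rpow_of_exponent_le hX1 (by norm_num)
        _ = (X : ℝ) := Real.rpow_one _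
    have t2 : 2 * ((H : ℝ) * (H * B0)) ≤ X := by
      calc 2 * ((H : ℝ) * (H * B0)) = 36 * l ^ 2 * ((H : ℝ) ^ 2 * (X : ℝ) ^ (-(1 / 4) : ℝ)) := by
            rw [hB0]
            ring
        _ ≤ (X : ℝ) ^ (1 / 20 : ℝ) * ((X : ℝ) ^ (6 / 5 : ℝ) * (X : ℝ) ^ (-(1 / 4) : ℝ)) :=
            mul_le_mul h36l (mul_le_mul_of_nonneg_right hHH (by positivity)) (by positivity) (by positivity)
        _ = (X : ℝ) ^ (1 : ℝ) := by
            rw [← Real.rpow_add hX0, ← Real.rpow_add hX0]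
            norm_num
        _ = (X : ℝ) := Real.rpow_one _
    have h6 : |T| ≤ |T - H * Wd| + |(H : ℝ) * Wd| := by
      have := abs_add_le (T - H * Wd) ((H : ℝ) * Wd)
      rwa [sub_add_cancel] at this
    linarith
  -- pointwise
  have hsabs : ∀ x : ℝ, |s * x| = |x| := by
    intro x
    rcases hs with rfl | rfl
    · rw [one_mul]
    · rw [neg_one_mul, abs_neg]
  have hpt : ∀ n ∈ Ioc A N, w n * |EI n H| ≤ (-s) * (w n * EV vl n H) + (9 * l + 18 * l * max (s * EI n H) 0) := by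
    intro n hn
    have p0 := hw0 n hn
    have p1 := hw3 n hn
    rw [mem_Ioc] at hn
    have p2 := ei_ev n H (by omega)
    have p3 : |EI n H| ≤ 2 * max (s * EI n H) 0 - s * EI n H := by
      rw [← hsabs]
      rcases le_total 0 (s * EI n H) with h | h
      · rw [max_eq_left h, abs_of_nonneg h]
        linarith
      · rw [max_eq_right h, abs_of_nonpos h]
        linarith
    have p4 : |s * EI n H - s * EV vl n H| ≤ 1 := by
      rw [← mul_sub, hsabs]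
      exact p2
    have p5 := (abs_le.mp p4).1
    have p6 : |EI n H| ≤ 2 * max (s * EI n H) 0 - s * EV vl n H + 1 := by linarith
    have p7 := mul_le_mul_of_nonneg_left p6 p0
    have p8 : 0 ≤ max (s * EI n H) 0 := le_max_right _ _
    have p9 := mul_le_mul_of_nonneg_right p1 (by linarith : 0 ≤ 2 * max (s * EI n H) 0 + 1)
    calc w n * |EI n H| ≤ w n * (2 * max (s * EI n H) 0 - s * EV vl n H + 1) := p7
      _ = (-s) * (w n * EV vl n H) + w n * (2 * max (s * EI n H) 0 + 1) := by ring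
      _ ≤ (-s) * (w n * EV vl n H) + 9 * l * (2 * max (s * EI n H) 0 + 1) := by linarith
      _ = _ := by ring
  have hsum := sum_le_sum hpt
  rw [sum_add_distrib, ← mul_sum, sum_add_distrib, sum_const, nsmul_eq_mul, Nat.card_Ioc, ← mul_sum, ← hT] at hsum
  obtain ⟨S, hS⟩ : ∃ S : ℝ, S = ∑ n ∈ Ioc A N, max (s * EI n H) 0 := ⟨_, rfl⟩
  rw [← hS] at hsum ⊢
  have hS0 : 0 ≤ S := by
    rw [hS]
    exact sum_nonneg fun n _ => le_max_right _ _
  have hsT : -s * T ≤ |T| := by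
    rcases hs with h | h
    · rw [h]
      linarith [neg_abs_le T]
    · rw [h]
      linarith [le_abs_self T]
  have hNA : ((N - A : ℕ) : ℝ) * (9 * l) ≤ 18 * (l ^ 2 * X) := by
    have a1 : ((N - A : ℕ) : ℝ) ≤ 2 * (L * X) := by
      have : ((N - A : ℕ) : ℝ) ≤ N := by exact_mod_cast Nat.sub_le _ _
      linarith
    have a2 : L * X ≤ l * X := mul_le_mul_of_nonneg_right hLl hX0.le
    calc ((N - A : ℕ) : ℝ) * (9 * l) ≤ 2 * (l * X) * (9 * l) := mul_le_mul_of_nonneg_right (by linarith) (by positivity)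
      _ = 18 * (l ^ 2 * X) := by ring
  have hleft : l / 10 ^ 13 * ∑ n ∈ Ioc X (2 * X), |EI n H| ≤ ∑ n ∈ Ioc A N, w n * |EI n H| := by
    have h1 : l / 10 ^ 13 * ∑ n ∈ Ioc X (2 * X), |EI n H| ≤ ∑ n ∈ Ioc X (2 * X), w n * |EI n H| := by
      rw [mul_sum]
      exact sum_le_sum fun n hn => mul_le_mul_of_nonneg_right (hwm n hn) (abs_nonneg _)
    refine h1.trans (sum_le_sum_of_subset_of_nonneg ?_ fun n hn _ => mul_nonneg (hw0 n hn) (abs_nonneg _))
    intro n hn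
    rw [mem_Ioc] at hn ⊢
    have a1 : (A : ℝ) ≤ X := by linarith
    have a2 : A ≤ X := by exact_mod_cast a1
    have a3 : ((2 * X : ℕ) : ℝ) ≤ N := by push_cast; linarith
    have a4 : 2 * X ≤ N := by exact_mod_cast a3
    omega
  obtain ⟨Z, hZ⟩ : ∃ Z : ℝ, Z = ∑ n ∈ Ioc X (2 * X), |EI n H| := ⟨_, rfl⟩
  rw [← hZ] at hleft ⊢
  have f1 : l / 10 ^ 13 * Z ≤ l * (C * (H * √(X : ℝ))) + 2 * X + 18 * (l ^ 2 * X) + 18 * l * S := by linarith
  have f2 : l * (C * (H * √(X : ℝ))) + 2 * X + 18 * (l ^ 2 * X) + 18 * l * S ≤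
      l * ((C + 60) * (l * (S + H * √(X : ℝ) + X))) := by
    have q0 : 0 ≤ (H : ℝ) * √(X : ℝ) := by positivity
    have q1 : (X : ℝ) ≤ l * (l * X) := by
      have a1 : 1 * (X : ℝ) ≤ l * X := mul_le_mul_of_nonneg_right hl1 hX0.le
      have a2 : 1 * (l * (X : ℝ)) ≤ l * (l * X) := mul_le_mul_of_nonneg_right hl1 (by positivity)
      linarith
    have q2 : l * (C * (H * √(X : ℝ))) ≤ l * (C * (l * (H * √(X : ℝ)))) := by
      refine mul_le_mul_of_nonneg_left (mul_le_mul_of_nonneg_left ?_ hC.le) hl0.le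
      exact le_mul_of_one_le_left q0 hl1
    have q3 : 18 * l * S ≤ 18 * (l * (l * S)) := by
      have a1 : l * S ≤ l * (l * S) := le_mul_of_one_le_left (by positivity) hl1
      linarith
    have q4 : 0 ≤ l * (C * (l * (S + X))) := by positivity
    have q5 : 0 ≤ l * (l * (H * √(X : ℝ))) := by positivity
    have q6 : 0 ≤ l * (l * S) := by positivity
    have q7 : 0 ≤ l * (l * X) := by positivity
    have e1 : l * ((C + 60) * (l * (S + H * √(X : ℝ) + X))) = l * (C * (l * (S + X))) + l * (C * (l * (H * √(X : ℝ)))) +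
        60 * (l * (l * S)) + 60 * (l * (l * (H * √(X : ℝ)))) + 60 * (l * (l * X)) := by ring
    have e2 : 18 * (l ^ 2 * X) = 18 * (l * (l * X)) := by ring
    rw [e1, e2]
    linarith
  have f3 : l * Z ≤ l * (K * (l * (S + H * √(X : ℝ) + X))) := by
    have a1 := mul_le_mul_of_nonneg_left (f1.trans f2) (by norm_num : (0 : ℝ) ≤ 10 ^ 13)
    have a2 : (10 : ℝ) ^ 13 * (l / 10 ^ 13 * Z) = l * Z := by
      field_simp
    rw [a2] at a1
    refine a1.trans (le_of_eq ?_)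
    rw [hK]
    ring
  have f4 := le_of_mul_le_mul_left f3 hl0
  refine f4.trans ?_
  have a1 : l ≤ l ^ 5 := le_self_pow₀ hl1 (by norm_num)
  calc K * (l * (S + H * √(X : ℝ) + X)) ≤ K * (l ^ 5 * (S + H * √(X : ℝ) + X)) := by
        refine mul_le_mul_of_nonneg_left (mul_le_mul_of_nonneg_right a1 (by positivity)) hK0.le
    _ = K * l ^ 5 * (S + H * √(X : ℝ) + X) := by ring

end Pool.Agent.H24.EL
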