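import Pool.Agent.H24.EL.Pt3
import Pool.Agent.H24.EL.Cvv
import Pool.Agent.H24.EL.Hvc
import Pool.Agent.H24.EL.Sgh
import Pool.Agent.H24.TL.Gev

/-!
# [H24 EL GVH] the main inequality

PROOF. As `gev` in `H24/TL/Gev`, with `EV vl` (`ei_ev`, `|EI - EV| ≤ 1`), `pt3`, `cvv`, `scv`, `hvc`.
-/

set_option autoImplicit false

namespace Pool.Agent.H24.EL

open Finset Pool.Agent.H67.VS Pool.Agent.H48.WN Pool.Agent.H99.GB Pool.Agent.H24.TL Filter

private lemma fin_card (R : ℕ) : (QQ R).card ≤ R := by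
  unfold QQ
  refine (card_filter_le _ _).trans ?_
  rw [Nat.card_Ioc]
  omega

private lemma fin_pl (R : ℕ) : ∑ n ∈ Ioc R (2 * R), pl n ≤ ((QQ R).card : ℝ) * Real.log (2 * R) := by
  have h : ∑ n ∈ Ioc R (2 * R), pl n = ∑ q ∈ QQ R, Real.log q := by
    unfold QQ pl
    rw [Finset.sum_filter]
  rw [h, ← nsmul_eq_mul]
  refine Finset.sum_le_card_nsmul _ _ _ fun q hq => ?_
  unfold QQ at hq
  rw [mem_filter, mem_Ioc] at hq
  have h1 : (0 : ℝ) < q := by exact_mod_cast hq.2.pos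
  have h2 : (q : ℝ) ≤ 2 * R := by exact_mod_cast hq.1.2
  exact Real.log_le_log h1 h2

private lemma fin_log (X : ℕ) (hX : 1 ≤ X) : 1 ≤ Real.log (3 * X) := by
  have hX1r : (1 : ℝ) ≤ X := by exact_mod_cast hX
  rw [Real.le_log_iff_exp_le (by linarith)]
  have := Real.exp_one_lt_d9
  linarith

private lemma fin_ev (ρ d C : ℝ) (hρ : 0 < ρ) (hd : 0 < d) (hd1 : d ≤ 1) (X1 : ℕ) :
    ∀ᶠ X : ℕ in atTop, X1 ≤ X ∧ 3 ≤ X ∧ (1 - 1 / 2) * (X : ℝ) ≤ ∑ n ∈ Ioc X (2 * X), pl n ∧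
      (1 - 1 / 2) * ((⌊(X : ℝ) ^ ρ⌋₊ : ℕ) : ℝ) ≤
        ∑ n ∈ Ioc ⌊(X : ℝ) ^ ρ⌋₊ (2 * ⌊(X : ℝ) ^ ρ⌋₊), pl n ∧
      Real.log (3 * X) ≤ (X : ℝ) ^ d ∧ C ≤ (X : ℝ) ^ d := by
  have hcast : Tendsto (fun X : ℕ => (X : ℝ)) atTop atTop := tendsto_natCast_atTop_atTop
  have h1 := Pool.Agent.H67.VU.pntA (1 / 2) (by norm_num)
  have hR : Tendsto (fun X : ℕ => ⌊(X : ℝ) ^ ρ⌋₊) atTop atTop :=
    tendsto_nat_floor_atTop.comp ((tendsto_rpow_atTop hρ).comp hcast)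
  have h2 := hR.eventually h1
  have h3 : ∀ᶠ X : ℕ in atTop, C ≤ (X : ℝ) ^ d :=
    ((tendsto_rpow_atTop hd).comp hcast).eventually_ge_atTop C
  have h4 : ∀ᶠ y : ℝ in atTop, ‖Real.log y‖ ≤ (1 / 3 : ℝ) * ‖y ^ d‖ :=
    (isLittleO_log_rpow_atTop hd).bound (by norm_num)
  have h5 : Tendsto (fun X : ℕ => 3 * (X : ℝ)) atTop atTop :=
    hcast.const_mul_atTop (by norm_num)
  have h6 := h5.eventually h4
  filter_upwards [h1, h2, h3, h6, eventually_ge_atTop X1, eventually_ge_atTop 3] with X g1 g2 g3 g6 g7 g8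
  refine ⟨g7, g8, g1, g2, ?_, g3⟩
  have hX0 : (0 : ℝ) ≤ X := Nat.cast_nonneg _
  have g9 : ‖(3 * (X : ℝ)) ^ d‖ = (3 * (X : ℝ)) ^ d := Real.norm_of_nonneg (by positivity)
  rw [g9, Real.mul_rpow (by norm_num) hX0] at g6
  have g10 : (3 : ℝ) ^ d ≤ 3 := by
    have := Real.rpow_le_rpow_of_exponent_le (by norm_num : (1 : ℝ) ≤ 3) hd1
    rwa [Real.rpow_one] at this
  have g11 : (0 : ℝ) ≤ (X : ℝ) ^ d := by positivity
  have g12 := (Real.le_norm_self (Real.log (3 * X))).trans g6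
  nlinarith

private lemma fin_Q (X R : ℕ) (y K : ℝ) (hR1 : 1 ≤ R) (h2R : 2 * R ≤ X) (hRy2 : y / 2 ≤ R) (hK1 : 1 ≤ K)
    (hlog : Real.log (3 * X) ≤ K)
    (hThR : (1 - 1 / 2) * (R : ℝ) ≤ ∑ n ∈ Ioc R (2 * R), pl n) : y / (4 * K) ≤ ((QQ R).card : ℝ) := by
  have h1 := fin_pl R
  have h2 : Real.log (2 * R) ≤ K := by
    refine le_trans (Real.log_le_log ?_ ?_) hlog
    · have : (1 : ℝ) ≤ R := by exact_mod_cast hR1
      linarith
    · have : 2 * R ≤ 3 * X := by omega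
      exact_mod_cast this
  have h3 : ((QQ R).card : ℝ) * Real.log (2 * R) ≤ ((QQ R).card : ℝ) * K :=
    mul_le_mul_of_nonneg_left h2 (Nat.cast_nonneg _)
  rw [div_le_iff₀ (by positivity)]
  have h4 : ((QQ R).card : ℝ) * (4 * K) = 4 * (((QQ R).card : ℝ) * K) := by ring
  linarith

private lemma fin_ph (H q x : ℕ) (hq : 0 < q) : |ph H q x| ≤ 1 := by
  unfold ph
  have hq0 : (0 : ℝ) < q := by exact_mod_cast hq
  rw [abs_div, abs_of_pos hq0, div_le_one hq0, abs_le]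
  have h1 : ((x % q : ℕ) : ℝ) < q := by exact_mod_cast Nat.mod_lt x hq
  have h2 : (((x + H) % q : ℕ) : ℝ) < q := by exact_mod_cast Nat.mod_lt (x + H) hq
  have h3 : (0 : ℝ) ≤ ((x % q : ℕ) : ℝ) := Nat.cast_nonneg _
  have h4 : (0 : ℝ) ≤ (((x + H) % q : ℕ) : ℝ) := Nat.cast_nonneg _
  constructor <;> linarith

private lemma fin_g2 (X H R : ℕ) (x y : ℝ) (hX1 : 1 ≤ X) (hR1 : 1 ≤ R) (hx : x = X) (hRy : (R : ℝ) ≤ y)
    (hy4 : y ^ 4 ≤ x) (hx0 : 0 < x) :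
    ∑ i ∈ Ioc X (2 * X), G (QQ R) H i ^ 2 ≤ 42 * x * ((QQ R).card : ℝ) := by
  have hfour := four X H R hX1 hR1
  rw [← hx] at hfour
  have h1 : (R : ℝ) ^ 4 ≤ x := (pow_le_pow_left₀ (Nat.cast_nonneg _) hRy 4).trans hy4
  have h3 : 100 * (x + 16 * (R : ℝ) ^ 4) ≤ 1700 * x := by linarith
  have h4 : 100 * (x + 16 * (R : ℝ) ^ 4) * ((QQ R).card : ℝ) ^ 2 ≤ 1700 * x * ((QQ R).card : ℝ) ^ 2 :=
    mul_le_mul_of_nonneg_right h3 (by positivity)
  have h5 := sq_sum_le_card_mul_sum_sq (s := Ioc X (2 * X)) (f := fun i => G (QQ R) H i ^ 2)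
  have h6 : 2 * X - X = X := by omega
  rw [Nat.card_Ioc, h6, ← hx] at h5
  have h7 : ∑ i ∈ Ioc X (2 * X), (G (QQ R) H i ^ 2) ^ 2 = ∑ i ∈ Ioc X (2 * X), G (QQ R) H i ^ 4 :=
    Finset.sum_congr rfl fun i _ => by ring
  rw [h7] at h5
  have h8 : x * ∑ i ∈ Ioc X (2 * X), G (QQ R) H i ^ 4 ≤ x * (1700 * x * ((QQ R).card : ℝ) ^ 2) :=
    mul_le_mul_of_nonneg_left (hfour.trans h4) hx0.le
  refine le_of_sq_le_sq ?_ (by positivity)
  refine h5.trans (h8.trans ?_)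
  have h9 : (42 * x * ((QQ R).card : ℝ)) ^ 2 = 1764 * (x * x * ((QQ R).card : ℝ) ^ 2) := by ring
  have h10 : x * (1700 * x * ((QQ R).card : ℝ) ^ 2) = 1700 * (x * x * ((QQ R).card : ℝ) ^ 2) := by ring
  rw [h9, h10]
  have h11 : 0 ≤ x * x * ((QQ R).card : ℝ) ^ 2 := by positivity
  linarith

private lemma fin_ex (X H R : ℕ) (x y D b : ℝ) (Ex : Finset ℕ) (hEx : Ex ⊆ Ioc X (2 * X)) (hX1 : 1 ≤ X) (hR1 : 1 ≤ R)
    (hx : x = X) (hRy : (R : ℝ) ≤ y) (hy4 : y ^ 4 ≤ x) (hD : 0 ≤ D) (hb : 0 ≤ b)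
    (hc : (Ex.card : ℝ) * x ≤ b ^ 2) :
    ∑ i ∈ Ex, D * (2 * ((QQ R).card : ℝ) + 2 * G (QQ R) H i ^ 2) ≤ 86 * D * ((QQ R).card : ℝ) * b := by
  have hfour := four X H R hX1 hR1
  rw [← hx] at hfour
  have h1 : (R : ℝ) ^ 4 ≤ x := (pow_le_pow_left₀ (Nat.cast_nonneg _) hRy 4).trans hy4
  have h3 : 100 * (x + 16 * (R : ℝ) ^ 4) ≤ 1700 * x := by linarith
  have h4 : 100 * (x + 16 * (R : ℝ) ^ 4) * ((QQ R).card : ℝ) ^ 2 ≤ 1700 * x * ((QQ R).card : ℝ) ^ 2 :=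
    mul_le_mul_of_nonneg_right h3 (by positivity)
  have h5 := sq_sum_le_card_mul_sum_sq (s := Ex) (f := fun i => G (QQ R) H i ^ 2)
  have h7 : ∑ i ∈ Ex, (G (QQ R) H i ^ 2) ^ 2 ≤ ∑ i ∈ Ioc X (2 * X), G (QQ R) H i ^ 4 := by
    have e : ∀ i, (G (QQ R) H i ^ 2) ^ 2 = G (QQ R) H i ^ 4 := fun i => by ring
    simp only [e]
    exact Finset.sum_le_sum_of_subset_of_nonneg hEx fun i _ _ => by positivity
  have h8 : ∑ i ∈ Ex, G (QQ R) H i ^ 2 ≤ 42 * ((QQ R).card : ℝ) * b := by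
    refine le_of_sq_le_sq ?_ (by positivity)
    refine h5.trans ?_
    have e1 : (Ex.card : ℝ) * ∑ i ∈ Ex, (G (QQ R) H i ^ 2) ^ 2 ≤ (Ex.card : ℝ) * (1700 * x * ((QQ R).card : ℝ) ^ 2) :=
      mul_le_mul_of_nonneg_left (h7.trans (hfour.trans h4)) (Nat.cast_nonneg _)
    have e2 : (Ex.card : ℝ) * (1700 * x * ((QQ R).card : ℝ) ^ 2) = 1700 * ((QQ R).card : ℝ) ^ 2 * ((Ex.card : ℝ) * x) := by ring
    have e3 : 1700 * ((QQ R).card : ℝ) ^ 2 * ((Ex.card : ℝ) * x) ≤ 1700 * ((QQ R).card : ℝ) ^ 2 * b ^ 2 :=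
      mul_le_mul_of_nonneg_left hc (by positivity)
    have e4 : (42 * ((QQ R).card : ℝ) * b) ^ 2 = 1764 * (((QQ R).card : ℝ) ^ 2 * b ^ 2) := by ring
    have e5 : 0 ≤ ((QQ R).card : ℝ) ^ 2 * b ^ 2 := by positivity
    linarith
  have h9 : (Ex.card : ℝ) ≤ b := by
    have e1 : (Ex.card : ℝ) ≤ x := by
      have := Finset.card_le_card hEx
      rw [Nat.card_Ioc] at this
      rw [hx]
      have e2 : Ex.card ≤ X := by omega
      exact_mod_cast e2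
    have e3 : (Ex.card : ℝ) ^ 2 ≤ b ^ 2 := by
      refine le_trans ?_ hc
      rw [sq]
      exact mul_le_mul_of_nonneg_left e1 (Nat.cast_nonneg _)
    exact le_of_sq_le_sq e3 hb
  rw [← Finset.mul_sum, Finset.sum_add_distrib, Finset.sum_const, nsmul_eq_mul, ← Finset.mul_sum]
  have h10 : (Ex.card : ℝ) * (2 * ((QQ R).card : ℝ)) ≤ b * (2 * ((QQ R).card : ℝ)) :=
    mul_le_mul_of_nonneg_right h9 (by positivity)
  have h11 : (Ex.card : ℝ) * (2 * ((QQ R).card : ℝ)) + 2 * ∑ i ∈ Ex, G (QQ R) H i ^ 2 ≤ 86 * ((QQ R).card : ℝ) * b := by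
    linarith
  have h12 := mul_le_mul_of_nonneg_left h11 hD
  linarith

private lemma gv_T (X H R : ℕ) (y K Θ M T W : ℝ) (hH1 : 1 ≤ H) (hHX : H ≤ X) (hRy : (R : ℝ) ≤ y)
    (h2R : 2 * R ≤ X) (hy0 : 0 < y) (hK1 : 1 ≤ K) (hlog : 1 + Real.log (3 * X) ≤ K)
    (hΘ : Θ = ∑ m ∈ Ioc X (2 * X), vl m * pl m) (hM : M = ∑ q ∈ QQ R, cq H q / ((q : ℝ) - 1))
    (hT : T = ∑ i ∈ Ioc X (2 * X), G (QQ R) H i * EV vl i H)
    (hW : ∑ q ∈ QQ R, SCv vl X q ≤ W) :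
    |T + M * Θ| ≤ Real.sqrt (2 * y) * W + 20 * H * y ^ 2 * K := by
  have h1 : T + M * Θ = ∑ q ∈ QQ R, (∑ i ∈ Ioc X (2 * X), ph H q i * EV vl i H +
      cq H q / ((q : ℝ) - 1) * Θ) := by
    rw [Finset.sum_add_distrib, ← Finset.sum_mul, ← hM, Finset.sum_comm, hT]
    congr 1
    refine Finset.sum_congr rfl fun i _ => ?_
    unfold G
    rw [Finset.sum_mul]
  have h2 : ∀ q ∈ QQ R, |∑ i ∈ Ioc X (2 * X), ph H q i * EV vl i H + cq H q / ((q : ℝ) - 1) * Θ| ≤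
      Real.sqrt (2 * y) * SCv vl X q + 20 * H * y * K := by
    intro q hqq
    have h3 := hqq
    unfold QQ at h3
    rw [mem_filter, mem_Ioc] at h3
    have hq2 : (q : ℝ) ≤ 2 * y := by
      have : (q : ℝ) ≤ 2 * R := by exact_mod_cast h3.1.2
      linarith
    have hqX : q ≤ X := by omega
    have h4 := cvv vl vl_wv X H q h3.2 hqX hH1 hHX
    rw [← hΘ] at h4
    refine h4.trans ?_
    have hSC : 0 ≤ SCv vl X q := by
      unfold SCv
      exact Finset.sum_nonneg fun _ _ => norm_nonneg _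
    have h5 : Real.sqrt q * SCv vl X q ≤ Real.sqrt (2 * y) * SCv vl X q :=
      mul_le_mul_of_nonneg_right (Real.sqrt_le_sqrt hq2) hSC
    have hl0 : 0 ≤ 1 + Real.log (3 * X) := by
      have := fin_log X (hH1.trans hHX)
      linarith
    have h6 : 10 * (H : ℝ) * q * (1 + Real.log (3 * X)) ≤ 10 * H * (2 * y) * K := by
      have h7 : 10 * (H : ℝ) * q ≤ 10 * H * (2 * y) :=
        mul_le_mul_of_nonneg_left hq2 (by positivity)
      exact mul_le_mul h7 hlog hl0 (by positivity)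
    linarith
  rw [h1]
  refine (Finset.abs_sum_le_sum_abs _ _).trans ((Finset.sum_le_sum h2).trans ?_)
  rw [Finset.sum_add_distrib, Finset.sum_const, nsmul_eq_mul, ← Finset.mul_sum]
  have hQy : ((QQ R).card : ℝ) ≤ y := by
    have : ((QQ R).card : ℝ) ≤ R := by exact_mod_cast fin_card R
    linarith
  have h9 : ((QQ R).card : ℝ) * (20 * H * y * K) ≤ y * (20 * H * y * K) :=
    mul_le_mul_of_nonneg_right hQy (by positivity)
  have h10 : Real.sqrt (2 * y) * ∑ q ∈ QQ R, SCv vl X q ≤ Real.sqrt (2 * y) * W :=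
    mul_le_mul_of_nonneg_left hW (Real.sqrt_nonneg _)
  have h11 : y * (20 * H * y * K) = 20 * H * y ^ 2 * K := by ring
  linarith

/-- the weighted number of primes -/
private lemma gv_th (X : ℕ) (K : ℝ) (hX3 : 3 ≤ X) (hK0 : 0 < K) (hlog : Real.log (3 * X) ≤ K)
    (hTh : (1 - 1 / 2) * (X : ℝ) ≤ ∑ n ∈ Ioc X (2 * X), pl n) :
    (X : ℝ) / (2 * K) ≤ ∑ m ∈ Ioc X (2 * X), vl m * pl m := by
  have h1 : ∀ m ∈ Ioc X (2 * X), 1 / K * pl m ≤ vl m * pl m := by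
    intro m hm
    rw [mem_Ioc] at hm
    have hp : 0 ≤ pl m := by
      unfold pl
      split_ifs
      · exact Real.log_natCast_nonneg m
      · exact le_rfl
    refine mul_le_mul_of_nonneg_right ?_ hp
    unfold vl
    rw [if_neg (by omega)]
    have hm3 : (3 : ℝ) < m := by exact_mod_cast (by omega : 3 < m)
    have h2 : 0 < Real.log m := Real.log_pos (by linarith)
    refine one_div_le_one_div_of_le h2 (le_trans (Real.log_le_log (by linarith) ?_) hlog)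
    have : m ≤ 3 * X := by omega
    exact_mod_cast this
  have h2 := Finset.sum_le_sum h1
  rw [← Finset.mul_sum] at h2
  refine le_trans ?_ h2
  have h3 : (X : ℝ) / (2 * K) = 1 / K * ((1 - 1 / 2) * X) := by
    field_simp
    norm_num
  rw [h3]
  exact mul_le_mul_of_nonneg_left hTh (by positivity)

private lemma gv_b2 (x y K N M Θ T E2 : ℝ) (hx0 : 0 < x) (hy0 : 0 < y) (hK6 : (10 : ℝ) ^ 6 ≤ K)
    (hQ : y / (4 * K) ≤ N) (hM : N / K ≤ M) (hΘ : x / (2 * K) ≤ Θ)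
    (hT : |T + M * Θ| ≤ 2 * (y * x) / K ^ 4 + E2) (hE2 : E2 ≤ (y * x) / K ^ 4 / 1000) :
    N * x / (10 * K ^ 2) ≤ -T := by
  have hK0 : (0 : ℝ) < K := by linarith
  have hN0 : 0 < N := lt_of_lt_of_le (by positivity) hQ
  obtain ⟨g, hg⟩ : ∃ g : ℝ, g = N * x / K ^ 2 := ⟨_, rfl⟩
  have hg0 : 0 < g := by rw [hg]; positivity
  have h2 : g / 2 ≤ M * Θ := by
    have e1 : (N / K) * (x / (2 * K)) ≤ M * Θ :=
      mul_le_mul hM hΘ (by positivity) (le_trans (by positivity) hM)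
    have e2 : (N / K) * (x / (2 * K)) = g / 2 := by
      rw [hg]
      field_simp
    linarith
  rw [div_le_iff₀ (by positivity)] at hQ
  have h3 : y * x / K ^ 4 ≤ g * (4 / 10 ^ 6) := by
    have e1 : y * x ≤ N * (4 * K) * x := mul_le_mul_of_nonneg_right hQ hx0.le
    have e2 : y * x / K ^ 4 ≤ N * (4 * K) * x / K ^ 4 := div_le_div_of_nonneg_right e1 (by positivity)
    have e3 : N * (4 * K) * x / K ^ 4 = g * (4 / K) := by
      rw [hg]
      field_simp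
    have e4 : g * (4 / K) ≤ g * (4 / 10 ^ 6) := by gcongr
    linarith
  have h8 : 2 * (y * x) / K ^ 4 = 2 * (y * x / K ^ 4) := by ring
  rw [h8] at hT
  have h10 : N * x / (10 * K ^ 2) = g / 10 := by
    rw [hg]
    field_simp
  have h12 := (abs_le.mp hT).1
  have h13 := (abs_le.mp hT).2
  rw [h10]
  linarith

/-- `|EV vl n H| ≤ H` -/
private lemma gv_ev (n H : ℕ) (hn : 3 ≤ n) : |EV vl n H| ≤ H := by
  unfold EV
  refine (Finset.abs_sum_le_sum_abs _ _).trans ?_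
  have h1 : ∀ m ∈ Ioc n (n + H), |vl m * (pl m - 1)| ≤ 1 := by
    intro m hm
    rw [mem_Ioc] at hm
    have hm3 : (3 : ℝ) < m := by exact_mod_cast (by omega : 3 < m)
    have h2 : 1 ≤ Real.log m := by
      rw [Real.le_log_iff_exp_le (by linarith)]
      have := Real.exp_one_lt_d9
      linarith
    unfold vl pl
    rw [if_neg (by omega), abs_mul, abs_of_nonneg (by positivity : 0 ≤ 1 / Real.log (m : ℝ))]
    split_ifs
    · rw [abs_of_nonneg (by linarith), one_div, inv_mul_le_iff₀ (by linarith)]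
      linarith
    · rw [zero_sub, abs_neg, abs_one, mul_one, div_le_one (by linarith)]
      exact h2
  have h2 := Finset.sum_le_card_nsmul _ _ _ h1
  rwa [Nat.card_Ioc, Nat.add_sub_cancel_left, nsmul_eq_mul, mul_one] at h2

private lemma gv_f2 (x y w K N T κ S2 SE E P W : ℝ) (hx0 : 0 < x) (hw0 : 0 < w)
    (hwy : w ^ 2 = y) (hy0 : 0 < y) (hK6 : (10 : ℝ) ^ 6 ≤ K) (hQ : y / (4 * K) ≤ N) (hT : N * x / (10 * K ^ 2) ≤ -T)
    (hκ0 : 0 ≤ κ) (hS2 : S2 ≤ 42 * x * N)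
    (hSE : SE ≤ E + x) (hE0 : 0 ≤ E) (hP : P * K ^ 6 ≤ x * (y * w)) (hwK : K ^ 5 ≤ w)
    (hW : W * K ^ 5 ≤ N * (x * w))
    (h : 2 * Real.sqrt N * (-T) ≤ (κ + 1) * (2 * N * x + 2 * S2) + W + 2 * N * SE + 2 * P) :
    w * x / K ^ 5 ≤ κ * x + E := by
  have hK0 : (0 : ℝ) < K := by linarith
  have hN0 : 0 < N := lt_of_lt_of_le (by positivity) hQ
  have hQ2 : y ≤ N * (4 * K) := by rwa [div_le_iff₀ (by positivity)] at hQ
  -- lower bound of the left side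
  have hsq : w / K ≤ Real.sqrt N := by
    apply Real.le_sqrt_of_sq_le
    rw [div_pow, hwy, div_le_iff₀ (by positivity)]
    have h1 : N * (4 * K) ≤ N * (K * K) :=
      mul_le_mul_of_nonneg_left (mul_le_mul_of_nonneg_right (by linarith) hK0.le) hN0.le
    have h2 : N * (K * K) = N * K ^ 2 := by ring
    linarith
  have hleft : 2 * (w / K) * (N * x / (10 * K ^ 2)) ≤ 2 * Real.sqrt N * (-T) := by
    refine mul_le_mul ?_ hT (by positivity) (by positivity)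
    linarith
  -- upper bound of the right side
  have h1 : (κ + 1) * (2 * N * x + 2 * S2) ≤ (κ + 1) * (86 * (N * x)) := by
    have h2 : 2 * N * x + 2 * S2 ≤ 86 * (N * x) := by linarith
    exact mul_le_mul_of_nonneg_left h2 (by linarith)
  have h2 : 2 * N * SE ≤ 2 * N * (E + x) := mul_le_mul_of_nonneg_left hSE (by positivity)
  obtain ⟨a, ha⟩ : ∃ a : ℝ, a = w * x / K ^ 3 := ⟨_, rfl⟩
  have ha0 : 0 < a := by rw [ha]; positivity
  have e4 : a / K ≤ a / 10 ^ 6 := div_le_div_of_nonneg_left ha0.le (by norm_num) hK6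
  have hP2 : 2 * P ≤ N * (8 * (a / K ^ 2)) := by
    have h3 : P ≤ x * (y * w) / K ^ 6 := by
      rw [le_div_iff₀ (by positivity)]
      exact hP
    have h4 : x * (y * w) / K ^ 6 ≤ x * (N * (4 * K) * w) / K ^ 6 := by
      refine div_le_div_of_nonneg_right ?_ (by positivity)
      exact mul_le_mul_of_nonneg_left (mul_le_mul_of_nonneg_right hQ2 hw0.le) hx0.le
    have h5 : x * (N * (4 * K) * w) / K ^ 6 = N * (4 * (a / K ^ 2)) := by
      rw [ha]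
      field_simp
    linarith
  have hW2 : W ≤ N * (a / K ^ 2) := by
    have h3 : W ≤ N * (x * w) / K ^ 5 := by
      rw [le_div_iff₀ (by positivity)]
      exact hW
    have h4 : N * (x * w) / K ^ 5 = N * (a / K ^ 2) := by
      rw [ha]
      field_simp
    linarith
  have h3 : N * (a / 5) ≤ N * ((κ + 1) * (86 * x) + 2 * (E + x) + 9 * (a / K ^ 2)) := by
    have e1 : N * (a / 5) = 2 * (w / K) * (N * x / (10 * K ^ 2)) := by
      rw [ha]
      field_simp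
      norm_num
    have e2 : N * ((κ + 1) * (86 * x) + 2 * (E + x) + 9 * (a / K ^ 2)) =
        (κ + 1) * (86 * (N * x)) + 2 * N * (E + x) + N * (9 * (a / K ^ 2)) := by ring
    rw [e1, e2]
    linarith
  have h4 := le_of_mul_le_mul_left h3 hN0
  have e3 : x ≤ a / K := by
    rw [ha, div_div, le_div_iff₀ (by positivity)]
    have h5 : x * K ^ 5 ≤ x * w := mul_le_mul_of_nonneg_left hwK hx0.le
    have h6 : x * (K ^ 3 * K) * 1 ≤ x * (K ^ 3 * K) * K := mul_le_mul_of_nonneg_left (by linarith) (by positivity)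
    have h7 : x * (K ^ 3 * K) * K = x * K ^ 5 := by ring
    linarith
  have e5 : a / K ^ 2 ≤ a / K := by
    refine div_le_div_of_nonneg_left ha0.le hK0 ?_
    nlinarith
  obtain ⟨V, hV⟩ : ∃ V : ℝ, V = κ * x + E := ⟨_, rfl⟩
  have hV0 : 0 ≤ V := by rw [hV]; positivity
  have h5 : a / 6 ≤ 86 * V := by
    have h6 : (κ + 1) * (86 * x) + 2 * (E + x) = 86 * V - 84 * E + 88 * x := by
      rw [hV]
      ring
    rw [h6] at h4
    linarith
  rw [← hV]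
  have e6 : w * x / K ^ 5 = a / K ^ 2 := by rw [ha]; field_simp
  rw [e6, div_le_iff₀ (by positivity)]
  have h6 : V * K ≤ V * K ^ 2 := mul_le_mul_of_nonneg_left (by nlinarith) hV0
  have h7 : V * 516 ≤ V * K := mul_le_mul_of_nonneg_left (by linarith) hV0
  linarith

theorem gvh (ρ ε : ℝ) (h0 : 1 / 10 < ρ) (h1 : ρ < 1 / 6) (hε : 0 < ε) : ∃ X0 : ℕ, ∀ X : ℕ, X0 ≤ X → ∀ H : ℕ,
    (X : ℝ) ^ (2 / 5 : ℝ) ≤ H → (H : ℝ) ≤ (X : ℝ) ^ (2 / 3 : ℝ) → ∀ s κ : ℝ, s = 1 ∨ s = -1 → 0 ≤ κ →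
      ((((Ioc X (2 * X)).filter fun n => s * EI n H < -κ).card : ℕ) : ℝ) ≤ (X : ℝ) ^ (1 + ρ - 4 * ε) / (H : ℝ) ^ 2 →
        (X : ℝ) ^ (1 + ρ / 2 - ε) ≤ κ * X + ∑ n ∈ Ioc X (2 * X), |EI n H| := by
  have hρp : 0 < ρ := by linarith
  obtain ⟨η, X1, hη, hmv⟩ := scv ρ hρp h1
  obtain ⟨η2, X2, hη2, hptw⟩ := pt3 ρ hρp h1
  obtain ⟨d, hd⟩ : ∃ d : ℝ, d = min (min (η / 4) (1 / 100)) (min (η2 / 6) (min (ρ / 20) (ε / 6))) :=
    ⟨_, rfl⟩
  have hd0 : 0 < d := by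
    rw [hd]
    exact lt_min (lt_min (by linarith) (by norm_num))
      (lt_min (by linarith) (lt_min (by linarith) (by linarith)))
  have hd2 : d ≤ η / 4 := by
    rw [hd]; exact (min_le_left _ _).trans (min_le_left _ _)
  have hd3 : d ≤ 1 / 100 := by
    rw [hd]; exact (min_le_left _ _).trans (min_le_right _ _)
  have hd4 : d ≤ η2 / 6 := by rw [hd]; exact (min_le_right _ _).trans (min_le_left _ _)
  have hd5 : d ≤ ρ / 20 := by
    rw [hd]; exact (min_le_right _ _).trans ((min_le_right _ _).trans (min_le_left _ _))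
  have hd6 : d ≤ ε / 6 := by
    rw [hd]; exact (min_le_right _ _).trans ((min_le_right _ _).trans (min_le_right _ _))
  clear hd
  obtain ⟨X3, hhv⟩ := hvc ρ d h0 h1 hd0
  obtain ⟨X0, hX0⟩ := (fin_ev ρ (d / 2) (10 ^ 6) hρp (by linarith) (by linarith) (max X1 (max X2 X3))).exists_forall_of_atTop
  refine ⟨X0, fun X hX H hHl hHu s κ hs hκ0 hκ => ?_⟩
  obtain ⟨hXX, hX3, hTh, hThR, hlog', hK6'⟩ := hX0 X hX
  have hXX1 : X1 ≤ X := (le_max_left _ _).trans hXX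
  have hXX2 : X2 ≤ X := (le_max_left _ _).trans ((le_max_right _ _).trans hXX)
  have hXX3 : X3 ≤ X := (le_max_right _ _).trans ((le_max_right _ _).trans hXX)
  clear hX0
  obtain ⟨x, hx⟩ : ∃ x : ℝ, x = (X : ℝ) := ⟨_, rfl⟩
  obtain ⟨K, hK⟩ : ∃ K : ℝ, K = (X : ℝ) ^ d := ⟨_, rfl⟩
  obtain ⟨R, hR⟩ : ∃ R : ℕ, R = ⌊(X : ℝ) ^ ρ⌋₊ := ⟨_, rfl⟩
  obtain ⟨y, hy⟩ : ∃ y : ℝ, y = (X : ℝ) ^ ρ := ⟨_, rfl⟩
  obtain ⟨w, hw⟩ : ∃ w : ℝ, w = (X : ℝ) ^ (ρ / 2) := ⟨_, rfl⟩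
  have hX1 : 1 ≤ X := by omega
  have hx3 : (3 : ℝ) ≤ x := by rw [hx]; exact_mod_cast hX3
  have hx1 : (1 : ℝ) ≤ x := by linarith
  have hx0 : (0 : ℝ) < x := by linarith
  have hKK : K = (X : ℝ) ^ (d / 2) * (X : ℝ) ^ (d / 2) := by
    rw [hK, ← hx, ← Real.rpow_add hx0]
    congr 1
    ring
  have hK6 : (10 : ℝ) ^ 6 ≤ K := by
    rw [hKK]
    nlinarith
  have hlog : 1 + Real.log (3 * X) ≤ K := by
    rw [hKK]
    have := fin_log X hX1
    nlinarith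
  have hlog2 : Real.log (3 * X) ≤ K := by linarith
  rw [← hR] at hThR
  have hK1 : (1 : ℝ) ≤ K := by linarith
  have hK0 : (0 : ℝ) < K := by linarith
  -- powers
  have hKd : ∀ n : ℕ, K ^ n = x ^ (n * d) := by
    intro n
    rw [hK, ← Real.rpow_natCast, ← Real.rpow_mul (by rw [← hx]; exact hx0.le), ← hx, mul_comm]
  have hy0 : 0 < y := by rw [hy, ← hx]; positivity
  have hw0 : 0 < w := by rw [hw, ← hx]; positivity
  have hwy : w ^ 2 = y := by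
    rw [hw, hy, ← hx, ← Real.rpow_natCast, ← Real.rpow_mul hx0.le]
    congr 1
    push_cast
    ring
  have hwK : K ^ 5 ≤ w := by
    rw [hKd, hw, ← hx]
    refine Real.rpow_le_rpow_of_exponent_le hx1 ?_
    push_cast
    linarith
  have hyK : K ≤ y := by
    rw [hK, hy, ← hx]
    exact Real.rpow_le_rpow_of_exponent_le hx1 (by linarith)
  have hy4 : y ^ 4 ≤ x := by
    rw [hy, ← hx, ← Real.rpow_natCast, ← Real.rpow_mul hx0.le]
    refine (Real.rpow_le_rpow_of_exponent_le hx1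
      (by push_cast; linarith : ρ * ((4 : ℕ) : ℝ) ≤ 1)).trans ?_
    rw [Real.rpow_one]
  have hyx : y * K ≤ x := by
    rw [hK, hy, ← hx, ← Real.rpow_add hx0]
    refine (Real.rpow_le_rpow_of_exponent_le hx1 (by linarith : ρ + d ≤ 1)).trans ?_
    rw [Real.rpow_one]
  -- the length R
  have hRy : (R : ℝ) ≤ y := by
    rw [hR, hy]
    exact Nat.floor_le (by rw [← hx]; positivity)
  have hRy2 : y / 2 ≤ R := by
    have h1 : y < R + 1 := by
      rw [hR, hy]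
      exact Nat.lt_floor_add_one _
    linarith
  have hR1 : 1 ≤ R := by
    have h1 : (1 : ℝ) ≤ R := by linarith
    exact_mod_cast h1
  have h2y : y * 2 ≤ y * K := mul_le_mul_of_nonneg_left (by linarith) hy0.le
  have h2R : 2 * R ≤ X := by
    have h1 : 2 * (R : ℝ) ≤ X := by rw [← hx]; linarith
    exact_mod_cast h1
  have hQl := fin_Q X R y K hR1 h2R hRy2 hK1 hlog2 hThR
  -- the length
  have hHq : ((QQ R).card : ℝ) / K ≤ ∑ q ∈ QQ R, cq H q / ((q : ℝ) - 1) := by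
    have h2 := hhv X hXX3 H hHl hHu
    rw [← hR] at h2
    refine le_trans (le_of_eq ?_) h2
    rw [Real.rpow_neg (by rw [← hx]; exact hx0.le), ← hK, div_eq_mul_inv, mul_comm]
  obtain ⟨Ex, hEx⟩ : ∃ Ex : Finset ℕ, Ex = (Ioc X (2 * X)).filter fun n => s * EI n H < -κ := ⟨_, rfl⟩
  rw [← hEx] at hκ
  have hExs : Ex ⊆ Ioc X (2 * X) := by rw [hEx]; exact Finset.filter_subset _ _
  have hH1r : (1 : ℝ) ≤ H := by
    refine le_trans ?_ hHl
    rw [← hx]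
    exact Real.one_le_rpow hx1 (by norm_num)
  have hH1 : 1 ≤ H := by exact_mod_cast hH1r
  have hH0 : (0 : ℝ) < H := by linarith
  have hHux : (H : ℝ) ≤ x ^ (2 / 3 : ℝ) := by rw [hx]; exact hHu
  have hHX : H ≤ X := by
    have h1 : (H : ℝ) ≤ X := by
      rw [← hx]
      refine hHux.trans ((Real.rpow_le_rpow_of_exponent_le hx1 (by norm_num : (2 / 3 : ℝ) ≤ 1)).trans ?_)
      rw [Real.rpow_one]
    exact_mod_cast h1
  -- the covariance
  obtain ⟨Θ, hΘ⟩ : ∃ Θ : ℝ, Θ = ∑ m ∈ Ioc X (2 * X), vl m * pl m := ⟨_, rfl⟩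
  obtain ⟨M, hM⟩ : ∃ M : ℝ, M = ∑ q ∈ QQ R, cq H q / ((q : ℝ) - 1) := ⟨_, rfl⟩
  obtain ⟨T, hT⟩ : ∃ T : ℝ, T = ∑ i ∈ Ioc X (2 * X), G (QQ R) H i * EV vl i H := ⟨_, rfl⟩
  have hTh2 := gv_th X K hX3 hK0 hlog2 hTh
  rw [← hΘ, ← hx] at hTh2
  rw [← hM] at hHq
  have hmvX := hmv X vl hXX1 vl_wv
  rw [← hR] at hmvX
  have hT1 := gv_T X H R y K Θ M T _ hH1 hHX hRy h2R hy0 hK1 hlog hΘ hM hT hmvX
  have h4 : Real.sqrt (2 * y) ≤ 2 * Real.sqrt y := by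
    rw [Real.sqrt_mul (by norm_num)]
    have h5 : Real.sqrt 2 ≤ 2 := by
      rw [Real.sqrt_le_left (by norm_num)]
      norm_num
    exact mul_le_mul_of_nonneg_right h5 (Real.sqrt_nonneg _)
  have h5 : Real.sqrt y = x ^ (ρ / 2) := by
    rw [hy, ← hx, Real.sqrt_eq_rpow, ← Real.rpow_mul hx0.le]
    congr 1
    ring
  have h6 : Real.sqrt (2 * y) * (X : ℝ) ^ (1 + ρ / 2 - η) ≤ 2 * (y * x) / K ^ 4 := by
    have h7 : Real.sqrt (2 * y) * (X : ℝ) ^ (1 + ρ / 2 - η) ≤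
        (2 * x ^ (ρ / 2)) * x ^ (1 + ρ / 2 - η) := by
      rw [← h5, ← hx]
      exact mul_le_mul_of_nonneg_right h4 (by positivity)
    refine h7.trans ?_
    have h8 : x ^ ρ * x = x ^ (ρ + 1) := by rw [Real.rpow_add hx0, Real.rpow_one]
    rw [le_div_iff₀ (by positivity), hKd, hy, ← hx, mul_assoc, mul_assoc, ← Real.rpow_add hx0,
      ← Real.rpow_add hx0, h8]
    refine mul_le_mul_of_nonneg_left (Real.rpow_le_rpow_of_exponent_le hx1 ?_) (by norm_num)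
    push_cast
    linarith
  have hTM : |T + M * Θ| ≤ 2 * (y * x) / K ^ 4 + 20 * H * y ^ 2 * K := by linarith
  have hE2' : 20 * (H : ℝ) * y ^ 2 * K ≤ (y * x) / K ^ 4 / 1000 := by
    rw [le_div_iff₀ (by norm_num), le_div_iff₀ (by positivity)]
    have g1 : x ^ (2 / 3 : ℝ) * y * K ^ 6 ≤ x := by
      rw [hKd, hy, ← hx, ← Real.rpow_add hx0, ← Real.rpow_add hx0]
      refine (Real.rpow_le_rpow_of_exponent_le hx1
        (by push_cast; linarith : 2 / 3 + ρ + ((6 : ℕ) : ℝ) * d ≤ 1)).trans ?_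
      rw [Real.rpow_one]
    have g2 : (H : ℝ) * y * K ^ 6 ≤ x := by
      refine le_trans ?_ g1
      gcongr
    have g3 : (20000 : ℝ) ≤ K := by linarith
    have g4 : 20 * (H : ℝ) * y ^ 2 * K * 1000 * K ^ 4 = y * (H * y * K ^ 5 * 20000) := by ring
    rw [g4]
    refine mul_le_mul_of_nonneg_left ?_ hy0.le
    refine le_trans ?_ g2
    have g5 : (H : ℝ) * y * K ^ 6 = H * y * K ^ 5 * K := by ring
    rw [g5]
    exact mul_le_mul_of_nonneg_left g3 (by positivity)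
  have hTl := gv_b2 x y K _ M Θ T _ hx0 hy0 hK6 hQl hHq hTh2 hTM hE2'
  -- second moment, second order term
  have hG2 := fin_g2 X H R x y hX1 hR1 hx hRy hy4 hx0
  have hP := hptw X H vl hXX2 vl_wv hH1 hHu
  rw [← hR] at hP
  have hP3 : P2v vl X H R * K ^ 6 ≤ x * (y * w) := by
    have h1 : P2v vl X H R * K ^ 6 ≤ (X : ℝ) ^ (1 + 3 * ρ / 2 - η2) * K ^ 6 :=
      mul_le_mul_of_nonneg_right hP (by positivity)
    refine h1.trans ?_
    have h2 : x * (y * w) = x ^ (1 + (ρ + ρ / 2)) := by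
      rw [hy, hw, ← hx, Real.rpow_add hx0, Real.rpow_add hx0, Real.rpow_one]
    rw [h2, hKd, ← hx, ← Real.rpow_add hx0]
    refine Real.rpow_le_rpow_of_exponent_le hx1 ?_
    push_cast
    linarith
  -- the weights 1/log
  obtain ⟨S, hS⟩ : ∃ S : ℝ, S = ∑ i ∈ Ioc X (2 * X), |EV vl i H| := ⟨_, rfl⟩
  obtain ⟨E, hE⟩ : ∃ E : ℝ, E = ∑ n ∈ Ioc X (2 * X), |EI n H| := ⟨_, rfl⟩
  have h2X : 2 * X - X = X := by omega
  have hSE : S ≤ E + x := by
    rw [hS, hE]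
    have g1 : ∀ n ∈ Ioc X (2 * X), |EV vl n H| ≤ |EI n H| + 1 := by
      intro n hn
      rw [mem_Ioc] at hn
      have g2 := abs_le.mp (ei_ev n H (by omega))
      have g3 := abs_le.mp (le_refl |EI n H|)
      rw [abs_le]
      constructor <;> linarith [g2.1, g2.2, g3.1, g3.2]
    refine (Finset.sum_le_sum g1).trans ?_
    rw [Finset.sum_add_distrib, Finset.sum_const, Nat.card_Ioc, nsmul_eq_mul, h2X, hx, mul_one]
  have hE0 : 0 ≤ E := by rw [hE]; exact Finset.sum_nonneg fun _ _ => abs_nonneg _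
  obtain ⟨D, hD⟩ : ∃ D : ℝ, D = (H : ℝ) := ⟨_, rfl⟩
  have hD0 : 0 ≤ D := by rw [hD]; positivity
  obtain ⟨kf, hkf⟩ : ∃ kf : ℕ → ℝ, ∀ n, kf n = (κ + 1) + (if n ∈ Ex then D else 0) := ⟨_, fun n => rfl⟩
  have he : ∀ n ∈ Ioc X (2 * X), -(kf n) ≤ s * EV vl n H := by
    intro n hn
    rw [hkf]
    by_cases hnE : n ∈ Ex
    · rw [if_pos hnE]
      rw [mem_Ioc] at hn
      have h1 := gv_ev n H (by omega)
      rw [← hD] at h1
      have h2 := abs_le.mp h1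
      have h3 : -D ≤ s * EV vl n H := by
        rcases hs with h | h <;> rw [h] <;> linarith [h2.1, h2.2]
      linarith
    rw [if_neg hnE, add_zero]
    have hn2 : -κ ≤ s * EI n H := by
      by_contra hcon
      apply hnE
      rw [hEx, mem_filter]
      exact ⟨hn, lt_of_not_ge hcon⟩
    rw [mem_Ioc] at hn
    have h2 := abs_le.mp (ei_ev n H (by omega))
    have h6 : -1 ≤ s * (EV vl n H - EI n H) := by
      rcases hs with h | h <;> rw [h] <;> linarith [h2.1, h2.2]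
    have h7 : s * EV vl n H = s * (EV vl n H - EI n H) + s * EI n H := by ring
    rw [h7]
    linarith
  have hkap := kape (Ioc X (2 * X)) (QQ R) (fun q i => ph H q i) (fun i => EV vl i H) kf s hs
    (fun n _ => by
      rw [hkf]
      split_ifs <;> linarith) (fun q hq i _ => by
      unfold QQ at hq
      rw [mem_filter] at hq
      exact fin_ph H q i hq.2.pos) he
  obtain ⟨W, hW⟩ : ∃ W : ℝ, W = ∑ i ∈ Ex, D * (2 * ((QQ R).card : ℝ) + 2 * G (QQ R) H i ^ 2) := ⟨_, rfl⟩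
  have hsplit : ∑ i ∈ Ioc X (2 * X), kf i * (2 * ((QQ R).card : ℝ) + 2 * G (QQ R) H i ^ 2) =
      (κ + 1) * (2 * ((QQ R).card : ℝ) * x + 2 * ∑ i ∈ Ioc X (2 * X), G (QQ R) H i ^ 2) + W := by
    have e1 : ∀ i, kf i * (2 * ((QQ R).card : ℝ) + 2 * G (QQ R) H i ^ 2) =
        (κ + 1) * (2 * ((QQ R).card : ℝ) + 2 * G (QQ R) H i ^ 2) +
          (if i ∈ Ex then D * (2 * ((QQ R).card : ℝ) + 2 * G (QQ R) H i ^ 2) else 0) := by
      intro i
      rw [hkf]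
      split_ifs <;> ring
    rw [Finset.sum_congr rfl fun i _ => e1 i, Finset.sum_add_distrib, ← Finset.sum_filter,
      Finset.filter_mem_eq_inter, Finset.inter_eq_right.mpr hExs, ← hW, ← Finset.mul_sum, Finset.sum_add_distrib,
      Finset.sum_const, Nat.card_Ioc, h2X, nsmul_eq_mul, ← Finset.mul_sum, ← hx]
    ring
  have hkap2 : 2 * Real.sqrt ((QQ R).card : ℝ) * (-T) ≤
      (κ + 1) * (2 * ((QQ R).card : ℝ) * x + 2 * ∑ i ∈ Ioc X (2 * X), G (QQ R) H i ^ 2) + W +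
        2 * ((QQ R).card : ℝ) * S + 2 * P2v vl X H R := by
    rw [hT, hS, ← hsplit]
    exact hkap
  -- the exceptions
  obtain ⟨b, hb⟩ : ∃ b : ℝ, b = x ^ (1 + ρ / 2 - 2 * ε) / H := ⟨_, rfl⟩
  have hb0 : 0 < b := by rw [hb]; positivity
  have hcb : (Ex.card : ℝ) * x ≤ b ^ 2 := by
    rw [← hx] at hκ
    have e1 : (Ex.card : ℝ) * x ≤ x ^ (1 + ρ - 4 * ε) / (H : ℝ) ^ 2 * x := mul_le_mul_of_nonneg_right hκ hx0.le
    refine e1.trans (le_of_eq ?_)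
    have e2 : x ^ (1 + ρ - 4 * ε) * x = (x ^ (1 + ρ / 2 - 2 * ε)) ^ 2 := by
      rw [← Real.rpow_natCast, ← Real.rpow_mul hx0.le, ← Real.rpow_add_one hx0.ne']
      congr 1
      push_cast
      ring
    rw [hb, div_pow, ← e2]
    ring
  have hWb : W * K ^ 5 ≤ ((QQ R).card : ℝ) * (x * w) := by
    have e1 := fin_ex X H R x y D b Ex hExs hX1 hR1 hx hRy hy4 hD0 hb0.le hcb
    rw [← hW] at e1
    have e2 : D * b = x ^ (1 + ρ / 2 - 2 * ε) := by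
      rw [hD, hb]
      field_simp
    have e3 : 86 * D * ((QQ R).card : ℝ) * b = 86 * ((QQ R).card : ℝ) * x ^ (1 + ρ / 2 - 2 * ε) := by
      rw [← e2]
      ring
    rw [e3] at e1
    have e4 : x ^ (1 + ρ / 2 - 2 * ε) * K ^ 6 ≤ x * w := by
      have e6 : x * w = x ^ (1 + ρ / 2) := by rw [hw, ← hx, Real.rpow_add hx0, Real.rpow_one]
      rw [e6, hKd, ← Real.rpow_add hx0]
      refine Real.rpow_le_rpow_of_exponent_le hx1 ?_
      push_cast
      linarith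
    have e5 : W * K ^ 5 ≤ 86 * ((QQ R).card : ℝ) * x ^ (1 + ρ / 2 - 2 * ε) * K ^ 5 :=
      mul_le_mul_of_nonneg_right e1 (by positivity)
    have e6 : 86 * ((QQ R).card : ℝ) * x ^ (1 + ρ / 2 - 2 * ε) * K ^ 5 ≤
        K * ((QQ R).card : ℝ) * x ^ (1 + ρ / 2 - 2 * ε) * K ^ 5 := by
      have : (86 : ℝ) ≤ K := by linarith
      gcongr
    have e7 : K * ((QQ R).card : ℝ) * x ^ (1 + ρ / 2 - 2 * ε) * K ^ 5 =
        ((QQ R).card : ℝ) * (x ^ (1 + ρ / 2 - 2 * ε) * K ^ 6) := by ring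
    have e8 := mul_le_mul_of_nonneg_left e4 (Nat.cast_nonneg (QQ R).card : (0 : ℝ) ≤ ((QQ R).card : ℝ))
    linarith
  rw [← hE, ← hx]
  refine le_trans ?_ (gv_f2 x y w K _ T κ _ S E _ W hx0 hw0 hwy hy0 hK6 hQl hTl hκ0
    hG2 hSE hE0 hP3 hwK hWb hkap2)
  rw [le_div_iff₀ (by positivity), hKd, hw, ← hx, ← Real.rpow_add hx0]
  have h9 : x ^ (ρ / 2) * x = x ^ (ρ / 2 + 1) := by rw [Real.rpow_add hx0, Real.rpow_one]
  rw [h9]
  refine Real.rpow_le_rpow_of_exponent_le hx1 ?_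
  push_cast
  linarith

end Pool.Agent.H24.EL
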