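import Pool.Agent.H24.EL.Defs
import Pool.Agent.H82.SPC.Sub

/-!
# [H24 EL MLS] the multiplicative large sieve for a family of moduli, with multiplicity `K`

PROOF. Colouring: if `f ≥ 0`, every point of `s` has at most `K` points of `s` near it (itself included), and `∑_t f ≤ L` for every `t ⊆ s` whose
different points are not near, then `∑_s f ≤ K L`: induction on `K`, take `t` a maximal such subset; every point of `s \ t` is near a point of `t`, so the
points of `s \ t` have at most `K - 1` points of `s \ t` near them. Points: reduced fractions `a/r`, `r ∈ M`; near: distance modulo `1` less than `δ`;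
`L` from `H21.BV.add_ls` (for points `≥ δ` apart modulo `1`). Characters to fractions: `H21.BV.gau`, as in `H21/BV/Mls` and `Far`.
-/

set_option autoImplicit false

namespace Pool.Agent.H24.EL

open Finset Pool.Agent.H21.MT

theorem mls_fam (Q : ℕ) (M : Finset ℕ) (hM : ∀ r ∈ M, 1 ≤ r ∧ r ≤ Q) (K : ℕ) (δ : ℝ) (hδ : 0 < δ)
    (hK : ∀ i ∈ RF M, ∀ t ⊆ RF M, (∀ j ∈ t, ∃ n : ℤ, |fv i - fv j - n| < δ) → t.card ≤ K) (M0 N : ℕ) (a : ℕ → ℂ) :
    ∑ c ∈ (PC Q).filter (fun c => c.md ∈ M), ‖∑ n ∈ Ioc M0 (M0 + N), a n * c.2 (n : ZMod (c.1.val + 1))‖ ^ 2 ≤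
      K * (8 * (N + 1 / δ + 1)) * ∑ n ∈ Ioc M0 (M0 + N), ‖a n‖ ^ 2 := by
  classical
  have h1 := Pool.Agent.H82.SPC.mls_sub Q M δ hδ K (by
    intro r hr c hc hcr t ht
    have h2 := hK ⟨r, c⟩ (by
      unfold RF
      rw [mem_sigma, mem_filter, mem_range]
      exact ⟨hr, hc, hcr⟩) (t.image (fun z : ℕ × ℕ => (⟨z.1, z.2⟩ : Σ _ : ℕ, ℕ))) (by
        intro z hz
        obtain ⟨w, hw, rfl⟩ := mem_image.1 hz
        obtain ⟨e1, e2, e3, -⟩ := ht w hw
        unfold RF
        rw [mem_sigma, mem_filter, mem_range]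
        exact ⟨e1, e2, e3⟩) (by
        intro z hz
        obtain ⟨w, hw, rfl⟩ := mem_image.1 hz
        obtain ⟨-, -, -, n, hn⟩ := ht w hw
        refine ⟨-n, ?_⟩
        rw [← abs_neg]
        refine lt_of_le_of_lt (le_of_eq (congrArg abs ?_)) hn
        unfold fv
        push_cast
        ring)
    rw [card_image_of_injective] at h2
    · exact h2
    · intro z w h3
      exact Prod.ext_iff.2 ⟨(Sigma.mk.inj_iff.1 h3).1, eq_of_heq (Sigma.mk.inj_iff.1 h3).2⟩) M0 N a
  refine le_trans (le_of_eq ?_) h1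
  refine sum_congr ?_ fun _ _ => rfl
  ext c
  rw [mem_filter]

end Pool.Agent.H24.EL
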