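import Mathlib

/-!
# [H24 EL PSI NUM] the numbers of `Psi`
-/

set_option autoImplicit false

namespace Pool.Agent.H24.EL

open Filter

theorem psi_num (ρ σ : ℝ) (h0 : 0 < ρ) (h1 : ρ < 1 / 6) (hs1 : σ ≤ ρ / 2) (hs2 : σ ≤ (1 / 6 - ρ) / 2) (X R u V : ℝ) (hX : 1 ≤ X)
    (hR0 : 0 ≤ R) (hR : R ≤ X ^ ρ) (hu1 : X ^ (1 / 3 : ℝ) / 2 ≤ u) (hu2 : u ≤ X ^ (1 / 3 : ℝ)) (hV0 : 0 ≤ V) :
    V * (2 * X + R * (2 * X) / √(√u) + R ^ 2 * (√(2 * X) * √(√(2 * X)))) + 4 * R ^ 3 * (2 * R * u + √(2 * X)) ≤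
      (V * 10 + 16) * X ^ (1 + ρ / 2 - σ) := by
  have hX0 : 0 < X := by linarith
  have hadd : ∀ a b : ℝ, X ^ a * X ^ b = X ^ (a + b) := fun a b => (Real.rpow_add hX0 a b).symm
  have hmono : ∀ {a b : ℝ}, a ≤ b → X ^ a ≤ X ^ b := fun h => Real.rpow_le_rpow_of_exponent_le hX h
  have hpos : ∀ a : ℝ, 0 < X ^ a := fun a => Real.rpow_pos_of_pos hX0 a
  have hX1 : X ^ (1 : ℝ) = X := Real.rpow_one X
  have hpow : ∀ (a : ℝ) (k : ℕ), (X ^ a) ^ k = X ^ (a * k) := by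
    intro a k
    rw [← Real.rpow_natCast, ← Real.rpow_mul hX0.le]
  have hu0 : 0 ≤ u := le_trans (by have := hpos (1 / 3); positivity) hu1
  have hsq : √(2 * X) ≤ 2 * X ^ (1 / 2 : ℝ) := by
    apply Real.sqrt_le_iff.mpr
    refine ⟨by have := hpos (1 / 2); positivity, ?_⟩
    rw [mul_pow, hpow]
    have e : ((1 : ℝ) / 2 * (2 : ℕ)) = 1 := by norm_num
    rw [e, hX1]
    linarith
  have hqd : √(√(2 * X)) ≤ 2 * X ^ (1 / 4 : ℝ) := by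
    apply Real.sqrt_le_iff.mpr
    refine ⟨by have := hpos (1 / 4); positivity, ?_⟩
    rw [mul_pow, hpow]
    have e : ((1 : ℝ) / 4 * (2 : ℕ)) = 1 / 2 := by norm_num
    rw [e]
    have := hpos (1 / 2)
    linarith
  have hquo : X ^ (1 / 12 : ℝ) / 2 ≤ √(√u) := by
    apply Real.le_sqrt_of_sq_le
    apply Real.le_sqrt_of_sq_le
    have e1 : ((X ^ (1 / 12 : ℝ) / 2) ^ 2) ^ 2 = X ^ (1 / 3 : ℝ) / 16 := by
      rw [← pow_mul, div_pow, hpow]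
      have e : ((1 : ℝ) / 12 * ((2 * 2 : ℕ) : ℝ)) = 1 / 3 := by norm_num
      rw [e]
      norm_num
    rw [e1]
    have := hpos (1 / 3)
    linarith
  have hq0 : 0 < √(√u) := lt_of_lt_of_le (by have := hpos (1 / 12); positivity) hquo
  -- first term
  have t1 : 2 * X ≤ 2 * X ^ (1 + ρ / 2 - σ) := by
    have := hmono (show (1 : ℝ) ≤ 1 + ρ / 2 - σ by linarith)
    rw [hX1] at this
    linarith
  have t2 : R * (2 * X) / √(√u) ≤ 4 * X ^ (1 + ρ / 2 - σ) := by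
    rw [div_le_iff₀ hq0]
    calc R * (2 * X) ≤ X ^ ρ * (2 * X ^ (1 : ℝ)) := by rw [hX1]; gcongr
      _ = 2 * X ^ (ρ + 1) := by rw [← hadd]; ring
      _ ≤ 2 * X ^ (1 + ρ / 2 - σ + 1 / 12) := by
        have := hmono (show ρ + 1 ≤ 1 + ρ / 2 - σ + 1 / 12 by linarith)
        linarith
      _ = 4 * X ^ (1 + ρ / 2 - σ) * (X ^ (1 / 12 : ℝ) / 2) := by rw [← hadd]; ring
      _ ≤ 4 * X ^ (1 + ρ / 2 - σ) * √(√u) := by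
        have := hpos (1 + ρ / 2 - σ)
        gcongr
  have t3 : R ^ 2 * (√(2 * X) * √(√(2 * X))) ≤ 4 * X ^ (1 + ρ / 2 - σ) := by
    calc R ^ 2 * (√(2 * X) * √(√(2 * X))) ≤ (X ^ ρ) ^ 2 * ((2 * X ^ (1 / 2 : ℝ)) * (2 * X ^ (1 / 4 : ℝ))) := by
          have := hpos (1 / 2)
          gcongr
      _ = 4 * (X ^ (ρ * (2 : ℕ)) * X ^ (1 / 2 : ℝ) * X ^ (1 / 4 : ℝ)) := by rw [hpow]; ring
      _ = 4 * X ^ (ρ * (2 : ℕ) + 1 / 2 + 1 / 4) := by rw [hadd, hadd]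
      _ ≤ 4 * X ^ (1 + ρ / 2 - σ) := by
        have := hmono (show ρ * (2 : ℕ) + 1 / 2 + 1 / 4 ≤ 1 + ρ / 2 - σ by push_cast; linarith)
        linarith
  have t4 : 4 * R ^ 3 * (2 * R * u) ≤ 8 * X ^ (1 + ρ / 2 - σ) := by
    calc 4 * R ^ 3 * (2 * R * u) = 8 * (R ^ 4 * u) := by ring
      _ ≤ 8 * ((X ^ ρ) ^ 4 * X ^ (1 / 3 : ℝ)) := by gcongr
      _ = 8 * X ^ (ρ * (4 : ℕ) + 1 / 3) := by rw [hpow, hadd]
      _ ≤ 8 * X ^ (1 + ρ / 2 - σ) := by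
        have := hmono (show ρ * (4 : ℕ) + 1 / 3 ≤ 1 + ρ / 2 - σ by push_cast; linarith)
        linarith
  have t5 : 4 * R ^ 3 * √(2 * X) ≤ 8 * X ^ (1 + ρ / 2 - σ) := by
    calc 4 * R ^ 3 * √(2 * X) ≤ 4 * (X ^ ρ) ^ 3 * (2 * X ^ (1 / 2 : ℝ)) := by gcongr
      _ = 8 * X ^ (ρ * (3 : ℕ) + 1 / 2) := by rw [hpow, ← hadd]; ring
      _ ≤ 8 * X ^ (1 + ρ / 2 - σ) := by
        have := hmono (show ρ * (3 : ℕ) + 1 / 2 ≤ 1 + ρ / 2 - σ by push_cast; linarith)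
        linarith
  have hV : V * (2 * X + R * (2 * X) / √(√u) + R ^ 2 * (√(2 * X) * √(√(2 * X)))) ≤
      V * (10 * X ^ (1 + ρ / 2 - σ)) := mul_le_mul_of_nonneg_left (by linarith) hV0
  calc V * (2 * X + R * (2 * X) / √(√u) + R ^ 2 * (√(2 * X) * √(√(2 * X)))) + 4 * R ^ 3 * (2 * R * u + √(2 * X))
      = V * (2 * X + R * (2 * X) / √(√u) + R ^ 2 * (√(2 * X) * √(√(2 * X)))) +
        (4 * R ^ 3 * (2 * R * u) + 4 * R ^ 3 * √(2 * X)) := by ring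
    _ ≤ V * (10 * X ^ (1 + ρ / 2 - σ)) + (8 * X ^ (1 + ρ / 2 - σ) + 8 * X ^ (1 + ρ / 2 - σ)) := by linarith
    _ = _ := by ring

theorem psi_log (C τ : ℝ) (hC : 0 < C) (hτ : 0 < τ) : ∀ᶠ X : ℝ in atTop, C * (1 + Real.log (2 * X)) ^ 5 ≤ X ^ τ := by
  have h1 := (isLittleO_log_rpow_atTop (show (0 : ℝ) < τ / 6 by positivity)).bound
    (show (0 : ℝ) < 1 by norm_num)
  have h2 := (tendsto_rpow_atTop (show (0 : ℝ) < τ / 6 by positivity)).eventually_ge_atTop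
    (C * 243)
  filter_upwards [h1, h2, eventually_ge_atTop (Real.exp 1)] with X hX1 hX2 hX3
  have hX0 : 0 < X := lt_of_lt_of_le (Real.exp_pos 1) hX3
  have hL : 1 ≤ Real.log X := by
    rw [Real.le_log_iff_exp_le hX0]
    exact hX3
  have h3 : Real.log X ≤ X ^ (τ / 6) := by
    rw [one_mul, Real.norm_of_nonneg (by linarith),
      Real.norm_of_nonneg (Real.rpow_nonneg hX0.le _)] at hX1
    exact hX1
  have hl2 : Real.log (2 * X) ≤ 1 + Real.log X := by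
    rw [Real.log_mul (by norm_num) hX0.ne']
    have := Real.log_two_lt_d9
    linarith
  have hl20 : 0 ≤ Real.log (2 * X) := by
    rw [Real.log_mul (by norm_num) hX0.ne']
    have := Real.log_two_gt_d9
    linarith
  have e : X ^ τ = X ^ (τ / 6) * (X ^ (τ / 6)) ^ 5 := by
    rw [← Real.rpow_natCast (X ^ (τ / 6)) 5, ← Real.rpow_mul hX0.le, ← Real.rpow_add hX0]
    congr 1
    push_cast
    ring
  rw [e]
  generalize X ^ (τ / 6) = a at *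
  generalize Real.log (2 * X) = M at *
  generalize Real.log X = L at *
  have ha0 : 0 ≤ a := by linarith
  calc C * (1 + M) ^ 5 ≤ C * (3 * L) ^ 5 := by
        gcongr
        linarith
    _ = (C * 243) * L ^ 5 := by ring
    _ ≤ a * a ^ 5 := by gcongr

/-- everything that is needed for large `X` -/
theorem psi_ev (ρ τ C1 : ℝ) (h0 : 0 < ρ) (h1 : ρ < 1 / 6) (hC1 : 0 < C1) (hτ : 0 < τ) : ∃ X0 : ℕ, ∀ X : ℕ, X0 ≤ X →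
    1 ≤ X ∧ 1 ≤ ⌊(X : ℝ) ^ ρ⌋₊ ∧ ((⌊(X : ℝ) ^ ρ⌋₊ : ℕ) : ℝ) ≤ (X : ℝ) ^ ρ ∧ 1 ≤ ⌊(X : ℝ) ^ (1 / 3 : ℝ)⌋₊ ∧
    (X : ℝ) ^ (1 / 3 : ℝ) / 2 ≤ ((⌊(X : ℝ) ^ (1 / 3 : ℝ)⌋₊ : ℕ) : ℝ) ∧ ((⌊(X : ℝ) ^ (1 / 3 : ℝ)⌋₊ : ℕ) : ℝ) ≤ (X : ℝ) ^ (1 / 3 : ℝ) ∧
    ⌊(X : ℝ) ^ (1 / 3 : ℝ)⌋₊ ^ 3 ≤ X ∧ 8 * ((⌊(X : ℝ) ^ ρ⌋₊ : ℕ) : ℝ) ^ 2 ≤ ((⌊(X : ℝ) ^ (1 / 3 : ℝ)⌋₊ : ℕ) : ℝ) ∧
    C1 * (1 + Real.log (2 * X)) ^ 5 ≤ (X : ℝ) ^ τ := by
  have e1 := (tendsto_rpow_atTop (show (0 : ℝ) < ρ by positivity)).eventually_ge_atTop 1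
  have e2 := (tendsto_rpow_atTop (show (0 : ℝ) < 1 / 3 by norm_num)).eventually_ge_atTop 2
  have e3 := (tendsto_rpow_atTop (show (0 : ℝ) < 1 / 3 - 2 * ρ by linarith)).eventually_ge_atTop 16
  have e4 := psi_log C1 τ hC1 hτ
  have hall := tendsto_natCast_atTop_atTop (R := ℝ) |>.eventually (e1.and (e2.and (e3.and (e4.and (eventually_ge_atTop (1 : ℝ))))))
  obtain ⟨X0, hX0⟩ := eventually_atTop.mp hall
  refine ⟨X0, fun X hX => ?_⟩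
  obtain ⟨a1, a2, a3, a4, a5⟩ := hX0 X hX
  have hXp : (0 : ℝ) < X := by linarith
  have hX1 : 1 ≤ X := by exact_mod_cast a5
  have hf := Nat.lt_floor_add_one ((X : ℝ) ^ (1 / 3 : ℝ))
  have hfl := Nat.floor_le (show (0 : ℝ) ≤ (X : ℝ) ^ (1 / 3 : ℝ) by positivity)
  have hflρ := Nat.floor_le (show (0 : ℝ) ≤ (X : ℝ) ^ ρ by positivity)
  have hhalf : (X : ℝ) ^ (1 / 3 : ℝ) / 2 ≤ ((⌊(X : ℝ) ^ (1 / 3 : ℝ)⌋₊ : ℕ) : ℝ) := by linarith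
  refine ⟨hX1, Nat.le_floor (by exact_mod_cast a1), hflρ, Nat.le_floor (by push_cast; linarith), hhalf, hfl, ?_, ?_, a4⟩
  · have h : ((⌊(X : ℝ) ^ (1 / 3 : ℝ)⌋₊ : ℕ) : ℝ) ^ (3 : ℕ) ≤ (X : ℝ) := by
      have h3 : ((X : ℝ) ^ (1 / 3 : ℝ)) ^ (3 : ℕ) = (X : ℝ) := by
        rw [← Real.rpow_natCast, ← Real.rpow_mul hXp.le]
        norm_num
      exact (pow_le_pow_left₀ (Nat.cast_nonneg _) hfl 3).trans h3.le
    exact_mod_cast h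
  · refine le_trans ?_ hhalf
    have h : ((⌊(X : ℝ) ^ ρ⌋₊ : ℕ) : ℝ) ^ 2 ≤ (X : ℝ) ^ (2 * ρ) := by
      calc ((⌊(X : ℝ) ^ ρ⌋₊ : ℕ) : ℝ) ^ 2 ≤ ((X : ℝ) ^ ρ) ^ 2 := by gcongr
        _ = _ := by
          rw [← Real.rpow_natCast, ← Real.rpow_mul hXp.le]
          congr 1
          push_cast
          ring
    have h2 : (X : ℝ) ^ (1 / 3 : ℝ) = (X : ℝ) ^ (1 / 3 - 2 * ρ) * (X : ℝ) ^ (2 * ρ) := by
      rw [← Real.rpow_add hXp]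
      congr 1
      ring
    rw [h2]
    have h3 : 0 < (X : ℝ) ^ (2 * ρ) := by positivity
    nlinarith

end Pool.Agent.H24.EL
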