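import Pool.Agent.H24.EL.Defs
import Pool.Agent.H82.SPC.Frc
import Pool.Agent.H92.DivBound

/-!
# [H24 EL SPC] few fractions with denominators in `MM R b b' c` near a given one

PROOF. `i = a0/r0`. Each modulus has at most one such fraction (`2/N ≤ 1/(4R²) ≤ 1/r`), and then `‖r a0/r0‖ < 4R²/N = δ`. Let `A` be the number of `r ∈ MM`
with `‖r a0/r0‖ < δ`. `A²` is the number of pairs; `m = r1 - r2` has `|m| < 3R²`, `‖m a0/r0‖ < 2δ`; for `r = q r'`, `b r' = c - b' q`: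
`b m = (q1 - q2)(c - b' (q1 + q2))`, so `m ≠ 0` has at most `2 τ(|b m|) ≤ C R^ε` pairs (`q1 - q2` divides `b m`, and `q1 + q2` is then determined as `b' ≠ 0`)
and `m = 0` only `r1 = r2`. The number of `m`, `|m| < 3R²`, with `‖m a0/r0‖ < 2δ` is at most `7 (4 δ r0 + 1)` (`r0 > R²`, `m a0` runs through different
residues modulo `r0` in a block of length `r0`), `δ r0 ≤ 16 R⁴/N`. So `A² ≤ A + C R^ε (1 + R⁴/N)`.
-/

set_option autoImplicit false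

namespace Pool.Agent.H24.EL

open Finset Pool.Agent.H82.SPC

private theorem spc_core (P : Finset (ℕ × ℕ)) (b b' c : ℤ) (hb : b ≠ 0) (hb' : b' ≠ 0)
    (hP : ∀ p ∈ P, b * p.2 + b' * p.1 = c)
    (hinj : ∀ p ∈ P, ∀ p' ∈ P, p.1 * p.2 = p'.1 * p'.2 → p = p')
    (R : ℕ) (hR : 1 ≤ R) (hR1 : ∀ p ∈ P, R ^ 2 ≤ p.1 * p.2) (hR2 : ∀ p ∈ P, p.1 * p.2 ≤ 4 * R ^ 2)
    (T : ℝ) (hT : ∀ m : ℤ, m ≠ 0 → |m| ≤ (4 * R ^ 2 : ℕ) → ((b * m).natAbs.divisors.card : ℝ) ≤ T)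
    (hT0 : 0 ≤ T) (L : ℝ) (hL8 : 8 * (R : ℝ) ^ 2 ≤ L) (i : Σ _ : ℕ, ℕ)
    (hi : i ∈ RF (P.image (fun p => p.1 * p.2))) (t : Finset (Σ _ : ℕ, ℕ))
    (ht : t ⊆ RF (P.image (fun p => p.1 * p.2)))
    (htn : ∀ j ∈ t, ∃ n : ℤ, |fv i - fv j - n| < 1 / L) :
    (t.card : ℝ) ≤ 1 + 5 * Real.sqrt T * (8 * R ^ 2 / Real.sqrt L + 1) := by
  classical
  have hR0 : (1 : ℝ) ≤ R := by exact_mod_cast hR
  have hR20 : (1 : ℝ) ≤ (R : ℝ) ^ 2 := one_le_pow₀ hR0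
  have hL1 : 1 ≤ L := by linarith
  have hL0 : 0 < L := by linarith
  have hsL : 0 < Real.sqrt L := Real.sqrt_pos.2 hL0
  have hsL2 : Real.sqrt L * Real.sqrt L = L := Real.mul_self_sqrt hL0.le
  have hMr : (((4 * R ^ 2 : ℕ)) : ℝ) = 4 * (R : ℝ) ^ 2 := by push_cast; ring
  obtain ⟨r, c0⟩ := i
  unfold RF at hi ht
  rw [mem_sigma, mem_filter] at hi
  obtain ⟨hr, -, hc⟩ := hi
  obtain ⟨p0, hp0, hp0r⟩ := mem_image.1 hr
  have hp0r' : p0.1 * p0.2 = r := hp0r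
  have hrl : R ^ 2 ≤ r := by rw [← hp0r']; exact hR1 p0 hp0
  have hru : r ≤ 4 * R ^ 2 := by rw [← hp0r']; exact hR2 p0 hp0
  have hR2pos : 0 < R ^ 2 := by positivity
  have hr0 : 0 < r := by omega
  have hrr : (0 : ℝ) < r := by exact_mod_cast hr0
  have hru' : (r : ℝ) ≤ 4 * (R : ℝ) ^ 2 := by exact_mod_cast hru
  have hrl' : (R : ℝ) ^ 2 ≤ r := by exact_mod_cast hrl
  obtain ⟨A, hA⟩ : ∃ A, A = P.filter (fun p => ∃ n : ℤ,
    |((p.1 * p.2 : ℕ) : ℝ) * (((c0 : ℤ) : ℝ) / r) - n| ≤ 1 / L * (4 * R ^ 2 : ℕ)) := ⟨_, rfl⟩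
  have h1 : t.card ≤ A.card := by
    have h2 := frac_count P (4 * R ^ 2) hR2 (((c0 : ℤ) : ℝ) / r) (1 / L) (by positivity) (by
      rw [hMr]
      have : 2 * (1 / L) * (4 * (R : ℝ) ^ 2) = 8 * (R : ℝ) ^ 2 / L := by ring
      rw [this, div_le_one hL0]
      exact hL8)
    rw [← hA] at h2
    refine le_trans ?_ h2
    have htg : ∀ z ∈ t, ∃ p ∈ P, p.1 * p.2 = z.1 := by
      intro z hz
      have := ht hz
      rw [mem_sigma] at this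
      exact mem_image.1 this.1
    choose! g hg using htg
    refine card_le_card_of_injOn (fun z => (⟨g z, z.2⟩ : Σ _ : ℕ × ℕ, ℕ)) ?_ ?_
    · intro z hz
      rw [mem_coe] at hz
      have hz' := ht hz
      rw [mem_sigma, mem_filter, mem_range] at hz'
      obtain ⟨n, hn⟩ := htn z hz
      have hgz := hg z hz
      rw [mem_coe, mem_filter, mem_sigma, mem_range]
      refine ⟨⟨hgz.1, ?_⟩, -n, ?_⟩
      · show z.2 < (g z).1 * (g z).2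
        rw [hgz.2]
        exact hz'.2.1
      · show |(z.2 : ℝ) / (((g z).1 * (g z).2 : ℕ) : ℝ) - ((c0 : ℤ) : ℝ) / r - ((-n : ℤ) : ℝ)| < 1 / L
        rw [hgz.2, Int.cast_natCast, ← abs_neg]
        refine lt_of_le_of_lt (le_of_eq (congrArg abs ?_)) hn
        unfold fv
        push_cast
        ring
    · intro z hz w hw hzw
      rw [mem_coe] at hz hw
      have e1 : g z = g w := (Sigma.mk.inj_iff.1 hzw).1
      have e2 : z.2 = w.2 := eq_of_heq (Sigma.mk.inj_iff.1 hzw).2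
      have e3 := (hg z hz).2
      have e4 := (hg w hw).2
      have e5 : z.1 = w.1 := by
        rw [← e3, ← e4, e1]
      obtain ⟨z1, z2⟩ := z
      obtain ⟨w1', w2⟩ := w
      have e5' : z1 = w1' := e5
      have e2' : z2 = w2 := e2
      rw [e5', e2']
  have hcr : IsCoprime (c0 : ℤ) (r : ℤ) := Nat.isCoprime_iff_coprime.2 hc
  have h2 := sq_count P b b' _ hb hb' hP hinj (4 * R ^ 2) hR2 T hT hT0 r (c0 : ℤ) hr0 hcr
    (1 / L * (4 * R ^ 2 : ℕ)) (by positivity)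
  rw [← hA, hMr] at h2
  obtain ⟨y, hy⟩ : ∃ y : ℝ, y = 8 * R ^ 2 / Real.sqrt L + 1 := ⟨_, rfl⟩
  have hy1 : 1 ≤ y := by
    rw [hy]
    have : 0 ≤ 8 * (R : ℝ) ^ 2 / Real.sqrt L := by positivity
    linarith
  have hyy : 64 * (R : ℝ) ^ 4 / L + 1 ≤ y ^ 2 := by
    have e : (8 * (R : ℝ) ^ 2 / Real.sqrt L) ^ 2 = 64 * (R : ℝ) ^ 4 / L := by
      rw [div_pow, sq (Real.sqrt L), hsL2]
      ring
    have h0 : 0 ≤ 8 * (R : ℝ) ^ 2 / Real.sqrt L := by positivity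
    rw [hy, add_sq, e]
    linarith
  have h3 : 2 * (4 * (R : ℝ) ^ 2) / r + 1 ≤ 9 := by
    have : 2 * (4 * (R : ℝ) ^ 2) / r ≤ 8 := by
      rw [div_le_iff₀ hrr]
      linarith
    linarith
  have h4 : 4 * (1 / L * (4 * (R : ℝ) ^ 2)) * r + 1 ≤ y ^ 2 := by
    refine le_trans ?_ hyy
    have e : 64 * (R : ℝ) ^ 4 / L = 4 * (1 / L * (4 * (R : ℝ) ^ 2)) * (4 * (R : ℝ) ^ 2) := by
      ring
    rw [e]
    have : 4 * (1 / L * (4 * (R : ℝ) ^ 2)) * r ≤ 4 * (1 / L * (4 * (R : ℝ) ^ 2)) * (4 * (R : ℝ) ^ 2) :=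
      mul_le_mul_of_nonneg_left hru' (by positivity)
    linarith
  have h5 : (A.card : ℝ) ^ 2 ≤ A.card + 18 * T * y ^ 2 := by
    refine h2.trans ?_
    have h6 : (2 * (4 * (R : ℝ) ^ 2) / r + 1) * (4 * (1 / L * (4 * (R : ℝ) ^ 2)) * r + 1) ≤
        9 * y ^ 2 := mul_le_mul h3 h4 (by positivity) (by norm_num)
    have h7 := mul_le_mul_of_nonneg_left h6 (by positivity : 0 ≤ 2 * T)
    linarith
  have h6 : (A.card : ℝ) ≤ 1 + 5 * Real.sqrt T * y := by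
    obtain ⟨z, hz⟩ : ∃ z : ℝ, z = 5 * Real.sqrt T * y := ⟨_, rfl⟩
    have hz0 : 0 ≤ z := by
      rw [hz]
      positivity
    have hz2 : z ^ 2 = 25 * T * y ^ 2 := by
      rw [hz, mul_pow, mul_pow, Real.sq_sqrt hT0]
      ring
    rw [← hz]
    by_contra hlt
    rw [not_le] at hlt
    have h8 : 0 ≤ T * y ^ 2 := by positivity
    nlinarith
  rw [← hy]
  refine le_trans ?_ h6
  exact_mod_cast h1

private theorem pp_mem {R : ℕ} {b b' c : ℤ} {p : ℕ × ℕ} (hp : p ∈ PP R b b' c) :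
    p.1.Prime ∧ p.2.Prime ∧ R < p.1 ∧ p.1 ≤ 2 * R ∧ R < p.2 ∧ p.2 ≤ 2 * R ∧ p.1 < p.2 ∧
      b * (p.2 : ℤ) + b' * (p.1 : ℤ) = c := by
  unfold PP Pool.Agent.H99.GB.QQ at hp
  rw [mem_filter, mem_product, mem_filter, mem_filter, mem_Ioc, mem_Ioc] at hp
  obtain ⟨⟨⟨⟨h1, h2⟩, h3⟩, ⟨h4, h5⟩, h6⟩, h7, h8⟩ := hp
  exact ⟨h3, h6, h1, h2, h4, h5, h7, h8⟩

theorem spc (ε : ℝ) (hε : 0 < ε) : ∃ C : ℝ, 0 < C ∧ ∀ (R : ℕ) (b b' c : ℤ) (N : ℝ), 1 ≤ R → b ≠ 0 → b' ≠ 0 → |b| ≤ R → |b'| ≤ R →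
    8 * (R : ℝ) ^ 2 ≤ N → ∀ i ∈ RF (MM R b b' c), ∀ t ⊆ RF (MM R b b' c), (∀ j ∈ t, ∃ n : ℤ, |fv i - fv j - n| < 1 / N) →
      (t.card : ℝ) ≤ C * (R : ℝ) ^ ε * (1 + (R : ℝ) ^ 2 / √N) := by
  obtain ⟨C1, hC1, hdiv⟩ := Pool.Agent.H5.W.divisor_bound (2 * ε / 3) (by positivity)
  obtain ⟨D, hD⟩ : ∃ D : ℝ, D = C1 * (4 : ℝ) ^ (2 * ε / 3) := ⟨_, rfl⟩
  have hD0 : 0 < D := by
    rw [hD]
    positivity
  refine ⟨41 * (1 + Real.sqrt D), by positivity, ?_⟩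
  intro R b b' c N hR hb hb' hbR _ hN i hi t ht htn
  have hR0 : (1 : ℝ) ≤ R := by exact_mod_cast hR
  have hRpos : (0 : ℝ) < R := by linarith
  obtain ⟨T, hT⟩ : ∃ T : ℝ, T = D * ((R : ℝ) ^ ε) ^ 2 := ⟨_, rfl⟩
  have hT0 : 0 ≤ T := by
    rw [hT]
    positivity
  have hN0 : 0 < N := by nlinarith
  have hsN : 0 < √N := Real.sqrt_pos.2 hN0
  have hsT : √T = √D * (R : ℝ) ^ ε := by
    rw [hT, Real.sqrt_mul hD0.le, Real.sqrt_sq (by positivity)]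
  have key := spc_core (PP R b b' c) b b' c hb hb' (fun p hp => (pp_mem hp).2.2.2.2.2.2.2) (by
      intro p hp p' hp' h
      obtain ⟨a1, a2, -, -, -, -, a3, -⟩ := pp_mem hp
      obtain ⟨b1, b2, -, -, -, -, b3, -⟩ := pp_mem hp'
      have h1 : p.1 ∣ p'.1 * p'.2 := ⟨p.2, h.symm⟩
      rcases (Nat.Prime.dvd_mul a1).1 h1 with h2 | h2
      · have h3 := (Nat.prime_dvd_prime_iff_eq a1 b1).1 h2
        rw [h3] at h
        have h4 := Nat.eq_of_mul_eq_mul_left b1.pos h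
        exact Prod.ext_iff.2 ⟨h3, h4⟩
      · have h3 := (Nat.prime_dvd_prime_iff_eq a1 b2).1 h2
        rw [h3, mul_comm p'.1] at h
        have h4 := Nat.eq_of_mul_eq_mul_left b2.pos h
        omega) R hR
    (by
      intro p hp
      obtain ⟨-, -, h1, -, h2, -, -, -⟩ := pp_mem hp
      rw [sq]
      exact Nat.mul_le_mul h1.le h2.le)
    (by
      intro p hp
      obtain ⟨-, -, -, h1, -, h2, -, -⟩ := pp_mem hp
      calc p.1 * p.2 ≤ (2 * R) * (2 * R) := Nat.mul_le_mul h1 h2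
        _ = 4 * R ^ 2 := by ring)
    T (by
      intro m hm hmM
      have h1 : 1 ≤ (b * m).natAbs := Int.natAbs_pos.2 (mul_ne_zero hb hm)
      have h2 : (((b * m).natAbs : ℕ) : ℝ) ≤ 4 * (R : ℝ) ^ 3 := by
        rw [Nat.cast_natAbs, abs_mul]
        push_cast
        have e1 : |(b : ℝ)| ≤ R := by exact_mod_cast hbR
        have e2 : |(m : ℝ)| ≤ 4 * (R : ℝ) ^ 2 := by
          have : |(m : ℝ)| ≤ ((4 * R ^ 2 : ℕ) : ℝ) := by exact_mod_cast hmM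
          push_cast at this
          exact this
        calc |(b : ℝ)| * |(m : ℝ)| ≤ R * (4 * (R : ℝ) ^ 2) :=
              mul_le_mul e1 e2 (abs_nonneg _) hRpos.le
          _ = _ := by ring
      refine (hdiv _ h1).trans ?_
      rw [hT, hD]
      have h3 : (((b * m).natAbs : ℕ) : ℝ) ^ (2 * ε / 3) ≤ (4 * (R : ℝ) ^ 3) ^ (2 * ε / 3) :=
        Real.rpow_le_rpow (Nat.cast_nonneg _) h2 (by positivity)
      have h4 : (4 * (R : ℝ) ^ 3) ^ (2 * ε / 3) = (4 : ℝ) ^ (2 * ε / 3) * ((R : ℝ) ^ ε) ^ 2 := by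
        rw [Real.mul_rpow (by norm_num) (by positivity), ← Real.rpow_natCast (R : ℝ) 3,
          ← Real.rpow_mul hRpos.le, ← Real.rpow_natCast ((R : ℝ) ^ ε) 2, ← Real.rpow_mul hRpos.le]
        congr 2
        push_cast
        ring
      rw [mul_assoc C1, ← h4]
      exact mul_le_mul_of_nonneg_left h3 hC1.le) hT0 N hN i hi t ht htn
  refine key.trans ?_
  have hRe : 1 ≤ (R : ℝ) ^ ε := Real.one_le_rpow hR0 hε.le
  rw [hsT]
  obtain ⟨y, hy⟩ : ∃ y : ℝ, y = (R : ℝ) ^ 2 / √N := ⟨_, rfl⟩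
  have hy0 : 0 ≤ y := by
    rw [hy]
    positivity
  have e1 : 8 * (R : ℝ) ^ 2 / √N = 8 * y := by
    rw [hy]
    ring
  rw [e1, ← hy]
  obtain ⟨S, hS⟩ : ∃ S : ℝ, S = √D * (R : ℝ) ^ ε := ⟨_, rfl⟩
  have hS0 : 0 ≤ S := by
    rw [hS]
    positivity
  have e2 : 41 * (1 + √D) * (R : ℝ) ^ ε * (1 + y) = 41 * (R : ℝ) ^ ε * (1 + y) + 41 * S * (1 + y) := by
    rw [hS]
    ring
  rw [e2, ← hS]
  have e3 : 1 ≤ (R : ℝ) ^ ε * (1 + y) := by nlinarith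
  have e4 : 0 ≤ S * y := mul_nonneg hS0 hy0
  nlinarith

end Pool.Agent.H24.EL
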