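import Pool.Agent.H24.EL.Thv
import Pool.Agent.H24.EL.Mls
import Pool.Agent.H24.EL.Spc
import Pool.Agent.H24.EL.Emb
import Pool.Agent.H24.EL.PsiNum
import Pool.Agent.H67.VT.LsC

/-!
# [H24 EL PSI] the mean values

PROOF. `R = ⌊X^ρ⌋`, `u = ⌊X^(1/3)⌋` (`u³ ≤ X`, `8R² ≤ u`), `t = X`, `T = 2X`, `Q = 4R²`. Hypothesis of `famv`: for `N ≥ u` `mls_fam` with `δ = 1/N`, `K = ⌊C R^ε (1 + R²/√N)⌋`
(`spc`): `8 K (2N + 1) ≤ 24 C R^ε (N + R² √N)`, so `V = 24 C X^ε`, `W = R²`. `√W T/u^(1/4)` is about `R X^(11/12)`, `W T^(3/4)` about `R² X^(3/4)`, both less than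
`X^(1+ρ/2-η)` iff `ρ < 1/6`; `4 R³ (2 R u + √T)`: `4ρ + 1/3 < 1 + ρ/2`, `3ρ + 1/2 < 1 + ρ/2`. `scv`: `H67.VT.ls_mult` with `PC (2R)`, `N + 4R² ≤ 2N`: `W = 0`.
-/

set_option autoImplicit false

namespace Pool.Agent.H24.EL

open Finset Pool.Agent.H21.MT Pool.Agent.H67.VS Pool.Agent.H99.GB

theorem psi (ρ : ℝ) (h0 : 0 < ρ) (h1 : ρ < 1 / 6) : ∃ (η : ℝ) (X0 : ℕ), 0 < η ∧ ∀ (X : ℕ) (v : ℕ → ℝ), X0 ≤ X → Wv v →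
    ∀ b b' c : ℤ, b ≠ 0 → b' ≠ 0 → |b| ≤ (⌊(X : ℝ) ^ ρ⌋₊ : ℤ) → |b'| ≤ (⌊(X : ℝ) ^ ρ⌋₊ : ℤ) →
      ∑ p ∈ PP ⌊(X : ℝ) ^ ρ⌋₊ b b' c, SDv v X p.1 p.2 ≤ (X : ℝ) ^ (1 + ρ / 2 - η) := by
  obtain ⟨σ, hσ0, hs1, hs2⟩ : ∃ σ : ℝ, 0 < σ ∧ σ ≤ ρ / 2 ∧ σ ≤ (1 / 6 - ρ) / 2 :=
    ⟨min (ρ / 2) ((1 / 6 - ρ) / 2), lt_min (by linarith) (by linarith), min_le_left _ _, min_le_right _ _⟩
  obtain ⟨C, hC, hspc⟩ := spc (σ / 4) (by linarith)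
  obtain ⟨C', hC', hfam⟩ := famv
  obtain ⟨X0, hX0⟩ := psi_ev ρ (σ / 4) (C' * (240 * C + 16)) h0 h1 (by positivity) (by linarith)
  refine ⟨σ / 2, X0, by linarith, fun X v hX hv b b' c hb hb' hbR hbR' => ?_⟩
  obtain ⟨hX1, hR1, hRX, hu1, huX, huX', hu3, huR, hlog⟩ := hX0 X hX
  obtain ⟨R, hRdef⟩ : ∃ R : ℕ, R = ⌊(X : ℝ) ^ ρ⌋₊ := ⟨_, rfl⟩
  obtain ⟨u, hudef⟩ : ∃ u : ℕ, u = ⌊(X : ℝ) ^ (1 / 3 : ℝ)⌋₊ := ⟨_, rfl⟩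
  rw [← hRdef] at hR1 hRX huR hbR hbR' ⊢
  rw [← hudef] at hu1 huX huX' hu3 huR
  have hXr : (1 : ℝ) ≤ X := by exact_mod_cast hX1
  have hXp : (0 : ℝ) < X := by linarith
  have hRr : (1 : ℝ) ≤ R := by exact_mod_cast hR1
  have hRe : (R : ℝ) ^ (σ / 4) ≤ (X : ℝ) ^ (σ / 4) := by
    apply Real.rpow_le_rpow (by linarith) _ (by linarith)
    refine hRX.trans ?_
    calc (X : ℝ) ^ ρ ≤ (X : ℝ) ^ (1 : ℝ) := Real.rpow_le_rpow_of_exponent_le hXr (by linarith)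
      _ = X := Real.rpow_one _
  have hRe0 : 0 < (R : ℝ) ^ (σ / 4) := by positivity
  have huX1 : u ≤ X := le_trans (by nlinarith [Nat.le_self_pow (show 3 ≠ 0 by norm_num) u]) hu3
  have h8 : 8 * R ^ 2 ≤ u := by exact_mod_cast huR
  have hQX : 4 * R ^ 2 ≤ X := by omega
  have hV0 : (0 : ℝ) ≤ 24 * C * (X : ℝ) ^ (σ / 4) := by positivity
  have hMM : ∀ r ∈ MM R b b' c, 1 ≤ r ∧ r ≤ 4 * R ^ 2 := by
    intro r hr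
    unfold MM PP at hr
    rw [mem_image] at hr
    obtain ⟨p, hp, rfl⟩ := hr
    rw [mem_filter, mem_product] at hp
    obtain ⟨⟨hp1, hp2⟩, _⟩ := hp
    unfold QQ at hp1 hp2
    rw [mem_filter, mem_Ioc] at hp1 hp2
    constructor
    · exact Nat.one_le_iff_ne_zero.mpr (Nat.mul_ne_zero hp1.2.ne_zero hp2.2.ne_zero)
    · calc p.1 * p.2 ≤ (2 * R) * (2 * R) := Nat.mul_le_mul hp1.1.2 hp2.1.2
        _ = 4 * R ^ 2 := by ring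
  have hls : ∀ (M N : ℕ) (a : ℕ → ℂ), u ≤ N →
      ∑ χ ∈ (PC (4 * R ^ 2)).filter (fun χ => χ.md ∈ MM R b b' c), ‖∑ n ∈ Ioc M (M + N), a n * χ.2 (n : ZMod (χ.1.val + 1))‖ ^ 2 ≤
      (24 * C * (X : ℝ) ^ (σ / 4)) * ((N : ℝ) + (R : ℝ) ^ 2 * √(N : ℝ)) * ∑ n ∈ Ioc M (M + N), ‖a n‖ ^ 2 := by
    intro M N a hN
    have hN1 : (1 : ℝ) ≤ N := by exact_mod_cast hu1.trans hN
    have hN0 : (0 : ℝ) < N := by linarith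
    have hN8 : 8 * (R : ℝ) ^ 2 ≤ N := by exact_mod_cast h8.trans hN
    have hB0 : 0 ≤ C * (R : ℝ) ^ (σ / 4) * (1 + (R : ℝ) ^ 2 / √(N : ℝ)) := by positivity
    have hm := mls_fam (4 * R ^ 2) (MM R b b' c) hMM ⌊C * (R : ℝ) ^ (σ / 4) * (1 + (R : ℝ) ^ 2 / √(N : ℝ))⌋₊ (1 / (N : ℝ)) (by positivity)
      (fun i hi t ht hj => Nat.le_floor (hspc R b b' c N hR1 hb hb' hbR hbR' hN8 i hi t ht hj)) M N a
    refine hm.trans ?_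
    apply mul_le_mul_of_nonneg_right _ (sum_nonneg fun n _ => by positivity)
    have hfl := Nat.floor_le hB0
    have hsN : √(N : ℝ) * √(N : ℝ) = N := Real.mul_self_sqrt hN0.le
    have hsN0 : 0 < √(N : ℝ) := Real.sqrt_pos.mpr hN0
    calc ((⌊C * (R : ℝ) ^ (σ / 4) * (1 + (R : ℝ) ^ 2 / √(N : ℝ))⌋₊ : ℕ) : ℝ) * (8 * ((N : ℝ) + 1 / (1 / (N : ℝ)) + 1))
        ≤ (C * (R : ℝ) ^ (σ / 4) * (1 + (R : ℝ) ^ 2 / √(N : ℝ))) * (24 * N) := by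
          apply mul_le_mul hfl _ (by positivity) hB0
          rw [one_div_one_div]
          linarith
      _ = 24 * C * (R : ℝ) ^ (σ / 4) * (N + (R : ℝ) ^ 2 * (√(N : ℝ) * √(N : ℝ)) / √(N : ℝ)) := by
          rw [hsN]
          ring
      _ = 24 * C * (R : ℝ) ^ (σ / 4) * (N + (R : ℝ) ^ 2 * √(N : ℝ)) := by
          congr 2
          field_simp
      _ ≤ 24 * C * (X : ℝ) ^ (σ / 4) * (N + (R : ℝ) ^ 2 * √(N : ℝ)) := by gcongr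
  have h2 := hfam (4 * R ^ 2) u X (2 * X) ((PC (4 * R ^ 2)).filter (fun χ => χ.md ∈ MM R b b' c)) (24 * C * (X : ℝ) ^ (σ / 4)) ((R : ℝ) ^ 2) v hv
    hu1 hu3 (by omega) hQX (filter_subset _ _) hV0 (by positivity) hls
  refine (emb2 v X R b b' c).trans (h2.trans ?_)
  have hcard := emb_card R b b' c hb
  have hnum := psi_num ρ σ h0 h1 hs1 hs2 X R u (24 * C * (X : ℝ) ^ (σ / 4)) hXr (by linarith) hRX huX huX' hV0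
  have hsR : √((R : ℝ) ^ 2) = R := Real.sqrt_sq (by linarith)
  have hs4 : √(((4 * R ^ 2 : ℕ) : ℝ)) = 2 * R := by
    push_cast
    rw [show (4 : ℝ) * (R : ℝ) ^ 2 = (2 * R) ^ 2 by ring]
    exact Real.sqrt_sq (by linarith)
  have hl0 : 0 ≤ Real.log (2 * X) := Real.log_nonneg (by linarith)
  rw [hsR, hs4]
  have hc2 : (((2 * X : ℕ) : ℝ)) = 2 * X := by push_cast; ring
  rw [hc2]
  have e1 : (24 * C * (X : ℝ) ^ (σ / 4)) * (2 * X + R * (2 * X) / √(√(u : ℝ)) + (R : ℝ) ^ 2 * (√(2 * X) * √(√(2 * X)))) +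
      ((((PC (4 * R ^ 2)).filter (fun χ => χ.md ∈ MM R b b' c)).card : ℕ) : ℝ) * (2 * R * u + √(2 * X)) ≤
      (240 * C + 16) * (X : ℝ) ^ (σ / 4) * (X : ℝ) ^ (1 + ρ / 2 - σ) := by
    calc _ ≤ (24 * C * (X : ℝ) ^ (σ / 4)) * (2 * X + R * (2 * X) / √(√(u : ℝ)) + (R : ℝ) ^ 2 * (√(2 * X) * √(√(2 * X)))) +
        4 * (R : ℝ) ^ 3 * (2 * R * u + √(2 * X)) := by gcongr
      _ ≤ ((24 * C * (X : ℝ) ^ (σ / 4)) * 10 + 16) * (X : ℝ) ^ (1 + ρ / 2 - σ) := hnum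
      _ ≤ ((24 * C * (X : ℝ) ^ (σ / 4)) * 10 + 16 * (X : ℝ) ^ (σ / 4)) * (X : ℝ) ^ (1 + ρ / 2 - σ) := by
        have h5 : 1 ≤ (X : ℝ) ^ (σ / 4) := Real.one_le_rpow hXr (by linarith)
        gcongr
        linarith
      _ = _ := by ring
  calc C' * (1 + Real.log (2 * X)) ^ 5 * ((24 * C * (X : ℝ) ^ (σ / 4)) * (2 * X + R * (2 * X) / √(√(u : ℝ)) + (R : ℝ) ^ 2 * (√(2 * X) * √(√(2 * X)))) +
      ((((PC (4 * R ^ 2)).filter (fun χ => χ.md ∈ MM R b b' c)).card : ℕ) : ℝ) * (2 * R * u + √(2 * X)))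
      ≤ C' * (1 + Real.log (2 * X)) ^ 5 * ((240 * C + 16) * (X : ℝ) ^ (σ / 4) * (X : ℝ) ^ (1 + ρ / 2 - σ)) := by gcongr
    _ = (C' * (240 * C + 16) * (1 + Real.log (2 * X)) ^ 5) * ((X : ℝ) ^ (σ / 4) * (X : ℝ) ^ (1 + ρ / 2 - σ)) := by ring
    _ ≤ (X : ℝ) ^ (σ / 4) * ((X : ℝ) ^ (σ / 4) * (X : ℝ) ^ (1 + ρ / 2 - σ)) := by gcongr
    _ = (X : ℝ) ^ (1 + ρ / 2 - σ / 2) := by
      rw [← Real.rpow_add hXp, ← Real.rpow_add hXp]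
      congr 1
      ring

theorem scv (ρ : ℝ) (h0 : 0 < ρ) (h1 : ρ < 1 / 6) : ∃ (η : ℝ) (X0 : ℕ), 0 < η ∧ ∀ (X : ℕ) (v : ℕ → ℝ), X0 ≤ X → Wv v →
    ∑ q ∈ QQ ⌊(X : ℝ) ^ ρ⌋₊, SCv v X q ≤ (X : ℝ) ^ (1 + ρ / 2 - η) := by
  obtain ⟨σ, hσ0, hs1, hs2⟩ : ∃ σ : ℝ, 0 < σ ∧ σ ≤ ρ / 2 ∧ σ ≤ (1 / 6 - ρ) / 2 :=
    ⟨min (ρ / 2) ((1 / 6 - ρ) / 2), lt_min (by linarith) (by linarith), min_le_left _ _, min_le_right _ _⟩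
  obtain ⟨C, hC, hlsm⟩ := Pool.Agent.H67.VT.ls_mult
  obtain ⟨C', hC', hfam⟩ := famv
  obtain ⟨X0, hX0⟩ := psi_ev ρ (σ / 4) (C' * (20 * C + 16)) h0 h1 (by positivity) (by linarith)
  refine ⟨σ / 2, X0, by linarith, fun X v hX hv => ?_⟩
  obtain ⟨hX1, hR1, hRX, hu1, huX, huX', hu3, huR, hlog⟩ := hX0 X hX
  obtain ⟨R, hRdef⟩ : ∃ R : ℕ, R = ⌊(X : ℝ) ^ ρ⌋₊ := ⟨_, rfl⟩
  obtain ⟨u, hudef⟩ : ∃ u : ℕ, u = ⌊(X : ℝ) ^ (1 / 3 : ℝ)⌋₊ := ⟨_, rfl⟩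
  rw [← hRdef] at hR1 hRX huR ⊢
  rw [← hudef] at hu1 huX huX' hu3 huR
  have hXr : (1 : ℝ) ≤ X := by exact_mod_cast hX1
  have hXp : (0 : ℝ) < X := by linarith
  have hRr : (1 : ℝ) ≤ R := by exact_mod_cast hR1
  have huX1 : u ≤ X := le_trans (by nlinarith [Nat.le_self_pow (show 3 ≠ 0 by norm_num) u]) hu3
  have h8 : 8 * R ^ 2 ≤ u := by exact_mod_cast huR
  have hQX : 2 * R ≤ X := by nlinarith
  have hls : ∀ (M N : ℕ) (a : ℕ → ℂ), u ≤ N →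
      ∑ χ ∈ PC (2 * R), ‖∑ n ∈ Ioc M (M + N), a n * χ.2 (n : ZMod (χ.1.val + 1))‖ ^ 2 ≤
      (2 * C) * ((N : ℝ) + 0 * √(N : ℝ)) * ∑ n ∈ Ioc M (M + N), ‖a n‖ ^ 2 := by
    intro M N a hN
    refine (hlsm (2 * R) M N a).trans ?_
    apply mul_le_mul_of_nonneg_right _ (sum_nonneg fun n _ => by positivity)
    have hN8 : 8 * (R : ℝ) ^ 2 ≤ N := by exact_mod_cast h8.trans hN
    have e : (N : ℝ) + ((2 * R : ℕ) : ℝ) ^ 2 ≤ 2 * N := by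
      push_cast
      nlinarith
    calc C * ((N : ℝ) + ((2 * R : ℕ) : ℝ) ^ 2) ≤ C * (2 * N) := by gcongr
      _ = _ := by ring
  have h2 := hfam (2 * R) u X (2 * X) (PC (2 * R)) (2 * C) 0 v hv
    hu1 hu3 (by omega) hQX (Subset.refl _) (by positivity) le_rfl hls
  refine (emb1 v X R).trans (h2.trans ?_)
  have hcard := card_PC (2 * R)
  have hnum := psi_num ρ σ h0 h1 hs1 hs2 X R u (2 * C) hXr (by linarith) hRX huX huX' (by positivity)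
  have hl0 : 0 ≤ Real.log (2 * X) := Real.log_nonneg (by linarith)
  have hc2 : (((2 * X : ℕ) : ℝ)) = 2 * X := by push_cast; ring
  have hs4 : √(((2 * R : ℕ) : ℝ)) ≤ 2 * R := by
    push_cast
    rw [Real.sqrt_le_left (by linarith)]
    nlinarith
  have hcd : (((PC (2 * R)).card : ℕ) : ℝ) ≤ 4 * (R : ℝ) ^ 3 := by
    refine hcard.trans ?_
    push_cast
    nlinarith [mul_nonneg (sq_nonneg (R : ℝ)) (show (0 : ℝ) ≤ (R : ℝ) - 1 by linarith)]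
  rw [hc2, Real.sqrt_zero]
  have hq0 : 0 ≤ R * (2 * X) / √(√(u : ℝ)) := by positivity
  have hq1 : 0 ≤ (R : ℝ) ^ 2 * (√(2 * X) * √(√(2 * X))) := by positivity
  have hu0 : (0 : ℝ) ≤ u := Nat.cast_nonneg u
  have e1 : (2 * C) * (2 * X + 0 * (2 * X) / √(√(u : ℝ)) + 0 * (√(2 * X) * √(√(2 * X)))) +
      (((PC (2 * R)).card : ℕ) : ℝ) * (√(((2 * R : ℕ) : ℝ)) * u + √(2 * X)) ≤
      (20 * C + 16) * (X : ℝ) ^ (1 + ρ / 2 - σ) := by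
    calc _ ≤ (2 * C) * (2 * X + R * (2 * X) / √(√(u : ℝ)) + (R : ℝ) ^ 2 * (√(2 * X) * √(√(2 * X)))) +
        4 * (R : ℝ) ^ 3 * (2 * R * u + √(2 * X)) := by
          gcongr
          · simp
          · simp
      _ ≤ ((2 * C) * 10 + 16) * (X : ℝ) ^ (1 + ρ / 2 - σ) := hnum
      _ = _ := by ring
  have h5 : 1 ≤ (X : ℝ) ^ (σ / 4) := Real.one_le_rpow hXr (by linarith)
  calc C' * (1 + Real.log (2 * X)) ^ 5 * ((2 * C) * (2 * X + 0 * (2 * X) / √(√(u : ℝ)) + 0 * (√(2 * X) * √(√(2 * X)))) +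
      (((PC (2 * R)).card : ℕ) : ℝ) * (√(((2 * R : ℕ) : ℝ)) * u + √(2 * X)))
      ≤ C' * (1 + Real.log (2 * X)) ^ 5 * ((20 * C + 16) * (X : ℝ) ^ (1 + ρ / 2 - σ)) := by gcongr
    _ = (C' * (20 * C + 16) * (1 + Real.log (2 * X)) ^ 5) * (1 * (X : ℝ) ^ (1 + ρ / 2 - σ)) := by ring
    _ ≤ (X : ℝ) ^ (σ / 4) * ((X : ℝ) ^ (σ / 4) * (X : ℝ) ^ (1 + ρ / 2 - σ)) := by gcongr
    _ = (X : ℝ) ^ (1 + ρ / 2 - σ / 2) := by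
      rw [← Real.rpow_add hXp, ← Real.rpow_add hXp]
      congr 1
      ring

end Pool.Agent.H24.EL
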