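import Pool.Agent.H24.EL.Defs
import Pool.Agent.H27.RU.Frs
import Pool.Agent.H93.EL.Wrap

/-!
# [H24 EL WGT] the weights of the frequencies

PROOF. `b` the signed residue of `a` mod `q` (`|b| ≤ (q-1)/2 < R`), `‖fc H ⟨q,a⟩‖ ≤ 1/|b|`; `a/q + a'/r ≡ b/q + b'/r = c/(q r)`, `c = b r + b' q`, so
`1/nd ≤ q r/|c| + 1/(1 - |b|/q - |b'|/r)`. First part: `∑_{b,b',c} 1/|b b' c| ∑_{PP R b b' c} q r Z ≤ C (1+log R)³ R² B` (`resum`). Second part: for one pair at most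
`C (1+log R)²` (`wrap`), and `∑_{q<r} Z = ∑_{d=1}^{R} ∑_{PP R 1 (-1) d} Z ≤ R B`.
-/

set_option autoImplicit false

namespace Pool.Agent.H24.EL

open Finset Pool.Agent.H99.GB Pool.Agent.H93.EL

/-- signed residue -/
private def sb (q a : ℕ) : ℤ := if 2 * a < q then a else (a : ℤ) - q

private theorem sb_sum (R q : ℕ) (hodd : q % 2 = 1) (hq : q ≤ 2 * R) (g : ℤ → ℝ) (hg : ∀ b, 0 ≤ g b) :
    ∑ a ∈ Ico 1 q, g (sb q a) ≤ ∑ b ∈ Icc (-(R : ℤ)) R, (if 2 * |b| < (q : ℤ) then g b else 0) := by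
  rw [← sum_filter]
  have h1 : ∑ a ∈ Ico 1 q, g (sb q a) = ∑ b ∈ (Ico 1 q).image (sb q), g b := by
    rw [sum_image]
    intro x hx y hy hxy
    rw [mem_coe, mem_Ico] at hx hy
    unfold sb at hxy
    split_ifs at hxy <;> omega
  rw [h1]
  refine sum_le_sum_of_subset_of_nonneg ?_ fun _ _ _ => hg _
  intro b hb
  rw [mem_image] at hb
  obtain ⟨a, ha, rfl⟩ := hb
  rw [mem_Ico] at ha
  rw [mem_filter, mem_Icc]
  unfold sb
  split_ifs with h
  · rw [abs_of_nonneg (by omega)]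
    omega
  · rw [abs_of_nonpos (by omega)]
    omega

private theorem nd_inv (y z : ℝ) (hz : 0 < z) (hyz : |y| ≤ 1 - z) : 1 / nd y ≤ |y|⁻¹ + z⁻¹ := by
  have h0 : 0 ≤ |y|⁻¹ := inv_nonneg.2 (abs_nonneg _)
  have h1 : 0 ≤ z⁻¹ := inv_nonneg.2 hz.le
  unfold nd
  rcases eq_or_ne (round y) 0 with h | h
  · rw [h, Int.cast_zero, sub_zero, one_div]
    linarith
  · have h2 : (1 : ℝ) ≤ |(round y : ℝ)| := by
      have : (1 : ℤ) ≤ |round y| := Int.one_le_abs h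
      exact_mod_cast this
    have h3 : z ≤ |y - round y| := by
      have h4 : |(round y : ℝ)| ≤ |y - round y| + |y| := by
        have h5 := abs_sub_abs_le_abs_sub (round y : ℝ) y
        rw [abs_sub_comm] at h5
        linarith
      linarith
    have h6 : 1 / |y - round y| ≤ z⁻¹ := by
      rw [one_div]
      exact inv_anti₀ hz h3
    linarith

private theorem nd_add_int (y : ℝ) (n : ℤ) : nd (y + n) = nd y := by
  unfold nd
  rw [round_add_intCast]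
  push_cast
  congr 1
  ring

private theorem fc_sb (H q a : ℕ) (hodd : q % 2 = 1) (ha : 1 ≤ a) (haq : a < q) : ‖fc H ⟨q, a⟩‖ ≤ gi (sb q a) := by
  unfold sb gi
  split_ifs with h
  · have h1 := Pool.Agent.H27.RU.frs_fc H q a ha (by omega)
    have ha0 : (0 : ℝ) < a := by exact_mod_cast ha
    rw [norm_mul, Complex.norm_natCast] at h1
    push_cast
    rw [abs_of_pos ha0, inv_eq_one_div, le_div_iff₀ ha0]
    linarith
  · have h1 := Pool.Agent.H27.RU.frs_fc2 H q (q - a) (by omega) (by omega)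
    have h2 : q - (q - a) = a := by omega
    rw [norm_mul, Complex.norm_natCast, h2] at h1
    have ha0 : (0 : ℝ) < ((q - a : ℕ) : ℝ) := by exact_mod_cast (by omega : 0 < q - a)
    have h3 : |(((a : ℤ) - q : ℤ) : ℝ)| = ((q - a : ℕ) : ℝ) := by
      rw [Nat.cast_sub haq.le]
      push_cast
      rw [abs_of_nonpos (by have : (a : ℝ) < q := by exact_mod_cast haq
                            linarith)]
      ring
    rw [h3, inv_eq_one_div, le_div_iff₀ ha0]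
    linarith

/-- the weight of one pair -/
private theorem w1_le (H R q r : ℕ) (hR : 1 ≤ R) (hq : R < q) (hq2 : q ≤ 2 * R) (hr : R < r) (hr2 : r ≤ 2 * R)
    (hqo : q % 2 = 1) (hro : r % 2 = 1) :
    w1 H q r ≤ 4 * (R : ℝ) ^ 2 * (∑ b ∈ Icc (-(R : ℤ)) R, ∑ b' ∈ Icc (-(R : ℤ)) R, gi b * gi b' * gi (b * r + b' * q)) +
      (16 * (1 + Real.log R) ^ 2 + 192 * (1 + Real.log (2 * R))) := by
  have hR0 : (0 : ℝ) < R := by exact_mod_cast hR
  have hq0 : (0 : ℝ) < q := lt_trans hR0 (by exact_mod_cast hq)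
  have hr0 : (0 : ℝ) < r := lt_trans hR0 (by exact_mod_cast hr)
  have hqR : (q : ℝ) ≤ 2 * R := by exact_mod_cast hq2
  have hrR : (r : ℝ) ≤ 2 * R := by exact_mod_cast hr2
  -- the bound of one term
  obtain ⟨F, hF⟩ : ∃ F : ℤ → ℤ → ℝ, F = fun b b' => gi b * gi b' *
    (4 * (R : ℝ) ^ 2 * gi (b * r + b' * q) + (if 2 * |b| < (q : ℤ) ∧ 2 * |b'| < (r : ℤ) then (1 - |(b : ℝ)| / q - |(b' : ℝ)| / r)⁻¹ else 0)) := ⟨_, rfl⟩
  have hF0 : ∀ b b', 0 ≤ F b b' := by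
    intro b b'
    rw [hF]
    have g1 := gi_nonneg b
    have g2 := gi_nonneg b'
    have g3 := gi_nonneg (b * r + b' * q)
    have g4 : 0 ≤ (if 2 * |b| < (q : ℤ) ∧ 2 * |b'| < (r : ℤ) then (1 - |(b : ℝ)| / q - |(b' : ℝ)| / r)⁻¹ else 0) := by
      split_ifs with h
      · refine inv_nonneg.2 ?_
        have h1 : (2 : ℝ) * |(b : ℝ)| < q := by exact_mod_cast h.1
        have h2 : (2 : ℝ) * |(b' : ℝ)| < r := by exact_mod_cast h.2
        have h3 : |(b : ℝ)| / q ≤ 1 / 2 := by rw [div_le_iff₀ hq0]; linarith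
        have h4 : |(b' : ℝ)| / r ≤ 1 / 2 := by rw [div_le_iff₀ hr0]; linarith
        linarith
      · exact le_rfl
    positivity
  have hterm : ∀ a ∈ Ico 1 q, ∀ a' ∈ Ico 1 r, ‖fc H ⟨q, a⟩‖ * ‖fc H ⟨r, a'⟩‖ / nd ((a : ℝ) / q + (a' : ℝ) / r) ≤
      F (sb q a) (sb r a') := by
    intro a ha a' ha'
    rw [mem_Ico] at ha ha'
    have h1 := fc_sb H q a hqo ha.1 ha.2
    have h2 := fc_sb H r a' hro ha'.1 ha'.2
    have hb : 2 * |sb q a| < (q : ℤ) := by
      unfold sb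
      split_ifs with h
      · rw [abs_of_nonneg (by omega)]; omega
      · rw [abs_of_nonpos (by omega)]; omega
    have hb' : 2 * |sb r a'| < (r : ℤ) := by
      unfold sb
      split_ifs with h
      · rw [abs_of_nonneg (by omega)]; omega
      · rw [abs_of_nonpos (by omega)]; omega
    obtain ⟨k, hk⟩ : ∃ k : ℤ, (a : ℝ) / q = (sb q a : ℝ) / q + k := by
      unfold sb
      split_ifs with h
      · exact ⟨0, by push_cast; ring⟩
      · refine ⟨1, ?_⟩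
        push_cast
        field_simp
        ring
    obtain ⟨k', hk'⟩ : ∃ k : ℤ, (a' : ℝ) / r = (sb r a' : ℝ) / r + k := by
      unfold sb
      split_ifs with h
      · exact ⟨0, by push_cast; ring⟩
      · refine ⟨1, ?_⟩
        push_cast
        field_simp
        ring
    obtain ⟨b, hbd⟩ : ∃ b, b = sb q a := ⟨_, rfl⟩
    obtain ⟨b', hbd'⟩ : ∃ b, b = sb r a' := ⟨_, rfl⟩
    rw [← hbd] at h1 hb hk ⊢
    rw [← hbd'] at h2 hb' hk' ⊢
    have h3 : nd ((a : ℝ) / q + (a' : ℝ) / r) = nd ((b : ℝ) / q + (b' : ℝ) / r) := by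
      rw [hk, hk', show (b : ℝ) / q + k + ((b' : ℝ) / r + k') = (b : ℝ) / q + (b' : ℝ) / r + ((k + k' : ℤ) : ℝ) by
        push_cast; ring, nd_add_int]
    have hu : (2 : ℝ) * |(b : ℝ)| < q := by exact_mod_cast hb
    have hv : (2 : ℝ) * |(b' : ℝ)| < r := by exact_mod_cast hb'
    have hz : 0 < 1 - |(b : ℝ)| / q - |(b' : ℝ)| / r := by
      have h4 : |(b : ℝ)| / q < 1 / 2 := by rw [div_lt_iff₀ hq0]; linarith
      have h5 : |(b' : ℝ)| / r < 1 / 2 := by rw [div_lt_iff₀ hr0]; linarith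
      linarith
    have h4 := nd_inv ((b : ℝ) / q + (b' : ℝ) / r) _ hz (by
      have h5 := abs_add_le ((b : ℝ) / q) ((b' : ℝ) / r)
      rw [abs_div, abs_div, abs_of_pos hq0, abs_of_pos hr0] at h5
      linarith)
    have h5 : |(b : ℝ) / q + (b' : ℝ) / r|⁻¹ ≤ 4 * (R : ℝ) ^ 2 * gi (b * r + b' * q) := by
      have h6 : (b : ℝ) / q + (b' : ℝ) / r = ((b * r + b' * q : ℤ) : ℝ) / (q * r) := by
        push_cast
        field_simp
      rw [h6, abs_div, inv_div, abs_of_pos (by positivity : (0 : ℝ) < q * r)]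
      unfold gi
      rw [div_eq_mul_inv]
      refine mul_le_mul_of_nonneg_right ?_ (inv_nonneg.2 (abs_nonneg _))
      nlinarith
    rw [h3, div_eq_mul_one_div, hF]
    simp only
    rw [if_pos ⟨hb, hb'⟩]
    refine mul_le_mul (mul_le_mul h1 h2 (norm_nonneg _) (gi_nonneg _)) (h4.trans (by linarith)) ?_
      (mul_nonneg (gi_nonneg _) (gi_nonneg _))
    unfold nd
    positivity
  have hsum : w1 H q r ≤ ∑ b ∈ Icc (-(R : ℤ)) R, ∑ b' ∈ Icc (-(R : ℤ)) R, F b b' := by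
    unfold w1
    refine (sum_le_sum fun a ha => sum_le_sum fun a' ha' => hterm a ha a' ha').trans ?_
    have h1 : ∀ a ∈ Ico 1 q, ∑ a' ∈ Ico 1 r, F (sb q a) (sb r a') ≤ ∑ b' ∈ Icc (-(R : ℤ)) R, F (sb q a) b' := by
      intro a _
      refine (sb_sum R r hro hr2 (fun b' => F (sb q a) b') fun b' => hF0 _ _).trans (sum_le_sum fun b' _ => ?_)
      split_ifs
      · exact le_rfl
      · exact hF0 _ _
    refine (sum_le_sum h1).trans ?_
    refine (sb_sum R q hqo hq2 (fun b => ∑ b' ∈ Icc (-(R : ℤ)) R, F b b') fun b => sum_nonneg fun b' _ => hF0 _ _).trans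
      (sum_le_sum fun b _ => ?_)
    split_ifs
    · exact le_rfl
    · exact sum_nonneg fun b' _ => hF0 _ _
  refine hsum.trans ?_
  have hsplit : ∑ b ∈ Icc (-(R : ℤ)) R, ∑ b' ∈ Icc (-(R : ℤ)) R, F b b' =
      4 * (R : ℝ) ^ 2 * (∑ b ∈ Icc (-(R : ℤ)) R, ∑ b' ∈ Icc (-(R : ℤ)) R, gi b * gi b' * gi (b * r + b' * q)) +
      ∑ b ∈ Icc (-(R : ℤ)) R, ∑ b' ∈ Icc (-(R : ℤ)) R, (if 2 * |b| < (q : ℤ) ∧ 2 * |b'| < (r : ℤ) then
        gi b * gi b' * (1 - |(b : ℝ)| / q - |(b' : ℝ)| / r)⁻¹ else 0) := by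
    rw [mul_sum, ← sum_add_distrib]
    refine sum_congr rfl fun b _ => ?_
    rw [mul_sum, ← sum_add_distrib]
    refine sum_congr rfl fun b' _ => ?_
    rw [hF]
    simp only
    split_ifs <;> ring
  rw [hsplit]
  have hw := wrap R q r hR hq hr hr2
  linarith

theorem wgt : ∃ C : ℝ, 0 < C ∧ ∀ (H R : ℕ) (Z : ℕ → ℕ → ℝ) (B : ℝ), 2 ≤ R → (∀ q r, 0 ≤ Z q r) →
    (∀ b b' c : ℤ, b ≠ 0 → b' ≠ 0 → |b| ≤ (R : ℤ) → |b'| ≤ (R : ℤ) → ∑ p ∈ PP R b b' c, Z p.1 p.2 ≤ B) →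
    ∑ q ∈ QQ R, ∑ r ∈ QQ R, (if q < r then w1 H q r * Z q r else 0) ≤ C * (1 + Real.log R) ^ 3 * (R : ℝ) ^ 2 * B := by
  refine ⟨1000, by norm_num, fun H R Z B hR hZ hB => ?_⟩
  have hR1 : 1 ≤ R := by omega
  have hRr : (2 : ℝ) ≤ R := by exact_mod_cast hR
  have hlog : 0 ≤ Real.log R := Real.log_natCast_nonneg R
  have hPP : ∀ b b' c : ℤ, ∑ p ∈ PP R b b' c, Z p.1 p.2 =
      ∑ q ∈ QQ R, ∑ r ∈ QQ R, (if q < r ∧ b * r + b' * q = c then Z q r else 0) := by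
    intro b b' c
    unfold PP
    rw [sum_filter, sum_product]
  have hB0 : 0 ≤ B := by
    refine le_trans ?_ (hB 1 1 1 one_ne_zero one_ne_zero (by rw [abs_one]; omega) (by rw [abs_one]; omega))
    exact sum_nonneg fun p _ => hZ _ _
  have hmem : ∀ q ∈ QQ R, R < q ∧ q ≤ 2 * R ∧ q % 2 = 1 := by
    intro q hq
    unfold QQ at hq
    rw [mem_filter, mem_Ioc] at hq
    refine ⟨hq.1.1, hq.1.2, ?_⟩
    rcases hq.2.eq_two_or_odd with h | h
    · omega
    · exact h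
  -- all pairs
  have hall : ∑ q ∈ QQ R, ∑ r ∈ QQ R, (if q < r then Z q r else 0) ≤ R * B := by
    have h1 : ∀ q ∈ QQ R, ∀ r ∈ QQ R, (if q < r then Z q r else 0) =
        ∑ d ∈ Icc 1 R, (if q < r ∧ (1 : ℤ) * r + (-1) * q = ((d : ℕ) : ℤ) then Z q r else 0) := by
      intro q hq r hr
      have h2 := hmem q hq
      have h3 := hmem r hr
      by_cases hlt : q < r
      · rw [if_pos hlt, sum_eq_single_of_mem (r - q) (by rw [mem_Icc]; omega)]
        · rw [if_pos ⟨hlt, by omega⟩]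
        · intro d _ hd
          rw [if_neg]
          rintro ⟨_, h4⟩
          omega
      · rw [if_neg hlt]
        refine (sum_eq_zero fun d _ => ?_).symm
        rw [if_neg (fun h => hlt h.1)]
    rw [sum_congr rfl fun q hq => sum_congr rfl fun r hr => h1 q hq r hr]
    rw [sum_congr rfl fun q _ => sum_comm, sum_comm]
    have h4 : ∀ d ∈ Icc 1 R, ∑ q ∈ QQ R, ∑ r ∈ QQ R,
        (if q < r ∧ (1 : ℤ) * r + (-1) * q = ((d : ℕ) : ℤ) then Z q r else 0) ≤ B := by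
      intro d _
      rw [← hPP 1 (-1) d]
      exact hB 1 (-1) d one_ne_zero (by norm_num) (by rw [abs_one]; omega) (by rw [abs_neg, abs_one]; omega)
    refine (sum_le_sum h4).trans (le_of_eq ?_)
    rw [sum_const, Nat.card_Icc, nsmul_eq_mul]
    congr 2
  have hres := resum R hR1 (QQ R) (fun q hq => (hmem q hq).2.1) Z (fun q _ r _ => hZ q r) B (by
    intro b b' c h0 h0' _ hb hb' _
    rw [← hPP b b' c]
    exact hB b b' c h0 h0' hb hb')
  have hmain : ∑ q ∈ QQ R, ∑ r ∈ QQ R, (if q < r then w1 H q r * Z q r else 0) ≤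
      4 * (R : ℝ) ^ 2 * (∑ q ∈ QQ R, ∑ r ∈ QQ R, (if q < r then
        Z q r * ∑ b ∈ Icc (-(R : ℤ)) R, ∑ b' ∈ Icc (-(R : ℤ)) R, gi b * gi b' * gi (b * r + b' * q) else 0)) +
      (16 * (1 + Real.log R) ^ 2 + 192 * (1 + Real.log (2 * R))) * ∑ q ∈ QQ R, ∑ r ∈ QQ R, (if q < r then Z q r else 0) := by
    rw [mul_sum, mul_sum, ← sum_add_distrib]
    refine sum_le_sum fun q hq => ?_
    rw [mul_sum, mul_sum, ← sum_add_distrib]
    refine sum_le_sum fun r hr => ?_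
    obtain ⟨q1, q2, q3⟩ := hmem q hq
    obtain ⟨r1, r2, r3⟩ := hmem r hr
    split_ifs
    · have h5 := mul_le_mul_of_nonneg_right (w1_le H R q r hR1 q1 q2 r1 r2 q3 r3) (hZ q r)
      linarith
    · simp
  refine hmain.trans ?_
  have hl2 : Real.log (2 * R) ≤ 1 + Real.log R := by
    rw [Real.log_mul (by norm_num) (by positivity)]
    have := Real.log_two_lt_d9
    linarith
  have hl4 : Real.log (4 * (R : ℝ) ^ 2) ≤ 2 + 2 * Real.log R := by
    rw [Real.log_mul (by norm_num) (by positivity), Real.log_pow,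
      show (4 : ℝ) = 2 ^ 2 by norm_num, Real.log_pow]
    have := Real.log_two_lt_d9
    push_cast
    linarith
  obtain ⟨L, hL⟩ : ∃ L : ℝ, L = 1 + Real.log R := ⟨_, rfl⟩
  have hL1 : 1 ≤ L := by linarith
  have hl4' : 0 ≤ Real.log (4 * (R : ℝ) ^ 2) := Real.log_nonneg (by nlinarith)
  have hl2' : 0 ≤ Real.log (2 * (R : ℝ)) := Real.log_nonneg (by nlinarith)
  have e1 : 4 * (R : ℝ) ^ 2 * (∑ q ∈ QQ R, ∑ r ∈ QQ R, (if q < r then
        Z q r * ∑ b ∈ Icc (-(R : ℤ)) R, ∑ b' ∈ Icc (-(R : ℤ)) R, gi b * gi b' * gi (b * r + b' * q) else 0)) ≤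
      96 * L ^ 3 * (R : ℝ) ^ 2 * B := by
    have h6 : B * (2 * (1 + Real.log R)) ^ 2 * (2 * (1 + Real.log (4 * R ^ 2))) ≤ B * (2 * L) ^ 2 * (2 * (3 * L)) := by
      rw [← hL]
      refine mul_le_mul_of_nonneg_left ?_ (by positivity)
      linarith
    calc _ ≤ 4 * (R : ℝ) ^ 2 * (B * (2 * L) ^ 2 * (2 * (3 * L))) :=
          mul_le_mul_of_nonneg_left (hres.trans h6) (by positivity)
      _ = 96 * L ^ 3 * (R : ℝ) ^ 2 * B := by ring
  have e2 : (16 * (1 + Real.log R) ^ 2 + 192 * (1 + Real.log (2 * R))) * ∑ q ∈ QQ R, ∑ r ∈ QQ R, (if q < r then Z q r else 0) ≤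
      400 * L ^ 3 * (R : ℝ) ^ 2 * B := by
    have h7 : 16 * (1 + Real.log R) ^ 2 + 192 * (1 + Real.log (2 * R)) ≤ 400 * L ^ 3 := by
      rw [← hL]
      have h8 : L ≤ L ^ 3 := by nlinarith [mul_nonneg (sub_nonneg.2 hL1) (sub_nonneg.2 hL1)]
      have h9 : L ^ 2 ≤ L ^ 3 := by nlinarith [mul_nonneg (sq_nonneg L) (sub_nonneg.2 hL1)]
      linarith
    calc _ ≤ (400 * L ^ 3) * (R * B) := by
          refine mul_le_mul h7 hall ?_ (by positivity)
          exact sum_nonneg fun q _ => sum_nonneg fun r _ => by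
            split_ifs
            · exact hZ q r
            · exact le_rfl
      _ ≤ (400 * L ^ 3) * (R ^ 2 * B) := by
          refine mul_le_mul_of_nonneg_left ?_ (by positivity)
          refine mul_le_mul_of_nonneg_right ?_ hB0
          nlinarith
      _ = 400 * L ^ 3 * (R : ℝ) ^ 2 * B := by ring
  have h10 : 0 ≤ L ^ 3 * (R : ℝ) ^ 2 * B := by positivity
  have h11 : 1000 * (1 + Real.log R) ^ 3 * (R : ℝ) ^ 2 * B = 1000 * (L ^ 3 * (R : ℝ) ^ 2 * B) := by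
    rw [hL]; ring
  rw [h11]
  refine (add_le_add e1 e2).trans ?_
  nlinarith

end Pool.Agent.H24.EL
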