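import Pool.Agent.H24.EL.Psi
import Pool.Agent.H24.EL.Cv3
import Pool.Agent.H24.EL.Wgt

/-!
# [H24 EL PT3] the second order term, every `H ≤ X^(2/3)`

PROOF. `cv3` for every pair, `wgt` with `Z` the bracket (`(q-1)(r-1) ≥ R²`). For one `(b, b', c)`, `b, b' ≠ 0`: at most `R` pairs, each `q` and each `r` at most once, so
`B = R X Lg/R² + 2 √(2R) (∑ SCv)/R² + 2R Ψ/R² + 4R³ + 6 R H Lg` (`psi`, `scv`), `R² B (log)³ ≤ X^(1+3ρ/2-η)`: `ρ < 3ρ/2`, `ρ/2 + 1 + ρ/2`, `ρ + 1 + ρ/2 - η`, `5ρ`, `3ρ + 2/3`.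
-/

set_option autoImplicit false

namespace Pool.Agent.H24.EL

open Finset Pool.Agent.H67.VS Pool.Agent.H99.GB

private theorem SCv_nonneg (v : ℕ → ℝ) (X q : ℕ) : 0 ≤ SCv v X q := by
  unfold SCv
  exact sum_nonneg fun _ _ => norm_nonneg _

private theorem SDv_nonneg (v : ℕ → ℝ) (X q r : ℕ) : 0 ≤ SDv v X q r := by
  unfold SDv
  exact sum_nonneg fun _ _ => sum_nonneg fun _ _ => norm_nonneg _

private theorem w1_nonneg (H q r : ℕ) : 0 ≤ w1 H q r := by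
  unfold w1 nd
  exact sum_nonneg fun _ _ => sum_nonneg fun _ _ =>
    div_nonneg (mul_nonneg (norm_nonneg _) (norm_nonneg _)) (abs_nonneg _)

private theorem sum_fst (R : ℕ) {b : ℤ} (b' c : ℤ) (hb : b ≠ 0) (f : ℕ → ℝ) (hf : ∀ q, 0 ≤ f q) :
    ∑ p ∈ PP R b b' c, f p.1 ≤ ∑ q ∈ QQ R, f q := by
  classical
  have hinj : Set.InjOn (fun p : ℕ × ℕ => p.1) (PP R b b' c : Set (ℕ × ℕ)) := by
    intro p hp p' hp' h
    simp only [PP, coe_filter, Set.mem_ofPred_eq] at hp hp'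
    have h1 : p.1 = p'.1 := h
    have h2 : b * (p.2 : ℤ) = b * (p'.2 : ℤ) := by
      have e1 := hp.2.2
      have e2 := hp'.2.2
      rw [h1] at e1
      linarith
    have h3 : (p.2 : ℤ) = p'.2 := mul_left_cancel₀ hb h2
    exact Prod.ext h1 (by exact_mod_cast h3)
  rw [← sum_image (f := f) (g := fun p : ℕ × ℕ => p.1) hinj]
  apply sum_le_sum_of_subset_of_nonneg
  · intro q hq
    obtain ⟨p, hp, rfl⟩ := mem_image.1 hq
    simp only [PP, mem_filter, mem_product] at hp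
    exact hp.1.1
  · intro q _ _
    exact hf q

private theorem sum_snd (R : ℕ) (b : ℤ) {b' : ℤ} (c : ℤ) (hb : b' ≠ 0) (f : ℕ → ℝ) (hf : ∀ q, 0 ≤ f q) :
    ∑ p ∈ PP R b b' c, f p.2 ≤ ∑ q ∈ QQ R, f q := by
  classical
  have hinj : Set.InjOn (fun p : ℕ × ℕ => p.2) (PP R b b' c : Set (ℕ × ℕ)) := by
    intro p hp p' hp' h
    simp only [PP, coe_filter, Set.mem_ofPred_eq] at hp hp'
    have h1 : p.2 = p'.2 := h
    have h2 : b' * (p.1 : ℤ) = b' * (p'.1 : ℤ) := by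
      have e1 := hp.2.2
      have e2 := hp'.2.2
      rw [h1] at e1
      linarith
    have h3 : (p.1 : ℤ) = p'.1 := mul_left_cancel₀ hb h2
    exact Prod.ext (by exact_mod_cast h3) h1
  rw [← sum_image (f := f) (g := fun p : ℕ × ℕ => p.2) hinj]
  apply sum_le_sum_of_subset_of_nonneg
  · intro q hq
    obtain ⟨p, hp, rfl⟩ := mem_image.1 hq
    simp only [PP, mem_filter, mem_product] at hp
    exact hp.1.2
  · intro q _ _
    exact hf q

private theorem card_QQ (R : ℕ) : ((QQ R).card : ℝ) ≤ R := by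
  have h : (QQ R).card ≤ R := by
    unfold QQ
    refine (card_filter_le _ _).trans ?_
    rw [Nat.card_Ioc]
    omega
  exact_mod_cast h

private theorem card_PP (R : ℕ) {b : ℤ} (b' c : ℤ) (hb : b ≠ 0) : ((PP R b b' c).card : ℝ) ≤ R := by
  have h := sum_fst R b' c hb (fun _ => 1) (fun _ => zero_le_one)
  simp only [sum_const, nsmul_eq_mul, mul_one] at h
  exact h.trans (card_QQ R)

private theorem log_pow (η K : ℝ) (hη : 0 < η) : ∃ X0 : ℕ, ∀ X : ℕ, X0 ≤ X →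
    K * (1 + Real.log (3 * X)) ^ 4 ≤ (X : ℝ) ^ η := by
  set δ : ℝ := min (η / 8) 1 with hδ
  have hδ0 : 0 < δ := lt_min (by positivity) one_pos
  have hδ1 : δ ≤ 1 := min_le_right _ _
  have hδη : 4 * δ ≤ η / 2 := by
    have : δ ≤ η / 8 := min_le_left _ _
    linarith
  set c : ℝ := |K| * (1 + 3 / δ) ^ 4 + 1 with hc
  have hc0 : 0 < c := by positivity
  refine ⟨⌈c ^ (2 / η)⌉₊ + 1, ?_⟩
  intro X hX
  have hX1 : (1 : ℝ) ≤ X := by
    have : 1 ≤ X := by omega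
    exact_mod_cast this
  have hX0 : (0 : ℝ) < X := by linarith
  have hXc : c ^ (2 / η) ≤ X := by
    calc c ^ (2 / η) ≤ (⌈c ^ (2 / η)⌉₊ : ℝ) := Nat.le_ceil _
      _ ≤ X := by exact_mod_cast (by omega : ⌈c ^ (2 / η)⌉₊ ≤ X)
  have h1 : 1 + Real.log (3 * X) ≤ (1 + 3 / δ) * (X : ℝ) ^ δ := by
    have h2 := Real.log_le_rpow_div (by positivity : (0 : ℝ) ≤ 3 * X) hδ0
    have h3 : (3 * (X : ℝ)) ^ δ ≤ 3 * (X : ℝ) ^ δ := by
      rw [Real.mul_rpow (by norm_num) hX0.le]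
      have : (3 : ℝ) ^ δ ≤ 3 := by
        calc (3 : ℝ) ^ δ ≤ (3 : ℝ) ^ (1 : ℝ) := Real.rpow_le_rpow_of_exponent_le (by norm_num) hδ1
          _ = 3 := Real.rpow_one 3
      gcongr
    have h4 : (1 : ℝ) ≤ (X : ℝ) ^ δ := Real.one_le_rpow hX1 hδ0.le
    calc 1 + Real.log (3 * X) ≤ (X : ℝ) ^ δ + 3 * (X : ℝ) ^ δ / δ := by
          refine add_le_add h4 (h2.trans ?_)
          gcongr
      _ = _ := by ring
  have h0 : 0 ≤ 1 + Real.log (3 * X) := by
    have : 0 ≤ Real.log (3 * X) := Real.log_nonneg (by linarith)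
    linarith
  have h5 : K * (1 + Real.log (3 * X)) ^ 4 ≤ c * (X : ℝ) ^ (4 * δ) := by
    calc K * (1 + Real.log (3 * X)) ^ 4 ≤ |K| * ((1 + 3 / δ) * (X : ℝ) ^ δ) ^ 4 := by
          gcongr
          exact le_abs_self K
      _ = |K| * (1 + 3 / δ) ^ 4 * ((X : ℝ) ^ δ) ^ 4 := by ring
      _ = |K| * (1 + 3 / δ) ^ 4 * (X : ℝ) ^ (4 * δ) := by
          rw [← Real.rpow_natCast ((X : ℝ) ^ δ) 4, ← Real.rpow_mul hX0.le]
          congr 2
          push_cast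
          ring
      _ ≤ _ := by
          rw [hc]
          have : 0 ≤ (X : ℝ) ^ (4 * δ) := by positivity
          linarith
  have h6 : c ≤ (X : ℝ) ^ (η / 2) := by
    calc c = (c ^ (2 / η)) ^ (η / 2) := by
          rw [← Real.rpow_mul hc0.le]
          have : 2 / η * (η / 2) = 1 := by field_simp
          rw [this, Real.rpow_one]
      _ ≤ _ := by gcongr
  calc K * (1 + Real.log (3 * X)) ^ 4 ≤ c * (X : ℝ) ^ (4 * δ) := h5
    _ ≤ (X : ℝ) ^ (η / 2) * (X : ℝ) ^ (η / 2) := by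
        gcongr
    _ = (X : ℝ) ^ η := by
        rw [← Real.rpow_add hX0]
        congr 1
        ring

theorem pt3 (ρ : ℝ) (h0 : 0 < ρ) (h1 : ρ < 1 / 6) : ∃ (η : ℝ) (X0 : ℕ), 0 < η ∧ ∀ (X H : ℕ) (v : ℕ → ℝ), X0 ≤ X → Wv v →
    1 ≤ H → (H : ℝ) ≤ (X : ℝ) ^ (2 / 3 : ℝ) → P2v v X H ⌊(X : ℝ) ^ ρ⌋₊ ≤ (X : ℝ) ^ (1 + 3 * ρ / 2 - η) := by
  obtain ⟨η1, X1, hη1, hpsi⟩ := psi ρ h0 h1
  obtain ⟨η2, X2, hη2, hscv⟩ := scv ρ h0 h1
  obtain ⟨C, hC0, hwgt⟩ := wgt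
  set η0 : ℝ := min (min η1 (ρ / 2)) (1 / 12) with hη0
  have hη0p : 0 < η0 := lt_min (lt_min hη1 (by positivity)) (by norm_num)
  have e1 : η0 ≤ η1 := (min_le_left _ _).trans (min_le_left _ _)
  have e2 : η0 ≤ ρ / 2 := (min_le_left _ _).trans (min_le_right _ _)
  have e3 : η0 ≤ 1 / 12 := min_le_right _ _
  obtain ⟨X3, hX3⟩ := log_pow (η0 / 2) (C * 17) (by positivity)
  set X4 : ℕ := ⌈(2 : ℝ) ^ (1 / ρ)⌉₊ with hX4
  refine ⟨η0 / 2, max (max X1 X2) (max X3 (max X4 2)), by positivity, ?_⟩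
  intro X H v hX hv hH hHX
  have k1 : X1 ≤ X := ((le_max_left _ _).trans (le_max_left _ _)).trans hX
  have k2 : X2 ≤ X := ((le_max_right _ _).trans (le_max_left _ _)).trans hX
  have k3 : X3 ≤ X := ((le_max_left _ _).trans (le_max_right _ _)).trans hX
  have k4 : X4 ≤ X := ((le_max_left _ _).trans ((le_max_right _ _).trans (le_max_right _ _))).trans hX
  have k5 : 2 ≤ X := ((le_max_right _ _).trans ((le_max_right _ _).trans (le_max_right _ _))).trans hX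
  have hXr : (2 : ℝ) ≤ X := by exact_mod_cast k5
  have hX1 : (1 : ℝ) ≤ X := by linarith
  have hXp : (0 : ℝ) < X := by linarith
  set Y : ℝ := (X : ℝ) ^ ρ with hY
  set R : ℕ := ⌊Y⌋₊ with hR
  have hY2 : 2 ≤ Y := by
    have h2 : (2 : ℝ) ^ (1 / ρ) ≤ X := by
      calc (2 : ℝ) ^ (1 / ρ) ≤ (X4 : ℝ) := Nat.le_ceil _
        _ ≤ X := by exact_mod_cast k4
    calc (2 : ℝ) = ((2 : ℝ) ^ (1 / ρ)) ^ ρ := by
          rw [← Real.rpow_mul (by norm_num)]
          have : 1 / ρ * ρ = 1 := by field_simp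
          rw [this, Real.rpow_one]
      _ ≤ _ := by rw [hY]; gcongr
  have hR2 : 2 ≤ R := Nat.le_floor (by exact_mod_cast hY2)
  have hRY : (R : ℝ) ≤ Y := Nat.floor_le (by linarith)
  have hRp : (0 : ℝ) < R := by
    have : 0 < R := by omega
    exact_mod_cast this
  have hR1 : (1 : ℝ) ≤ R := by
    have : 1 ≤ R := by omega
    exact_mod_cast this
  have hYX6 : Y ≤ (X : ℝ) ^ (1 / 6 : ℝ) := by
    rw [hY]
    exact Real.rpow_le_rpow_of_exponent_le hX1 h1.le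
  have h2RX : 2 * R ≤ X := by
    have h2 : (2 : ℝ) * R ≤ X := by
      calc (2 : ℝ) * R ≤ Y * Y := by
            have := hRY
            nlinarith
        _ ≤ (X : ℝ) ^ (1 / 6 : ℝ) * (X : ℝ) ^ (1 / 6 : ℝ) := by
            have : 0 ≤ Y := by linarith
            gcongr
        _ = (X : ℝ) ^ (1 / 3 : ℝ) := by rw [← Real.rpow_add hXp]; norm_num
        _ ≤ (X : ℝ) ^ (1 : ℝ) := Real.rpow_le_rpow_of_exponent_le hX1 (by norm_num)
        _ = X := Real.rpow_one _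
    exact_mod_cast h2
  have hHX' : H ≤ X := by
    have h2 : (H : ℝ) ≤ X := by
      calc (H : ℝ) ≤ (X : ℝ) ^ (2 / 3 : ℝ) := hHX
        _ ≤ (X : ℝ) ^ (1 : ℝ) := Real.rpow_le_rpow_of_exponent_le hX1 (by norm_num)
        _ = X := Real.rpow_one _
    exact_mod_cast h2
  set Lg : ℝ := 1 + Real.log (3 * X) with hLg
  have hLg1 : 1 ≤ Lg := by
    have : 0 ≤ Real.log (3 * X) := Real.log_nonneg (by linarith)
    linarith
  set Z : ℕ → ℕ → ℝ := fun q r =>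
    (X * Lg + √(2 * R) * (SCv v X q + SCv v X r) + 2 * R * SDv v X q r) / R ^ 2 + 4 * R ^ 2 + 6 * H * Lg
    with hZ
  have hZ0 : ∀ q r, 0 ≤ Z q r := by
    intro q r
    have a1 := SCv_nonneg v X q
    have a2 := SCv_nonneg v X r
    have a3 := SDv_nonneg v X q r
    have a4 : 0 ≤ Lg := by linarith
    simp only [hZ]
    positivity
  -- each pair
  have hpair : ∀ q ∈ QQ R, ∀ r ∈ QQ R, q < r →
      |∑ x ∈ Ioc X (2 * X), ph H q x * ph H r x * EV v x H| ≤ w1 H q r * Z q r := by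
    intro q hq r hr hqr
    simp only [QQ, mem_filter, mem_Ioc] at hq hr
    have b1 := cv3 v hv X H q r hq.2 hr.2 hqr.ne (by omega) (by omega) hH hHX'
    refine b1.trans ?_
    apply mul_le_mul_of_nonneg_left _ (w1_nonneg H q r)
    have q1 : (R : ℝ) ≤ (q : ℝ) - 1 := by
      have : (R : ℝ) + 1 ≤ q := by exact_mod_cast hq.1.1
      linarith
    have r1 : (R : ℝ) ≤ (r : ℝ) - 1 := by
      have : (R : ℝ) + 1 ≤ r := by exact_mod_cast hr.1.1
      linarith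
    have q2 : (q : ℝ) ≤ 2 * R := by exact_mod_cast hq.1.2
    have r2 : (r : ℝ) ≤ 2 * R := by exact_mod_cast hr.1.2
    have a1 := SCv_nonneg v X q
    have a2 := SCv_nonneg v X r
    have a3 := SDv_nonneg v X q r
    have sq : √(q : ℝ) ≤ √(2 * R) := Real.sqrt_le_sqrt q2
    have sr : √(r : ℝ) ≤ √(2 * R) := Real.sqrt_le_sqrt r2
    have ss : √(q : ℝ) * √(r : ℝ) ≤ 2 * R := by
      calc √(q : ℝ) * √(r : ℝ) ≤ √(2 * R) * √(2 * R) := by gcongr
        _ = 2 * R := Real.mul_self_sqrt (by positivity)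
    have den : (R : ℝ) ^ 2 ≤ ((q : ℝ) - 1) * ((r : ℝ) - 1) := by
      calc (R : ℝ) ^ 2 = R * R := by ring
        _ ≤ _ := mul_le_mul q1 r1 hRp.le (by linarith)
    have num : X * (1 + Real.log (3 * X)) + √(q : ℝ) * SCv v X q + √(r : ℝ) * SCv v X r + √(q : ℝ) * √(r : ℝ) * SDv v X q r ≤
        X * Lg + √(2 * R) * (SCv v X q + SCv v X r) + 2 * R * SDv v X q r := by
      have c1 : √(q : ℝ) * SCv v X q ≤ √(2 * R) * SCv v X q := by gcongr
      have c2 : √(r : ℝ) * SCv v X r ≤ √(2 * R) * SCv v X r := by gcongr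
      have c3 : √(q : ℝ) * √(r : ℝ) * SDv v X q r ≤ 2 * R * SDv v X q r := by gcongr
      rw [← hLg]
      linarith
    have num0 : 0 ≤ X * Lg + √(2 * R) * (SCv v X q + SCv v X r) + 2 * R * SDv v X q r := by
      have a4 : 0 ≤ Lg := by linarith
      positivity
    have f1 : (X * (1 + Real.log (3 * X)) + √(q : ℝ) * SCv v X q + √(r : ℝ) * SCv v X r + √(q : ℝ) * √(r : ℝ) * SDv v X q r) /
        (((q : ℝ) - 1) * ((r : ℝ) - 1)) ≤
        (X * Lg + √(2 * R) * (SCv v X q + SCv v X r) + 2 * R * SDv v X q r) / R ^ 2 := by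
      calc _ ≤ (X * Lg + √(2 * R) * (SCv v X q + SCv v X r) + 2 * R * SDv v X q r) /
            (((q : ℝ) - 1) * ((r : ℝ) - 1)) := by
            apply div_le_div_of_nonneg_right num
            exact (by positivity : (0 : ℝ) ≤ (R : ℝ) ^ 2).trans den
        _ ≤ _ := by
            apply div_le_div_of_nonneg_left num0 (by positivity) den
    have f2 : (q : ℝ) * r ≤ 4 * R ^ 2 := by
      calc (q : ℝ) * r ≤ 2 * R * (2 * R) := by gcongr
        _ = _ := by ring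
    simp only [hZ]
    rw [← hLg] at f1 ⊢
    linarith
  have hP2 : P2v v X H R ≤ ∑ q ∈ QQ R, ∑ r ∈ QQ R, (if q < r then w1 H q r * Z q r else 0) := by
    unfold P2v
    apply sum_le_sum
    intro q hq
    apply sum_le_sum
    intro r hr
    split_ifs with h
    · exact hpair q hq r hr h
    · exact le_rfl
  -- the sums over `PP`
  set Ψ : ℝ := (X : ℝ) ^ (1 + ρ / 2 - η1) with hΨ
  set S1 : ℝ := (X : ℝ) ^ (1 + ρ / 2 - η2) with hS1
  set B : ℝ := R * (X * Lg / R ^ 2 + 4 * R ^ 2 + 6 * H * Lg) + √(2 * R) / R ^ 2 * (2 * S1) + 2 * R / R ^ 2 * Ψ with hB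
  have hsum : ∀ b b' c : ℤ, b ≠ 0 → b' ≠ 0 → |b| ≤ (R : ℤ) → |b'| ≤ (R : ℤ) →
      ∑ p ∈ PP R b b' c, Z p.1 p.2 ≤ B := by
    intro b b' c hb hb' hbR hb'R
    have g1 := hpsi X v k1 hv b b' c hb hb' hbR hb'R
    have g2 := hscv X v k2 hv
    have g3 := sum_fst R b' c hb (fun q => SCv v X q) (fun q => SCv_nonneg v X q)
    have g4 := sum_snd R b c hb' (fun q => SCv v X q) (fun q => SCv_nonneg v X q)
    have g5 := card_PP R b' c hb
    have e : ∑ p ∈ PP R b b' c, Z p.1 p.2 = (PP R b b' c).card * (X * Lg / R ^ 2 + 4 * R ^ 2 + 6 * H * Lg) +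
        √(2 * R) / R ^ 2 * (∑ p ∈ PP R b b' c, SCv v X p.1 + ∑ p ∈ PP R b b' c, SCv v X p.2) +
        2 * R / R ^ 2 * ∑ p ∈ PP R b b' c, SDv v X p.1 p.2 := by
      rw [← nsmul_eq_mul, ← sum_const, ← sum_add_distrib, mul_sum, mul_sum, ← sum_add_distrib, ← sum_add_distrib]
      apply sum_congr rfl
      intro p _
      simp only [hZ]
      ring
    rw [e, hB]
    have a4 : 0 ≤ Lg := by linarith
    have g6 : ∑ p ∈ PP R b b' c, SCv v X p.1 + ∑ p ∈ PP R b b' c, SCv v X p.2 ≤ 2 * S1 := by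
      have g3' : ∑ p ∈ PP R b b' c, SCv v X p.1 ≤ S1 := g3.trans g2
      have g4' : ∑ p ∈ PP R b b' c, SCv v X p.2 ≤ S1 := g4.trans g2
      linarith
    have g7 : ∑ p ∈ PP R b b' c, SDv v X p.1 p.2 ≤ Ψ := g1
    gcongr
  have hmain := (hP2.trans (hwgt H R Z B hR2 hZ0 hsum))
  -- numbers
  have hlogR : 1 + Real.log R ≤ Lg := by
    rw [hLg]
    have h2 : Real.log R ≤ Real.log (3 * X) := by
      apply Real.log_le_log hRp
      have : (2 * R : ℝ) ≤ X := by exact_mod_cast h2RX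
      linarith
    linarith
  have hlogR0 : 0 ≤ 1 + Real.log R := by
    have : 0 ≤ Real.log R := Real.log_nonneg hR1
    linarith
  set W : ℝ := (X : ℝ) ^ (1 + 3 * ρ / 2 - η0) with hW
  have pw : ∀ e : ℝ, e ≤ 1 + 3 * ρ / 2 - η0 → (X : ℝ) ^ e ≤ W := by
    intro e he
    exact Real.rpow_le_rpow_of_exponent_le hX1 he
  have hY0 : 0 ≤ Y := by linarith
  have m1 : (R : ℝ) * X ≤ W := by
    calc (R : ℝ) * X ≤ Y * X := by gcongr
      _ = (X : ℝ) ^ (ρ + 1) := by rw [hY, Real.rpow_add hXp, Real.rpow_one]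
      _ ≤ W := pw _ (by linarith)
  have m2 : (R : ℝ) ^ 5 ≤ W := by
    calc (R : ℝ) ^ 5 ≤ Y ^ 5 := by gcongr
      _ = (X : ℝ) ^ (ρ * 5) := by
          rw [hY, ← Real.rpow_natCast, ← Real.rpow_mul hXp.le]
          norm_num
      _ ≤ W := pw _ (by linarith)
  have m3 : (R : ℝ) ^ 3 * H ≤ W := by
    calc (R : ℝ) ^ 3 * H ≤ Y ^ 3 * (X : ℝ) ^ (2 / 3 : ℝ) := by gcongr
      _ = (X : ℝ) ^ (ρ * 3 + 2 / 3) := by
          rw [hY, ← Real.rpow_natCast, ← Real.rpow_mul hXp.le, Real.rpow_add hXp]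
          norm_num
      _ ≤ W := pw _ (by linarith)
  have m4 : √(2 * R) * S1 ≤ 2 * W := by
    have s1 : √(2 * R) ≤ 2 * (X : ℝ) ^ (ρ / 2) := by
      calc √(2 * R) ≤ √(4 * Y) := Real.sqrt_le_sqrt (by linarith)
        _ = 2 * √Y := by
            rw [Real.sqrt_mul (by norm_num)]
            have : √(4 : ℝ) = 2 := by
              rw [show (4 : ℝ) = 2 ^ 2 by norm_num]
              exact Real.sqrt_sq (by norm_num)
            rw [this]
        _ = 2 * (X : ℝ) ^ (ρ / 2) := by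
            rw [Real.sqrt_eq_rpow, hY, ← Real.rpow_mul hXp.le]
            congr 2
            ring
    calc √(2 * R) * S1 ≤ 2 * (X : ℝ) ^ (ρ / 2) * S1 := by gcongr
      _ = 2 * (X : ℝ) ^ (ρ / 2 + (1 + ρ / 2 - η2)) := by
          rw [hS1, mul_assoc, ← Real.rpow_add hXp]
      _ ≤ 2 * W := by
          have := pw (ρ / 2 + (1 + ρ / 2 - η2)) (by linarith)
          linarith
  have m5 : (R : ℝ) * Ψ ≤ W := by
    calc (R : ℝ) * Ψ ≤ Y * Ψ := by gcongr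
      _ = (X : ℝ) ^ (ρ + (1 + ρ / 2 - η1)) := by rw [hY, hΨ, ← Real.rpow_add hXp]
      _ ≤ W := pw _ (by linarith)
  have hW0 : 0 ≤ W := by rw [hW]; positivity
  have hRB : (R : ℝ) ^ 2 * B ≤ 17 * Lg * W := by
    have e : (R : ℝ) ^ 2 * B = (R * X) * Lg + 4 * R ^ 5 + 6 * (R ^ 3 * H) * Lg + 2 * (√(2 * R) * S1) + 2 * (R * Ψ) := by
      rw [hB]
      field_simp
    rw [e]
    have a4 : 0 ≤ Lg := by linarith
    have t1 : (R * X) * Lg ≤ W * Lg := by gcongr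
    have t3 : 6 * (R ^ 3 * H) * Lg ≤ 6 * W * Lg := by gcongr
    have t5 : W ≤ Lg * W := by nlinarith
    nlinarith
  have hfin := hX3 X k3
  rw [← hLg] at hfin
  calc P2v v X H R ≤ C * (1 + Real.log R) ^ 3 * (R : ℝ) ^ 2 * B := hmain
    _ = C * (1 + Real.log R) ^ 3 * ((R : ℝ) ^ 2 * B) := by ring
    _ ≤ C * (1 + Real.log R) ^ 3 * (17 * Lg * W) := by gcongr
    _ ≤ C * Lg ^ 3 * (17 * Lg * W) := by
        have a4 : 0 ≤ Lg := by linarith
        gcongr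
    _ = C * 17 * Lg ^ 4 * W := by ring
    _ ≤ (X : ℝ) ^ (η0 / 2) * W := by gcongr
    _ = (X : ℝ) ^ (1 + 3 * ρ / 2 - η0 / 2) := by
        rw [hW, ← Real.rpow_add hXp]
        congr 1
        ring

end Pool.Agent.H24.EL
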