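import Pool.Agent.H24.EL.Fam
import Pool.Agent.H24.EL.Defs

/-!
# [H24 EL THV] weights: Abel summation

PROOF. `∑_{t < n ≤ T} v n a n = v T S T + ∑_{t < n < T} (v n - v (n+1)) S n`, `S n = ∑_{t < k ≤ n} a k`; `v` is antitone in `[0,1]`.
-/

set_option autoImplicit false

namespace Pool.Agent.H24.EL

open Finset Pool.Agent.H21.MT Pool.Agent.H67.VS Pool.Agent.H67.VU

theorem abel_v {ι : Type*} (s : Finset ι) (f : ι → ℕ → ℂ) (t T : ℕ) (htT : t ≤ T) (v : ℕ → ℝ) (hv : Wv v) (B : ℝ)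
    (hB : ∀ y, t ≤ y → y ≤ T → ∑ i ∈ s, ‖∑ n ∈ Ioc t y, f i n‖ ≤ B) :
    ∑ i ∈ s, ‖∑ n ∈ Ioc t T, ((v n : ℝ) : ℂ) * f i n‖ ≤ B := by
  have hB0 : 0 ≤ B := by
    have h := hB t le_rfl htT
    simpa using h
  have key : ∀ k : ℕ, t + k ≤ T → ∑ i ∈ s, ‖∑ n ∈ Ioc t (t + k), ((v n : ℝ) : ℂ) * f i n -
      ((v (t + k) : ℝ) : ℂ) * ∑ n ∈ Ioc t (t + k), f i n‖ ≤ (v t - v (t + k)) * B := by
    intro k
    induction k with
    | zero =>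
      intro _
      simp
    | succ k ih =>
      intro hk
      have h1 := ih (by omega)
      have h2 := hB (t + k) (by omega) (by omega)
      have hd : 0 ≤ v (t + k) - v (t + (k + 1)) := sub_nonneg.2 (hv.anti (by omega))
      have h3 : ∀ i ∈ s, ‖∑ n ∈ Ioc t (t + (k + 1)), ((v n : ℝ) : ℂ) * f i n -
          ((v (t + (k + 1)) : ℝ) : ℂ) * ∑ n ∈ Ioc t (t + (k + 1)), f i n‖ ≤
          ‖∑ n ∈ Ioc t (t + k), ((v n : ℝ) : ℂ) * f i n - ((v (t + k) : ℝ) : ℂ) * ∑ n ∈ Ioc t (t + k), f i n‖ +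
            (v (t + k) - v (t + (k + 1))) * ‖∑ n ∈ Ioc t (t + k), f i n‖ := by
        intro i _
        have e : ∀ g : ℕ → ℂ, ∑ n ∈ Ioc t (t + (k + 1)), g n = ∑ n ∈ Ioc t (t + k), g n + g (t + (k + 1)) := by
          intro g
          rw [← add_assoc, ← Nat.succ_eq_add_one (t + k), Finset.sum_Ioc_succ_top (by omega)]
        rw [e, e]
        have e2 : ∑ n ∈ Ioc t (t + k), ((v n : ℝ) : ℂ) * f i n + ((v (t + (k + 1)) : ℝ) : ℂ) * f i (t + (k + 1)) -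
            ((v (t + (k + 1)) : ℝ) : ℂ) * (∑ n ∈ Ioc t (t + k), f i n + f i (t + (k + 1))) =
            (∑ n ∈ Ioc t (t + k), ((v n : ℝ) : ℂ) * f i n - ((v (t + k) : ℝ) : ℂ) * ∑ n ∈ Ioc t (t + k), f i n) +
              ((v (t + k) - v (t + (k + 1)) : ℝ) : ℂ) * ∑ n ∈ Ioc t (t + k), f i n := by
          push_cast
          ring
        rw [e2]
        refine (norm_add_le _ _).trans ?_
        rw [norm_mul, Complex.norm_real, Real.norm_of_nonneg hd]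
      refine (Finset.sum_le_sum h3).trans ?_
      rw [Finset.sum_add_distrib, ← Finset.mul_sum]
      have h4 := mul_le_mul_of_nonneg_left h2 hd
      linarith
  obtain ⟨k, rfl⟩ := Nat.exists_eq_add_of_le htT
  have h1 := key k le_rfl
  have h2 := hB (t + k) (by omega) le_rfl
  have hv0 := hv.nonneg (t + k)
  have hv1 := hv.le_one t
  have h3 : ∀ i ∈ s, ‖∑ n ∈ Ioc t (t + k), ((v n : ℝ) : ℂ) * f i n‖ ≤
      ‖∑ n ∈ Ioc t (t + k), ((v n : ℝ) : ℂ) * f i n - ((v (t + k) : ℝ) : ℂ) * ∑ n ∈ Ioc t (t + k), f i n‖ +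
        v (t + k) * ‖∑ n ∈ Ioc t (t + k), f i n‖ := by
    intro i _
    have e : ∑ n ∈ Ioc t (t + k), ((v n : ℝ) : ℂ) * f i n =
        (∑ n ∈ Ioc t (t + k), ((v n : ℝ) : ℂ) * f i n - ((v (t + k) : ℝ) : ℂ) * ∑ n ∈ Ioc t (t + k), f i n) +
          ((v (t + k) : ℝ) : ℂ) * ∑ n ∈ Ioc t (t + k), f i n := by ring
    calc _ = ‖(∑ n ∈ Ioc t (t + k), ((v n : ℝ) : ℂ) * f i n - ((v (t + k) : ℝ) : ℂ) * ∑ n ∈ Ioc t (t + k), f i n) +
          ((v (t + k) : ℝ) : ℂ) * ∑ n ∈ Ioc t (t + k), f i n‖ := by rw [← e]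
      _ ≤ _ := by
        refine (norm_add_le _ _).trans ?_
        rw [norm_mul, Complex.norm_real, Real.norm_of_nonneg hv0]
  refine (Finset.sum_le_sum h3).trans ?_
  rw [Finset.sum_add_distrib, ← Finset.mul_sum]
  have h4 := mul_le_mul_of_nonneg_left h2 hv0
  have h5 := mul_le_mul_of_nonneg_right hv1 hB0
  nlinarith

theorem famv : ∃ C : ℝ, 0 < C ∧ ∀ (Q u t T : ℕ) (s : Finset (Ch Q)) (V W : ℝ) (v : ℕ → ℝ), Wv v → 1 ≤ u → u ^ 3 ≤ t → t ≤ T → Q ≤ t →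
    s ⊆ PC Q → 0 ≤ V → 0 ≤ W →
    (∀ (M N : ℕ) (a : ℕ → ℂ), u ≤ N → ∑ c ∈ s, ‖∑ n ∈ Ioc M (M + N), a n * c.2 (n : ZMod (c.1.val + 1))‖ ^ 2 ≤
      V * ((N : ℝ) + W * √(N : ℝ)) * ∑ n ∈ Ioc M (M + N), ‖a n‖ ^ 2) →
    ∑ c ∈ s, ‖ThC t T v c.2‖ ≤ C * (1 + Real.log T) ^ 5 *
      (V * ((T : ℝ) + √W * T / √(√(u : ℝ)) + W * (√(T : ℝ) * √(√(T : ℝ)))) + (s.card : ℝ) * (√(Q : ℝ) * u + √(T : ℝ))) := by
  obtain ⟨C, hC, h⟩ := fam
  refine ⟨C, hC, fun Q u t T s V W v hv hu hut htT hQt hs hV hW hls => ?_⟩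
  have e : ∀ c : Ch Q, ThC t T v c.2 = ∑ n ∈ Ioc t T, ((v n : ℝ) : ℂ) * (((pl n : ℝ) : ℂ) * c.2 (n : ZMod (c.1.val + 1))) := by
    intro c
    unfold ThC
    refine Finset.sum_congr rfl fun n _ => ?_
    push_cast
    ring
  simp_rw [e]
  refine abel_v s (fun c n => ((pl n : ℝ) : ℂ) * c.2 (n : ZMod (c.1.val + 1))) t T htT v hv _ fun y hy hyT => ?_
  have h1 := h Q u t y s V W hu hut hy (hQt.trans hy) hs hV hW hls
  have e1 : ∀ c : Ch Q, ThC t y onef c.2 = ∑ n ∈ Ioc t y, (((pl n : ℝ) : ℂ) * c.2 (n : ZMod (c.1.val + 1))) := by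
    intro c
    unfold ThC onef
    refine Finset.sum_congr rfl fun n _ => ?_
    rw [one_mul]
  simp_rw [e1] at h1
  refine h1.trans ?_
  have ht1 : 1 ≤ t := (Nat.one_le_pow 3 u hu).trans hut
  have hy1 : (1 : ℝ) ≤ y := by exact_mod_cast ht1.trans hy
  have hyT' : (y : ℝ) ≤ T := by exact_mod_cast hyT
  have hl : Real.log y ≤ Real.log T := Real.log_le_log (by linarith) hyT'
  have hl0 : 0 ≤ Real.log y := Real.log_nonneg hy1
  have s1 : √(y : ℝ) ≤ √(T : ℝ) := Real.sqrt_le_sqrt hyT'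
  have s2 : √(√(y : ℝ)) ≤ √(√(T : ℝ)) := Real.sqrt_le_sqrt s1
  gcongr

end Pool.Agent.H24.EL
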